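import Pool.Agent.GolodShaf.WeightK

/-!
# Weight of a subgroup with one more generator
-/

set_option linter.unusedSectionVars false
set_option linter.unusedVariables false
set_option linter.style.haveILetI false

namespace GolodShaf

open Module Submodule NSeries

lemma mul_mul_mem_span {k : Type*} [Field k] {A : Type*} [Ring A] [Algebra k A] {ι κ : Type*}
    (v : ι → A) (u : κ → A) (z : A) {x y : A} (hx : x ∈ span k (Set.range v))
    (hy : y ∈ span k (Set.range u)) :
    x * z * y ∈ span k (Set.range (fun a : ι × κ => v a.1 * z * u a.2)) := by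
  induction hx using Submodule.span_induction with
  | mem x hx =>
    obtain ⟨i, rfl⟩ := hx
    induction hy using Submodule.span_induction with
    | mem y hy =>
      obtain ⟨j, rfl⟩ := hy
      exact Submodule.subset_span ⟨(i, j), rfl⟩
    | zero => simp
    | add x y _ _ hx hy => rw [mul_add]; exact add_mem hx hy
    | smul a x _ hx => rw [mul_smul_comm]; exact Submodule.smul_mem _ _ hx
  | zero => simp
  | add x y _ _ hx hy => rw [add_mul, add_mul]; exact add_mem hx hy
  | smul a x _ hx => rw [smul_mul_assoc, smul_mul_assoc]; exact Submodule.smul_mem _ _ hx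

variable {p : ℕ} [Fact p.Prime] {Γ : Type*} [Group Γ] [Finite Γ] {S : NSeries p Γ}

/-- adapted generating family of `E K 0`. -/
lemma exists_adapted_E {t : ℝ} (ht0 : 0 < t) (ht1 : t < 1) (hG : IsPGroup p Γ) {N : ℕ}
    (hN : S.D N = ⊥) (K : Subgroup Γ) :
    ∃ (r : ℕ) (v : Fin r → MonoidAlgebra (ZMod p) Γ) (m : Fin r → ℕ), (∀ i, v i ∈ S.E K (m i)) ∧
      S.E K 0 = span (ZMod p) (Set.range v) ∧ ∑ i, t ^ (m i) ≤ wK t S K := by
  obtain ⟨M, hM⟩ := E_bot_of_large hG hN (S := S)
  obtain ⟨r, v, m, hv, hS, hsum⟩ := exists_adapted (S.E ⊤) E_anti ht0 ht1 (E_top_zero S)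
    (N := M) (S := S.E K 0) (T := ⊥) bot_le (by rw [hM, inf_bot_eq])
  refine ⟨r, v, m, fun i => ?_, ?_, ?_⟩
  · have := hv i
    rwa [E_eq_inf hG hN le_top] at this
  · rwa [bot_sup_eq] at hS
  · rwa [w_bot, sub_zero] at hsum

lemma E_zero_le_adjoin (K : Subgroup Γ) (h : Γ) :
    S.E (K ⊔ Subgroup.zpowers h) 0 ≤ S.E K 0 ⊔
      span (ZMod p) {z | ∃ x ∈ S.E K 0, ∃ y ∈ S.E (K ⊔ Subgroup.zpowers h) 0,
        z = x * (gr p h - 1) * y} := by
  set K₂ := K ⊔ Subgroup.zpowers h with hK₂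
  have hKle : K ≤ K₂ := le_sup_left
  have hh : h ∈ K₂ := (le_sup_right : Subgroup.zpowers h ≤ K₂) (Subgroup.mem_zpowers h)
  set T := span (ZMod p) {z | ∃ x ∈ S.E K 0, ∃ y ∈ S.E K₂ 0, z = x * (gr p h - 1) * y} with hT
  have hT2 : T ≤ S.E K₂ 0 := by
    apply Submodule.span_le.mpr
    rintro z ⟨x, hx, y, hy, rfl⟩
    apply mul_mem_E_left _ hy
    exact mul_mem_E_left (E_mono hKle 0 hx) (of_sub_one_mem_E hh (S.mem_zero h))
  have hR2 : S.E K 0 ⊔ T ≤ S.E K₂ 0 := sup_le (E_mono hKle 0) hT2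
  -- closure under multiplication by K
  have hmulK : ∀ g ∈ K, ∀ a ∈ S.E K 0 ⊔ T, gr p g * a ∈ S.E K 0 ⊔ T := by
    intro g hg a ha
    obtain ⟨a₀, ha₀, b, hb, rfl⟩ := Submodule.mem_sup.mp ha
    rw [mul_add]
    apply add_mem
    · exact Submodule.mem_sup_left (mul_mem_E_left (of_mem_E hg) ha₀)
    · apply Submodule.mem_sup_right
      clear ha
      induction hb using Submodule.span_induction with
      | mem x hx =>
        obtain ⟨x, hx, y, hy, rfl⟩ := hx
        exact Submodule.subset_span ⟨gr p g * x, mul_mem_E_left (of_mem_E hg) hx, y, hy,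
          by simp only [mul_assoc]⟩
      | zero => simp
      | add x y _ _ hx hy => rw [mul_add]; exact add_mem hx hy
      | smul a x _ hx => rw [mul_smul_comm]; exact Submodule.smul_mem _ _ hx
  have hmulh : ∀ a ∈ S.E K 0 ⊔ T, gr p h * a ∈ S.E K 0 ⊔ T := by
    intro a ha
    have e : gr p h * a = a + 1 * (gr p h - 1) * a := by
      rw [one_mul, sub_mul, one_mul]; abel
    rw [e]
    exact add_mem ha (Submodule.mem_sup_right (Submodule.subset_span
      ⟨1, one_mem_E, a, hR2 ha, rfl⟩))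
  have hmulhi : ∀ a ∈ S.E K 0 ⊔ T, gr p h⁻¹ * a ∈ S.E K 0 ⊔ T := by
    intro a ha
    have e : gr p h⁻¹ * a = a - 1 * (gr p h - 1) * (gr p h⁻¹ * a) := by
      rw [one_mul, sub_mul, one_mul, ← mul_assoc, gr_mul_inv, one_mul]; abel
    rw [e]
    exact sub_mem ha (Submodule.mem_sup_right (Submodule.subset_span
      ⟨1, one_mem_E, gr p h⁻¹ * a, mul_mem_E_left (of_mem_E (K₂.inv_mem hh)) (hR2 ha), rfl⟩))
  -- all group elements
  have hcl : K₂ = Subgroup.closure ((K : Set Γ) ∪ {h}) := by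
    rw [Subgroup.closure_union, Subgroup.closure_eq, ← Subgroup.zpowers_eq_closure]
  have hall : ∀ g ∈ K₂, gr p g ∈ S.E K 0 ⊔ T := by
    intro g hg
    rw [hcl] at hg
    induction hg using Subgroup.closure_induction_left with
    | one => rw [map_one]; exact Submodule.mem_sup_left one_mem_E
    | mul_left x hx y _ ih =>
      rw [map_mul]
      rcases hx with hx | hx
      · exact hmulK x hx _ ih
      · rw [Set.mem_singleton_iff] at hx
        subst hx
        exact hmulh _ ih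
    | inv_mul_cancel x hx y _ ih =>
      rw [map_mul]
      rcases hx with hx | hx
      · exact hmulK x⁻¹ (K.inv_mem hx) _ ih
      · rw [Set.mem_singleton_iff] at hx
        subst hx
        exact hmulhi _ ih
  rw [E_zero_eq (K := K₂)]
  apply Submodule.span_le.mpr
  rintro z ⟨g, hg, rfl⟩
  exact hall g hg

/-- `w(<K,h>) ≤ w(K) + w(K) t^ν w(<K,h>)`. -/
theorem wK_adjoin_le {t : ℝ} (ht0 : 0 < t) (ht1 : t < 1) (hG : IsPGroup p Γ) {N : ℕ}
    (hN : S.D N = ⊥) (K : Subgroup Γ) {h : Γ} {ν : ℕ} (hν : h ∈ S.D ν) :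
    wK t S (K ⊔ Subgroup.zpowers h) ≤
      wK t S K + wK t S K * t ^ ν * wK t S (K ⊔ Subgroup.zpowers h) := by
  set K₂ := K ⊔ Subgroup.zpowers h with hK₂
  have hKle : K ≤ K₂ := le_sup_left
  have hh : h ∈ K₂ := (le_sup_right : Subgroup.zpowers h ≤ K₂) (Subgroup.mem_zpowers h)
  obtain ⟨r, v, m, hv, hvS, hvsum⟩ := exists_adapted_E ht0 ht1 hG hN K
  obtain ⟨r', u, m', hu, huS, husum⟩ := exists_adapted_E ht0 ht1 hG hN K₂
  have h1 := w_le_of_le_sup_span (S.E ⊤) E_anti ht0 ht1 (S := S.E K₂ 0) (T := S.E K 0)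
    (fun a : Fin r × Fin r' => v a.1 * (gr p h - 1) * u a.2) (fun a => m a.1 + ν + m' a.2) (by
      rintro ⟨i, j⟩
      apply Submodule.mem_sup_right
      exact mul_mem_E (mul_mem_E (E_mono le_top _ (hv i)) (of_sub_one_mem_E trivial hν))
        (E_mono le_top _ (hu j))) (by
      refine (E_zero_le_adjoin K h).trans ?_
      apply sup_le_sup_left
      apply Submodule.span_le.mpr
      rintro z ⟨x, hx, y, hy, rfl⟩
      rw [hvS] at hx
      rw [huS] at hy
      exact mul_mul_mem_span v u _ hx hy)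
  have h2 : ∑ a : Fin r × Fin r', t ^ (m a.1 + ν + m' a.2) =
      (∑ i, t ^ (m i)) * t ^ ν * ∑ j, t ^ (m' j) := by
    rw [Fintype.sum_prod_type, Finset.sum_mul, Finset.sum_mul]
    refine Finset.sum_congr rfl (fun i _ => ?_)
    rw [Finset.mul_sum]
    refine Finset.sum_congr rfl (fun j _ => ?_)
    rw [pow_add, pow_add]
  rw [h2] at h1
  have h3 : (∑ i, t ^ (m i)) * t ^ ν * ∑ j, t ^ (m' j) ≤ wK t S K * t ^ ν * wK t S K₂ := by
    apply mul_le_mul _ husum (Finset.sum_nonneg (fun _ _ => by positivity))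
      (mul_nonneg (wK_nonneg ht0 ht1) (by positivity))
    exact mul_le_mul_of_nonneg_right hvsum (by positivity)
  unfold wK at *
  linarith

end GolodShaf
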