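import Pool.Agent.GolodShaf.NSeries

/-!
# Powers of the augmentation ideal
-/

set_option linter.unusedSectionVars false
set_option linter.unusedVariables false
set_option linter.style.haveILetI false

namespace GolodShaf

open Module Submodule NSeries

/-- The `n`-th power of the augmentation ideal of `F_p[Γ]`: the span of all products of at least `n`
elements `g - 1`, `g ∈ Γ` (so it is the whole group algebra for `n = 0`). -/
noncomputable def augPow (p : ℕ) (Γ : Type*) [Group Γ] (n : ℕ) :
    Submodule (ZMod p) (MonoidAlgebra (ZMod p) Γ) :=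
  Submodule.span (ZMod p) {z | ∃ l : List Γ, n ≤ l.length ∧
    z = (l.map (fun g => gr p g - 1)).prod}

section

variable {p : ℕ} {Γ : Type*} [Group Γ]

lemma augPow_anti : Antitone (augPow p Γ) := by
  intro m n hmn
  apply Submodule.span_mono
  rintro z ⟨l, hl, rfl⟩
  exact ⟨l, hmn.trans hl, rfl⟩

lemma prod_mem_augPow (l : List Γ) {n : ℕ} (h : n ≤ l.length) :
    (l.map (fun g => gr p g - 1)).prod ∈ augPow p Γ n :=
  Submodule.subset_span ⟨l, h, rfl⟩

lemma one_mem_augPow : (1 : MonoidAlgebra (ZMod p) Γ) ∈ augPow p Γ 0 := by
  simpa using prod_mem_augPow (p := p) (Γ := Γ) [] (n := 0) (by simp)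

lemma sub_one_mem_augPow (g : Γ) : gr p g - 1 ∈ augPow p Γ 1 := by
  simpa using prod_mem_augPow (p := p) [g] (n := 1) (by simp)

lemma augPow_mul {m n : ℕ} {x y : MonoidAlgebra (ZMod p) Γ} (hx : x ∈ augPow p Γ m)
    (hy : y ∈ augPow p Γ n) : x * y ∈ augPow p Γ (m + n) := by
  unfold augPow at hx hy
  induction hx using Submodule.span_induction with
  | mem x hx =>
    obtain ⟨l, hm, rfl⟩ := hx
    induction hy using Submodule.span_induction with
    | mem y hy =>
      obtain ⟨l', hn, rfl⟩ := hy
      rw [← List.prod_append, ← List.map_append]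
      apply prod_mem_augPow
      rw [List.length_append]
      omega
    | zero => simp
    | add x y _ _ hx hy => rw [mul_add]; exact add_mem hx hy
    | smul a x _ hx => rw [mul_smul_comm]; exact Submodule.smul_mem _ _ hx
  | zero => simp
  | add x y _ _ hx hy => rw [add_mul]; exact add_mem hx hy
  | smul a x _ hx => rw [smul_mul_assoc]; exact Submodule.smul_mem _ _ hx

lemma augPow_zero : augPow p Γ 0 = ⊤ := by
  rw [eq_top_iff, ← span_gr]
  apply Submodule.span_le.mpr
  rintro _ ⟨g, rfl⟩
  have h1 := augPow_anti (by omega : 0 ≤ 1) (sub_one_mem_augPow (p := p) g)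
  have := add_mem h1 one_mem_augPow
  simpa using this

lemma augPow_mul_left {n : ℕ} {x y : MonoidAlgebra (ZMod p) Γ} (hy : y ∈ augPow p Γ n) :
    x * y ∈ augPow p Γ n := by
  have hx : x ∈ augPow p Γ 0 := by rw [augPow_zero]; trivial
  simpa using augPow_mul hx hy

lemma augPow_mul_right {n : ℕ} {x y : MonoidAlgebra (ZMod p) Γ} (hx : x ∈ augPow p Γ n) :
    x * y ∈ augPow p Γ n := by
  have hy : y ∈ augPow p Γ 0 := by rw [augPow_zero]; trivial
  simpa using augPow_mul hx hy

/-- the map of group algebras induced by a homomorphism -/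
noncomputable def grMap {p : ℕ} {Γ Γ₁ : Type*} [Group Γ] [Group Γ₁] (f : Γ →* Γ₁) :
    MonoidAlgebra (ZMod p) Γ →ₐ[ZMod p] MonoidAlgebra (ZMod p) Γ₁ :=
  MonoidAlgebra.mapDomainAlgHom (ZMod p) (ZMod p) f

variable {Γ₁ : Type*} [Group Γ₁]

lemma grMap_gr (f : Γ →* Γ₁) (g : Γ) : grMap f (gr p g) = gr p (f g) := by
  simp [grMap, gr_apply]

lemma grMap_augPow (f : Γ →* Γ₁) {n : ℕ} {x : MonoidAlgebra (ZMod p) Γ}
    (hx : x ∈ augPow p Γ n) : grMap f x ∈ augPow p Γ₁ n := by
  unfold augPow at hx
  induction hx using Submodule.span_induction with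
  | mem x hx =>
    obtain ⟨l, hm, rfl⟩ := hx
    rw [map_list_prod, List.map_map]
    have : (⇑(grMap (p := p) f) ∘ fun a : Γ => gr p a - 1) =
        ((fun a : Γ₁ => gr p a - 1) ∘ f) := by
      funext a
      simp [grMap_gr]
    rw [this, ← List.map_map]
    apply prod_mem_augPow
    simpa using hm
  | zero => simp
  | add x y _ _ hx hy => rw [map_add]; exact add_mem hx hy
  | smul a x _ hx => rw [map_smul]; exact Submodule.smul_mem _ _ hx

lemma exists_lift_augPow (f : Γ →* Γ₁) (hf : Function.Surjective f) {n : ℕ}
    {y : MonoidAlgebra (ZMod p) Γ₁} (hy : y ∈ augPow p Γ₁ n) :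
    ∃ x ∈ augPow p Γ n, grMap f x = y := by
  unfold augPow at hy
  induction hy using Submodule.span_induction with
  | mem y hy =>
    obtain ⟨l, hm, rfl⟩ := hy
    obtain ⟨l', rfl⟩ : ∃ l' : List Γ, l = l'.map f := by
      clear hm
      induction l with
      | nil => exact ⟨[], rfl⟩
      | cons a l ih =>
        obtain ⟨l', rfl⟩ := ih
        obtain ⟨b, rfl⟩ := hf a
        exact ⟨b :: l', rfl⟩
    refine ⟨_, prod_mem_augPow l' (by simpa using hm), ?_⟩
    rw [map_list_prod, List.map_map, List.map_map]
    congr 2
    funext a
    simp [grMap_gr]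
  | zero => exact ⟨0, zero_mem _, map_zero _⟩
  | add x y _ _ hx hy =>
    obtain ⟨a, ha, rfl⟩ := hx
    obtain ⟨b, hb, rfl⟩ := hy
    exact ⟨a + b, add_mem ha hb, map_add _ _ _⟩
  | smul r x _ hx =>
    obtain ⟨a, ha, rfl⟩ := hx
    exact ⟨r • a, Submodule.smul_mem _ _ ha, map_smul _ _ _⟩

/-- the augmentation -/
noncomputable def aug (p : ℕ) (Γ : Type*) [Group Γ] : MonoidAlgebra (ZMod p) Γ →ₐ[ZMod p] ZMod p :=
  MonoidAlgebra.lift (ZMod p) (ZMod p) Γ 1

@[simp] lemma aug_gr (g : Γ) : aug p Γ (gr p g) = 1 := by
  simp [aug, gr_apply]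

lemma aug_eq_zero_of_mem {x : MonoidAlgebra (ZMod p) Γ} (hx : x ∈ augPow p Γ 1) :
    aug p Γ x = 0 := by
  unfold augPow at hx
  induction hx using Submodule.span_induction with
  | mem x hx =>
    obtain ⟨l, hm, rfl⟩ := hx
    cases l with
    | nil => simp at hm
    | cons a l => simp
  | zero => simp
  | add x y _ _ hx hy => rw [map_add, hx, hy, add_zero]
  | smul a x _ hx => rw [map_smul, hx, smul_zero]

lemma mem_augPow_one_iff {x : MonoidAlgebra (ZMod p) Γ} : x ∈ augPow p Γ 1 ↔ aug p Γ x = 0 := by
  constructor
  · exact aug_eq_zero_of_mem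
  · intro h
    -- x = x - aug x • 1
    have key : ∀ x : MonoidAlgebra (ZMod p) Γ, x - (aug p Γ x) • (1 : MonoidAlgebra (ZMod p) Γ) ∈
        augPow p Γ 1 := by
      intro x
      have hx : x ∈ Submodule.span (ZMod p) (Set.range (gr p : Γ → MonoidAlgebra (ZMod p) Γ)) := by
        rw [span_gr]; trivial
      induction hx using Submodule.span_induction with
      | mem x hx =>
        obtain ⟨g, rfl⟩ := hx
        rw [aug_gr, one_smul]
        exact sub_one_mem_augPow g
      | zero => simp
      | add x y _ _ hx hy =>
        have := add_mem hx hy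
        rw [map_add, add_smul]
        convert this using 1
        abel
      | smul a x _ hx =>
        have := Submodule.smul_mem _ a hx
        rw [map_smul, smul_eq_mul, mul_smul]
        rwa [smul_sub] at this
    have := key x
    rwa [h, zero_smul, sub_zero] at this

end

/-- the augmentation ideal of a finite `p`-group is nilpotent -/
theorem augPow_nilpotent {p : ℕ} [Fact p.Prime] {Γ : Type*} [Group Γ] [Finite Γ]
    (hG : IsPGroup p Γ) : ∃ N, augPow p Γ N = ⊥ := by
  have hp : p.Prime := Fact.out
  induction hc : Nat.card Γ using Nat.strong_induction_on generalizing Γ with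
  | _ c ih =>
    rcases subsingleton_or_nontrivial Γ with hs | hs
    · refine ⟨1, ?_⟩
      rw [eq_bot_iff]
      apply Submodule.span_le.mpr
      rintro z ⟨l, hl, rfl⟩
      cases l with
      | nil => simp at hl
      | cons a l =>
        have : a = 1 := Subsingleton.elim _ _
        simp [this]
    · -- central element of order p
      have hnt : Nontrivial (Subgroup.center Γ) := hG.center_nontrivial
      obtain ⟨m, hm⟩ := IsPGroup.iff_card.mp (hG.to_subgroup (Subgroup.center Γ))
      have hm0 : m ≠ 0 := by
        rintro rfl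
        rw [pow_zero] at hm
        have := Finite.one_lt_card (α := Subgroup.center Γ)
        omega
      obtain ⟨z, hz⟩ := exists_prime_orderOf_dvd_card' (G := Subgroup.center Γ) p
        (by rw [hm]; exact dvd_pow_self p hm0)
      set z' : Γ := (z : Γ) with hz'
      have hzc : ∀ g : Γ, g * z' = z' * g := fun g => (Subgroup.mem_center_iff.mp z.2 g)
      have hzp : z' ^ p = 1 := by
        have : z ^ p = 1 := by rw [← hz]; exact pow_orderOf_eq_one z
        have h2 := congrArg Subtype.val this
        simpa using h2
      have hz1 : z' ≠ 1 := by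
        intro h
        have : z = 1 := Subtype.ext h
        rw [this, orderOf_one] at hz
        exact hp.one_lt.ne hz
      let Z := Subgroup.zpowers z'
      have hZn : Z.Normal := by
        refine ⟨fun x hx g => ?_⟩
        obtain ⟨i, rfl⟩ := hx
        have : g * z' ^ i * g⁻¹ = z' ^ i := by
          have h1 : Commute g z' := hzc g
          have h2 : g * z' ^ i = z' ^ i * g := (h1.zpow_right i)
          rw [h2]; group
        simp only [this]
        exact ⟨i, rfl⟩
      have hcard : Nat.card (Γ ⧸ Z) < c := by
        rw [← hc, Subgroup.card_eq_card_quotient_mul_card_subgroup Z]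
        have h1 : 0 < Nat.card (Γ ⧸ Z) := Nat.card_pos
        have h2 : 1 < Nat.card Z := by
          have : Nontrivial Z := by
            refine ⟨⟨⟨z', Subgroup.mem_zpowers z'⟩, 1, ?_⟩⟩
            intro h
            exact hz1 (congrArg Subtype.val h)
          exact Finite.one_lt_card
        nlinarith
      obtain ⟨N, hN⟩ := ih _ hcard (hG.to_quotient Z) rfl
      -- kernel of the map to the quotient
      set f : Γ →* Γ ⧸ Z := QuotientGroup.mk' Z with hf
      have hker : ∀ x : MonoidAlgebra (ZMod p) Γ, grMap f x = 0 →
          ∃ y, x = (gr p z' - 1) * y := by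
        -- choose a transversal
        intro x hx
        have h1 : ∀ x : MonoidAlgebra (ZMod p) Γ, ∃ y, x - (Finsupp.linearCombination (ZMod p)
            (fun q : Γ ⧸ Z => gr p q.out)) ((MonoidAlgebra.basis (Γ ⧸ Z) (ZMod p)).repr (grMap f x))
            = (gr p z' - 1) * y := by
          intro x
          have hx : x ∈ Submodule.span (ZMod p) (Set.range (gr p : Γ → MonoidAlgebra (ZMod p) Γ)) := by
            rw [span_gr]; trivial
          induction hx using Submodule.span_induction with
          | mem x hx =>
            obtain ⟨g, rfl⟩ := hx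
            rw [grMap_gr]
            have e1 : (MonoidAlgebra.basis (Γ ⧸ Z) (ZMod p)).repr (gr p (f g)) =
                Finsupp.single (f g) 1 := by
              have : gr p (f g) = MonoidAlgebra.basis (Γ ⧸ Z) (ZMod p) (f g) := by
                rw [MonoidAlgebra.basis_apply, gr_apply]
              rw [this, Module.Basis.repr_self]
            rw [e1, Finsupp.linearCombination_single, one_smul]
            -- g = z^i * out
            have h2 : (f g).out⁻¹ * g ∈ Z := by
              rw [← QuotientGroup.eq]
              exact QuotientGroup.out_eq' _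
            obtain ⟨i, hi⟩ := h2
            simp only at hi
            have h3 : g = z' ^ i * (f g).out := by
              have h4 : (f g).out * z' ^ i = z' ^ i * (f g).out :=
                (show Commute (f g).out z' from hzc _).zpow_right i
              rw [← h4, hi]; group
            have h5 : ∀ i : ℤ, ∃ y : MonoidAlgebra (ZMod p) Γ, gr p (z' ^ i) - 1 = (gr p z' - 1) * y := by
              have h6 : ∀ i : ℕ, ∃ y : MonoidAlgebra (ZMod p) Γ,
                  gr p (z' ^ i) - 1 = (gr p z' - 1) * y := by
                intro i
                induction i with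
                | zero => exact ⟨0, by simp⟩
                | succ i ih =>
                  obtain ⟨y, hy⟩ := ih
                  refine ⟨gr p (z' ^ i) + y, ?_⟩
                  rw [mul_add, ← hy, sub_mul, one_mul, ← map_mul, ← pow_succ']
                  abel
              intro i
              have h7 : z' ^ i = z' ^ (i % p).toNat := by
                have h8 : z' ^ (i % p).toNat = z' ^ ((i % p).toNat : ℤ) := (zpow_natCast _ _).symm
                rw [h8, Int.toNat_of_nonneg (Int.emod_nonneg _ (by exact_mod_cast hp.ne_zero))]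
                conv_lhs => rw [← Int.emod_add_mul_ediv i p]
                rw [zpow_add, zpow_mul, zpow_natCast, hzp, one_zpow, mul_one]
              rw [h7]
              exact h6 _
            obtain ⟨y, hy⟩ := h5 i
            refine ⟨y * gr p (f g).out, ?_⟩
            rw [← mul_assoc, ← hy, sub_mul, one_mul, ← map_mul, ← h3]
          | zero => exact ⟨0, by simp⟩
          | add x y _ _ hx hy =>
            obtain ⟨a, ha⟩ := hx
            obtain ⟨b, hb⟩ := hy
            refine ⟨a + b, ?_⟩
            rw [mul_add, ← ha, ← hb, map_add, map_add, map_add]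
            abel
          | smul r x _ hx =>
            obtain ⟨a, ha⟩ := hx
            refine ⟨r • a, ?_⟩
            rw [mul_smul_comm, ← ha, map_smul, map_smul, map_smul, smul_sub]
        obtain ⟨y, hy⟩ := h1 x
        rw [hx, map_zero, map_zero, sub_zero] at hy
        exact ⟨y, hy⟩
      have hzcomm : ∀ x : MonoidAlgebra (ZMod p) Γ, x * (gr p z' - 1) = (gr p z' - 1) * x := by
        intro x
        have hx : x ∈ Submodule.span (ZMod p) (Set.range (gr p : Γ → MonoidAlgebra (ZMod p) Γ)) := by
          rw [span_gr]; trivial
        induction hx using Submodule.span_induction with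
        | mem x hx =>
          obtain ⟨g, rfl⟩ := hx
          rw [mul_sub, sub_mul, ← map_mul, ← map_mul, hzc g, mul_one, one_mul]
        | zero => simp
        | add x y _ _ hx hy => rw [add_mul, mul_add, hx, hy]
        | smul a x _ hx => rw [smul_mul_assoc, mul_smul_comm, hx]
      have hNle : ∀ x ∈ augPow p Γ N, ∃ y, x = (gr p z' - 1) * y := by
        intro x hx
        apply hker
        have := grMap_augPow f hx
        rw [hN] at this
        simpa using this
      have hpow : ∀ j : ℕ, ∀ x ∈ augPow p Γ (N * j), ∃ y, x = (gr p z' - 1) ^ j * y := by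
        intro j
        induction j with
        | zero => intro x _; exact ⟨x, by simp⟩
        | succ j ihj =>
          intro x hx
          unfold augPow at hx
          induction hx using Submodule.span_induction with
          | mem x hx =>
            obtain ⟨l, hl, rfl⟩ := hx
            have e1 : l = l.take (N * j) ++ l.drop (N * j) := (List.take_append_drop _ _).symm
            rw [e1, List.map_append, List.prod_append]
            obtain ⟨y1, hy1⟩ := ihj _ (prod_mem_augPow (p := p) (l.take (N * j)) (by
              rw [List.length_take]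
              have : N * (j + 1) = N * j + N := by ring
              omega))
            obtain ⟨y2, hy2⟩ := hNle _ (prod_mem_augPow (p := p) (l.drop (N * j)) (by
              rw [List.length_drop]
              have : N * (j + 1) = N * j + N := by ring
              omega))
            refine ⟨y1 * y2, ?_⟩
            rw [hy1, hy2, pow_succ]
            rw [mul_assoc, ← mul_assoc y1, hzcomm y1]
            simp only [mul_assoc]
          | zero => exact ⟨0, by simp⟩
          | add x y _ _ hx hy =>
            obtain ⟨a, ha⟩ := hx
            obtain ⟨b, hb⟩ := hy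
            exact ⟨a + b, by rw [mul_add, ← ha, ← hb]⟩
          | smul r x _ hx =>
            obtain ⟨a, ha⟩ := hx
            exact ⟨r • a, by rw [mul_smul_comm, ← ha]⟩
      refine ⟨N * p, ?_⟩
      rw [eq_bot_iff]
      intro x hx
      obtain ⟨y, rfl⟩ := hpow p x hx
      rw [sub_one_pow_p, hzp, map_one, sub_self, zero_mul]
      exact zero_mem _

/-- If the N-series `S` satisfies `g ∈ D n → g - 1 ∈ augPow n` then `E ⊤ n = augPow n`. -/
lemma E_top_eq_augPow {p : ℕ} {Γ : Type*} [Group Γ] (S : NSeries p Γ)
    (hS : ∀ n g, g ∈ S.D n → gr p g - 1 ∈ augPow p Γ n) (n : ℕ) : S.E ⊤ n = augPow p Γ n := by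
  apply le_antisymm
  · apply Submodule.span_le.mpr
    rintro z ⟨l, hl, hn, rfl⟩
    have key : ∀ l : List (Γ × ℕ), (∀ a ∈ l, a.1 ∈ (⊤ : Subgroup Γ) ∧ a.1 ∈ S.D a.2) →
        (l.map (fun a => gr p a.1 - 1)).prod ∈ augPow p Γ (l.map Prod.snd).sum := by
      intro l
      induction l with
      | nil => intro _; simpa using one_mem_augPow
      | cons a l ih =>
        intro hl
        simp only [List.map_cons, List.prod_cons, List.sum_cons]
        exact augPow_mul (hS _ _ (hl a List.mem_cons_self).2)
          (ih (fun b hb => hl b (List.mem_cons_of_mem _ hb)))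
    exact augPow_anti hn (key l hl)
  · apply Submodule.span_le.mpr
    rintro z ⟨l, hl, rfl⟩
    have := prod_mem_E (S := S) (K := ⊤) (n := n) (l.map (fun g => (g, 1))) (by
      intro a ha
      obtain ⟨b, hb, rfl⟩ := List.mem_map.mp ha
      exact ⟨trivial, S.mem_one b⟩) (by
      rw [List.map_map]
      have : (Prod.snd ∘ fun g : Γ => (g, 1)) = fun _ => 1 := rfl
      rw [this]
      simpa using hl)
    rw [List.map_map] at this
    exact this

end GolodShaf
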