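import Pool.Agent.GolodShaf.Lift

/-!
# Selection of a block of generators
-/

set_option linter.unusedSectionVars false
set_option linter.unusedVariables false
set_option linter.style.haveILetI false

namespace GolodShaf

open Module Submodule NSeries

/-- greedy block lemma -/
lemma block_lemma (L : ℕ) (G g : ℕ → ℝ) (hG : Monotone G) (hg : Monotone g)
    (hstep : ∀ j < L, G (j + 1) - G j ≤ 1) {Y g₀ : ℝ} (hY : 0 ≤ Y) (hg₀ : 0 ≤ g₀)
    (hbig : g L - g 0 < g₀ * ((G L - G 0) / (Y + 1) - 1)) :
    ∃ a b, a ≤ b ∧ b ≤ L ∧ Y ≤ G b - G a ∧ g b - g a ≤ g₀ := by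
  by_contra hcon
  push Not at hcon
  have hY1 : 0 < Y + 1 := by linarith
  have key : ∀ j ≤ L, g₀ * ((G j - G 0) / (Y + 1) - 1) ≤ g j - g 0 := by
    intro j
    induction j using Nat.strong_induction_on with
    | _ j ih =>
      intro hj
      by_cases hsmall : G j - G 0 < Y + 1
      · have h1 : (G j - G 0) / (Y + 1) - 1 ≤ 0 := by
          rw [sub_nonpos, div_le_one hY1]
          exact hsmall.le
        have h2 := hg (Nat.zero_le j)
        have h3 := mul_nonpos_of_nonneg_of_nonpos hg₀ h1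
        linarith
      · push Not at hsmall
        -- largest a with G j - G a ≥ Y
        have hex : ∃ a, ¬ (Y ≤ G j - G (a + 1)) ∨ a + 1 = j := by
          refine ⟨j - 1, Or.inr ?_⟩
          have : j ≠ 0 := by
            rintro rfl
            simp at hsmall
            linarith
          omega
        classical
        set a := Nat.find hex with ha
        have haj : a < j := by
          have h1 := Nat.find_min' hex (m := j - 1) (Or.inr (by
            have : j ≠ 0 := by
              rintro rfl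
              simp at hsmall
              linarith
            omega))
          have : j ≠ 0 := by
            rintro rfl
            simp at hsmall
            linarith
          omega
        have hYa : Y ≤ G j - G a := by
          rcases Nat.eq_zero_or_pos a with h0 | h0
          · rw [h0]; linarith
          · have h1 := Nat.find_min hex (m := a - 1) (by omega)
            push Not at h1
            have h2 := h1.1
            have h3 : a - 1 + 1 = a := by omega
            rwa [h3] at h2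
        have hYa1 : G j - G a < Y + 1 ∨ a + 1 = j := by
          have h1 := Nat.find_spec hex
          rw [← ha] at h1
          rcases h1 with h1 | h1
          · left
            push Not at h1
            have := hstep a (by omega)
            linarith
          · exact Or.inr h1
        have hYa2 : G j - G a ≤ Y + 1 := by
          rcases hYa1 with h | h
          · exact h.le
          · have := hstep a (by omega)
            rw [h] at this
            linarith
        have h1 := hcon a j haj.le hj hYa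
        have h2 := ih a haj (haj.le.trans hj)
        have h3 : g₀ * ((G j - G 0) / (Y + 1) - 1) ≤ g₀ * ((G a - G 0) / (Y + 1) - 1) + g₀ := by
          have h4 : (G j - G 0) / (Y + 1) ≤ (G a - G 0) / (Y + 1) + 1 := by
            rw [div_add_one hY1.ne', div_le_div_iff_of_pos_right hY1]
            linarith
          nlinarith
        linarith
  have := key L le_rfl
  linarith

variable {p : ℕ} [Fact p.Prime] {F : Type*} [Group F] {X : Type*} [Fintype X] [DecidableEq X]
  {x : X → F} {Op : Set (Subgroup F)}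

/-- generators of the relation module with controlled degrees -/
theorem exists_generators (hsys : FoxSys p x Op) {t : ℝ} (ht0 : 0 < t) (ht1 : t < 1)
    {N V : Subgroup F} [N.Normal] [V.Normal] (hV : V ∈ Op) (hNV : N ≤ V) {D : FoxDer p x V}
    (hD : D.Cont Op) (s : Finset F) {κ : ℝ} (hκ : 1 ≤ κ)
    (hK1 : κ / 2 ≤ wK t (QS p Op V) ((Subgroup.closure (s : Set F)).map (QuotientGroup.mk' V)))
    (hK2 : wK t (QS p Op V) ((Subgroup.closure (s : Set F)).map (QuotientGroup.mk' V)) ≤ κ)
    {n₀ : ℕ} (hdeep : V ≤ DF p Op n₀ ⊔ N) :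
    ∃ (L : ℕ) (r : ℕ → F) (n : ℕ → ℕ), (∀ i < L, r i ∈ V) ∧ (∀ i < L, r i ∈ DF p Op (n i)) ∧
      (∀ i < L, n₀ ≤ n i) ∧
      ∑ i ∈ Finset.range L, t ^ (n i) ≤
        Fintype.card X * t * (wK t (QS p Op V) ⊤ * (2 / κ)) + s.card * κ ∧
      D.M ≤ D.im N ⊔ span (ZMod p) {d | ∃ g ∈ Subgroup.closure (s : Set F), ∃ i < L,
        d = gr p (QuotientGroup.mk g : F ⧸ V) • D.d (r i)} := by
  classical
  haveI := hsys.finite V hV
  have hG := hsys.pgroup V hV
  obtain ⟨N₁, hN₁⟩ := QS_bot hG hV
  have hκ0 : 0 < κ := by linarith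
  set K := D.im N with hK
  have hKstab : ∀ (a : MonoidAlgebra (ZMod p) (F ⧸ V)), ∀ m ∈ K, a • m ∈ K :=
    fun a m hm => D.smul_mem_im hNV a hm
  have hKM : K ≤ D.M := by rw [D.M_eq_im]; exact D.im_mono hNV
  set K₀ := Subgroup.closure (s : Set F) with hK₀
  let c : {g // g ∈ s} → F ⧸ V := fun g => QuotientGroup.mk (g : F)
  have hcl : K₀.map (QuotientGroup.mk' V) = Subgroup.closure (Set.range c) := by
    rw [hK₀, MonoidHom.map_closure]
    congr 1
    ext y
    constructor
    · rintro ⟨g, hg, rfl⟩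
      exact ⟨⟨g, hg⟩, rfl⟩
    · rintro ⟨⟨g, hg⟩, rfl⟩
      exact ⟨g, hg, rfl⟩
  have hD1 := lemD D ht0 ht1 hG hN₁ (fun q => QS_E_top hV q) c (fun _ => 0)
    (fun j => (QS p Op V).mem_zero _) (H := K₀.map (QuotientGroup.mk' V)) hcl
  set IC := ⨆ j, D.M.map (lact (gr p (c j) - 1)) with hIC
  have hICM : IC ≤ D.M := by
    apply iSup_le
    rintro j _ ⟨z, hz, rfl⟩
    exact D.smul_mem_M _ hz
  obtain ⟨N₂, hN₂⟩ := augPow_nilpotent hG
  obtain ⟨L, v, m, hv, hspan, hsum⟩ := exists_adapted (dfil p X (F ⧸ V)) dfil_anti ht0 ht1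
    dfil_zero (N := N₂ + 1) (S := D.M) (T := IC ⊔ K) (sup_le hICM hKM)
    (by rw [dfil_bot_of_large hN₂, inf_bot_eq]; exact bot_le)
  -- M ≤ dfil n₀ ⊔ K
  have hMdeep : D.M ≤ dfil p X (F ⧸ V) n₀ ⊔ K := by
    rw [D.M_eq_im]
    apply Submodule.span_le.mpr
    rintro _ ⟨w, hw, rfl⟩
    have h1 := hdeep hw
    obtain ⟨g, hg, n, hn, rfl⟩ := Subgroup.mem_sup_of_normal_right.mp h1
    have hgV : g ∈ V := by
      have := V.mul_mem hw (V.inv_mem (hNV hn))
      simpa using this
    rw [D.mul_left_mem hgV]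
    exact add_mem (Submodule.mem_sup_left (D.d_mem_dfil hsys hD hg))
      (Submodule.mem_sup_right (D.d_mem_im hn))
  have hrep : ∀ i, ∃ (r : F) (n : ℕ), r ∈ V ∧ r ∈ DF p Op n ∧ n₀ ≤ n ∧ t ^ n ≤ t ^ (m i) ∧
      v i - D.d r ∈ K := by
    intro i
    obtain ⟨v', n, hv'M, hv'F, hn, htn, hvv⟩ : ∃ (v' : X → MonoidAlgebra (ZMod p) (F ⧸ V)) (n : ℕ),
        v' ∈ D.M ∧ v' ∈ dfil p X (F ⧸ V) n ∧ n₀ ≤ n ∧ t ^ n ≤ t ^ (m i) ∧ v i - v' ∈ K := by
      rcases le_total n₀ (m i) with h | h
      · exact ⟨v i, m i, (hv i).1, (hv i).2, h, le_rfl, by rw [sub_self]; exact zero_mem _⟩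
      · obtain ⟨v', hv', k, hk, hvk⟩ := Submodule.mem_sup.mp (hMdeep (hv i).1)
        refine ⟨v', n₀, ?_, hv', le_rfl, pow_le_pow_of_le_one ht0.le ht1.le h, ?_⟩
        · have : v' = v i - k := by rw [← hvk]; abel
          rw [this]
          exact sub_mem (hv i).1 (hKM hk)
        · have : v i - v' = k := by rw [← hvk]; abel
          rw [this]
          exact hk
    rw [D.M_eq_im] at hv'M
    haveI : NeZero p := ⟨(Fact.out : p.Prime).ne_zero⟩
    obtain ⟨w, hw, hwv⟩ := D.exists_of_mem_im le_rfl hv'M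
    obtain ⟨r, hrV, hrD, hrd⟩ := exists_lift_degree hsys hV hD hw (n := n) (by rw [hwv]; exact hv'F)
    exact ⟨r, n, hrV, hrD, hn, htn, by rw [hrd, hwv]; exact hvv⟩
  choose r n hrV hrD hn₀ htn hvr using hrep
  let r' : ℕ → F := fun i => if h : i < L then r ⟨i, h⟩ else 1
  let n' : ℕ → ℕ := fun i => if h : i < L then n ⟨i, h⟩ else 0
  have hr' : ∀ i (h : i < L), r' i = r ⟨i, h⟩ := fun i h => dif_pos h
  have hn' : ∀ i (h : i < L), n' i = n ⟨i, h⟩ := fun i h => dif_pos h
  refine ⟨L, r', n', ?_, ?_, ?_, ?_, ?_⟩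
  · intro i hi; rw [hr' i hi]; exact hrV _
  · intro i hi; rw [hr' i hi, hn' i hi]; exact hrD _
  · intro i hi; rw [hn' i hi]; exact hn₀ _
  · rw [Finset.sum_range]
    have h1 : ∑ i : Fin L, t ^ (n' i) ≤ ∑ i, t ^ (m i) := by
      apply Finset.sum_le_sum
      intro i _
      rw [hn' i i.2]
      exact htn i
    have h2 := w_mono (dfil p X (F ⧸ V)) ht0 ht1 (le_sup_left : IC ≤ IC ⊔ K)
    have h3 : wK t (QS p Op V) ⊤ / wK t (QS p Op V) (K₀.map (QuotientGroup.mk' V)) ≤
        wK t (QS p Op V) ⊤ * (2 / κ) := by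
      rw [div_eq_mul_inv]
      apply mul_le_mul_of_nonneg_left _ (wK_nonneg ht0 ht1)
      rw [← inv_div κ 2]
      exact inv_anti₀ (by positivity) hK1
    have h4 : (∑ _j : {g // g ∈ s}, t ^ 0) = s.card := by simp
    rw [h4] at hD1
    have h5 := mul_le_mul_of_nonneg_left hK2 (Nat.cast_nonneg (α := ℝ) s.card)
    have h6 := mul_le_mul_of_nonneg_left h3 (show (0 : ℝ) ≤ Fintype.card X * t by positivity)
    linarith
  · -- nilpotency
    set M' := K ⊔ span (ZMod p) {d | ∃ g ∈ K₀, ∃ i < L,
        d = gr p (QuotientGroup.mk g : F ⧸ V) • D.d (r' i)} with hM'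
    have hM'stab : ∀ g ∈ K₀, ∀ z ∈ M', gr p (QuotientGroup.mk g : F ⧸ V) • z ∈ M' := by
      intro g hg z hz
      have h1 : M' ≤ M'.comap (lact (gr p (QuotientGroup.mk g : F ⧸ V))) := by
        apply sup_le
        · intro k hk
          exact Submodule.mem_sup_left (hKstab _ k hk)
        · apply Submodule.span_le.mpr
          rintro _ ⟨g', hg', i, hi, rfl⟩
          show gr p (QuotientGroup.mk g : F ⧸ V) •
            (gr p (QuotientGroup.mk g' : F ⧸ V) • D.d (r' i)) ∈ M'
          rw [← mul_smul, ← map_mul, ← QuotientGroup.mk_mul]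
          apply Submodule.mem_sup_right
          exact Submodule.subset_span ⟨g * g', K₀.mul_mem hg hg', i, hi, rfl⟩
      exact h1 hz
    have key : ∀ q, D.M ≤ M' ⊔ dfil p X (F ⧸ V) q := by
      intro q
      induction q with
      | zero => rw [dfil_zero, sup_top_eq]; exact le_top
      | succ q ih =>
        rw [hspan]
        apply sup_le (sup_le _ _) _
        · apply iSup_le
          rintro ⟨g, hg⟩ _ ⟨z, hz, rfl⟩
          obtain ⟨z₁, hz₁, z₂, hz₂, hzz⟩ := Submodule.mem_sup.mp (ih hz)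
          rw [lact_apply, ← hzz, smul_add]
          apply add_mem
          · apply Submodule.mem_sup_left
            rw [sub_smul, one_smul]
            exact sub_mem (hM'stab g (Subgroup.subset_closure hg) z₁ hz₁) hz₁
          · apply Submodule.mem_sup_right
            have := smul_mem_dfil (sub_one_mem_augPow (p := p) (c ⟨g, hg⟩)) hz₂
            rwa [add_comm] at this
        · exact le_sup_left.trans le_sup_left
        · apply Submodule.span_le.mpr
          rintro _ ⟨i, rfl⟩
          apply Submodule.mem_sup_left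
          have h1 : v i = (v i - D.d (r i)) + D.d (r i) := by abel
          rw [h1]
          apply add_mem (Submodule.mem_sup_left (hvr i))
          apply Submodule.mem_sup_right
          refine Submodule.subset_span ⟨1, K₀.one_mem, i, i.2, ?_⟩
          rw [QuotientGroup.mk_one, map_one, one_smul, hr' i i.2]
    have := key (N₂ + 1)
    rwa [dfil_bot_of_large hN₂, sup_bot_eq] at this

/-- block selection at the level `V` -/
theorem exists_block (hsys : FoxSys p x Op) {t : ℝ} (ht0 : 0 < t) (ht1 : t < 1)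
    {N V : Subgroup F} [N.Normal] [V.Normal] (hV : V ∈ Op) (hNV : N ≤ V) {D : FoxDer p x V}
    (hD : D.Cont Op) (s : Finset F) {κ : ℝ} (hκ : 1 ≤ κ)
    (hK1 : κ / 2 ≤ wK t (QS p Op V) ((Subgroup.closure (s : Set F)).map (QuotientGroup.mk' V)))
    (hK2 : wK t (QS p Op V) ((Subgroup.closure (s : Set F)).map (QuotientGroup.mk' V)) ≤ κ)
    {n₀ : ℕ} (hdeep : V ≤ DF p Op n₀ ⊔ N) (hn₀ : κ * t ^ n₀ ≤ 1)
    {P : Type*} [Fintype P] (σ : P → F) (hσ : ∀ u, σ u ∈ Subgroup.closure (s : Set F))
    {c Y g₀ : ℝ} (hY : 0 ≤ Y) (hg₀ : 0 ≤ g₀)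
    (hgood : c * wK t (QS p Op V) ⊤ ≤
      relW t D.M (D.im N) (∑ u, gr p (QuotientGroup.mk (σ u) : F ⧸ V)))
    (hbig : Fintype.card X * t * (wK t (QS p Op V) ⊤ * (2 / κ)) + s.card * κ <
      g₀ * (c * wK t (QS p Op V) ⊤ / (Y + 1) - 1)) :
    ∃ (l : ℕ) (r : Fin l → F) (n : Fin l → ℕ), (∀ i, r i ∈ V) ∧ (∀ i, r i ∈ DF p Op (n i)) ∧
      ∑ i, t ^ (n i) ≤ g₀ ∧
      Y ≤ w t (dfil p X (F ⧸ V)) (D.im N ⊔ span (ZMod p)
        {d | ∃ g ∈ Subgroup.closure (s : Set F), ∃ i,
          d = (∑ u, gr p (QuotientGroup.mk (σ u) : F ⧸ V)) •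
            (gr p (QuotientGroup.mk g : F ⧸ V) • D.d (r i))}) -
        w t (dfil p X (F ⧸ V)) (D.im N) := by
  classical
  haveI := hsys.finite V hV
  have hG := hsys.pgroup V hV
  obtain ⟨N₁, hN₁⟩ := QS_bot hG hV
  have hκ0 : 0 < κ := by linarith
  obtain ⟨L, r, n, hrV, hrD, hrn, hsum, hM⟩ :=
    exists_generators hsys ht0 ht1 hV hNV hD s hκ hK1 hK2 hdeep
  set K := D.im N with hK
  have hKstab : ∀ (a : MonoidAlgebra (ZMod p) (F ⧸ V)), ∀ m ∈ K, a • m ∈ K :=
    fun a m hm => D.smul_mem_im hNV a hm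
  set K₀ := Subgroup.closure (s : Set F) with hK₀
  set NP := ∑ u, gr p (QuotientGroup.mk (σ u) : F ⧸ V) with hNP
  clear_value NP
  set W := wK t (QS p Op V) ⊤ with hW
  let Sj : ℕ → Submodule (ZMod p) (X → MonoidAlgebra (ZMod p) (F ⧸ V)) := fun j =>
    K ⊔ span (ZMod p) {d | ∃ g ∈ K₀, ∃ i < j,
      d = NP • (gr p (QuotientGroup.mk g : F ⧸ V) • D.d (r i))}
  have hSmono : Monotone Sj := by
    intro a b hab
    apply sup_le_sup_left
    apply Submodule.span_mono
    rintro _ ⟨g, hg, i, hi, rfl⟩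
    exact ⟨g, hg, i, lt_of_lt_of_le hi hab, rfl⟩
  let G : ℕ → ℝ := fun j => w t (dfil p X (F ⧸ V)) (Sj j)
  let g : ℕ → ℝ := fun j => ∑ i ∈ Finset.range j, t ^ (n i)
  have hGmono : Monotone G := fun a b hab => w_mono _ ht0 ht1 (hSmono hab)
  have hgmono : Monotone g := by
    intro a b hab
    apply Finset.sum_le_sum_of_subset_of_nonneg
    · exact Finset.range_mono hab
    · intro _ _ _; positivity
  obtain ⟨q, u, m, hu, huspan, husum⟩ := exists_adapted_E ht0 ht1 hG hN₁
    (K₀.map (QuotientGroup.mk' V))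
  have hstep : ∀ j < L, G (j + 1) - G j ≤ 1 := by
    intro j hj
    have hle : Sj (j + 1) ≤ Sj j ⊔ span (ZMod p) (Set.range (fun a => NP • (u a • D.d (r j)))) := by
      apply sup_le (le_sup_left.trans le_sup_left)
      apply Submodule.span_le.mpr
      rintro _ ⟨g, hg, i, hi, rfl⟩
      rcases Nat.lt_succ_iff_lt_or_eq.mp hi with h | h
      · apply Submodule.mem_sup_left
        apply Submodule.mem_sup_right
        exact Submodule.subset_span ⟨g, hg, i, h, rfl⟩
      · subst h
        apply Submodule.mem_sup_right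
        have h1 : gr p (QuotientGroup.mk g : F ⧸ V) ∈ span (ZMod p) (Set.range u) := by
          rw [← huspan]
          exact of_mem_E ⟨g, hg, rfl⟩
        rw [Submodule.mem_span_range_iff_exists_fun] at h1
        obtain ⟨cf, hcf⟩ := h1
        have h2 : NP • (gr p (QuotientGroup.mk g : F ⧸ V) • D.d (r i)) =
            ∑ a, cf a • (NP • (u a • D.d (r i))) := by
          rw [← hcf, Finset.sum_smul, Finset.smul_sum]
          refine Finset.sum_congr rfl (fun a _ => ?_)
          rw [smul_assoc, smul_comm]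
        rw [h2]
        exact Submodule.sum_mem _ (fun a _ => Submodule.smul_mem _ _
          (Submodule.subset_span ⟨a, rfl⟩))
    have h1 := w_le_of_le_sup_span (dfil p X (F ⧸ V)) dfil_anti ht0 ht1
      (fun a => NP • (u a • D.d (r j))) (fun a => m a + n j) (by
        intro a
        apply Submodule.mem_sup_right
        apply smul_mem_dfil'
        apply smul_mem_dfil
        · rw [← QS_E_top hV]
          exact E_mono le_top _ (hu a)
        · exact D.d_mem_dfil hsys hD (hrD j hj)) hle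
    have h2 : ∑ a, t ^ (m a + n j) = (∑ a, t ^ (m a)) * t ^ (n j) := by
      rw [Finset.sum_mul]
      exact Finset.sum_congr rfl (fun a _ => pow_add _ _ _)
    have h3 : (∑ a, t ^ (m a)) * t ^ (n j) ≤ κ * t ^ n₀ := by
      apply mul_le_mul (husum.trans hK2) (pow_le_pow_of_le_one ht0.le ht1.le (hrn j hj))
        (by positivity) hκ0.le
    show w t (dfil p X (F ⧸ V)) (Sj (j + 1)) - w t (dfil p X (F ⧸ V)) (Sj j) ≤ 1
    rw [h2] at h1
    linarith
  have hG0 : G 0 = w t (dfil p X (F ⧸ V)) K := by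
    have : Sj 0 = K := by
      apply le_antisymm
      · apply sup_le le_rfl
        apply Submodule.span_le.mpr
        rintro _ ⟨g, hg, i, hi, rfl⟩
        exact absurd hi (Nat.not_lt_zero i)
      · exact le_sup_left
    show w t (dfil p X (F ⧸ V)) (Sj 0) = _
    rw [this]
  have hGL : c * W ≤ G L - G 0 := by
    refine hgood.trans ?_
    rw [hG0]
    unfold relW
    apply sub_le_sub_right
    apply w_mono _ ht0 ht1
    apply sup_le le_sup_left
    rintro _ ⟨z, hz, rfl⟩
    have h1 : D.M ≤ (Sj L).comap (lact NP) := by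
      refine hM.trans ?_
      apply sup_le
      · intro k hk
        exact Submodule.mem_sup_left (hKstab _ k hk)
      · apply Submodule.span_le.mpr
        rintro _ ⟨g, hg, i, hi, rfl⟩
        apply Submodule.mem_sup_right
        exact Submodule.subset_span ⟨g, hg, i, hi, rfl⟩
    exact h1 hz
  have hg0 : g 0 = 0 := by simp [g]
  have hY1 : 0 < Y + 1 := by linarith
  have hbig' : g L - g 0 < g₀ * ((G L - G 0) / (Y + 1) - 1) := by
    rw [hg0, sub_zero]
    refine lt_of_le_of_lt hsum (lt_of_lt_of_le hbig ?_)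
    apply mul_le_mul_of_nonneg_left _ hg₀
    apply sub_le_sub_right
    exact div_le_div_of_nonneg_right hGL hY1.le
  obtain ⟨a, b, hab, hbL, hYG, hgg⟩ := block_lemma L G g hGmono hgmono hstep hY hg₀ hbig'
  refine ⟨b - a, fun i => r (a + i), fun i => n (a + i), ?_, ?_, ?_, ?_⟩
  · intro i; exact hrV _ (by have := i.2; omega)
  · intro i; exact hrD _ (by have := i.2; omega)
  · have h1 : g b = g a + ∑ i : Fin (b - a), t ^ (n (a + i)) := by
      have h2 : b = a + (b - a) := by omega
      have h3 : g (a + (b - a)) = g a + ∑ i ∈ Finset.range (b - a), t ^ (n (a + i)) :=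
        Finset.sum_range_add _ a (b - a)
      rw [← h2] at h3
      rw [h3, Finset.sum_range]
    linarith
  · set Sb := K ⊔ span (ZMod p) {d | ∃ g ∈ K₀, ∃ i : Fin (b - a),
      d = NP • (gr p (QuotientGroup.mk g : F ⧸ V) • D.d (r (a + i)))} with hSb
    have h1 : Sj b ≤ Sj a ⊔ Sb := by
      apply sup_le (le_sup_left.trans le_sup_left)
      apply Submodule.span_le.mpr
      rintro _ ⟨g, hg, i, hi, rfl⟩
      rcases lt_or_ge i a with h | h
      · apply Submodule.mem_sup_left
        apply Submodule.mem_sup_right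
        exact Submodule.subset_span ⟨g, hg, i, h, rfl⟩
      · apply Submodule.mem_sup_right
        apply Submodule.mem_sup_right
        refine Submodule.subset_span ⟨g, hg, ⟨i - a, by omega⟩, ?_⟩
        simp only
        have : a + (i - a) = i := by omega
        rw [this]
    have h2 := w_mono (dfil p X (F ⧸ V)) ht0 ht1 h1
    have h3 := w_rel_sup_le (dfil p X (F ⧸ V)) ht0 ht1 (A := Sj a) (B := Sb) (K := K)
      le_sup_left le_sup_left
    have h4 : G b - G a ≤ w t (dfil p X (F ⧸ V)) Sb - w t (dfil p X (F ⧸ V)) K := by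
      show w t (dfil p X (F ⧸ V)) (Sj b) - w t (dfil p X (F ⧸ V)) (Sj a) ≤ _
      linarith
    exact hYG.trans h4

end GolodShaf
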