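import Pool.Agent.GolodShaf.Cond
import Pool.Agent.GolodShaf.Adjoin

/-!
# Growth of weights and choice of the auxiliary subgroup
-/

set_option linter.unusedSectionVars false
set_option linter.unusedVariables false
set_option linter.style.haveILetI false

namespace GolodShaf

open Module Submodule NSeries

section basic

variable {k : Type*} [Field k] {V : Type*} [AddCommGroup V] [Module k V]
  [FiniteDimensional k V] {t : ℝ} (F : ℕ → Submodule k V)

lemma w_le_finrank (ht0 : 0 < t) (ht1 : t < 1) (S : Submodule k V) :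
    w t F S ≤ finrank k S := by
  unfold w
  have h1 : ∀ n, cod F S n ≤ finrank k S := by
    intro n
    unfold cod
    have h2 : (0:ℝ) ≤ finrank k ↥(S ⊓ F n) := by positivity
    linarith
  have h2 : ∑' n, cod F S (n + 1) * t ^ n ≤ ∑' n : ℕ, (finrank k S : ℝ) * t ^ n := by
    apply Summable.tsum_le_tsum
    · intro n
      exact mul_le_mul_of_nonneg_right (h1 _) (by positivity)
    · exact summable_bdd (fun n => cod_nonneg _ _ _) (fun n => h1 _) ht0 ht1
    · exact (summable_geometric_of_lt_one ht0.le ht1).mul_left _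
  rw [tsum_mul_left, tsum_geometric_of_lt_one ht0.le ht1] at h2
  have h3 : 0 < 1 - t := by linarith
  calc (1 - t) * ∑' n, cod F S (n + 1) * t ^ n ≤ (1 - t) * ((finrank k S : ℝ) * (1 - t)⁻¹) :=
        mul_le_mul_of_nonneg_left h2 h3.le
    _ = finrank k S := by field_simp

lemma wK_le_card {p : ℕ} [Fact p.Prime] {Γ : Type*} [Group Γ] [Finite Γ] {S : NSeries p Γ}
    (ht0 : 0 < t) (ht1 : t < 1) (K : Subgroup Γ) : wK t S K ≤ Nat.card K := by
  unfold wK
  have := w_le_finrank (t := t) (S.E ⊤) ht0 ht1 (S.E K 0)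
  rwa [finrank_E_zero] at this

/-- the weight of the whole group is at most the index times the weight of a subgroup -/
lemma wK_top_le_index_mul {p : ℕ} [Fact p.Prime] {Γ : Type*} [Group Γ] [Finite Γ]
    {S : NSeries p Γ} (ht0 : 0 < t) (ht1 : t < 1) (hG : IsPGroup p Γ) {N : ℕ} (hN : S.D N = ⊥)
    (H : Subgroup Γ) : wK t S ⊤ ≤ (H.index : ℝ) * wK t S H := by
  obtain ⟨d⟩ := exists_freeData hG S hN (le_top : H ≤ ⊤)
  rw [wK_eq_mul ht0 ht1 hG hN le_top d.free]
  apply mul_le_mul_of_nonneg_right _ (wK_nonneg ht0 ht1)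
  have h1 := finrank_freeOver d.free E_anti 0
  have hs : ∀ i, finrank (ZMod p) ↥(S.E H (0 - d.β i)) = Nat.card H := by
    intro i
    rw [Nat.zero_sub]
    exact finrank_E_zero
  rw [finrank_E_zero, Finset.sum_congr rfl (fun i _ => hs i), Finset.sum_const, Finset.card_univ,
    smul_eq_mul] at h1
  have h2 : Fintype.card d.ι = H.index := by
    have h3 := H.index_mul_card
    rw [Subgroup.card_top] at h1
    rw [← h3] at h1
    exact (Nat.eq_of_mul_eq_mul_right Nat.card_pos h1).symm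
  calc ∑ i, t ^ (d.β i) ≤ ∑ i : d.ι, (1 : ℝ) := by
        apply Finset.sum_le_sum
        intro i _
        exact pow_le_one₀ ht0.le ht1.le
    _ = (H.index : ℝ) := by
        rw [Finset.sum_const, Finset.card_univ, h2]
        simp

end basic

variable {p : ℕ} [Fact p.Prime] {F : Type*} [Group F] {X : Type*} [Fintype X] [DecidableEq X]
  {x : X → F} {Op : Set (Subgroup F)}

/-- one step of the growth -/
lemma exists_grow (hsys : FoxSys p x Op) {t : ℝ} (ht0 : 0 < t) (ht1 : t < 1)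
    {N V₀ V : Subgroup F} [N.Normal] [V.Normal] (hV : V ∈ Op) (hN : N ≤ V) (hVV₀ : V ≤ V₀) {β : ℝ}
    (hβ : β < Fintype.card X * t - 1) (hthin : Thin p x Op t N V₀ β) :
    ∃ V' ∈ Op, N ≤ V' ∧ V' ≤ V ∧ ∀ [V'.Normal],
      (2 : ℝ) ^ (Fintype.card X * t - 1 - β) * wK t (QS p Op V) ⊤ ≤ wK t (QS p Op V') ⊤ := by
  haveI := hsys.finite V hV
  have hG := hsys.pgroup V hV
  obtain ⟨D, hD⟩ := hsys.der V hV
  have hDc : D.Cont Op := hD
  have hK : ∀ (a : MonoidAlgebra (ZMod p) (F ⧸ V)), ∀ m ∈ D.im N, a • m ∈ D.im N :=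
    fun a m hm => D.smul_mem_im hN a hm
  have hV'Op : D.sub (D.im N) ∈ Op := D.sub_mem_Op hsys hDc hK
  refine ⟨D.sub (D.im N), hV'Op, ?_, D.sub_le, ?_⟩
  · intro v hv
    exact (D.mem_sub).mpr ⟨hN hv, D.d_mem_im hv⟩
  · intro _
    set V' := D.sub (D.im N) with hV'
    have hle : V' ≤ V := D.sub_le
    haveI := hsys.finite V' hV'Op
    have hG' := hsys.pgroup V' hV'Op
    obtain ⟨N₁, hN₁⟩ := QS_bot hG hV
    obtain ⟨N₂, hN₂⟩ := QS_bot hG' hV'Op
    set H : Subgroup (F ⧸ V') := V.map (QuotientGroup.mk' V') with hH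
    have hHmem : ∀ g : F, (QuotientGroup.mk g : F ⧸ V') ∈ H ↔ g ∈ V := by
      intro g
      constructor
      · rintro ⟨v, hv, hvg⟩
        have h1 : (QuotientGroup.mk v : F ⧸ V') = QuotientGroup.mk g := hvg
        rw [QuotientGroup.eq] at h1
        have h2 : v⁻¹ * g ∈ V := hle h1
        have h3 := V.mul_mem hv h2
        rwa [mul_inv_cancel_left] at h3
      · intro hg
        exact ⟨g, hg, rfl⟩
    have hexp := exp_bound hsys ht0 ht1 hV'Op hV hDc (D.im N) (fun v hv => (D.mem_sub.mp hv).2) H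
      (fun g hg => (hHmem g).mp hg)
    have hset : {g : F | (QuotientGroup.mk g : F ⧸ V') ∈ H} = (V : Set F) := by
      ext g
      exact hHmem g
    have hspan : D.im N ⊔ span (ZMod p) (D.d '' {g : F | (QuotientGroup.mk g : F ⧸ V') ∈ H}) =
        D.M := by
      rw [hset, D.M_eq_im]
      exact sup_eq_right.mpr (D.im_mono hN)
    rw [hspan] at hexp
    have hM := w_M_ge D ht0 ht1 hG (S := QS p Op V) (QS_E_top hV)
    have hT := hthin V hV D hDc hN hVV₀
    have h1 : 1 ≤ wK t (QS p Op V) ⊤ := one_le_wK ht0 ht1 hG hN₁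
    have h2 : (2 : ℝ) ^ (Fintype.card X * t - 1 - β) ≤ wK t (QS p Op V') H := by
      refine le_trans ?_ hexp
      apply Real.rpow_le_rpow_of_exponent_le (by norm_num)
      nlinarith
    have h3 := wK_map_mul_le (S := QS p Op V') (S₁ := QS p Op V) ht0 ht1 hG' hN₂ (qmap hle)
      (fun n y hy => qmap_QS hle n y hy) (K' := H) (K := ⊤) le_top (by
        intro y hy
        obtain ⟨g, rfl⟩ := QuotientGroup.mk_surjective y
        rw [qmap_mk, QuotientGroup.eq_one_iff]
        exact (hHmem g).mp hy)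
    rw [Subgroup.map_top_of_surjective _ (qmap_surjective hle)] at h3
    exact (mul_le_mul_of_nonneg_right h2 (by linarith)).trans h3

/-- growth of the weights under thinness -/
theorem exists_large (hsys : FoxSys p x Op) {t : ℝ} (ht0 : 0 < t) (ht1 : t < 1)
    {N V₀ : Subgroup F} [N.Normal] (hV₀ : V₀ ∈ Op) (hN : N ≤ V₀) {β : ℝ}
    (hβ : β < Fintype.card X * t - 1) (hthin : Thin p x Op t N V₀ β) (B : ℝ) :
    ∃ V ∈ Op, N ≤ V ∧ V ≤ V₀ ∧ ∀ [V.Normal], B ≤ wK t (QS p Op V) ⊤ := by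
  set q : ℝ := (2 : ℝ) ^ (Fintype.card X * t - 1 - β) with hq
  have hq1 : 1 < q := by
    rw [hq]
    apply Real.one_lt_rpow (by norm_num)
    linarith
  have key : ∀ n : ℕ, ∃ V ∈ Op, N ≤ V ∧ V ≤ V₀ ∧ ∀ [V.Normal], q ^ n ≤ wK t (QS p Op V) ⊤ := by
    intro n
    induction n with
    | zero =>
      refine ⟨V₀, hV₀, hN, le_rfl, ?_⟩
      intro _
      haveI := hsys.finite V₀ hV₀
      have hG := hsys.pgroup V₀ hV₀
      obtain ⟨N₁, hN₁⟩ := QS_bot hG hV₀
      rw [pow_zero]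
      exact one_le_wK ht0 ht1 hG hN₁
    | succ n ih =>
      obtain ⟨V, hV, hNV, hVV₀, hw⟩ := ih
      haveI := hsys.normal V hV
      obtain ⟨V', hV', hNV', hV'V, hw'⟩ := exists_grow hsys ht0 ht1 hV hNV hVV₀ hβ hthin
      refine ⟨V', hV', hNV', hV'V.trans hVV₀, ?_⟩
      intro _
      have h1 := hw'
      have h2 := hw
      rw [pow_succ, mul_comm]
      refine le_trans ?_ h1
      exact mul_le_mul_of_nonneg_left h2 (by linarith)
  obtain ⟨n, hn⟩ := pow_unbounded_of_one_lt B hq1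
  obtain ⟨V, hV, hNV, hVV₀, hw⟩ := key n
  refine ⟨V, hV, hNV, hVV₀, ?_⟩
  intro _
  exact hn.le.trans hw

lemma map_closure_insert (V : Subgroup F) [V.Normal] (s : Set F) (h : F) :
    (Subgroup.closure (insert h s)).map (QuotientGroup.mk' V) =
      (Subgroup.closure s).map (QuotientGroup.mk' V) ⊔
        Subgroup.zpowers (QuotientGroup.mk h : F ⧸ V) := by
  rw [Set.insert_eq, Subgroup.closure_union, Subgroup.map_sup, sup_comm,
    ← Subgroup.zpowers_eq_closure, MonoidHom.map_zpowers]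
  rfl

lemma map_map_qmap {V V₁ : Subgroup F} [V.Normal] [V₁.Normal] (h : V ≤ V₁) (K : Subgroup F) :
    (K.map (QuotientGroup.mk' V)).map (qmap h) = K.map (QuotientGroup.mk' V₁) := by
  rw [Subgroup.map_map]
  congr 1

/-- choice of the auxiliary subgroup `K₀ = closure s`. -/
theorem exists_K0 (hsys : FoxSys p x Op) (hDF : ∀ n, DF p Op n ∈ Op) {t : ℝ} (ht0 : 0 < t)
    (ht1 : t < 1) {N V₀ : Subgroup F} [N.Normal] (hV₀ : V₀ ∈ Op) (hN : N ≤ V₀) {β : ℝ}
    (hβ : β < Fintype.card X * t - 1) (hthin : Thin p x Op t N V₀ β) (s₀ : Finset F) (cP : ℕ)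
    (hs₀ : ∀ V ∈ Op, ∀ [V.Normal], N ≤ V →
      Nat.card ((Subgroup.closure (s₀ : Set F)).map (QuotientGroup.mk' V)) ≤ cP)
    {κ : ℝ} (hκ : 2 * cP ≤ κ) (hκ1 : 1 ≤ κ) :
    ∃ s : Finset F, s₀ ⊆ s ∧ ∃ V₁ ∈ Op, N ≤ V₁ ∧ V₁ ≤ V₀ ∧
      ∀ V ∈ Op, ∀ [V.Normal], N ≤ V → V ≤ V₁ →
        κ / 2 ≤ wK t (QS p Op V) ((Subgroup.closure (s : Set F)).map (QuotientGroup.mk' V)) ∧
        wK t (QS p Op V) ((Subgroup.closure (s : Set F)).map (QuotientGroup.mk' V)) ≤ κ := by
  classical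
  -- choice of `ν`
  obtain ⟨ν, hν⟩ := exists_pow_lt_of_lt_one (show (0:ℝ) < 1 / (2 * κ) by positivity) ht1
  have hν' : κ * t ^ ν ≤ 1 / 2 := by
    have h1 : κ * t ^ ν ≤ κ * (1 / (2 * κ)) := mul_le_mul_of_nonneg_left hν.le (by linarith)
    have h2 : κ * (1 / (2 * κ)) = 1 / 2 := by
      have : κ ≠ 0 := by linarith
      field_simp
    linarith
  set Q : Finset F → Prop := fun T => ∃ V ∈ Op, N ≤ V ∧ V ≤ V₀ ∧ ∀ [V.Normal],
    κ < wK t (QS p Op V) ((Subgroup.closure ((s₀ ∪ T : Finset F) : Set F)).map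
      (QuotientGroup.mk' V)) with hQ
  have hQ0 : ¬ Q ∅ := by
    rintro ⟨V, hV, hNV, -, hw⟩
    haveI := hsys.normal V hV
    haveI := hsys.finite V hV
    have h1 := hw
    rw [Finset.union_empty] at h1
    have h2 := wK_le_card (S := QS p Op V) ht0 ht1
      ((Subgroup.closure (s₀ : Set F)).map (QuotientGroup.mk' V))
    have h3 : (Nat.card ((Subgroup.closure (s₀ : Set F)).map (QuotientGroup.mk' V)) : ℝ) ≤ cP := by
      exact_mod_cast hs₀ V hV hNV
    have h4 : (0:ℝ) ≤ cP := by positivity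
    linarith
  -- the large set
  have hbig : ∃ T : Finset F, (∀ h ∈ T, h ∈ DF p Op ν) ∧ Q T := by
    haveI hfin : Finite (F ⧸ DF p Op ν) := hsys.finite _ (hDF ν)
    obtain ⟨V, hV, hNV, hVV₀, hw⟩ := exists_large hsys ht0 ht1 hV₀ hN hβ hthin
      (κ * ((DF p Op ν).index : ℝ) + 1)
    haveI := hsys.normal V hV
    haveI := hsys.finite V hV
    have hG := hsys.pgroup V hV
    obtain ⟨N₁, hN₁⟩ := QS_bot hG hV
    set H : Subgroup (F ⧸ V) := (DF p Op ν).map (QuotientGroup.mk' V) with hH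
    have h1 := wK_top_le_index_mul (S := QS p Op V) ht0 ht1 hG hN₁ H
    have h2 : H.index ≤ (DF p Op ν).index := by
      apply Nat.le_of_dvd
      · rw [Subgroup.index]
        exact Nat.card_pos
      · exact Subgroup.index_map_dvd _ (QuotientGroup.mk'_surjective V)
    have h2' : (H.index : ℝ) ≤ (DF p Op ν).index := by exact_mod_cast h2
    have h0 : 0 ≤ wK t (QS p Op V) H := wK_nonneg ht0 ht1
    have h3 := hw
    have h4 : κ < wK t (QS p Op V) H := by
      by_contra hcon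
      push Not at hcon
      have h5 : (H.index : ℝ) * wK t (QS p Op V) H ≤ ((DF p Op ν).index : ℝ) * κ :=
        mul_le_mul h2' hcon h0 (by positivity)
      linarith
    -- lifts
    have hex : ∀ y : H, ∃ g ∈ DF p Op ν, (QuotientGroup.mk g : F ⧸ V) = y := by
      rintro ⟨y, g, hg, rfl⟩
      exact ⟨g, hg, rfl⟩
    choose l hl hl' using hex
    haveI : Fintype H := Fintype.ofFinite H
    refine ⟨Finset.univ.image l, ?_, V, hV, hNV, hVV₀, ?_⟩
    · intro h hh
      obtain ⟨y, -, rfl⟩ := Finset.mem_image.mp hh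
      exact hl y
    · intro _
      refine lt_of_lt_of_le h4 (wK_mono ht0 ht1 ?_)
      intro y hy
      refine ⟨l ⟨y, hy⟩, ?_, hl' ⟨y, hy⟩⟩
      apply Subgroup.subset_closure
      rw [Finset.coe_union]
      right
      rw [Finset.mem_coe, Finset.mem_image]
      exact ⟨_, Finset.mem_univ _, rfl⟩
  obtain ⟨T, hT, hQT⟩ := hbig
  have hstep : ∀ T : Finset F, (∀ h ∈ T, h ∈ DF p Op ν) → Q T →
      ∃ (T' : Finset F) (h : F), h ∈ DF p Op ν ∧ ¬ Q T' ∧ Q (insert h T') := by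
    intro T
    induction T using Finset.induction_on with
    | empty => intro _ h; exact absurd h hQ0
    | insert a T _ ih =>
      intro hT hQT
      by_cases h : Q T
      · exact ih (fun h hh => hT h (Finset.mem_insert_of_mem hh)) h
      · exact ⟨T, a, hT a (Finset.mem_insert_self _ _), h, hQT⟩
  obtain ⟨T', h, hh, hnQ, V₁, hV₁, hNV₁, hV₁V₀, hw⟩ := hstep T hT hQT
  haveI := hsys.normal V₁ hV₁
  haveI := hsys.finite V₁ hV₁
  have hG₁ := hsys.pgroup V₁ hV₁
  obtain ⟨N₁, hN₁⟩ := QS_bot hG₁ hV₁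
  have hup : ∀ V ∈ Op, ∀ [V.Normal], N ≤ V → V ≤ V₀ →
      wK t (QS p Op V) ((Subgroup.closure ((s₀ ∪ T' : Finset F) : Set F)).map
        (QuotientGroup.mk' V)) ≤ κ := by
    intro V hV _ hNV hVV₀
    by_contra hcon
    push Not at hcon
    exact hnQ ⟨V, hV, hNV, hVV₀, fun {_} => hcon⟩
  refine ⟨s₀ ∪ T', Finset.subset_union_left, V₁, hV₁, hNV₁, hV₁V₀, ?_⟩
  intro V hV _ hNV hVV₁
  refine ⟨?_, hup V hV hNV (hVV₁.trans hV₁V₀)⟩
  haveI := hsys.finite V hV
  have hG := hsys.pgroup V hV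
  obtain ⟨N₂, hN₂⟩ := QS_bot hG hV
  set K := Subgroup.closure ((s₀ ∪ T' : Finset F) : Set F) with hK
  -- the lower bound at `V₁`
  have hlow : κ / 2 ≤ wK t (QS p Op V₁) (K.map (QuotientGroup.mk' V₁)) := by
    have h1 := wK_adjoin_le (S := QS p Op V₁) ht0 ht1 hG₁ hN₁ (K.map (QuotientGroup.mk' V₁))
      (h := (QuotientGroup.mk h : F ⧸ V₁)) (ν := ν) (mem_QS hh)
    have h2 := hw
    have h3 : ((s₀ ∪ insert h T' : Finset F) : Set F) =
        insert h ((s₀ ∪ T' : Finset F) : Set F) := by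
      ext y
      simp only [Finset.coe_union, Finset.coe_insert, Set.mem_union, Set.mem_insert_iff]
      tauto
    rw [h3, map_closure_insert, ← hK] at h2
    have h4 := hup V₁ hV₁ hNV₁ hV₁V₀
    set a := wK t (QS p Op V₁) (K.map (QuotientGroup.mk' V₁)) with ha
    set b := wK t (QS p Op V₁) (K.map (QuotientGroup.mk' V₁) ⊔
      Subgroup.zpowers (QuotientGroup.mk h : F ⧸ V₁)) with hb
    have h5 : a * t ^ ν * b ≤ 1 / 2 * b := by
      apply mul_le_mul_of_nonneg_right _ (by linarith)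
      exact (mul_le_mul_of_nonneg_right h4 (by positivity)).trans hν'
    linarith
  have h1 := wK_map_mul_le (S := QS p Op V) (S₁ := QS p Op V₁) ht0 ht1 hG hN₂ (qmap hVV₁)
    (fun n y hy => qmap_QS hVV₁ n y hy) (K' := ⊥) (K := K.map (QuotientGroup.mk' V)) bot_le (by
      intro y hy
      rw [Subgroup.mem_bot] at hy
      rw [hy, map_one])
  rw [wK_bot ht0 ht1 hG hN₂, one_mul, map_map_qmap] at h1
  exact hlow.trans h1

end GolodShaf
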