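import Pool.Agent.GolodShaf.AugPow

/-!
# Module A (for MP_af5125_al): Kaloujnine-Krasner homomorphisms and the norm trick
-/

set_option linter.unusedSectionVars false
set_option linter.unusedVariables false

namespace GolodShaf

open Finset

/-- An abstract size functional on the group algebra `F_p[Γ]`. -/
structure WFun (p : ℕ) (Γ : Type*) [Group Γ] where
  f : MonoidAlgebra (ZMod p) Γ → ℝ
  add : ∀ a b, f (a + b) ≤ f a + f b
  neg : ∀ a, f (-a) ≤ f a
  gr_mul : ∀ g a, f (gr p g * a) ≤ f a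
  mul : ∀ a b, f (a * b) ≤ f a

namespace KK

section hom

variable {p : ℕ} [Fact p.Prime] {G B P P' : Type*} [Group G] [CommGroup B]
    [Group P] [Fintype P] [Group P'] [MulDistribMulAction P B]

/-- the norm -/
def nrm (P : Type*) {B : Type*} [Fintype P] [Group P] [CommGroup B] [MulDistribMulAction P B]
    (b : B) : B := ∏ u : P, u • b

lemma nrm_prod {ι : Type*} (s : Finset ι) (b : ι → B) :
    nrm P (∏ i ∈ s, b i) = ∏ i ∈ s, nrm P (b i) := by
  unfold nrm
  rw [Finset.prod_comm]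
  refine Finset.prod_congr rfl fun u _ => ?_
  exact map_prod (MulDistribMulAction.toMonoidHom B u) b s

/-- the Kaloujnine-Krasner homomorphism -/
lemma exists_hom (hB : ∀ b : B, b ^ p = 1) (φ : P' →* P) (hφ : Function.Surjective φ) (z : P')
    (hzc : ∀ x, z * x = x * z) (hker : φ.ker = Subgroup.zpowers z) (hzo : orderOf z = p)
    (j : B →* G) (ρ : P →* G) (hj : ∀ u b, ρ u * j b * (ρ u)⁻¹ = j (u • b)) (b : B) :
    ∃ (ρ' : P' →* G) (a : P' → B), (∀ x', ρ' x' = j (a x') * ρ (φ x')) ∧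
       ∀ i : ℕ, a (z ^ i) = (nrm P b) ^ i := by
  classical
  let τ : P → P' := Function.surjInv hφ
  have hτ : ∀ u, φ (τ u) = u := Function.surjInv_eq hφ
  have hmem : ∀ (x' : P') (u : P), (τ u)⁻¹ * x' * τ ((φ x')⁻¹ * u) ∈ Subgroup.zpowers z := by
    intro x' u
    rw [← hker, MonoidHom.mem_ker]
    simp only [map_mul, map_inv, hτ]
    group
  let f : P' → P → Subgroup.zpowers z := fun x' u => ⟨_, hmem x' u⟩
  have hf : ∀ x' y' u, f (x' * y') u = f x' u * f y' ((φ x')⁻¹ * u) := by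
    intro x' y' u
    apply Subtype.ext
    have h1 : (φ (x' * y'))⁻¹ * u = (φ y')⁻¹ * ((φ x')⁻¹ * u) := by
      rw [map_mul]; group
    simp only [f, Subgroup.coe_mul, h1]
    group
  let g0 : Subgroup.zpowers z := ⟨z, Subgroup.mem_zpowers z⟩
  have hg0 : ∀ x, x ∈ Subgroup.zpowers g0 := by
    rintro ⟨x, i, rfl⟩
    exact ⟨i, Subtype.ext (by simp [g0])⟩
  have hord : orderOf b ∣ orderOf g0 := by
    have h1 : orderOf g0 = p := by
      rw [← hzo, ← Subgroup.orderOf_coe]
    rw [h1]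
    exact orderOf_dvd_of_pow_eq_one (hB b)
  let th : Subgroup.zpowers z →* B := monoidHomOfForallMemZpowers hg0 hord
  have hth : th g0 = b := monoidHomOfForallMemZpowers_apply_gen hg0 hord
  let a : P' → B := fun x' => ∏ u : P, u • th (f x' u)
  have hsm : ∀ (u : P) (F : P → B), u • (∏ v, F v) = ∏ v, u • F v := by
    intro u F
    exact map_prod (MulDistribMulAction.toMonoidHom B u) F _
  have ha : ∀ x' y', a (x' * y') = a x' * φ x' • a y' := by
    intro x' y'
    simp only [a, hf, map_mul, smul_mul', Finset.prod_mul_distrib]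
    congr 1
    rw [hsm]
    refine Fintype.prod_equiv (Equiv.mulLeft (φ x')⁻¹) _ _ ?_
    intro u
    simp only [Equiv.coe_mulLeft]
    rw [smul_smul]
    congr 1
    group
  refine ⟨MonoidHom.mk' (fun x' => j (a x') * ρ (φ x')) ?_, a, fun x' => rfl, ?_⟩
  · intro x' y'
    rw [ha, map_mul, ← hj, map_mul, map_mul]
    group
  · intro i
    have h1 : ∀ u, f (z ^ i) u = g0 ^ i := by
      intro u
      apply Subtype.ext
      have h2 : φ (z ^ i) = 1 := by
        rw [← MonoidHom.mem_ker, hker]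
        exact Subgroup.npow_mem_zpowers z i
      have h3 : (τ u)⁻¹ * z ^ i = z ^ i * (τ u)⁻¹ := by
        have : Commute z (τ u)⁻¹ := hzc _
        exact (this.pow_left i).eq.symm
      simp only [f, g0, h2, Subgroup.coe_pow]
      rw [h3]
      simp
    simp only [a, h1, map_pow, hth, nrm]
    rw [← Finset.prod_pow]
    refine Finset.prod_congr rfl fun u _ => ?_
    exact map_pow (MulDistribMulAction.toMonoidHom B u) b i

end hom

section norm

variable {p : ℕ} [Fact p.Prime] {G B P P' : Type*} [Group G] [CommGroup B]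
    [Group P] [Fintype P] [Group P'] [MulDistribMulAction P B]

/-- `N_c` -/
noncomputable def Nc (p : ℕ) {B : Type*} [Group B] (c : B) : MonoidAlgebra (ZMod p) B :=
  ∑ i ∈ range p, gr p (c ^ i)

lemma W_zero {Γ : Type*} [Group Γ] (W : WFun p Γ) : 0 ≤ W.f 0 := by
  have h := W.add 0 0
  rw [add_zero] at h
  linarith

lemma W_nonneg {Γ : Type*} [Group Γ] (W : WFun p Γ) (a) : 0 ≤ W.f a := by
  have h := W.add a (-a)
  have h2 := W.neg a
  have h3 := W_zero W
  rw [add_neg_cancel] at h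
  linarith

lemma W_sum {Γ : Type*} [Group Γ] (W : WFun p Γ) {ι : Type*} (s : Finset ι) (F : ι → MonoidAlgebra (ZMod p) Γ)
    (hs : s.Nonempty) : W.f (∑ i ∈ s, F i) ≤ ∑ i ∈ s, W.f (F i) := by
  classical
  induction hs using Finset.Nonempty.cons_induction with
  | singleton a => simp
  | cons a s ha hs ih =>
    rw [Finset.sum_cons, Finset.sum_cons]
    exact (W.add _ _).trans (by linarith)

/-- the norm trick -/
lemma norm_trick (φ : P' →* P) (z : P') [Fintype P']
    (hker : φ.ker = Subgroup.zpowers z) (hzo : orderOf z = p)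
    (j : B →* G) (ρ : P →* G) (hj : ∀ u b, ρ u * j b * (ρ u)⁻¹ = j (u • b)) (c : B)
    (ρ' : P' →* G) (a : P' → B) (h1 : ∀ x', ρ' x' = j (a x') * ρ (φ x'))
    (h2 : ∀ i : ℕ, a (z ^ i) = c ^ i)
    {Γ : Type*} [Group Γ] (q : G →* Γ) (W : WFun p Γ) [DecidableEq P] (s : P → B) (Y : Finset P) :
    W.f (∑ x' : P', grMap (q.comp j) (gr p (a x') *
      ∏ y ∈ Y, (gr p (φ x' • s y) - gr p (y • s y))) * gr p (q (ρ (φ x')))) ≤
      2 ^ (#Y) * W.f (∑ x' : P', gr p (q (ρ' x'))) := by
  classical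
  induction Y using Finset.induction_on with
  | empty =>
    simp only [Finset.prod_empty, mul_one, Finset.card_empty, pow_zero, one_mul]
    apply le_of_eq
    congr 1
    refine Finset.sum_congr rfl fun x' _ => ?_
    rw [h1, map_mul, map_mul, grMap_gr]
    rfl
  | insert y Y hy ih =>
    set E := ∑ x' : P', grMap (q.comp j) (gr p (a x') *
      ∏ y ∈ Y, (gr p (φ x' • s y) - gr p (y • s y))) * gr p (q (ρ (φ x'))) with hE
    have key : (∑ x' : P', grMap (q.comp j) (gr p (a x') *
      ∏ y ∈ insert y Y, (gr p (φ x' • s y) - gr p (y • s y))) * gr p (q (ρ (φ x')))) =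
      E * gr p (q (j (s y))) + - (gr p (q (j (y • s y))) * E) := by
      rw [hE, Finset.sum_mul, Finset.mul_sum, ← Finset.sum_neg_distrib, ← Finset.sum_add_distrib]
      refine Finset.sum_congr rfl fun x' _ => ?_
      rw [Finset.prod_insert hy]
      have e1 : gr p (q (ρ (φ x'))) * gr p (q (j (s y))) =
          grMap (q.comp j) (gr p (φ x' • s y)) * gr p (q (ρ (φ x'))) := by
        rw [grMap_gr, ← map_mul, ← map_mul, MonoidHom.comp_apply, ← hj, ← map_mul, ← map_mul]
        congr 2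
        group
      have e2 : gr p (q (j (y • s y))) = grMap (q.comp j) (gr p (y • s y)) := by
        rw [grMap_gr]; rfl
      rw [mul_assoc (grMap (q.comp j) (gr p (a x') *
      ∏ y ∈ Y, (gr p (φ x' • s y) - gr p (y • s y)))), e1, e2]
      have e3 : gr p (a x') * ((gr p (φ x' • s y) - gr p (y • s y)) *
          ∏ y ∈ Y, (gr p (φ x' • s y) - gr p (y • s y))) =
          (gr p (a x') * ∏ y ∈ Y, (gr p (φ x' • s y) - gr p (y • s y))) * gr p (φ x' • s y) -
          gr p (y • s y) * (gr p (a x') * ∏ y ∈ Y, (gr p (φ x' • s y) - gr p (y • s y))) := by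
        ring
      rw [e3, map_sub, sub_mul, map_mul (grMap (q.comp j)) _ (gr p (φ x' • s y)),
        map_mul (grMap (q.comp j)) (gr p (y • s y)) _, mul_assoc, mul_assoc, sub_eq_add_neg]
    rw [key, Finset.card_insert_of_notMem hy, pow_succ]
    have e3 := W.add (E * gr p (q (j (s y)))) (- (gr p (q (j (y • s y))) * E))
    have e4 := W.neg (gr p (q (j (y • s y))) * E)
    have e5 := W.gr_mul (q (j (y • s y))) E
    have e6 := W.mul E (gr p (q (j (s y))))
    linarith

/-- the norm trick, final form -/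
lemma norm_trick' (φ : P' →* P) (z : P') [Fintype P']
    (hker : φ.ker = Subgroup.zpowers z) (hzo : orderOf z = p)
    (j : B →* G) (ρ : P →* G) (hj : ∀ u b, ρ u * j b * (ρ u)⁻¹ = j (u • b)) (c : B)
    (ρ' : P' →* G) (a : P' → B) (h1 : ∀ x', ρ' x' = j (a x') * ρ (φ x'))
    (h2 : ∀ i : ℕ, a (z ^ i) = c ^ i)
    {Γ : Type*} [Group Γ] (q : G →* Γ) (W : WFun p Γ) [DecidableEq P] (s : P → B) :
    W.f (grMap (q.comp j) (Nc p c * ∏ y ∈ univ.erase (1 : P), (gr p (s y) - gr p (y • s y)))) ≤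
      2 ^ (Fintype.card P - 1) * W.f (∑ x' : P', gr p (q (ρ' x'))) := by
  classical
  have h := norm_trick φ z hker hzo j ρ hj c ρ' a h1 h2 q W s (univ.erase (1 : P))
  rw [Finset.card_erase_of_mem (Finset.mem_univ _), Finset.card_univ] at h
  refine le_trans (le_of_eq ?_) h
  congr 1
  have e1 : ∀ x' : P', φ x' ≠ 1 → ∏ y ∈ univ.erase (1 : P), (gr p (φ x' • s y) - gr p (y • s y)) = 0 := by
    intro x' hx'
    apply Finset.prod_eq_zero (i := φ x')
    · simp [hx']
    · rw [sub_self]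
  -- restrict to powers of z
  have hp : 0 < p := (Fact.out : p.Prime).pos
  have e2 : (∑ x' : P', grMap (q.comp j) (gr p (a x') *
      ∏ y ∈ univ.erase (1 : P), (gr p (φ x' • s y) - gr p (y • s y))) * gr p (q (ρ (φ x')))) =
      ∑ x' ∈ (range p).image (fun i => z ^ i), grMap (q.comp j) (gr p (a x') *
      ∏ y ∈ univ.erase (1 : P), (gr p (φ x' • s y) - gr p (y • s y))) * gr p (q (ρ (φ x'))) := by
    symm
    apply Finset.sum_subset (Finset.subset_univ _)
    intro x' _ hx'
    have h3 : φ x' ≠ 1 := by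
      intro h4
      apply hx'
      rw [← MonoidHom.mem_ker, hker] at h4
      rw [← hzo]
      exact (mem_zpowers_iff_mem_range_orderOf (x := z)).mp h4
    rw [e1 _ h3, mul_zero, map_zero, zero_mul]
  rw [e2, Finset.sum_image]
  · rw [Nc, Finset.sum_mul, map_sum]
    refine Finset.sum_congr rfl fun i _ => ?_
    have h5 : φ (z ^ i) = 1 := by
      rw [← MonoidHom.mem_ker, hker]
      exact Subgroup.npow_mem_zpowers z i
    rw [h5, h2]
    simp
  · intro i hi k hk hik
    have hi' : i < p := by simpa using hi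
    have hk' : k < p := by simpa using hk
    exact pow_injOn_Iio_orderOf (by simpa [hzo] using hi') (by simpa [hzo] using hk') hik

end norm

section elem

/-- a function `n : P → ZMod p` with `n (y * w) = n w + 1` -/
lemma exists_n {p : ℕ} [Fact p.Prime] {P : Type*} [Group P] (hP : IsPGroup p P) [Finite P] (y : P)
    (hy : y ≠ 1) :
    ∃ n : P → ZMod p, ∀ w, n (y * w) = n w + 1 := by
  classical
  have hp : p.Prime := Fact.out
  let H : Subgroup P := Subgroup.zpowers y
  let g0 : H := ⟨y, Subgroup.mem_zpowers y⟩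
  have hg0 : ∀ x, x ∈ Subgroup.zpowers g0 := by
    rintro ⟨x, i, rfl⟩
    exact ⟨i, Subtype.ext (by simp [g0])⟩
  have hdvd : p ∣ orderOf y := by
    obtain ⟨k, hk⟩ := hP y
    obtain ⟨m, hm, hm2⟩ := (Nat.dvd_prime_pow hp).mp (orderOf_dvd_of_pow_eq_one hk)
    rw [hm2]
    apply dvd_pow_self
    rintro rfl
    rw [pow_zero, orderOf_eq_one_iff] at hm2
    exact hy hm2
  have hord : orderOf (Multiplicative.ofAdd (1 : ZMod p)) ∣ orderOf g0 := by
    have h1 : orderOf g0 = orderOf y := by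
      rw [← Subgroup.orderOf_coe]
    rw [h1, orderOf_ofAdd_eq_addOrderOf, ZMod.addOrderOf_one]
    exact hdvd
  let χ : H →* Multiplicative (ZMod p) := monoidHomOfForallMemZpowers hg0 hord
  have hχ : χ g0 = Multiplicative.ofAdd (1 : ZMod p) := monoidHomOfForallMemZpowers_apply_gen hg0 hord
  let r : P → P := fun w => (Quotient.mk (QuotientGroup.rightRel H) w).out
  have hr : ∀ w, w * (r w)⁻¹ ∈ H := by
    intro w
    have h1 : (QuotientGroup.rightRel H) (r w) w := Quotient.mk_out (s := QuotientGroup.rightRel H) w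
    rwa [QuotientGroup.rightRel_apply] at h1
  have hr2 : ∀ w, r (y * w) = r w := by
    intro w
    show (Quotient.mk (QuotientGroup.rightRel H) (y * w)).out =
      (Quotient.mk (QuotientGroup.rightRel H) w).out
    congr 1
    apply Quotient.sound (s := QuotientGroup.rightRel H)
    show (QuotientGroup.rightRel H) (y * w) w
    rw [QuotientGroup.rightRel_apply]
    have : w * (y * w)⁻¹ = y⁻¹ := by group
    rw [this]
    exact H.inv_mem (Subgroup.mem_zpowers y)
  refine ⟨fun w => (χ ⟨w * (r w)⁻¹, hr w⟩).toAdd, fun w => ?_⟩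
  have h2 : (⟨y * w * (r (y * w))⁻¹, hr (y * w)⟩ : H) = g0 * ⟨w * (r w)⁻¹, hr w⟩ := by
    apply Subtype.ext
    simp only [g0, Subgroup.coe_mul, hr2]
    group
  simp only [h2]
  rw [map_mul, hχ, toAdd_mul, toAdd_ofAdd, add_comm]

variable {p : ℕ} [Fact p.Prime] {B P : Type*} [CommGroup B]
    [Group P] [Fintype P] [MulDistribMulAction P B]

/-- the element `s_y` -/
lemma exists_s (hP : IsPGroup p P) (hB : ∀ b : B, b ^ p = 1) (y : P) (hy : y ≠ 1) (α : B) :
    ∃ s : B, y • s = s * (nrm P α)⁻¹ := by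
  classical
  obtain ⟨n, hn⟩ := exists_n (p := p) hP y hy
  have : NeZero p := ⟨(Fact.out : p.Prime).ne_zero⟩
  have hBm : ∀ (b : B) (k : ℕ), b ^ (k % p) = b ^ k := by
    intro b k
    conv_rhs => rw [← Nat.mod_add_div k p, pow_add, pow_mul, hB, one_pow, mul_one]
  refine ⟨∏ w : P, (w • α) ^ (n w).val, ?_⟩
  have h1 : y • (∏ w : P, (w • α) ^ (n w).val) = ∏ w : P, ((y * w) • α) ^ (n w).val := by
    rw [show y • (∏ w : P, (w • α) ^ (n w).val) = ∏ w : P, y • ((w • α) ^ (n w).val) from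
      map_prod (MulDistribMulAction.toMonoidHom B y) _ _]
    refine Finset.prod_congr rfl fun w _ => ?_
    rw [smul_pow', smul_smul]
  rw [h1, eq_mul_inv_iff_mul_eq]
  have h2 : nrm P α = ∏ w : P, (y * w) • α := by
    unfold nrm
    exact (Fintype.prod_equiv (Equiv.mulLeft y) _ _ (fun w => rfl)).symm
  rw [h2, ← Finset.prod_mul_distrib]
  refine Fintype.prod_equiv (Equiv.mulLeft y) _ _ (fun w => ?_)
  simp only [Equiv.coe_mulLeft]
  rw [← pow_succ, ← hBm _ ((n w).val + 1), hn]
  congr 1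
  rw [ZMod.val_add, ZMod.val_one_eq_one_mod, Nat.add_mod_mod]

/-- product formula for `s_y` -/
lemma prod_s (s α : P → B) (hs : ∀ y, y ≠ 1 → y • s y = s y * (nrm P (α y))⁻¹) [DecidableEq P] :
    ∃ g : B, ∏ y ∈ univ.erase (1 : P), (gr p (s y) - gr p (y • s y)) =
      gr p g * ∏ y ∈ univ.erase (1 : P), (gr p (nrm P (α y)) - 1) := by
  refine ⟨∏ y ∈ univ.erase (1 : P), (s y * (nrm P (α y))⁻¹), ?_⟩
  rw [map_prod, ← Finset.prod_mul_distrib]
  refine Finset.prod_congr rfl fun y hy => ?_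
  rw [hs y (Finset.ne_of_mem_erase hy), mul_sub, mul_one, ← map_mul, inv_mul_cancel_right]

/-- the identity with powers: signed sum of the `N_{c_S}` -/
lemma sum_signed {m : ℕ} (c : Fin m → B) :
    ∑ i ∈ range p, ∏ l, (gr p (c l ^ i) - 1) =
      ∑ S : Finset (Fin m), (-1) ^ (m - #S) * Nc p (∏ l ∈ S, c l) := by
  classical
  have h1 : ∀ i : ℕ, ∏ l, (gr p (c l ^ i) - 1) =
      ∑ S : Finset (Fin m), (-1) ^ (m - #S) * gr p ((∏ l ∈ S, c l) ^ i) := by
    intro i
    simp only [sub_eq_add_neg]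
    rw [Finset.prod_add]
    rw [Finset.powerset_univ]
    refine Finset.sum_congr rfl fun S _ => ?_
    rw [Finset.prod_const, ← Finset.prod_pow, map_prod, mul_comm]
    congr 2
    rw [Finset.card_sdiff_of_subset (Finset.subset_univ _)]
    simp
  simp only [h1]
  rw [Finset.sum_comm]
  refine Finset.sum_congr rfl fun S _ => ?_
  rw [Nc, Finset.mul_sum]

/-- the unit `v` -/
lemma exists_v [Finite B] (hB : ∀ b : B, b ^ p = 1) (c : Fin (p - 1) → B) :
    ∃ v w : MonoidAlgebra (ZMod p) B, v * w = 1 ∧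
      ∑ i ∈ range p, ∏ l, (gr p (c l ^ i) - 1) = (∏ l, (gr p (c l) - 1)) * v := by
  classical
  have hp : p.Prime := Fact.out
  refine ⟨∑ i ∈ range p, ∏ l, (∑ k ∈ range i, gr p (c l) ^ k), ?_⟩
  have hBp : IsPGroup p B := fun b => ⟨1, by rw [pow_one]; exact hB b⟩
  obtain ⟨N, hN⟩ := augPow_nilpotent hBp
  set v : MonoidAlgebra (ZMod p) B := ∑ i ∈ range p, ∏ l, (∑ k ∈ range i, gr p (c l) ^ k) with hv
  have haug : aug p B v = -1 := by
    rw [hv, map_sum]
    simp only [map_prod, map_sum, map_pow, aug_gr, one_pow, Finset.sum_const, Finset.card_range,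
      Finset.prod_const, Finset.card_univ, Fintype.card_fin, nsmul_eq_mul, mul_one]
    have hm : range p = range ((p - 1) + 1) := by
      congr 1; have := hp.pos; omega
    rw [hm, Finset.sum_range_succ']
    have h1 : ∀ i ∈ range (p - 1), (((i + 1 : ℕ) : ZMod p)) ^ (p - 1) = 1 := by
      intro i hi
      apply ZMod.pow_card_sub_one_eq_one
      rw [Ne, ZMod.natCast_eq_zero_iff]
      intro h
      have h2 := Nat.le_of_dvd (by omega) h
      have h3 : i < p - 1 := by simpa using hi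
      omega
    rw [Finset.sum_congr rfl h1]
    have h2 : p - 1 ≠ 0 := by have := hp.two_le; omega
    simp only [Nat.cast_zero, zero_pow h2, add_zero, Finset.sum_const, Finset.card_range,
      nsmul_eq_mul, mul_one]
    rw [Nat.cast_sub hp.pos]
    simp
  -- v is a unit
  have hu : IsUnit v := by
    have h1 : v = (v + 1) - 1 := by ring
    have h2 : IsNilpotent (v + 1) := by
      have h3 : v + 1 ∈ augPow p B 1 := by
        rw [mem_augPow_one_iff, map_add, map_one, haug]; ring
      refine ⟨N, ?_⟩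
      have h4 : ∀ k : ℕ, (v + 1) ^ k ∈ augPow p B k := by
        intro k
        induction k with
        | zero => rw [pow_zero]; exact one_mem_augPow
        | succ k ih => rw [pow_succ]; exact augPow_mul ih h3
      have h5 := h4 N
      rw [hN] at h5
      simpa using h5
    rw [h1]
    have := h2.isUnit_sub_one
    exact this
  obtain ⟨w, hw⟩ := hu.exists_right_inv
  refine ⟨w, hw, ?_⟩
  rw [hv, Finset.mul_sum]
  refine Finset.sum_congr rfl fun i _ => ?_
  rw [← Finset.prod_mul_distrib]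
  refine Finset.prod_congr rfl fun l _ => ?_
  rw [mul_geom_sum, map_pow]

end elem

end KK

open KK in
/-- main algebraic statement.  `P'` is a central extension of the finite `p`-group `P` by
`⟨z⟩` of order `p`; `B` is a finite elementary abelian group on which `P` acts, mapped to `G` by `j`
equivariantly for `ρ : P → G`.  Every `β : B` gives a homomorphism `ρ' β : P' → G` lifting `ρ ∘ φ`
modulo `j B`; and the product `∏ (N α_l - 1)` (`N α = ∏ u, u • α`) over `(p - 1) + (|P| - 1)`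
factors is bounded by the norm element of one of the `ρ' β`. -/
theorem kk_main {p : ℕ} [Fact p.Prime] {G B P P' : Type*} [Group G] [CommGroup B] [Finite B]
    [Group P] [Fintype P] [Group P'] [Fintype P'] [MulDistribMulAction P B]
    (hP : IsPGroup p P) (hB : ∀ b : B, b ^ p = 1)
    (φ : P' →* P) (hφ : Function.Surjective φ) (z : P') (hzc : ∀ x, z * x = x * z)
    (hker : φ.ker = Subgroup.zpowers z) (hzo : orderOf z = p)
    (j : B →* G) (ρ : P →* G) (hj : ∀ u b, ρ u * j b * (ρ u)⁻¹ = j (u • b)) :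
    ∃ ρ' : B → (P' →* G), (∀ β x', ∃ b : B, ρ' β x' = j b * ρ (φ x')) ∧
      ∀ {Γ : Type*} [Group Γ] (q : G →* Γ) (W : WFun p Γ)
        (α : Fin ((p - 1) + (Fintype.card P - 1)) → B),
        ∃ β : B, W.f (grMap (q.comp j) (∏ l, (gr p (∏ u : P, u • α l) - 1))) ≤
          2 ^ (Fintype.card P - 1) * 2 ^ (p - 1) * W.f (∑ x' : P', gr p (q (ρ' β x'))) := by
  classical
  choose ρ' a h1 h2 using fun β : B => exists_hom hB φ hφ z hzc hker hzo j ρ hj β
  refine ⟨ρ', fun β x' => ⟨a β x', h1 β x'⟩, ?_⟩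
  intro Γ _ q W α
  set α₁ : Fin (p - 1) → B := fun l => α (Fin.castAdd _ l) with hα₁
  set α₂ : Fin (Fintype.card P - 1) → B := fun l => α (Fin.natAdd _ l) with hα₂
  have hcard : #(univ.erase (1 : P)) = Fintype.card P - 1 := by
    rw [Finset.card_erase_of_mem (Finset.mem_univ _), Finset.card_univ]
  set e := Finset.equivFinOfCardEq hcard with he
  set αP : P → B := fun y => if h : y ∈ univ.erase (1 : P) then α₂ (e ⟨y, h⟩) else 1 with hαP
  set D : MonoidAlgebra (ZMod p) B := ∏ y ∈ univ.erase (1 : P), (gr p (nrm P (αP y)) - 1) with hD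
  have hDe : ∏ l, (gr p (nrm P (α₂ l)) - 1) = D := by
    rw [hD]
    refine Eq.trans ?_ (Finset.prod_attach (univ.erase (1 : P))
      (fun y => gr p (nrm P (αP y)) - 1))
    have h3 : ∀ y : {y // y ∈ univ.erase (1 : P)}, (gr p (nrm P (αP y)) - 1) =
        (fun l => gr p (nrm P (α₂ l)) - 1) (e y) := by
      rintro ⟨y, hy⟩
      simp only [hαP, hy, dif_pos]
    exact (Fintype.prod_equiv e (fun y => gr p (nrm P (αP y)) - 1)
      (fun l => gr p (nrm P (α₂ l)) - 1) h3).symm
  have hs : ∀ y : P, ∃ s : B, y ≠ 1 → y • s = s * (nrm P (αP y))⁻¹ := by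
    intro y
    by_cases hy : y = 1
    · exact ⟨1, fun h => absurd hy h⟩
    · obtain ⟨s, hs⟩ := exists_s hP hB y hy (αP y)
      exact ⟨s, fun _ => hs⟩
  choose s hs using hs
  obtain ⟨g, hg⟩ := prod_s (p := p) s αP hs
  set T : B → MonoidAlgebra (ZMod p) Γ := fun β => ∑ x' : P', gr p (q (ρ' β x')) with hT
  have claim : ∀ β : B, W.f (grMap (q.comp j) (Nc p (nrm P β) * D)) ≤
      2 ^ (Fintype.card P - 1) * W.f (T β) := by
    intro β
    have h3 := norm_trick' φ z hker hzo j ρ hj (nrm P β) (ρ' β) (a β) (h1 β) (h2 β) q W s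
    rw [hg] at h3
    refine le_trans ?_ h3
    have h4 : grMap (q.comp j) (Nc p (nrm P β) * D) = gr p (q (j g⁻¹)) *
        grMap (q.comp j) (Nc p (nrm P β) * (gr p g * D)) := by
      have h5 : gr p (q (j g⁻¹)) = grMap (q.comp j) (gr p g⁻¹) := by rw [grMap_gr]; rfl
      rw [h5, ← map_mul]
      congr 1
      have h6 := gr_inv_mul (p := p) g
      calc Nc p (nrm P β) * D = Nc p (nrm P β) * ((gr p g⁻¹ * gr p g) * D) := by rw [h6, one_mul]
        _ = _ := by ring
    rw [h4]
    exact W.gr_mul _ _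
  obtain ⟨v, w, hvw, hv⟩ := exists_v (p := p) hB (fun l => nrm P (α₁ l))
  rw [sum_signed] at hv
  -- best subset
  obtain ⟨S₀, -, hS₀⟩ := Finset.exists_max_image (Finset.univ : Finset (Finset (Fin (p - 1))))
    (fun S => W.f (T (∏ l ∈ S, α₁ l))) Finset.univ_nonempty
  refine ⟨∏ l ∈ S₀, α₁ l, ?_⟩
  have e1 : (∏ l, (gr p (∏ u : P, u • α l) - 1)) = (∏ l, (gr p (nrm P (α₁ l)) - 1)) * D := by
    rw [Fin.prod_univ_add, ← hDe]
    rfl
  have e2 : grMap (q.comp j) ((∏ l, (gr p (nrm P (α₁ l)) - 1)) * D) =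
      grMap (q.comp j) (∑ S : Finset (Fin (p - 1)),
        ((-1) ^ (p - 1 - #S) * Nc p (∏ l ∈ S, nrm P (α₁ l))) * D) *
      grMap (q.comp j) w := by
    rw [← map_mul]
    congr 1
    rw [← Finset.sum_mul, hv]
    calc (∏ l, (gr p (nrm P (α₁ l)) - 1)) * D = (∏ l, (gr p (nrm P (α₁ l)) - 1)) * (v * w) * D := by
          rw [hvw, mul_one]
      _ = _ := by ring
  have hneg : ∀ (k : ℕ) (x : MonoidAlgebra (ZMod p) B),
      W.f (grMap (q.comp j) ((-1) ^ k * x)) ≤ W.f (grMap (q.comp j) x) := by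
    intro k x
    rcases neg_one_pow_eq_or (MonoidAlgebra (ZMod p) B) k with h | h
    · rw [h, one_mul]
    · rw [h, neg_one_mul, map_neg]
      exact W.neg _
  calc W.f (grMap (q.comp j) (∏ l, (gr p (∏ u : P, u • α l) - 1)))
      = W.f (grMap (q.comp j) (∑ S : Finset (Fin (p - 1)),
        ((-1) ^ (p - 1 - #S) * Nc p (∏ l ∈ S, nrm P (α₁ l))) * D) *
      grMap (q.comp j) w) := by rw [e1, e2]
    _ ≤ W.f (grMap (q.comp j) (∑ S : Finset (Fin (p - 1)),
        ((-1) ^ (p - 1 - #S) * Nc p (∏ l ∈ S, nrm P (α₁ l))) * D)) := W.mul _ _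
    _ = W.f (∑ S : Finset (Fin (p - 1)), grMap (q.comp j)
        (((-1) ^ (p - 1 - #S) * Nc p (∏ l ∈ S, nrm P (α₁ l))) * D)) := by rw [map_sum]
    _ ≤ ∑ S : Finset (Fin (p - 1)), W.f (grMap (q.comp j)
        (((-1) ^ (p - 1 - #S) * Nc p (∏ l ∈ S, nrm P (α₁ l))) * D)) :=
        W_sum W _ _ Finset.univ_nonempty
    _ ≤ ∑ S : Finset (Fin (p - 1)), 2 ^ (Fintype.card P - 1) * W.f (T (∏ l ∈ S₀, α₁ l)) := by
        refine Finset.sum_le_sum fun S _ => ?_
        rw [mul_assoc]
        refine (hneg _ _).trans ?_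
        rw [← nrm_prod]
        refine (claim _).trans ?_
        exact mul_le_mul_of_nonneg_left (hS₀ S (Finset.mem_univ _)) (by positivity)
    _ = 2 ^ (Fintype.card P - 1) * 2 ^ (p - 1) * W.f (T (∏ l ∈ S₀, α₁ l)) := by
        rw [Finset.sum_const, Finset.card_univ, Fintype.card_finset, Fintype.card_fin,
          nsmul_eq_mul]
        push_cast
        ring

end GolodShaf
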