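import Mathlib

/-!
# Choice of parameters
-/

namespace GolodShaf

/-- choice of `Y`. -/
theorem exists_Y {D δ c : ℝ} (hD : 0 < D) (hδ : 0 < δ) (hc : 0 < c) (k : ℕ) :
    ∃ Y : ℝ, 0 ≤ Y ∧ (∑ i ∈ Finset.range k, (8 * D * (Y + 1) / c) ^ i) * (D * 2 ^ (-Y)) ≤ δ / 4 := by
  set A : ℝ := 1 + 8 * D / c with hA
  have hA1 : 1 ≤ A := by
    have : 0 ≤ 8 * D / c := by positivity
    linarith
  have hlim := tendsto_pow_const_mul_const_pow_of_abs_lt_one k (r := (1 / 2 : ℝ))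
    (by rw [abs_of_pos (by norm_num)]; norm_num)
  have hlim2 : Filter.Tendsto (fun n : ℕ => (k * A ^ k * D * 2) *
      (((n + 1 : ℕ) : ℝ) ^ k * (1 / 2) ^ (n + 1))) Filter.atTop (nhds 0) := by
    have h1 := (hlim.comp (Filter.tendsto_add_atTop_nat 1)).const_mul (k * A ^ k * D * 2)
    rw [mul_zero] at h1
    exact h1
  have hev := hlim2.eventually (gt_mem_nhds (show (0 : ℝ) < δ / 4 by positivity))
  obtain ⟨n, hn⟩ := hev.exists
  refine ⟨n, by positivity, ?_⟩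
  refine le_trans ?_ hn.le
  have hYt : ∀ i ∈ Finset.range k, (8 * D * ((n : ℝ) + 1) / c) ^ i ≤ (A * ((n : ℝ) + 1)) ^ k := by
    intro i hi
    have h1 : (8 * D * ((n : ℝ) + 1) / c) ≤ A * ((n : ℝ) + 1) := by
      rw [hA]
      have : 8 * D * ((n : ℝ) + 1) / c = 8 * D / c * ((n : ℝ) + 1) := by ring
      rw [this]
      nlinarith [show (0 : ℝ) ≤ n from Nat.cast_nonneg n]
    have h2 : 1 ≤ A * ((n : ℝ) + 1) := by
      have : (0 : ℝ) ≤ n := Nat.cast_nonneg n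
      nlinarith
    calc (8 * D * ((n : ℝ) + 1) / c) ^ i ≤ (A * ((n : ℝ) + 1)) ^ i :=
          pow_le_pow_left₀ (by positivity) h1 i
      _ ≤ (A * ((n : ℝ) + 1)) ^ k := pow_le_pow_right₀ h2 (Finset.mem_range.mp hi).le
  have hsum := Finset.sum_le_sum hYt
  rw [Finset.sum_const, Finset.card_range, nsmul_eq_mul] at hsum
  have h3 : (2 : ℝ) ^ (-(n : ℝ)) = 2 * (1 / 2) ^ (n + 1) := by
    rw [Real.rpow_neg (by norm_num), Real.rpow_natCast, pow_succ, one_div, inv_pow]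
    ring
  have h4 := mul_le_mul_of_nonneg_right hsum
    (show 0 ≤ D * (2 : ℝ) ^ (-(n : ℝ)) by positivity)
  refine h4.trans (le_of_eq ?_)
  rw [h3, mul_pow]
  push_cast
  ring

end GolodShaf
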