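import Pool.Agent.GolodShaf.Cond

/-!
# Adding relators: the cost
-/

set_option linter.unusedSectionVars false
set_option linter.unusedVariables false
set_option linter.style.haveILetI false

namespace GolodShaf

open Module Submodule NSeries

variable {p : ℕ} [Fact p.Prime] {F : Type*} [Group F] {X : Type*} [Fintype X] [DecidableEq X]
  {x : X → F} {Op : Set (Subgroup F)}

/-- cost of adding relators at a given level -/
theorem im_normalClosure_le (hsys : FoxSys p x Op) {t : ℝ} (ht0 : 0 < t) (ht1 : t < 1)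
    {N V : Subgroup F} [N.Normal] [V.Normal] (hV : V ∈ Op) (hNV : N ≤ V) (D : FoxDer p x V)
    (R : Set F) {ι : Type*} [Fintype ι] (e : ι → (X → MonoidAlgebra (ZMod p) (F ⧸ V)))
    (deg : ι → ℕ) (he : ∀ i, e i ∈ dfil p X (F ⧸ V) (deg i) ⊔ D.im N)
    (hR : ∀ r ∈ R, r ∈ V ∧ D.d r ∈ D.im N ⊔ span (ZMod p) (Set.range e)) :
    w t (dfil p X (F ⧸ V)) (D.im (Subgroup.normalClosure ((N : Set F) ∪ R))) ≤
      w t (dfil p X (F ⧸ V)) (D.im N) + (∑ i, t ^ (deg i)) * wK t (QS p Op V) ⊤ := by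
  haveI := hsys.finite V hV
  have hG := hsys.pgroup V hV
  obtain ⟨N₁, hN₁⟩ := QS_bot hG hV
  obtain ⟨r, u, m, hu, huspan, husum⟩ := exists_adapted_E ht0 ht1 hG hN₁ (⊤ : Subgroup (F ⧸ V))
  have huaug : ∀ a, u a ∈ augPow p (F ⧸ V) (m a) := fun a => by rw [← QS_E_top hV]; exact hu a
  have hall : ∀ y : MonoidAlgebra (ZMod p) (F ⧸ V), y ∈ span (ZMod p) (Set.range u) := by
    intro y
    rw [← huspan, E_top_zero]
    trivial
  set K := D.im N with hK
  have hKstab : ∀ (a : MonoidAlgebra (ZMod p) (F ⧸ V)), ∀ m ∈ K, a • m ∈ K :=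
    fun a m hm => D.smul_mem_im hNV a hm
  set fam : Fin r × ι → (X → MonoidAlgebra (ZMod p) (F ⧸ V)) := fun a => u a.1 • e a.2 with hfam
  set T := K ⊔ span (ZMod p) (Set.range fam) with hT
  have hye : ∀ (y : MonoidAlgebra (ZMod p) (F ⧸ V)) (i : ι), y • e i ∈ T := by
    intro y i
    have hy := hall y
    rw [Submodule.mem_span_range_iff_exists_fun] at hy
    obtain ⟨c, rfl⟩ := hy
    rw [Finset.sum_smul]
    apply Submodule.sum_mem
    intro a _
    rw [smul_assoc]
    apply Submodule.smul_mem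
    apply Submodule.mem_sup_right
    exact Submodule.subset_span ⟨(a, i), rfl⟩
  have hTstab : ∀ (a : MonoidAlgebra (ZMod p) (F ⧸ V)), ∀ m ∈ T, a • m ∈ T := by
    intro y z hz
    have h1 : T ≤ T.comap (lact y) := by
      apply sup_le
      · intro k hk
        exact Submodule.mem_sup_left (hKstab y k hk)
      · apply Submodule.span_le.mpr
        rintro _ ⟨a, rfl⟩
        show y • (u a.1 • e a.2) ∈ T
        rw [← mul_smul]
        exact hye _ _
    exact h1 hz
  have hsub : Subgroup.normalClosure ((N : Set F) ∪ R) ≤ D.sub T := by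
    haveI := D.sub_normal hTstab
    apply Subgroup.normalClosure_le_normal
    rintro g (hg | hg)
    · exact ⟨hNV hg, Submodule.mem_sup_left (D.d_mem_im hg)⟩
    · refine ⟨(hR g hg).1, ?_⟩
      have h1 : K ⊔ span (ZMod p) (Set.range e) ≤ T := by
        apply sup_le le_sup_left
        apply Submodule.span_le.mpr
        rintro _ ⟨i, rfl⟩
        have := hye 1 i
        rwa [one_smul] at this
      exact h1 (hR g hg).2
  have him : D.im (Subgroup.normalClosure ((N : Set F) ∪ R)) ≤ T := by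
    apply Submodule.span_le.mpr
    rintro _ ⟨g, hg, rfl⟩
    exact (hsub hg).2
  have h1 := w_le_of_le_sup_span (dfil p X (F ⧸ V)) dfil_anti ht0 ht1 fam
    (fun a => m a.1 + deg a.2) (by
      rintro ⟨a, i⟩
      obtain ⟨y, hy, k, hk, hyk⟩ := Submodule.mem_sup.mp (he i)
      simp only [hfam]
      rw [← hyk, smul_add]
      apply add_mem
      · exact Submodule.mem_sup_right (smul_mem_dfil (huaug a) hy)
      · exact Submodule.mem_sup_left (hKstab _ _ hk)) him
  refine h1.trans ?_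
  have h2 : ∑ a : Fin r × ι, t ^ (m a.1 + deg a.2) = (∑ i, t ^ (deg i)) * ∑ a, t ^ (m a) := by
    rw [Fintype.sum_prod_type, Finset.sum_mul_sum, Finset.sum_comm]
    refine Finset.sum_congr rfl (fun i _ => Finset.sum_congr rfl (fun a _ => ?_))
    rw [pow_add, mul_comm]
  rw [h2]
  have h3 : (∑ i, t ^ (deg i)) * ∑ a, t ^ (m a) ≤
      (∑ i, t ^ (deg i)) * wK t (QS p Op V) ⊤ :=
    mul_le_mul_of_nonneg_left husum (Finset.sum_nonneg (fun _ _ => by positivity))
  linarith

/-- the relators added in the central extension step -/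
def Rels (p : ℕ) {F : Type*} [Group F] (K₀ Vr : Subgroup F) {l : ℕ} (s : Fin l → F) : Set F :=
  {g | (∃ i j, ∃ v ∈ K₀, g = s i * (v * s j * v⁻¹) * (s i)⁻¹ * (v * s j * v⁻¹)⁻¹) ∨
    (∃ i, ∃ z ∈ K₀, z ∈ Vr ∧ g = z * s i * z⁻¹ * (s i)⁻¹) ∨ (∃ i, g = (s i) ^ p)}

/-- the linear extension of `g ↦ g s g⁻¹ - 1`. -/
theorem exists_conj_linear {Γ : Type*} [Group Γ] {S : NSeries p Γ}
    (hS : ∀ n, S.E ⊤ n = augPow p Γ n) {s : Γ} {n : ℕ} (hs : gr p s - 1 ∈ augPow p Γ n) :
    ∃ L : MonoidAlgebra (ZMod p) Γ →ₗ[ZMod p] MonoidAlgebra (ZMod p) Γ,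
      (∀ g, L (gr p g) = gr p (g * s * g⁻¹) - 1) ∧
      ∀ m y, y ∈ augPow p Γ m → L y ∈ augPow p Γ (m + n) := by
  let L : MonoidAlgebra (ZMod p) Γ →ₗ[ZMod p] MonoidAlgebra (ZMod p) Γ :=
    (MonoidAlgebra.basis Γ (ZMod p)).constr (ZMod p) (fun g => gr p (g * s * g⁻¹) - 1)
  have hL : ∀ g, L (gr p g) = gr p (g * s * g⁻¹) - 1 := by
    intro g
    have : gr p g = MonoidAlgebra.basis Γ (ZMod p) g := by
      rw [MonoidAlgebra.basis_apply, gr_apply]
    rw [this]
    simp only [L]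
    rw [Module.Basis.constr_basis]
  have hLmul : ∀ g y, L (gr p g * y) = gr p g * L y * gr p g⁻¹ := by
    intro g y
    have hy : y ∈ Submodule.span (ZMod p) (Set.range (gr p : Γ → _)) := by rw [span_gr]; trivial
    induction hy using Submodule.span_induction with
    | mem y hy =>
      obtain ⟨h, rfl⟩ := hy
      rw [← map_mul, hL, hL, mul_sub, sub_mul, mul_one, gr_mul_inv, ← map_mul, ← map_mul]
      congr 2
      group
    | zero => simp
    | add y z _ _ hy hz => rw [mul_add, map_add, map_add, hy, hz, mul_add, add_mul]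
    | smul c y _ hy => rw [mul_smul_comm, map_smul, map_smul, hy, mul_smul_comm, smul_mul_assoc]
  refine ⟨L, hL, ?_⟩
  intro m y hy
  unfold augPow at hy
  induction hy using Submodule.span_induction with
  | mem y hy =>
    obtain ⟨l, hl, rfl⟩ := hy
    have key : ∀ l : List Γ, L (l.map (fun g => gr p g - 1)).prod ∈
        augPow p Γ (l.length + n) := by
      intro l
      induction l with
      | nil =>
        simp only [List.map_nil, List.prod_nil, List.length_nil, zero_add]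
        have h1 : L 1 = gr p s - 1 := by
          have := hL 1
          rw [map_one] at this
          rw [this]
          simp
        rw [h1]
        exact hs
      | cons g l ih =>
        simp only [List.map_cons, List.prod_cons, List.length_cons]
        set P := (l.map (fun g => gr p g - 1)).prod with hP
        rw [sub_mul, one_mul, map_sub, hLmul]
        have e : gr p g * L P * gr p g⁻¹ - L P = (gr p g - 1) * L P * gr p g⁻¹ +
            L P * (gr p g⁻¹ - 1) := by
          rw [sub_mul, sub_mul, one_mul, mul_sub, mul_one]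
          abel
        rw [e]
        apply add_mem
        · have := augPow_mul (sub_one_mem_augPow (p := p) g) ih
          have e2 : 1 + (l.length + n) = l.length + 1 + n := by ring
          rw [e2] at this
          exact augPow_mul_right this
        · have := augPow_mul ih (sub_one_mem_augPow (p := p) g⁻¹)
          have e2 : l.length + n + 1 = l.length + 1 + n := by ring
          rwa [e2] at this
    exact augPow_anti (by omega) (key l)
  | zero => rw [map_zero]; exact zero_mem _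
  | add y z _ _ hy hz => rw [map_add]; exact add_mem hy hz
  | smul c y _ hy => rw [map_smul]; exact Submodule.smul_mem _ _ hy

/-- **thinness after adding the relators** -/
theorem thin_relators (hsys : FoxSys p x Op) {t : ℝ} (ht0 : 0 < t) (ht1 : t < 1)
    {N Vr : Subgroup F} [N.Normal] [Vr.Normal] (hVr : Vr ∈ Op) (hN : N ≤ Vr)
    {Dr : FoxDer p x Vr} (hDr : Dr.Cont Op) (K₀ : Subgroup F) {κ : ℝ} (hκ : 0 < κ)
    (hK1 : κ / 2 ≤ wK t (QS p Op Vr) (K₀.map (QuotientGroup.mk' Vr)))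
    (hK2 : ∀ V ∈ Op, ∀ [V.Normal], N ≤ V → V ≤ Vr →
      wK t (QS p Op V) (K₀.map (QuotientGroup.mk' V)) ≤ κ)
    {β : ℝ} (hthin : Thin p x Op t N Vr β) {l : ℕ} (s : Fin l → F) (n : Fin l → ℕ)
    (hsV : ∀ i, s i ∈ Vr) (hsD : ∀ i, s i ∈ DF p Op (n i)) {g₀ : ℝ} (hg₀ : ∑ i, t ^ (n i) ≤ g₀) :
    Thin p x Op t (Subgroup.normalClosure ((N : Set F) ∪ Rels p K₀ Vr s)) (Dr.sub (Dr.im N))
      (β + (κ * g₀ ^ 2 + 3 * g₀)) := by
  have hp : p.Prime := Fact.out
  intro V hV _ D hD hNV hVV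
  have hVVr : V ≤ Vr := hVV.trans Dr.sub_le
  have hNV' : N ≤ V := by
    refine le_trans ?_ hNV
    intro g hg
    exact Subgroup.subset_normalClosure (Or.inl hg)
  haveI := hsys.finite V hV
  set K := D.im N with hK
  have hKstab : ∀ (a : MonoidAlgebra (ZMod p) (F ⧸ V)), ∀ m ∈ K, a • m ∈ K :=
    fun a m hm => D.smul_mem_im hNV' a hm
  -- the level Vs
  have hVs : D.sub K ∈ Op := D.sub_mem_Op hsys hD hKstab
  haveI hVsn : (D.sub K).Normal := D.sub_normal hKstab
  set Vs := D.sub K with hVsdef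
  have hVsV : Vs ≤ V := D.sub_le
  have hNVs : N ≤ Vs := fun g hg => ⟨hNV' hg, D.d_mem_im hg⟩
  haveI := hsys.finite Vs hVs
  have hG := hsys.pgroup Vs hVs
  obtain ⟨N₁, hN₁⟩ := QS_bot hG hVs
  obtain ⟨Ψ, hΨ1, hΨ2, hΨ3⟩ := exists_psi hVsV D K hKstab (fun v hv => hv.2)
  have hΨone : Ψ 1 ∈ K := by
    have := hΨ1 1
    rwa [QuotientGroup.mk_one, map_one, D.one, sub_zero] at this
  -- adapted families
  obtain ⟨r, u, m, hu, huspan, husum⟩ := exists_adapted_E ht0 ht1 hG hN₁
    (K₀.map (QuotientGroup.mk' Vs))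
  obtain ⟨r', y, m', hy, hyspan, hysum⟩ := exists_adapted_E ht0 ht1 hG hN₁
    ((K₀ ⊓ Vr).map (QuotientGroup.mk' Vs))
  have hwK0 := hK2 Vs hVs hNVs (hVsV.trans hVVr)
  have hwZ : wK t (QS p Op Vs) ((K₀ ⊓ Vr).map (QuotientGroup.mk' Vs)) ≤ 2 := by
    haveI := hsys.finite Vr hVr
    have h1 := wK_map_mul_le (S := QS p Op Vs) (S₁ := QS p Op Vr) ht0 ht1 hG hN₁
      (qmap (hVsV.trans hVVr)) (fun n y hy => qmap_QS _ n y hy)
      (K' := (K₀ ⊓ Vr).map (QuotientGroup.mk' Vs)) (K := K₀.map (QuotientGroup.mk' Vs))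
      (Subgroup.map_mono inf_le_left) (by
        rintro _ ⟨g, hg, rfl⟩
        rw [QuotientGroup.mk'_apply, qmap_mk]
        exact (QuotientGroup.eq_one_iff g).mpr hg.2)
    have h2 : (K₀.map (QuotientGroup.mk' Vs)).map (qmap (hVsV.trans hVVr)) =
        K₀.map (QuotientGroup.mk' Vr) := by
      rw [Subgroup.map_map]
      rfl
    rw [h2] at h1
    have h3 := wK_nonneg (S := QS p Op Vs) (K := (K₀ ⊓ Vr).map (QuotientGroup.mk' Vs)) ht0 ht1
    have h4 := mul_le_mul_of_nonneg_left hK1 h3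
    by_contra hcon
    push Not at hcon
    have h5 := mul_lt_mul_of_pos_right hcon (show (0:ℝ) < κ / 2 by positivity)
    linarith
  have hsaug : ∀ i, gr p (QuotientGroup.mk (s i) : F ⧸ Vs) - 1 ∈ augPow p (F ⧸ Vs) (n i) :=
    fun i => mem_DF.mp (hsD i) Vs hVs
  choose L hL1 hL2 using fun j => exists_conj_linear (S := QS p Op Vs) (QS_E_top hVs) (hsaug j)
  set sb : Fin l → MonoidAlgebra (ZMod p) (F ⧸ Vs) :=
    fun i => gr p (QuotientGroup.mk (s i) : F ⧸ Vs) - 1 with hsb
  -- the linear maps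
  let Φ₁ : Fin l → Fin l → (MonoidAlgebra (ZMod p) (F ⧸ Vs) →ₗ[ZMod p]
      (X → MonoidAlgebra (ZMod p) (F ⧸ V))) := fun i j =>
    Ψ ∘ₗ (LinearMap.mulLeft (ZMod p) (sb i) - LinearMap.mulRight (ZMod p) (sb i)) ∘ₗ L j
  let Φ₂ : Fin l → (MonoidAlgebra (ZMod p) (F ⧸ Vs) →ₗ[ZMod p]
      (X → MonoidAlgebra (ZMod p) (F ⧸ V))) := fun i =>
    Ψ ∘ₗ (LinearMap.mulRight (ZMod p) (sb i) - LinearMap.mulLeft (ZMod p) (sb i))
  have hΦ₁ : ∀ i j z, Φ₁ i j z = Ψ (sb i * L j z - L j z * sb i) := fun i j z => rfl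
  have hΦ₂ : ∀ i z, Φ₂ i z = Ψ (z * sb i - sb i * z) := fun i z => rfl
  let ι := (Fin l × Fin l × Fin r) ⊕ ((Fin l × Fin r') ⊕ Fin l)
  let e : ι → (X → MonoidAlgebra (ZMod p) (F ⧸ V)) := Sum.elim (fun a => Φ₁ a.1 a.2.1 (u a.2.2))
    (Sum.elim (fun a => Φ₂ a.1 (y a.2)) (fun i => Ψ ((sb i) ^ p)))
  let deg : ι → ℕ := Sum.elim (fun a => n a.1 + n a.2.1 + m a.2.2)
    (Sum.elim (fun a => n a.1 + m' a.2) (fun i => p * n i))
  have hEaug : ∀ (H : Subgroup (F ⧸ Vs)) k z, z ∈ (QS p Op Vs).E H k →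
      z ∈ augPow p (F ⧸ Vs) k := by
    intro H k z hz
    rw [← QS_E_top hVs]
    exact E_mono le_top k hz
  have he : ∀ i, e i ∈ dfil p X (F ⧸ V) (deg i) ⊔ D.im N := by
    rintro (⟨i, j, a⟩ | ⟨i, a⟩ | i)
    · show Φ₁ i j (u a) ∈ dfil p X (F ⧸ V) (n i + n j + m a) ⊔ K
      rw [hΦ₁]
      apply hΨ3
      have h1 := hL2 j (m a) (u a) (hEaug _ _ _ (hu a))
      apply sub_mem
      · have := augPow_mul (hsaug i) h1
        have e1 : n i + (m a + n j) = n i + n j + m a := by ring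
        rwa [e1] at this
      · have := augPow_mul h1 (hsaug i)
        have e1 : m a + n j + n i = n i + n j + m a := by ring
        rwa [e1] at this
    · show Φ₂ i (y a) ∈ dfil p X (F ⧸ V) (n i + m' a) ⊔ K
      rw [hΦ₂]
      apply hΨ3
      have h1 := hEaug _ _ _ (hy a)
      apply sub_mem
      · have := augPow_mul h1 (hsaug i)
        rwa [add_comm] at this
      · exact augPow_mul (hsaug i) h1
    · show Ψ ((sb i) ^ p) ∈ dfil p X (F ⧸ V) (p * n i) ⊔ K
      apply hΨ3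
      have key : ∀ q : ℕ, (sb i) ^ q ∈ augPow p (F ⧸ Vs) (q * n i) := by
        intro q
        induction q with
        | zero => simpa using one_mem_augPow
        | succ q ih =>
          rw [pow_succ]
          have := augPow_mul ih (hsaug i)
          have e : q * n i + n i = (q + 1) * n i := by ring
          rwa [e] at this
      exact key p
  -- commutators
  have hcomm : ∀ a b : F, a * b * a⁻¹ * b⁻¹ ∈ V →
      D.d (a * b * a⁻¹ * b⁻¹) - Ψ (gr p (QuotientGroup.mk a : F ⧸ Vs) *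
        gr p (QuotientGroup.mk b : F ⧸ Vs) - gr p (QuotientGroup.mk b : F ⧸ Vs) *
        gr p (QuotientGroup.mk a : F ⧸ Vs)) ∈ K := by
    intro a b hab
    have h1 : D.d (a * b) = D.d (a * b * a⁻¹ * b⁻¹) + D.d (b * a) := by
      rw [← D.mul_left_mem hab]
      congr 1
      group
    have h2 := hΨ1 (a * b)
    have h3 := hΨ1 (b * a)
    rw [QuotientGroup.mk_mul, map_mul] at h2 h3
    rw [map_sub]
    have h4 := sub_mem h3 h2
    rw [h1] at h4
    convert h4 using 1
    abel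
  have hR : ∀ g ∈ Rels p K₀ Vr s, g ∈ V ∧ D.d g ∈ D.im N ⊔ span (ZMod p) (Set.range e) := by
    intro g hg
    have hgV : g ∈ V := hNV (Subgroup.subset_normalClosure (Or.inr hg))
    refine ⟨hgV, ?_⟩
    rcases hg with ⟨i, j, v, hv, rfl⟩ | ⟨i, z, hz, hzV, rfl⟩ | ⟨i, rfl⟩
    · have h1 := hcomm (s i) (v * s j * v⁻¹) hgV
      have h2 : gr p (QuotientGroup.mk (s i) : F ⧸ Vs) *
          gr p (QuotientGroup.mk (v * s j * v⁻¹) : F ⧸ Vs) -
          gr p (QuotientGroup.mk (v * s j * v⁻¹) : F ⧸ Vs) *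
          gr p (QuotientGroup.mk (s i) : F ⧸ Vs) =
          sb i * L j (gr p (QuotientGroup.mk v)) - L j (gr p (QuotientGroup.mk v)) * sb i := by
        rw [hL1, hsb, QuotientGroup.mk_mul, QuotientGroup.mk_mul, QuotientGroup.mk_inv]
        simp only [sub_mul, mul_sub, mul_one, one_mul]
        abel
      rw [h2, ← hΦ₁] at h1
      have h3 : Φ₁ i j (gr p (QuotientGroup.mk v)) ∈ span (ZMod p) (Set.range e) := by
        have h4 : gr p (QuotientGroup.mk v : F ⧸ Vs) ∈ span (ZMod p) (Set.range u) := by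
          rw [← huspan]
          exact of_mem_E ⟨v, hv, rfl⟩
        rw [Submodule.mem_span_range_iff_exists_fun] at h4
        obtain ⟨c, hc⟩ := h4
        rw [← hc, map_sum]
        apply Submodule.sum_mem
        intro a _
        rw [map_smul]
        apply Submodule.smul_mem
        exact Submodule.subset_span ⟨Sum.inl (i, j, a), rfl⟩
      have h5 := add_mem (Submodule.mem_sup_left h1 :
        _ ∈ K ⊔ span (ZMod p) (Set.range e)) (Submodule.mem_sup_right h3)
      rwa [sub_add_cancel] at h5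
    · have h1 := hcomm z (s i) hgV
      have h2 : gr p (QuotientGroup.mk z : F ⧸ Vs) *
          gr p (QuotientGroup.mk (s i) : F ⧸ Vs) -
          gr p (QuotientGroup.mk (s i) : F ⧸ Vs) *
          gr p (QuotientGroup.mk z : F ⧸ Vs) =
          gr p (QuotientGroup.mk z) * sb i - sb i * gr p (QuotientGroup.mk z) := by
        rw [hsb]
        simp only [sub_mul, mul_sub, mul_one, one_mul]
        abel
      rw [h2, ← hΦ₂] at h1
      have h3 : Φ₂ i (gr p (QuotientGroup.mk z)) ∈ span (ZMod p) (Set.range e) := by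
        have h4 : gr p (QuotientGroup.mk z : F ⧸ Vs) ∈ span (ZMod p) (Set.range y) := by
          rw [← hyspan]
          exact of_mem_E ⟨z, ⟨hz, hzV⟩, rfl⟩
        rw [Submodule.mem_span_range_iff_exists_fun] at h4
        obtain ⟨c, hc⟩ := h4
        rw [← hc, map_sum]
        apply Submodule.sum_mem
        intro a _
        rw [map_smul]
        apply Submodule.smul_mem
        exact Submodule.subset_span ⟨Sum.inr (Sum.inl (i, a)), rfl⟩
      have h5 := add_mem (Submodule.mem_sup_left h1 :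
        _ ∈ K ⊔ span (ZMod p) (Set.range e)) (Submodule.mem_sup_right h3)
      rwa [sub_add_cancel] at h5
    · have h1 := hΨ1 ((s i) ^ p)
      have h2 : gr p (QuotientGroup.mk ((s i) ^ p) : F ⧸ Vs) = (sb i) ^ p + 1 := by
        rw [hsb, sub_one_pow_p, QuotientGroup.mk_pow]
        abel
      rw [h2, map_add] at h1
      have h3 : Ψ ((sb i) ^ p) ∈ span (ZMod p) (Set.range e) :=
        Submodule.subset_span ⟨Sum.inr (Sum.inr i), rfl⟩
      have h4 : D.d ((s i) ^ p) = Ψ 1 - (Ψ ((sb i) ^ p) + Ψ 1 - D.d ((s i) ^ p)) +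
          Ψ ((sb i) ^ p) := by abel
      rw [h4]
      exact add_mem (Submodule.mem_sup_left (sub_mem hΨone h1)) (Submodule.mem_sup_right h3)
  have hfin := im_normalClosure_le hsys ht0 ht1 hV hNV' D (Rels p K₀ Vr s) e deg he hR
  refine hfin.trans ?_
  have hth := hthin V hV D hD hNV' hVVr
  have hW := wK_nonneg (S := QS p Op V) (K := ⊤) ht0 ht1
  have hsum0 : 0 ≤ ∑ i, t ^ (n i) := Finset.sum_nonneg (fun _ _ => by positivity)
  have hg0 : 0 ≤ g₀ := hsum0.trans hg₀
  have hsum : ∑ i, t ^ (deg i) ≤ κ * g₀ ^ 2 + 3 * g₀ := by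
    rw [Fintype.sum_sum_type, Fintype.sum_sum_type]
    have e1 : ∑ a : Fin l × Fin l × Fin r, t ^ (deg (Sum.inl a)) =
        (∑ i, t ^ (n i)) * (∑ i, t ^ (n i)) * ∑ a, t ^ (m a) := by
      rw [Fintype.sum_prod_type, Finset.sum_mul_sum, Finset.sum_mul]
      refine Finset.sum_congr rfl (fun i _ => ?_)
      rw [Fintype.sum_prod_type, Finset.sum_mul]
      refine Finset.sum_congr rfl (fun j _ => ?_)
      rw [Finset.mul_sum]
      refine Finset.sum_congr rfl (fun a _ => ?_)
      show t ^ (n i + n j + m a) = _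
      rw [pow_add, pow_add]
    have e2 : ∑ a : Fin l × Fin r', t ^ (deg (Sum.inr (Sum.inl a))) =
        (∑ i, t ^ (n i)) * ∑ a, t ^ (m' a) := by
      rw [Fintype.sum_prod_type, Finset.sum_mul]
      refine Finset.sum_congr rfl (fun i _ => ?_)
      rw [Finset.mul_sum]
      refine Finset.sum_congr rfl (fun a _ => ?_)
      show t ^ (n i + m' a) = _
      rw [pow_add]
    have e3 : ∑ i : Fin l, t ^ (deg (Sum.inr (Sum.inr i))) ≤ ∑ i, t ^ (n i) := by
      apply Finset.sum_le_sum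
      intro i _
      show t ^ (p * n i) ≤ t ^ (n i)
      apply pow_le_pow_of_le_one ht0.le ht1.le
      exact Nat.le_mul_of_pos_left _ hp.pos
    rw [e1, e2]
    have h1 : ∑ a, t ^ (m a) ≤ κ := husum.trans hwK0
    have h2 : ∑ a, t ^ (m' a) ≤ 2 := hysum.trans hwZ
    have h3 : 0 ≤ ∑ a, t ^ (m a) := Finset.sum_nonneg (fun _ _ => by positivity)
    have h4 : 0 ≤ ∑ a, t ^ (m' a) := Finset.sum_nonneg (fun _ _ => by positivity)
    have h5 : (∑ i, t ^ (n i)) * (∑ i, t ^ (n i)) * ∑ a, t ^ (m a) ≤ g₀ * g₀ * κ := by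
      apply mul_le_mul (mul_le_mul hg₀ hg₀ hsum0 hg0) h1 h3 (by positivity)
    have h6 : (∑ i, t ^ (n i)) * ∑ a, t ^ (m' a) ≤ g₀ * 2 := mul_le_mul hg₀ h2 h4 hg0
    nlinarith
  have := mul_le_mul_of_nonneg_right hsum hW
  rw [add_mul]
  linarith

end GolodShaf
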