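import Pool.Agent.GolodShaf.LevelGood
import Pool.Agent.GolodShaf.Relators
import Pool.Agent.GolodShaf.K0
import Pool.Agent.GolodShaf.Block
import Pool.Agent.GolodShaf.KK
import Pool.Agent.GolodShaf.Params

/-!
# The central extension step
-/

set_option linter.unusedSectionVars false
set_option linter.unusedVariables false
set_option linter.style.haveILetI false

namespace GolodShaf

open Module Submodule NSeries

universe u v

variable {p : ℕ} [Fact p.Prime] {F : Type u} [Group F] {X : Type*} [Fintype X] [DecidableEq X]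
  {x : X → F} {Op : Set (Subgroup F)}

lemma qmap_qmap {V₁ V₂ V₃ : Subgroup F} [V₁.Normal] [V₂.Normal] [V₃.Normal] (h : V₁ ≤ V₂)
    (h' : V₂ ≤ V₃) (y : F ⧸ V₁) : qmap h' (qmap h y) = qmap (h.trans h') y := by
  obtain ⟨g, rfl⟩ := QuotientGroup.mk_surjective y
  rfl

/-- pigeonhole principle for dense goodness -/
theorem pigeonhole {t β₀ : ℝ} (q : Cond p x Op t β₀) {J : Type*} [Finite J] {P : Type*} [Group P]
    [Fintype P] (ρ : J → (P →* F ⧸ q.N)) (c : ℝ)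
    (h : ∀ q' : Cond p x Op t β₀, ∀ hq' : q'.Below q,
      ∃ j, Good p x Op t c q'.N q'.V ((qmap hq'.NV).comp (ρ j))) :
    ∃ j, ∃ (q₁ : Cond p x Op t β₀) (_ : q₁.Below q), ∀ q₂ : Cond p x Op t β₀, q₂.Below q₁ →
      ∃ (r : Cond p x Op t β₀) (_ : r.Below q₂) (hr : r.Below q),
        Good p x Op t c r.N r.V ((qmap hr.NV).comp (ρ j)) := by
  classical
  have := Fintype.ofFinite J
  by_contra hcon
  push Not at hcon
  have key : ∀ s : Finset J, ∃ (q₁ : Cond p x Op t β₀) (_ : q₁.Below q), ∀ j ∈ s,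
      ∀ r : Cond p x Op t β₀, r.Below q₁ → ∀ hr : r.Below q,
        ¬ Good p x Op t c r.N r.V ((qmap hr.NV).comp (ρ j)) := by
    intro s
    induction s using Finset.induction_on with
    | empty => exact ⟨q, Cond.Below.refl q, by simp⟩
    | insert a s ha ih =>
      obtain ⟨q₁, hq₁, h1⟩ := ih
      obtain ⟨q₂, hq₂, h2⟩ := hcon a q₁ hq₁
      refine ⟨q₂, hq₂.trans hq₁, ?_⟩
      intro j hj r hr hr'
      rcases Finset.mem_insert.mp hj with rfl | hj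
      · exact h2 r hr hr'
      · exact h1 j hj r (hr.trans hq₂) hr'
  obtain ⟨q₁, hq₁, h1⟩ := key Finset.univ
  obtain ⟨j, hj⟩ := h q₁ hq₁
  exact h1 j (Finset.mem_univ j) q₁ (Cond.Below.refl q₁) hq₁ hj

lemma Thin.mono {t β β' : ℝ} (hsys : FoxSys p x Op) (ht0 : 0 < t) (ht1 : t < 1)
    {N V₀ V₁ : Subgroup F} (h : Thin p x Op t N V₀ β)
    (hV : V₁ ≤ V₀) (hβ : β ≤ β') : Thin p x Op t N V₁ β' := by
  intro V hVOp _ D hD hNV hVV
  haveI := hsys.finite V hVOp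
  have h1 := h V hVOp D hD hNV (hVV.trans hV)
  have h2 := wK_nonneg (S := QS p Op V) (K := ⊤) ht0 ht1
  exact h1.trans (mul_le_mul_of_nonneg_right hβ h2)

lemma wK_top_mono (hsys : FoxSys p x Op) {t : ℝ} (ht0 : 0 < t) (ht1 : t < 1)
    {V V₁ : Subgroup F} [V.Normal] [V₁.Normal] (hV : V ∈ Op) (hV₁ : V₁ ∈ Op) (h : V ≤ V₁) :
    wK t (QS p Op V₁) ⊤ ≤ wK t (QS p Op V) ⊤ := by
  haveI := hsys.finite V hV
  haveI := hsys.finite V₁ hV₁
  have hG := hsys.pgroup V hV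
  obtain ⟨N₁, hN₁⟩ := QS_bot hG hV
  have h1 := wK_map_mul_le (S := QS p Op V) (S₁ := QS p Op V₁) ht0 ht1 hG hN₁
    (qmap h) (fun n y hy => qmap_QS _ n y hy) (K' := ⊥) (K := ⊤) le_top (by
      intro y hy
      rw [Subgroup.mem_bot] at hy
      rw [hy, map_one])
  rwa [Subgroup.map_top_of_surjective _ (qmap_surjective h), wK_bot ht0 ht1 hG hN₁, one_mul] at h1

/-- the relative weight as a size functional -/
noncomputable def relWFun {t : ℝ} (ht0 : 0 < t) (ht1 : t < 1) {V : Subgroup F} [V.Normal]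
    [Finite (F ⧸ V)] (D : FoxDer p x V) {N : Subgroup F} [N.Normal] (hN : N ≤ V) :
    WFun p (F ⧸ V) where
  f := relW t D.M (D.im N)
  add := relW_add ht0 ht1
  neg := relW_neg ht0 ht1
  gr_mul := fun g a => (relW_gr_mul (fun a m hm => D.smul_mem_im hN a hm) g a).le
  mul := relW_mul ht0 ht1 (fun a m hm => D.smul_mem_M a hm)

lemma Rels_sub {Vr : Subgroup F} [Vr.Normal] (Dr : FoxDer p x Vr) (K₀ : Subgroup F) {l : ℕ}
    (s : Fin l → F) (hs : ∀ i, s i ∈ Vr) : ∀ g ∈ Rels p K₀ Vr s, g ∈ Vr ∧ Dr.d g = 0 := by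
  have hcomm : ∀ a ∈ Vr, ∀ b ∈ Vr, a * b * a⁻¹ * b⁻¹ ∈ Vr ∧ Dr.d (a * b * a⁻¹ * b⁻¹) = 0 := by
    intro a ha b hb
    have h1 := Vr.mul_mem ha hb
    have h2 := Vr.mul_mem h1 (Vr.inv_mem ha)
    refine ⟨Vr.mul_mem h2 (Vr.inv_mem hb), ?_⟩
    rw [Dr.mul_left_mem h2, Dr.mul_left_mem h1, Dr.mul_left_mem ha, Dr.inv_mem ha, Dr.inv_mem hb]
    abel
  rintro g (⟨i, j, v, hv, rfl⟩ | ⟨i, z, hz, hzV, rfl⟩ | ⟨i, rfl⟩)
  · exact hcomm _ (hs i) _ (Subgroup.Normal.conj_mem inferInstance _ (hs j) _)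
  · exact hcomm _ hzV _ (hs i)
  · refine ⟨Vr.pow_mem (hs i) p, ?_⟩
    rw [Dr.d_pow_mem (hs i)]
    simp

theorem central_family (hsys : FoxSys p x Op) {t : ℝ} (ht0 : 0 < t) (ht1 : t < 1) {β₀ : ℝ}
    (hβ₀ : β₀ < Fintype.card X * t - 1) {P P' : Type v} [Group P] [Fintype P] [Group P']
    [Fintype P'] (φ : P' →* P) (z : P')
    (c₀ : Cond p x Op t β₀) (ρ : P →* F ⧸ c₀.N) (c : ℝ)
    (hP : IsPGroup p P) (hφ : Function.Surjective φ) (hz : ∀ y, z * y = y * z)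
    (hker : φ.ker = Subgroup.zpowers z) (hzo : orderOf z = p) (hc : 0 < c)
    (hρ : DenselyGood c₀ c ρ) :
    ∃ (q : Cond p x Op t β₀) (hq : q.Below c₀) (J : Type u) (_ : Finite J)
      (ρ' : J → (P' →* F ⧸ q.N)) (c' : ℝ), 0 < c' ∧
      (∀ q' : Cond p x Op t β₀, ∀ hq' : q'.Below q,
        ∃ j, Good p x Op t c' q'.N q'.V ((qmap hq'.NV).comp (ρ' j))) ∧
      ∀ j y, qmap (q.le.trans hq.V) (ρ' j y) = qmap c₀.le (ρ (φ y)) := by
  classical
  have hp : p.Prime := Fact.out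
  set δ := Fintype.card X * t - 1 - β₀ with hδ
  have hδ0 : 0 < δ := by linarith
  -- the size of the generators
  set d := (Fintype.card X : ℝ) * t with hd
  have hβc : c₀.β < d - 1 := by
    have := c₀.bd
    have := c₀.pos
    linarith
  have hd0 : 0 < d := by
    have h1 := c₀.thin c₀.V c₀.op
    obtain ⟨D, hD⟩ := hsys.der c₀.V c₀.op
    have h2 := h1 D hD c₀.le le_rfl
    haveI := hsys.finite c₀.V c₀.op
    have hG := hsys.pgroup c₀.V c₀.op
    obtain ⟨N₁, hN₁⟩ := QS_bot hG c₀.op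
    have h3 := w_nonneg (dfil p X (F ⧸ c₀.V)) ht0 ht1 (D.im c₀.N)
    have h4 := one_le_wK (S := QS p Op c₀.V) (K := ⊤) ht0 ht1 hG hN₁
    have h5 : 0 ≤ c₀.β := by
      by_contra hcon
      push Not at hcon
      nlinarith
    linarith
  -- lifts
  choose σ hσ using fun u => QuotientGroup.mk_surjective (ρ u)
  set s₀ : Finset F := Finset.univ.image σ with hs₀
  have hcard : ∀ V ∈ Op, ∀ [V.Normal], c₀.N ≤ V →
      Nat.card ((Subgroup.closure (s₀ : Set F)).map (QuotientGroup.mk' V)) ≤ Fintype.card P := by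
    intro V hV _ hNV
    have h1 : (Subgroup.closure (s₀ : Set F)).map (QuotientGroup.mk' V) ≤
        ((qmap hNV).comp ρ).range := by
      rw [MonoidHom.map_closure, Subgroup.closure_le]
      rintro _ ⟨g, hg, rfl⟩
      rw [hs₀, Finset.coe_image, Finset.coe_univ, Set.image_univ] at hg
      obtain ⟨u, rfl⟩ := hg
      exact ⟨u, by rw [MonoidHom.comp_apply, ← hσ, qmap_mk]; rfl⟩
    have h2 : Nat.card ((qmap hNV).comp ρ).range ≤ Nat.card P :=
      Nat.card_le_card_of_surjective _ ((qmap hNV).comp ρ).rangeRestrict_surjective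
    haveI := hsys.finite V hV
    have h4 : Nat.card ((Subgroup.closure (s₀ : Set F)).map (QuotientGroup.mk' V)) ≤
        Nat.card ((qmap hNV).comp ρ).range := Nat.card_mono (Set.toFinite _) h1
    rw [Nat.card_eq_fintype_card (α := P)] at h2
    exact h4.trans h2
  -- parameters
  set k := (p - 1) + (Fintype.card P - 1) with hk
  obtain ⟨Y, hY0, hY⟩ := exists_Y (D := d) (δ := δ) (c := c) hd0 hδ0 hc k
  set Yt := 8 * d * (Y + 1) / c with hYt
  have hYt0 : 0 < Yt := by positivity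
  obtain ⟨κ, hκ1, hκP, hκε⟩ : ∃ κ : ℝ, 1 ≤ κ ∧ 2 * (Fintype.card P : ℝ) ≤ κ ∧
      4 * (Yt ^ 2 + 3 * Yt) / c₀.ε ≤ κ := by
    refine ⟨max 1 (max (2 * (Fintype.card P : ℝ)) (4 * (Yt ^ 2 + 3 * Yt) / c₀.ε)),
      le_max_left _ _, ?_, ?_⟩
    · exact (le_max_left _ _).trans (le_max_right _ _)
    · exact (le_max_right _ _).trans (le_max_right _ _)
  have hκ0 : 0 < κ := by linarith
  set g₀ := Yt / κ with hg₀
  have hg₀0 : 0 < g₀ := by positivity
  have hκg₀ : κ * g₀ = Yt := by rw [hg₀]; field_simp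
  have hcost : κ * g₀ ^ 2 + 3 * g₀ ≤ c₀.ε / 4 := by
    have h1 : κ * g₀ ^ 2 + 3 * g₀ = (Yt ^ 2 + 3 * Yt) / κ := by
      rw [hg₀]; field_simp
    rw [h1, div_le_iff₀ hκ0]
    rw [div_le_iff₀ c₀.pos] at hκε
    linarith
  obtain ⟨n₀, hn₀⟩ : ∃ n₀ : ℕ, κ * t ^ n₀ ≤ 1 := by
    obtain ⟨n₀, hn₀⟩ := exists_pow_lt_of_lt_one (show 0 < 1 / κ by positivity) ht1
    refine ⟨n₀, ?_⟩
    rw [lt_div_iff₀ hκ0] at hn₀
    linarith
  -- the auxiliary subgroup
  obtain ⟨s, hs, V₁, hV₁, hNV₁, hV₁V, hK⟩ := exists_K0 hsys (DF_mem_Op hsys) ht0 ht1 c₀.op c₀.le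
    hβc c₀.thin s₀ (Fintype.card P) hcard hκP hκ1
  set K₀ := Subgroup.closure (s : Set F) with hK₀
  have hσK : ∀ u, σ u ∈ K₀ := by
    intro u
    apply Subgroup.subset_closure
    exact hs (by rw [hs₀]; exact Finset.mem_image_of_mem σ (Finset.mem_univ u))
  haveI hDFn := DF_normal (p := p) (x := x) hsys n₀
  have hV₂ : V₁ ⊓ (DF p Op n₀ ⊔ c₀.N) ∈ Op :=
    hsys.inf _ hV₁ _ (hsys.up _ (DF_mem_Op hsys n₀) _ inferInstance le_sup_left)
  have hNV₂ : c₀.N ≤ V₁ ⊓ (DF p Op n₀ ⊔ c₀.N) := le_inf hNV₁ le_sup_right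
  have hthin₂ : Thin p x Op t c₀.N (V₁ ⊓ (DF p Op n₀ ⊔ c₀.N)) c₀.β :=
    c₀.thin.mono hsys ht0 ht1 (inf_le_left.trans hV₁V) le_rfl
  set Sg := ∑ i ∈ Finset.range k, Yt ^ i with hSg
  have hSg0 : 0 ≤ Sg := Finset.sum_nonneg (fun _ _ => by positivity)
  obtain ⟨V₃, hV₃, hNV₃, hV₃V, hW₃⟩ := exists_large hsys ht0 ht1 hV₂ hNV₂ hβc hthin₂
    (max (κ * (s.card * κ + g₀) / (6 * d) + 1) (4 * (Sg * Yt) / δ))
  haveI hV₃n := hsys.normal V₃ hV₃
  have hW₃' := hW₃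
  have hβε := c₀.bd
  have hε := c₀.pos
  let c₃ : Cond p x Op t β₀ :=
    { N := c₀.N
      V := V₃
      β := c₀.β
      ε := c₀.ε / 2
      normN := inferInstance
      normV := hV₃n
      op := hV₃
      le := hNV₃
      thin := hthin₂.mono hsys ht0 ht1 hV₃V le_rfl
      pos := by positivity
      bd := by linarith }
  have hc₃ : c₃.Below c₀ :=
    ⟨le_rfl, hV₃V.trans (inf_le_left.trans hV₁V), by show c₀.β + c₀.ε / 2 ≤ _; linarith⟩
  obtain ⟨r, hr3, hr0, hgood⟩ := hρ c₃ hc₃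
  have hrbd : r.β + r.ε ≤ c₀.β + c₀.ε / 2 := hr3.bd
  have hrε := r.pos
  have hrV₃ : r.V ≤ V₃ := hr3.V
  have hrN : c₀.N ≤ r.N := hr3.N
  obtain ⟨Dr, hDr⟩ := hsys.der r.V r.op
  haveI := hsys.finite r.V r.op
  set Wr := wK t (QS p Op r.V) ⊤ with hWr
  have hWr1 : max (κ * (s.card * κ + g₀) / (6 * d) + 1) (4 * (Sg * Yt) / δ) ≤ Wr :=
    hW₃.trans (wK_top_mono hsys ht0 ht1 r.op hV₃ hrV₃)
  have hWr2 : κ * (s.card * κ + g₀) / (6 * d) + 1 ≤ Wr := (le_max_left _ _).trans hWr1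
  have hWr3 : 4 * (Sg * Yt) / δ ≤ Wr := (le_max_right _ _).trans hWr1
  have hWr0 : 0 < Wr := by
    have : 0 ≤ κ * (s.card * κ + g₀) / (6 * d) := by positivity
    linarith
  have hgood' : c * Wr ≤
      relW t Dr.M (Dr.im r.N) (∑ u, gr p (QuotientGroup.mk (σ u) : F ⧸ r.V)) := by
    have h1 := hgood Dr hDr
    have h2 : ∀ u, ((qmap hr0.NV).comp ρ) u = (QuotientGroup.mk (σ u) : F ⧸ r.V) := by
      intro u
      rw [MonoidHom.comp_apply, ← hσ, qmap_mk]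
    simpa only [h2] using h1
  have hKr := hK r.V r.op (hrN.trans r.le) (hrV₃.trans (hV₃V.trans inf_le_left))
  have hdeep : r.V ≤ DF p Op n₀ ⊔ r.N :=
    (hrV₃.trans (hV₃V.trans inf_le_right)).trans (sup_le_sup_left hrN _)
  have hbig : Fintype.card X * t * (Wr * (2 / κ)) + s.card * κ <
      g₀ * (c * Wr / (Y + 1) - 1) := by
    have e1 : g₀ * (c * Wr / (Y + 1) - 1) = 8 * d * Wr / κ - g₀ := by
      have : Y + 1 ≠ 0 := by linarith
      rw [hg₀, hYt]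
      field_simp
    have e2 : Fintype.card X * t * (Wr * (2 / κ)) = 2 * d * Wr / κ := by
      rw [hd]; ring
    rw [e1, e2]
    have h1 : κ * (s.card * κ + g₀) / (6 * d) < Wr := by linarith
    rw [div_lt_iff₀ (by positivity)] at h1
    have h2 : s.card * κ + g₀ < 6 * d * Wr / κ := by
      rw [lt_div_iff₀ hκ0]
      linarith
    have h3 : 8 * d * Wr / κ = 2 * d * Wr / κ + 6 * d * Wr / κ := by ring
    linarith
  obtain ⟨l, rr, n, hrrV, hrrD, hrrsum, hYr⟩ := exists_block hsys ht0 ht1 r.op r.le hDr s hκ1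
    hKr.1 hKr.2 hdeep hn₀ σ hσK hY0 hg₀0.le hgood' hbig
  -- the new condition
  have hKstab : ∀ (a : MonoidAlgebra (ZMod p) (F ⧸ r.V)), ∀ m ∈ Dr.im r.N, a • m ∈ Dr.im r.N :=
    fun a m hm => Dr.smul_mem_im r.le a hm
  haveI hV'n := Dr.sub_normal hKstab
  set N' := Subgroup.normalClosure ((r.N : Set F) ∪ Rels p K₀ r.V rr) with hN'
  set V' := Dr.sub (Dr.im r.N) with hV'
  have hN'V' : N' ≤ V' := by
    apply Subgroup.normalClosure_le_normal
    rintro g (hg | hg)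
    · exact ⟨r.le hg, Dr.d_mem_im hg⟩
    · obtain ⟨h1, h2⟩ := Rels_sub Dr K₀ rr hrrV g hg
      refine ⟨h1, ?_⟩
      rw [h2]
      exact zero_mem _
  have hrN' : r.N ≤ N' := fun g hg => Subgroup.subset_normalClosure (Or.inl hg)
  let q : Cond p x Op t β₀ :=
    { N := N'
      V := V'
      β := r.β + (κ * g₀ ^ 2 + 3 * g₀)
      ε := c₀.ε / 4
      normN := inferInstance
      normV := hV'n
      op := Dr.sub_mem_Op hsys hDr hKstab
      le := hN'V'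
      thin := thin_relators hsys ht0 ht1 r.op r.le hDr K₀ hκ0 hKr.1
        (fun V hV _ hNV hVV => (hK V hV (hrN.trans hNV)
          (hVV.trans (hrV₃.trans (hV₃V.trans inf_le_left)))).2) r.thin rr n hrrV hrrD hrrsum
      pos := by positivity
      bd := by linarith }
  have hq : q.Below c₀ := ⟨hrN.trans hrN', Dr.sub_le.trans (hrV₃.trans hc₃.V), by
    show r.β + (κ * g₀ ^ 2 + 3 * g₀) + c₀.ε / 4 ≤ c₀.β + c₀.ε
    linarith⟩
  -- the abelian group B
  set ρN : P →* F ⧸ N' := (qmap (hrN.trans hrN')).comp ρ with hρN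
  have hρNσ : ∀ u, ρN u = (QuotientGroup.mk (σ u) : F ⧸ N') := by
    intro u
    rw [hρN, MonoidHom.comp_apply, ← hσ, qmap_mk]
  have hrel : ∀ g ∈ Rels p K₀ r.V rr, (QuotientGroup.mk g : F ⧸ N') = 1 := by
    intro g hg
    rw [QuotientGroup.eq_one_iff]
    exact Subgroup.subset_normalClosure (Or.inr hg)
  have hcommN : ∀ a b : F, a * b * a⁻¹ * b⁻¹ ∈ Rels p K₀ r.V rr →
      (QuotientGroup.mk a : F ⧸ N') * QuotientGroup.mk b =
        QuotientGroup.mk b * QuotientGroup.mk a := by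
    intro a b hab
    have h1 := hrel _ hab
    rw [QuotientGroup.mk_mul, QuotientGroup.mk_mul, QuotientGroup.mk_mul, QuotientGroup.mk_inv,
      QuotientGroup.mk_inv, mul_inv_eq_one, mul_inv_eq_iff_eq_mul] at h1
    exact h1
  have hfinT : {g | ∃ i, ∃ v ∈ K₀.map (QuotientGroup.mk' N'),
      g = v * (QuotientGroup.mk (rr i) : F ⧸ N') * v⁻¹}.Finite := by
    let f : Fin l × (F ⧸ r.V) → F ⧸ N' := fun a =>
      if h : ∃ v ∈ K₀, (QuotientGroup.mk v : F ⧸ r.V) = a.2 then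
        (QuotientGroup.mk h.choose : F ⧸ N') * QuotientGroup.mk (rr a.1) *
          (QuotientGroup.mk h.choose)⁻¹ else 1
    apply (Set.finite_range f).subset
    rintro _ ⟨i, _, ⟨v, hv, rfl⟩, rfl⟩
    refine ⟨(i, QuotientGroup.mk v), ?_⟩
    have h : ∃ w ∈ K₀, (QuotientGroup.mk w : F ⧸ r.V) = QuotientGroup.mk v := ⟨v, hv, rfl⟩
    simp only [f]
    rw [dif_pos h]
    obtain ⟨hw, hwv⟩ := h.choose_spec
    set w := h.choose with hwdef
    rw [QuotientGroup.eq] at hwv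
    have hzK : w⁻¹ * v ∈ K₀ := K₀.mul_mem (K₀.inv_mem hw) hv
    have h1 := hcommN (w⁻¹ * v) (rr i) (Or.inr (Or.inl ⟨i, w⁻¹ * v, hzK, hwv, rfl⟩))
    rw [QuotientGroup.mk'_apply]
    have h2 : (QuotientGroup.mk v : F ⧸ N') = QuotientGroup.mk w * QuotientGroup.mk (w⁻¹ * v) := by
      rw [← QuotientGroup.mk_mul]
      congr 1
      group
    rw [h2, mul_assoc (QuotientGroup.mk w : F ⧸ N') (QuotientGroup.mk (w⁻¹ * v)), h1]
    group
  obtain ⟨B, hBc, hBf, hBa, j, hB, hj, hjs, hjcl⟩ := exists_B (p := p) ρN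
    (K₀.map (QuotientGroup.mk' N')) (fun u => by
      rw [hρNσ]
      exact ⟨σ u, hσK u, rfl⟩) (fun i => (QuotientGroup.mk (rr i) : F ⧸ N')) (by
      rintro i j _ ⟨v, hv, rfl⟩
      have h1 := hcommN (rr i) (v * rr j * v⁻¹) (Or.inl ⟨i, j, v, hv, rfl⟩)
      rw [QuotientGroup.mk_mul, QuotientGroup.mk_mul, QuotientGroup.mk_inv] at h1
      exact h1) (by
      intro i
      have h1 := hrel (rr i ^ p) (Or.inr (Or.inr ⟨i, rfl⟩))
      rw [QuotientGroup.mk_pow] at h1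
      exact h1) hfinT
  have hjV : ∀ b, ∃ g ∈ r.V, j b = (QuotientGroup.mk g : F ⧸ N') := by
    intro b
    have h1 : Subgroup.closure {g | ∃ i, ∃ v ∈ K₀.map (QuotientGroup.mk' N'),
        g = v * (QuotientGroup.mk (rr i) : F ⧸ N') * v⁻¹} ≤ r.V.map (QuotientGroup.mk' N') := by
      rw [Subgroup.closure_le]
      rintro _ ⟨i, _, ⟨v, hv, rfl⟩, rfl⟩
      refine ⟨v * rr i * v⁻¹, Subgroup.Normal.conj_mem inferInstance _ (hrrV i) _, ?_⟩
      rw [map_mul, map_mul, map_inv]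
      rfl
    obtain ⟨g, hg, hg'⟩ := h1 (hjcl b)
    exact ⟨g, hg, hg'.symm⟩
  obtain ⟨ρ', hρ'1, hρ'2⟩ := kk_main hP hB φ hφ z hz hker hzo j ρN hj
  set c' : ℝ := (δ / 2) / ((Nat.card B) ^ k * (2 ^ (Fintype.card P - 1) * 2 ^ (p - 1))) with hc'
  have hBcard : (0 : ℝ) < Nat.card B := by
    have : 0 < Nat.card B := Nat.card_pos
    exact_mod_cast this
  have hden : (0 : ℝ) < (Nat.card B) ^ k * (2 ^ (Fintype.card P - 1) * 2 ^ (p - 1)) := by positivity
  refine ⟨q, hq, B, hBf, ρ', c', by positivity, ?_, ?_⟩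
  · intro q' hq'
    haveI := hsys.finite q'.V q'.op
    obtain ⟨D, hD⟩ := hsys.der q'.V q'.op
    have hqV : q'.V ≤ V' := hq'.V
    have hqVr : q'.V ≤ r.V := hqV.trans Dr.sub_le
    have hqN : N' ≤ q'.V := hq'.NV
    have hqβ : q'.β < β₀ := by
      have h1 := q'.bd
      have h2 := q'.pos
      linarith
    have hKq := hK q'.V q'.op ((hrN.trans hrN').trans hqN)
      (hqVr.trans (hrV₃.trans (hV₃V.trans inf_le_left)))
    obtain ⟨b, hb⟩ := level_tuple hsys ht0 ht1 r.op q'.op hqVr hDr hD (N := q'.N)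
      (fun v hv => (hqV hv).2) K₀ hκ0.le hKq.2 σ rr n hrrV hrrD hrrsum hYr hB
      ((qmap hqN).comp j) (by
        intro u b
        rw [MonoidHom.comp_apply, MonoidHom.comp_apply, ← hj, hρNσ, map_mul, map_mul, map_inv,
          qmap_mk]) (by
        intro v hv i
        obtain ⟨b, hb⟩ := hjs _ ⟨v, hv, rfl⟩ i
        refine ⟨b, ?_⟩
        rw [MonoidHom.comp_apply, hb, map_mul, map_mul, map_inv, QuotientGroup.mk'_apply,
          qmap_mk, qmap_mk, QuotientGroup.mk_mul, QuotientGroup.mk_mul, QuotientGroup.mk_inv]) (by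
        intro b
        obtain ⟨g, hg, hgb⟩ := hjV b
        exact ⟨g, hg, by rw [MonoidHom.comp_apply, hgb, qmap_mk]⟩)
      (q'.thin q'.V q'.op D hD q'.le le_rfl) k
    obtain ⟨β', hβ'⟩ := hρ'2 (qmap hqN) (relWFun ht0 ht1 D q'.le) b
    refine ⟨β', ?_⟩
    intro D' hD'
    have hDD : D' = D := FoxDer.unique hsys hD' hD
    subst hDD
    set W := wK t (QS p Op q'.V) ⊤ with hW
    have hW0 : 0 ≤ W := wK_nonneg ht0 ht1
    rw [hκg₀, ← hSg, ← hWr] at hb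
    have hest : δ / 2 ≤ Fintype.card X * t - 1 - q'.β - Sg *
        (Fintype.card X * t * 2 ^ (-Y) + Yt / Wr) := by
      have h1 : Sg * (Yt / Wr) ≤ δ / 4 := by
        rw [← mul_div_assoc, div_le_iff₀ hWr0]
        rw [div_le_iff₀ hδ0] at hWr3
        linarith
      rw [mul_add]
      have h2 : Sg * (Fintype.card X * t * 2 ^ (-Y)) ≤ δ / 4 := hY
      linarith
    have h1 := mul_le_mul_of_nonneg_right hest hW0
    have h2 : relW t D'.M (D'.im q'.N) (grMap ((qmap hqN).comp j)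
        (∏ i, (gr p (∏ u : P, u • b i) - 1))) ≤
        2 ^ (Fintype.card P - 1) * 2 ^ (p - 1) *
          relW t D'.M (D'.im q'.N) (∑ x' : P', gr p (qmap hqN (ρ' β' x'))) := hβ'
    have h3 := mul_le_mul_of_nonneg_left h2 (pow_nonneg hBcard.le k)
    show c' * W ≤ relW t D'.M (D'.im q'.N) (∑ x' : P', gr p (((qmap hqN).comp (ρ' β')) x'))
    simp only [MonoidHom.comp_apply]
    rw [hc', div_mul_eq_mul_div, div_le_iff₀ hden]
    calc δ / 2 * W ≤ _ := h1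
      _ ≤ _ := hb
      _ ≤ _ := h3
      _ = _ := by ring
  · intro b y
    obtain ⟨b', hb'⟩ := hρ'1 b y
    obtain ⟨g, hg, hgb⟩ := hjV b'
    rw [hb', map_mul, hgb, hρN, MonoidHom.comp_apply]
    have h1 : qmap (q.le.trans hq.V) (QuotientGroup.mk g : F ⧸ N') = 1 := by
      have h2 : (QuotientGroup.mk g : F ⧸ c₀.V) = 1 := by
        rw [QuotientGroup.eq_one_iff]
        exact hc₃.V (hrV₃ hg)
      rw [← h2]
      rfl
    have h3 : qmap (q.le.trans hq.V) (qmap (hrN.trans hrN') (ρ (φ y))) =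
        qmap c₀.le (ρ (φ y)) := qmap_qmap _ _ _
    rw [h3]
    have h4 : (qmap (q.le.trans hq.V)) (QuotientGroup.mk g : F ⧸ q.N) = 1 := h1
    rw [h4, one_mul]

/-- **The central extension step.** -/
theorem centralStep (hsys : FoxSys p x Op) {t : ℝ} (ht0 : 0 < t) (ht1 : t < 1) {β₀ : ℝ}
    (hβ₀ : β₀ < Fintype.card X * t - 1) : CentralStep.{v} p x Op t β₀ := by
  intro P P' _ _ _ _ φ z c₀ ρ c hP hφ hz hker hzo hc hρ
  obtain ⟨q, hq, J, hJ, ρ', c', hc', h1, h2⟩ := central_family hsys ht0 ht1 hβ₀ φ z c₀ ρ c hP hφ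
    hz hker hzo hc hρ
  obtain ⟨j, q₁, hq₁, h3⟩ := pigeonhole q ρ' c' h1
  refine ⟨q₁, hq₁.trans hq, (qmap hq₁.N).comp (ρ' j), c', hc', ?_, ?_⟩
  · intro q₂ hq₂
    obtain ⟨r, hr, hr', hgood⟩ := h3 q₂ hq₂
    refine ⟨r, hr, hr.trans hq₂, ?_⟩
    have e : (qmap (hr.trans hq₂).NV).comp ((qmap hq₁.N).comp (ρ' j)) =
        (qmap hr'.NV).comp (ρ' j) := by
      ext y
      rw [MonoidHom.comp_apply, MonoidHom.comp_apply, MonoidHom.comp_apply, qmap_qmap]
    rw [e]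
    exact hgood
  · intro y
    rw [MonoidHom.comp_apply, qmap_qmap]
    exact h2 j y

end GolodShaf
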