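import Pool.Agent.GolodShaf.Sys2

/-!
# Thinness, conditions, good homomorphisms
-/

set_option linter.unusedSectionVars false
set_option linter.unusedVariables false
set_option linter.style.haveILetI false

namespace GolodShaf

open Module Submodule NSeries

variable {p : ℕ} [Fact p.Prime] {F : Type*} [Group F] {X : Type*} [Fintype X] [DecidableEq X]
  {x : X → F} {Op : Set (Subgroup F)}

/-- `N` is thin below `V₀`: at every level `V` between `N` and `V₀` the image of `N` in the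
relation module has weight at most `β * w(F ⧸ V)`. -/
def Thin (p : ℕ) [Fact p.Prime] {F : Type*} [Group F] {X : Type*} [Fintype X] [DecidableEq X]
    (x : X → F) (Op : Set (Subgroup F)) (t : ℝ) (N V₀ : Subgroup F) (β : ℝ) : Prop :=
  ∀ V ∈ Op, ∀ [V.Normal] (D : FoxDer p x V), D.Cont Op → N ≤ V → V ≤ V₀ →
    w t (dfil p X (F ⧸ V)) (D.im N) ≤ β * wK t (QS p Op V) ⊤

/-- `f : P → F ⧸ V` is `c`-good: the norm element of `P` acts on `M ⧸ im N` with image of weight at
least `c * w(F ⧸ V)`. -/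
def Good (p : ℕ) [Fact p.Prime] {F : Type*} [Group F] {X : Type*} [Fintype X] [DecidableEq X]
    (x : X → F) (Op : Set (Subgroup F)) (t c : ℝ) (N V : Subgroup F) [V.Normal]
    {P : Type*} [Group P] [Fintype P] (f : P →* F ⧸ V) : Prop :=
  ∀ D : FoxDer p x V, D.Cont Op →
    c * wK t (QS p Op V) ⊤ ≤ relW t D.M (D.im N) (∑ u, gr p (f u))

/-- conditions of the forcing argument -/
structure Cond (p : ℕ) [Fact p.Prime] {F : Type*} [Group F] {X : Type*} [Fintype X] [DecidableEq X]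
    (x : X → F) (Op : Set (Subgroup F)) (t β₀ : ℝ) where
  N : Subgroup F
  V : Subgroup F
  β : ℝ
  ε : ℝ
  normN : N.Normal
  normV : V.Normal
  op : V ∈ Op
  le : N ≤ V
  thin : Thin p x Op t N V β
  pos : 0 < ε
  bd : β + ε ≤ β₀

attribute [instance] Cond.normN Cond.normV

/-- `q` is stronger than `r`. -/
structure Cond.Below {t β₀ : ℝ} (q r : Cond p x Op t β₀) : Prop where
  N : r.N ≤ q.N
  V : q.V ≤ r.V
  bd : q.β + q.ε ≤ r.β + r.ε

lemma Cond.Below.refl {t β₀ : ℝ} (q : Cond p x Op t β₀) : q.Below q := ⟨le_rfl, le_rfl, le_rfl⟩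

lemma Cond.Below.trans {t β₀ : ℝ} {q r s : Cond p x Op t β₀} (h : q.Below r) (h' : r.Below s) :
    q.Below s := ⟨h'.N.trans h.N, h.V.trans h'.V, h.bd.trans h'.bd⟩

lemma Cond.Below.NV {t β₀ : ℝ} {q r : Cond p x Op t β₀} (h : q.Below r) : r.N ≤ q.V :=
  h.N.trans q.le

/-- `ρ : P → F ⧸ N_{c₀}` is densely `c`-good below `c₀`. -/
def DenselyGood {t β₀ : ℝ} (c₀ : Cond p x Op t β₀) (c : ℝ) {P : Type*} [Group P] [Fintype P]
    (ρ : P →* F ⧸ c₀.N) : Prop :=
  ∀ q : Cond p x Op t β₀, q.Below c₀ → ∃ (r : Cond p x Op t β₀) (_ : r.Below q) (h : r.Below c₀),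
    Good p x Op t c r.N r.V ((qmap h.NV).comp ρ)

/-- the central extension step -/
def CentralStep.{v} (p : ℕ) [Fact p.Prime] {F : Type*} [Group F] {X : Type*} [Fintype X]
    [DecidableEq X] (x : X → F) (Op : Set (Subgroup F)) (t β₀ : ℝ) : Prop :=
  ∀ (P P' : Type v) [Group P] [Fintype P] [Group P'] [Fintype P'] (φ : P' →* P) (z : P')
    (c₀ : Cond p x Op t β₀) (ρ : P →* F ⧸ c₀.N) (c : ℝ),
    IsPGroup p P → Function.Surjective φ → (∀ y, z * y = y * z) →
    φ.ker = Subgroup.zpowers z → orderOf z = p → 0 < c → DenselyGood c₀ c ρ →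
    ∃ (q : Cond p x Op t β₀) (hq : q.Below c₀) (ρ' : P' →* F ⧸ q.N) (c' : ℝ), 0 < c' ∧
      DenselyGood q c' ρ' ∧
      ∀ y, qmap (q.le.trans hq.V) (ρ' y) = qmap c₀.le (ρ (φ y))

end GolodShaf
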