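import Pool.Agent.GolodShaf.ForcingA
import Pool.Agent.GolodShaf.Central

/-!
# The general extension step and the limit argument
-/

set_option linter.unusedSectionVars false
set_option linter.unusedVariables false
set_option linter.style.haveILetI false

namespace GolodShaf

open Module Submodule NSeries

universe u v

section
variable {p : ℕ} [Fact p.Prime] {F : Type u} [Group F] {X : Type*} [Fintype X] [DecidableEq X]
  {x : X → F} {Op : Set (Subgroup F)}

lemma DenselyGood.restrict {t β₀ : ℝ} {q r : Cond p x Op t β₀} (hr : r.Below q) {c : ℝ}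
    {P : Type*} [Group P] [Fintype P] {ρ : P →* F ⧸ q.N} (h : DenselyGood q c ρ) :
    DenselyGood r c ((qmap hr.N).comp ρ) := by
  intro q' hq'
  obtain ⟨r', hr', hr'q, hgood⟩ := h q' (hq'.trans hr)
  refine ⟨r', hr', hr'.trans hq', ?_⟩
  have e : (qmap (hr'.trans hq').NV).comp ((qmap hr.N).comp ρ) = (qmap hr'q.NV).comp ρ := by
    ext y
    rw [MonoidHom.comp_apply, MonoidHom.comp_apply, MonoidHom.comp_apply, qmap_qmap]
  rw [e]
  exact hgood

/-- a nontrivial normal subgroup of a finite `p`-group contains a central element of order `p` -/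
lemma exists_central_of_ker {P P' : Type*} [Group P] [Group P'] [Finite P']
    (hP' : IsPGroup p P') (φ : P' →* P) (hφ : ¬ Function.Injective φ) :
    ∃ z : P', z ∈ φ.ker ∧ (∀ y, z * y = y * z) ∧ orderOf z = p := by
  have hp : p.Prime := Fact.out
  have hker : φ.ker ≠ ⊥ := by
    intro h
    exact hφ ((MonoidHom.ker_eq_bot_iff φ).mp h)
  have hcard : p ∣ Nat.card φ.ker := by
    obtain ⟨n, hn⟩ := IsPGroup.iff_card.mp (hP'.to_subgroup φ.ker)
    have hn0 : n ≠ 0 := by
      rintro rfl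
      rw [pow_zero] at hn
      exact hker ((Subgroup.card_eq_one).mp hn)
    rw [hn]
    exact dvd_pow_self p hn0
  letI act : MulAction P' φ.ker := MulAction.compHom _ (MulAut.conjNormal : P' →* MulAut φ.ker)
  have hact : ∀ (g : P') (y : φ.ker), ((g • y : φ.ker) : P') = g * y * g⁻¹ := by
    intro g y
    show ((MulAut.conjNormal g y : φ.ker) : P') = _
    rw [MulAut.conjNormal_apply]
  have h1 : (1 : φ.ker) ∈ MulAction.fixedPoints P' φ.ker := by
    intro g
    apply Subtype.ext
    rw [hact]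
    simp
  obtain ⟨b, hb, hb1⟩ := hP'.exists_fixed_point_of_prime_dvd_card_of_fixed_point φ.ker hcard h1
  have hbc : (b : P') ∈ φ.ker ⊓ Subgroup.center P' := by
    refine ⟨b.2, ?_⟩
    show (b : P') ∈ Subgroup.center P'
    rw [Subgroup.mem_center_iff]
    intro g
    have h2 := congrArg Subtype.val (hb g)
    rw [hact] at h2
    rw [mul_inv_eq_iff_eq_mul] at h2
    exact h2
  set Z := φ.ker ⊓ Subgroup.center P' with hZ
  have hZcard : p ∣ Nat.card Z := by
    obtain ⟨n, hn⟩ := IsPGroup.iff_card.mp (hP'.to_subgroup Z)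
    have hn0 : n ≠ 0 := by
      rintro rfl
      rw [pow_zero] at hn
      have h3 := (Subgroup.card_eq_one).mp hn
      rw [h3, Subgroup.mem_bot] at hbc
      exact hb1 (Subtype.ext hbc.symm)
    rw [hn]
    exact dvd_pow_self p hn0
  obtain ⟨z, hz⟩ := exists_prime_orderOf_dvd_card' (G := Z) p hZcard
  refine ⟨z, z.2.1, ?_, ?_⟩
  · intro y
    exact ((Subgroup.mem_center_iff.mp z.2.2) y).symm
  · rw [Subgroup.orderOf_coe, hz]

/-- the extension step for arbitrary surjections of finite `p`-groups -/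
theorem general_step {t β₀ : ℝ} (hstep : CentralStep.{v} p x Op t β₀) {P P' : Type v} [Group P]
    [Fintype P] [Group P'] [Fintype P'] (hP' : IsPGroup p P') (φ : P' →* P)
    (hφ : Function.Surjective φ) (c₀ : Cond p x Op t β₀) (ρ : P →* F ⧸ c₀.N) {c : ℝ} (hc : 0 < c)
    (hρ : DenselyGood c₀ c ρ) :
    ∃ (q : Cond p x Op t β₀) (hq : q.Below c₀) (ρ' : P' →* F ⧸ q.N) (c' : ℝ), 0 < c' ∧
      DenselyGood q c' ρ' ∧
      ∀ y, qmap (q.le.trans hq.V) (ρ' y) = qmap c₀.le (ρ (φ y)) := by
  classical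
  have hp : p.Prime := Fact.out
  induction hn : Nat.card P' using Nat.strong_induction_on generalizing P' with
  | _ n ih =>
    by_cases hinj : Function.Injective φ
    · refine ⟨c₀, Cond.Below.refl c₀, ρ.comp φ, c, hc, ?_, fun y => rfl⟩
      intro q hq
      obtain ⟨r, hr, hr', hgood⟩ := hρ q hq
      refine ⟨r, hr, hr', ?_⟩
      intro D hD
      have h1 := hgood D hD
      have h2 : ∑ u, gr p (((qmap hr'.NV).comp (ρ.comp φ)) u) =
          ∑ u, gr p (((qmap hr'.NV).comp ρ) u) :=
        Fintype.sum_bijective φ ⟨hinj, hφ⟩ _ _ (fun u => rfl)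
      rw [h2]
      exact h1
    · obtain ⟨z, hzk, hzc, hzo⟩ := exists_central_of_ker hP' φ hinj
      set Z := Subgroup.zpowers z with hZ
      haveI hZn : Z.Normal := by
        refine ⟨fun y hy g => ?_⟩
        obtain ⟨i, rfl⟩ := hy
        have h1 : Commute z g := hzc g
        have h2 : g * z ^ i * g⁻¹ = z ^ i := by
          have h3 : g * z ^ i = z ^ i * g := (h1.symm.zpow_right i)
          rw [h3]; group
        simp only [h2]
        exact ⟨i, rfl⟩
      have hZk : Z ≤ φ.ker := by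
        rw [hZ, Subgroup.zpowers_le]
        exact hzk
      haveI : Fintype (P' ⧸ Z) := Fintype.ofFinite _
      let φ₁ : P' ⧸ Z →* P := QuotientGroup.lift Z φ (fun y hy => hZk hy)
      have hφ₁ : ∀ y, φ₁ (QuotientGroup.mk y) = φ y := fun y => rfl
      have hφ₁s : Function.Surjective φ₁ := by
        intro y
        obtain ⟨g, rfl⟩ := hφ y
        exact ⟨QuotientGroup.mk g, rfl⟩
      have hcard : Nat.card (P' ⧸ Z) < n := by
        rw [← hn, Subgroup.card_eq_card_quotient_mul_card_subgroup Z, hZ, Nat.card_zpowers, hzo]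
        have h1 : 0 < Nat.card (P' ⧸ Z) := Nat.card_pos
        have := hp.one_lt
        nlinarith
      obtain ⟨q₁, hq₁, ρ₁, c₁, hc₁, hd₁, hcomp₁⟩ := ih _ hcard (hP'.to_quotient Z) φ₁ hφ₁s rfl
      obtain ⟨q₂, hq₂, ρ₂, c₂, hc₂, hd₂, hcomp₂⟩ := hstep (P' ⧸ Z) P' (QuotientGroup.mk' Z) z q₁ ρ₁
        c₁ (hP'.to_quotient Z) (QuotientGroup.mk'_surjective Z) hzc (QuotientGroup.ker_mk' Z) hzo
        hc₁ hd₁
      refine ⟨q₂, hq₂.trans hq₁, ρ₂, c₂, hc₂, hd₂, ?_⟩
      intro y
      have h1 := congrArg (qmap hq₁.V) (hcomp₂ y)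
      rw [qmap_qmap, qmap_qmap] at h1
      rw [h1]
      exact hcomp₁ (QuotientGroup.mk y)

/-- states of the recursive construction -/
structure ChainState {t β₀ : ℝ} (c₀ : Cond p x Op t β₀) {P : Type v} [Group P] (U : Subgroup P)
    [U.Normal] [Fintype (P ⧸ U)] where
  q : Cond p x Op t β₀
  below : q.Below c₀
  ρ : P ⧸ U →* F ⧸ q.N
  c : ℝ
  hc : 0 < c
  dense : DenselyGood q c ρ
  good : Good p x Op t c q.N q.V ((qmap q.le).comp ρ)

/-- improving a densely good homomorphism to a good one -/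
lemma exists_good {t β₀ : ℝ} {q : Cond p x Op t β₀} {c : ℝ} {P : Type*} [Group P] [Fintype P]
    {ρ : P →* F ⧸ q.N} (h : DenselyGood q c ρ) :
    ∃ (r : Cond p x Op t β₀) (hr : r.Below q), DenselyGood r c ((qmap hr.N).comp ρ) ∧
      Good p x Op t c r.N r.V ((qmap r.le).comp ((qmap hr.N).comp ρ)) := by
  obtain ⟨r, hr, hr', hgood⟩ := h q (Cond.Below.refl q)
  refine ⟨r, hr, h.restrict hr, ?_⟩
  have e : (qmap r.le).comp ((qmap hr.N).comp ρ) = (qmap hr'.NV).comp ρ := by
    ext y
    rw [MonoidHom.comp_apply, MonoidHom.comp_apply, MonoidHom.comp_apply, qmap_qmap]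
  rw [e]
  exact hgood

end

section
variable {p : ℕ} [Fact p.Prime] {F : Type u} [Group F] [TopologicalSpace F] {X : Type}
  [Fintype X] [DecidableEq X] {x : X → F}

theorem main_embedding (hF : IsFreeProP p x) (R : Set F) (deg : R → ℕ)
    (hdeg : ∀ r : R, (r : F) ∈ DF p (OpN F) (deg r)) {t : ℝ} (ht0 : 0 < t) (ht1 : t < 1)
    (hsum : Summable (fun r : R => t ^ (deg r)))
    (hGS : 1 - Fintype.card X * t + ∑' r : R, t ^ (deg r) < 0)
    {P : Type v} [Group P] [TopologicalSpace P] (hP : IsProP p P)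
    (hPc : (nhds (1 : P)).IsCountablyGenerated) :
    ∃ (K : Subgroup F) (_ : K.Normal), IsClosed (K : Set F) ∧ R ⊆ K ∧
      ∃ g : P →* F ⧸ K, Continuous g ∧ Function.Injective g := by
  classical
  have hsys := foxSys_of_isFreeProP hF
  haveI := hF.1.topGroup
  haveI := hF.1.compact
  haveI := hP.topGroup
  haveI := hP.compact
  obtain ⟨U, hUa, hUn, hUo, hU0, hU⟩ := exists_chain hP hPc
  haveI hUfin : ∀ n, Finite (P ⧸ U n) := fun n => (U n).quotient_finite_of_isOpen (hUo n)
  haveI hUft : ∀ n, Fintype (P ⧸ U n) := fun n => Fintype.ofFinite _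
  have hUp : ∀ n, IsPGroup p (P ⧸ U n) := by
    intro n
    obtain ⟨k, hk⟩ := hP.index (U n) (hUn n) (hUo n)
    exact IsPGroup.of_card (n := k) hk
  -- the start condition
  set β := ∑' r : R, t ^ (deg r) with hβ
  obtain ⟨β₀, hβ₀1, hβ₀2⟩ : ∃ β₀, β < β₀ ∧ β₀ < Fintype.card X * t - 1 :=
    exists_between (by linarith)
  have hstep : CentralStep.{v} p x (OpN F) t β₀ := centralStep hsys ht0 ht1 hβ₀2
  let c₀ : Cond p x (OpN F) t β₀ :=
    { N := Subgroup.normalClosure R
      V := ⊤
      β := β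
      ε := β₀ - β
      normN := inferInstance
      normV := inferInstance
      op := hsys.top
      le := le_top
      thin := thin_start hF R deg hdeg ht0 ht1 hsum
      pos := by linarith
      bd := by linarith }
  -- initial state
  have hcard0 : Fintype.card (P ⧸ U 0) = 1 := by
    rw [← Nat.card_eq_fintype_card]
    have : Nat.card (P ⧸ U 0) = (U 0).index := rfl
    rw [this, hU0, Subgroup.index_top]
  have hinit : Nonempty (ChainState c₀ (U 0)) := by
    have h1 := denselyGood_trivial hsys ht0 ht1 c₀ hcard0 1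
    obtain ⟨r, hr, h2, h3⟩ := exists_good h1
    exact ⟨⟨r, hr, _, _, by linarith, h2, h3⟩⟩
  have hnext : ∀ n (s : ChainState c₀ (U n)), ∃ (s' : ChainState c₀ (U (n + 1)))
      (h : s'.q.Below s.q), ∀ y : P, qmap (s'.q.le.trans h.V) (s'.ρ (QuotientGroup.mk y)) =
        qmap s.q.le (s.ρ (QuotientGroup.mk y)) := by
    intro n s
    let φ : P ⧸ U (n + 1) →* P ⧸ U n := qmap (hUa (Nat.le_succ n))
    obtain ⟨q₁, hq₁, ρ₁, c₁, hc₁, hd₁, hcomp₁⟩ := general_step hstep (hUp (n + 1)) φ
      (qmap_surjective _) s.q s.ρ s.hc s.dense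
    obtain ⟨r, hr, h2, h3⟩ := exists_good hd₁
    refine ⟨⟨r, hr.trans (hq₁.trans s.below), _, c₁, hc₁, h2, h3⟩, hr.trans hq₁, ?_⟩
    intro y
    have h4 := hcomp₁ (QuotientGroup.mk y)
    show qmap _ (((qmap hr.N).comp ρ₁) (QuotientGroup.mk y)) = _
    rw [MonoidHom.comp_apply, qmap_qmap]
    exact h4
  let seq : ∀ n, ChainState c₀ (U n) := fun n =>
    Nat.rec hinit.some (fun n s => (hnext n s).choose) n
  have hseq : ∀ n, ∃ h : (seq (n + 1)).q.Below (seq n).q, ∀ y : P,
      qmap ((seq (n + 1)).q.le.trans h.V) ((seq (n + 1)).ρ (QuotientGroup.mk y)) =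
        qmap (seq n).q.le ((seq n).ρ (QuotientGroup.mk y)) := fun n => (hnext n (seq n)).choose_spec
  set V : ℕ → Subgroup F := fun n => (seq n).q.V with hV
  haveI hVn : ∀ n, (V n).Normal := fun n => (seq n).q.normV
  have hVa : Antitone V := antitone_nat_of_succ_le (fun n => (hseq n).choose.V)
  have hVo : ∀ n, IsOpen (V n : Set F) := fun n => (seq n).q.op.2
  haveI hKn : (⨅ n, V n).Normal := Subgroup.normal_iInf_normal hVn
  let f : ∀ n, P →* F ⧸ V n := fun n =>
    ((qmap (seq n).q.le).comp (seq n).ρ).comp (QuotientGroup.mk' (U n))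
  have hfinj : ∀ n, Function.Injective ((qmap (seq n).q.le).comp (seq n).ρ) := fun n =>
    good_injective hsys ht0 ht1 (seq n).hc (seq n).q.op (hUp n) (seq n).good
  have hf : ∀ n y, f n y = 1 ↔ y ∈ U n := by
    intro n y
    rw [← QuotientGroup.eq_one_iff]
    constructor
    · intro h
      apply hfinj n
      rw [map_one]
      exact h
    · intro h
      show ((qmap (seq n).q.le).comp (seq n).ρ) (QuotientGroup.mk y) = 1
      rw [h, map_one]
  have hcomp : ∀ n y (g : F), f (n + 1) y = QuotientGroup.mk g → f n y = QuotientGroup.mk g := by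
    intro n y g hg
    obtain ⟨h, hy⟩ := hseq n
    have h1 : qmap h.V (f (n + 1) y) = f n y := by
      show qmap h.V (qmap (seq (n + 1)).q.le ((seq (n + 1)).ρ (QuotientGroup.mk y))) =
        qmap (seq n).q.le ((seq n).ρ (QuotientGroup.mk y))
      rw [qmap_qmap]
      exact hy y
    rw [← h1, hg]
    rfl
  obtain ⟨g, hg, hgi⟩ := limit_embedding hF.1 hP V hVa hVo U hUo hU f hf hcomp
  refine ⟨⨅ n, V n, hKn, ?_, ?_, g, hg, hgi⟩
  · rw [Subgroup.coe_iInf]
    apply isClosed_iInter
    intro n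
    exact (V n).isClosed_of_isOpen (hVo n)
  · intro r hr
    rw [SetLike.mem_coe, Subgroup.mem_iInf]
    intro n
    exact (seq n).q.le ((seq n).below.N (Subgroup.subset_normalClosure hr))

end

end GolodShaf
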