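import Pool.Agent.GolodShaf.AugPow
import Pool.Agent.GolodShaf.Adjoin

/-!
# Fox calculus at a finite level
-/

set_option linter.unusedSectionVars false
set_option linter.unusedVariables false
set_option linter.style.haveILetI false

namespace GolodShaf

open Module Submodule NSeries

variable {p : ℕ} {F : Type*} [Group F] {X : Type*} [Fintype X]

/-- The filtration of the free module `X → F_p[Γ]` with generators in degree one. -/
noncomputable def dfil (p : ℕ) (X : Type*) (Γ : Type*) [Group Γ] (n : ℕ) :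
    Submodule (ZMod p) (X → MonoidAlgebra (ZMod p) Γ) :=
  Submodule.pi Set.univ (fun _ => augPow p Γ (n - 1))

section dfil

variable {Γ : Type*} [Group Γ]

lemma mem_dfil {n : ℕ} {d : X → MonoidAlgebra (ZMod p) Γ} :
    d ∈ dfil p X Γ n ↔ ∀ i, d i ∈ augPow p Γ (n - 1) := by
  simp [dfil, Submodule.mem_pi]

lemma dfil_anti : Antitone (dfil p X Γ) := by
  intro m n hmn d hd
  rw [mem_dfil] at hd ⊢
  exact fun i => augPow_anti (by omega) (hd i)

lemma dfil_zero : dfil p X Γ 0 = ⊤ := by
  rw [eq_top_iff]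
  intro d _
  rw [mem_dfil]
  intro i
  rw [Nat.zero_sub, augPow_zero]
  trivial

lemma smul_mem_dfil {m n : ℕ} {a : MonoidAlgebra (ZMod p) Γ} {d : X → MonoidAlgebra (ZMod p) Γ}
    (ha : a ∈ augPow p Γ m) (hd : d ∈ dfil p X Γ n) : a • d ∈ dfil p X Γ (m + n) := by
  rw [mem_dfil] at hd ⊢
  intro i
  rw [Pi.smul_apply, smul_eq_mul]
  exact augPow_anti (by omega) (augPow_mul ha (hd i))

lemma smul_mem_dfil' {n : ℕ} (a : MonoidAlgebra (ZMod p) Γ) {d : X → MonoidAlgebra (ZMod p) Γ}
    (hd : d ∈ dfil p X Γ n) : a • d ∈ dfil p X Γ n := by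
  have := smul_mem_dfil (m := 0) (a := a) (by rw [augPow_zero]; trivial) hd
  simpa using this

lemma dfil_bot_of_large {N : ℕ} (hN : augPow p Γ N = ⊥) : dfil p X Γ (N + 1) = ⊥ := by
  rw [eq_bot_iff]
  intro d hd
  rw [mem_dfil] at hd
  simp only [Nat.add_sub_cancel, hN, Submodule.mem_bot] at hd
  rw [Submodule.mem_bot]
  funext i
  exact hd i

end dfil

/-- left multiplication by `a` as a linear map of `X → F_p[Γ]` -/
noncomputable def lact {Γ : Type*} [Group Γ] (a : MonoidAlgebra (ZMod p) Γ) :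
    (X → MonoidAlgebra (ZMod p) Γ) →ₗ[ZMod p] (X → MonoidAlgebra (ZMod p) Γ) where
  toFun d := a • d
  map_add' := smul_add a
  map_smul' := by
    intro c d
    funext i
    simp [mul_smul_comm]

/-- Fox derivative data at level `V`. -/
structure FoxDer (p : ℕ) {F : Type*} [Group F] {X : Type*} [Fintype X] [DecidableEq X] (x : X → F)
    (V : Subgroup F) [V.Normal] where
  d : F → (X → MonoidAlgebra (ZMod p) (F ⧸ V))
  mul : ∀ g h, d (g * h) = d g + gr p (QuotientGroup.mk g : F ⧸ V) • d h
  basis : ∀ i, d (x i) = Pi.single i 1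
  pi : ∀ g, ∑ i, d g i * (gr p (QuotientGroup.mk (x i) : F ⧸ V) - 1) =
    gr p (QuotientGroup.mk g : F ⧸ V) - 1

namespace FoxDer

variable [DecidableEq X] {x : X → F} {V : Subgroup F} [V.Normal] (D : FoxDer p x V)

lemma one : D.d 1 = 0 := by
  have h := D.mul 1 1
  rw [mul_one, QuotientGroup.mk_one, map_one, one_smul] at h
  exact (left_eq_add.mp h)

lemma mul_left_mem {v : F} (hv : v ∈ V) (g : F) : D.d (v * g) = D.d v + D.d g := by
  rw [D.mul, (QuotientGroup.eq_one_iff v).mpr hv, map_one, one_smul]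

lemma inv (g : F) : D.d g⁻¹ = - (gr p (QuotientGroup.mk g⁻¹ : F ⧸ V) • D.d g) := by
  have h := D.mul g⁻¹ g
  rw [inv_mul_cancel, D.one] at h
  exact eq_neg_of_add_eq_zero_left h.symm

lemma inv_mem {v : F} (hv : v ∈ V) : D.d v⁻¹ = - D.d v := by
  rw [D.inv, (QuotientGroup.eq_one_iff _).mpr (V.inv_mem hv), map_one, one_smul]

lemma conj {v : F} (hv : v ∈ V) (g : F) :
    D.d (g * v * g⁻¹) = gr p (QuotientGroup.mk g : F ⧸ V) • D.d v := by
  have h1 : (QuotientGroup.mk (g * v) : F ⧸ V) = QuotientGroup.mk g := by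
    rw [QuotientGroup.mk_mul, (QuotientGroup.eq_one_iff v).mpr hv, mul_one]
  rw [D.mul, D.mul, h1, D.inv, smul_neg, ← mul_smul, ← map_mul, ← QuotientGroup.mk_mul,
    mul_inv_cancel, QuotientGroup.mk_one, map_one, one_smul]
  abel

/-- the map `π` -/
noncomputable def pim (_ : FoxDer p x V) :
    (X → MonoidAlgebra (ZMod p) (F ⧸ V)) →ₗ[ZMod p] MonoidAlgebra (ZMod p) (F ⧸ V) where
  toFun d := ∑ i, d i * (gr p (QuotientGroup.mk (x i) : F ⧸ V) - 1)
  map_add' := by
    intro a b
    simp [add_mul, Finset.sum_add_distrib]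
  map_smul' := by
    intro c a
    simp [Finset.smul_sum]

lemma pim_apply (d : X → MonoidAlgebra (ZMod p) (F ⧸ V)) :
    D.pim d = ∑ i, d i * (gr p (QuotientGroup.mk (x i) : F ⧸ V) - 1) := rfl

lemma pim_d (g : F) : D.pim (D.d g) = gr p (QuotientGroup.mk g : F ⧸ V) - 1 := D.pi g

lemma pim_smul (a : MonoidAlgebra (ZMod p) (F ⧸ V)) (d : X → MonoidAlgebra (ZMod p) (F ⧸ V)) :
    D.pim (a • d) = a * D.pim d := by
  rw [pim_apply, pim_apply, Finset.mul_sum]
  refine Finset.sum_congr rfl (fun i _ => ?_)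
  rw [Pi.smul_apply, smul_eq_mul, mul_assoc]

/-- the module `M = ker π`. -/
noncomputable def M (D : FoxDer p x V) : Submodule (ZMod p) (X → MonoidAlgebra (ZMod p) (F ⧸ V)) :=
  LinearMap.ker D.pim

lemma mem_M {d : X → MonoidAlgebra (ZMod p) (F ⧸ V)} : d ∈ D.M ↔ D.pim d = 0 := Iff.rfl

lemma d_mem_M {v : F} (hv : v ∈ V) : D.d v ∈ D.M := by
  rw [mem_M, pim_d, (QuotientGroup.eq_one_iff v).mpr hv, map_one, sub_self]

lemma smul_mem_M (a : MonoidAlgebra (ZMod p) (F ⧸ V)) {d : X → MonoidAlgebra (ZMod p) (F ⧸ V)}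
    (hd : d ∈ D.M) : a • d ∈ D.M := by
  rw [mem_M] at hd ⊢
  rw [pim_smul, hd, mul_zero]

lemma pim_mem {n : ℕ} (hn : 1 ≤ n) {d : X → MonoidAlgebra (ZMod p) (F ⧸ V)}
    (hd : d ∈ dfil p X (F ⧸ V) n) : D.pim d ∈ augPow p (F ⧸ V) n := by
  rw [mem_dfil] at hd
  rw [pim_apply]
  apply Submodule.sum_mem
  intro i _
  have := augPow_mul (hd i) (sub_one_mem_augPow (p := p) (QuotientGroup.mk (x i) : F ⧸ V))
  exact augPow_anti (by omega) this

lemma exists_pim_eq {n : ℕ} (hn : 1 ≤ n) {y : MonoidAlgebra (ZMod p) (F ⧸ V)}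
    (hy : y ∈ augPow p (F ⧸ V) n) : ∃ d ∈ dfil p X (F ⧸ V) n, D.pim d = y := by
  unfold augPow at hy
  induction hy using Submodule.span_induction with
  | mem y hy =>
    obtain ⟨l, hl, rfl⟩ := hy
    have hne : l ≠ [] := by
      rintro rfl
      simp at hl
      omega
    obtain ⟨l', g, rfl⟩ : ∃ l' g, l = l' ++ [g] := ⟨l.dropLast, l.getLast hne,
      (List.dropLast_append_getLast hne).symm⟩
    obtain ⟨g', rfl⟩ := QuotientGroup.mk_surjective g
    rw [List.map_append, List.prod_append]
    simp only [List.map_cons, List.map_nil, List.prod_cons, List.prod_nil, mul_one]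
    refine ⟨(l'.map (fun g => gr p g - 1)).prod • D.d g', ?_, ?_⟩
    · rw [mem_dfil]
      intro i
      rw [Pi.smul_apply, smul_eq_mul]
      apply augPow_mul_right
      apply prod_mem_augPow
      simp at hl
      omega
    · rw [pim_smul, pim_d]
  | zero => exact ⟨0, zero_mem _, map_zero _⟩
  | add x y _ _ hx hy =>
    obtain ⟨a, ha, rfl⟩ := hx
    obtain ⟨b, hb, rfl⟩ := hy
    exact ⟨a + b, add_mem ha hb, map_add _ _ _⟩
  | smul r x _ hx =>
    obtain ⟨a, ha, rfl⟩ := hx
    exact ⟨r • a, Submodule.smul_mem _ _ ha, map_smul _ _ _⟩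

/-- the image of a subgroup of `V` under `d`, as a subspace -/
noncomputable def im (D : FoxDer p x V) (N : Subgroup F) :
    Submodule (ZMod p) (X → MonoidAlgebra (ZMod p) (F ⧸ V)) :=
  Submodule.span (ZMod p) (D.d '' (N : Set F))

lemma d_pow_mem {v : F} (hv : v ∈ V) (n : ℕ) : D.d (v ^ n) = (n : ZMod p) • D.d v := by
  induction n with
  | zero => simp [D.one]
  | succ n ih =>
    rw [pow_succ', D.mul_left_mem hv, ih]
    push_cast
    rw [add_smul, one_smul, add_comm]

/-- elements of `im N` are values of `d`. -/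
lemma exists_of_mem_im [NeZero p] {N : Subgroup F} (hN : N ≤ V)
    {d : X → MonoidAlgebra (ZMod p) (F ⧸ V)}
    (hd : d ∈ D.im N) : ∃ v ∈ N, D.d v = d := by
  unfold im at hd
  induction hd using Submodule.span_induction with
  | mem y hy => obtain ⟨v, hv, rfl⟩ := hy; exact ⟨v, hv, rfl⟩
  | zero => exact ⟨1, N.one_mem, D.one⟩
  | add x y _ _ hx hy =>
    obtain ⟨a, ha, rfl⟩ := hx
    obtain ⟨b, hb, rfl⟩ := hy
    exact ⟨a * b, N.mul_mem ha hb, D.mul_left_mem (hN ha) b⟩
  | smul r x _ hx =>
    obtain ⟨a, ha, rfl⟩ := hx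
    refine ⟨a ^ (r.val), N.pow_mem ha _, ?_⟩
    rw [D.d_pow_mem (hN ha), ZMod.natCast_zmod_val]

lemma d_mem_im {N : Subgroup F} {v : F} (hv : v ∈ N) : D.d v ∈ D.im N :=
  Submodule.subset_span ⟨v, hv, rfl⟩

lemma im_mono {N N' : Subgroup F} (h : N ≤ N') : D.im N ≤ D.im N' :=
  Submodule.span_mono (Set.image_mono h)

/-- stability of `im N` for normal `N`. -/
lemma smul_mem_im {N : Subgroup F} [N.Normal] (hN : N ≤ V) (a : MonoidAlgebra (ZMod p) (F ⧸ V))
    {d : X → MonoidAlgebra (ZMod p) (F ⧸ V)} (hd : d ∈ D.im N) : a • d ∈ D.im N := by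
  have ha : a ∈ Submodule.span (ZMod p) (Set.range (gr p : (F ⧸ V) → _)) := by
    rw [span_gr]; trivial
  induction ha using Submodule.span_induction with
  | mem a ha =>
    obtain ⟨g, rfl⟩ := ha
    obtain ⟨g, rfl⟩ := QuotientGroup.mk_surjective g
    unfold im at hd
    induction hd using Submodule.span_induction with
    | mem y hy =>
      obtain ⟨v, hv, rfl⟩ := hy
      rw [← D.conj (hN hv)]
      exact D.d_mem_im (Subgroup.Normal.conj_mem inferInstance v hv g)
    | zero => simp
    | add x y _ _ hx hy => rw [smul_add]; exact add_mem hx hy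
    | smul r x _ hx =>
      have e : gr p (QuotientGroup.mk g : F ⧸ V) • (r • x) =
          r • (gr p (QuotientGroup.mk g : F ⧸ V) • x) := by
        funext i
        simp [mul_smul_comm]
      rw [e]
      exact Submodule.smul_mem _ _ hx
  | zero => simp
  | add a b _ _ ha hb => rw [add_smul]; exact add_mem ha hb
  | smul r a _ ha =>
    have e : (r • a) • d = r • (a • d) := by
      funext i
      simp
    rw [e]
    exact Submodule.smul_mem _ _ ha

/-- **Lemma A**: `M = im V`. -/
theorem M_eq_im : D.M = D.im V := by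
  classical
  apply le_antisymm
  · -- T g = d (lift of g)
    set T : MonoidAlgebra (ZMod p) (F ⧸ V) →ₗ[ZMod p] (X → MonoidAlgebra (ZMod p) (F ⧸ V)) :=
      (MonoidAlgebra.basis (F ⧸ V) (ZMod p)).constr (ZMod p) (fun g => D.d g.out) with hT
    have hTg : ∀ g : F ⧸ V, T (gr p g) = D.d g.out := by
      intro g
      have : gr p g = MonoidAlgebra.basis (F ⧸ V) (ZMod p) g := by
        rw [MonoidAlgebra.basis_apply, gr_apply]
      rw [this, hT, Module.Basis.constr_basis]
    -- d - T (π d) ∈ im V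
    have key : ∀ d : X → MonoidAlgebra (ZMod p) (F ⧸ V), d - T (D.pim d) ∈ D.im V := by
      intro d
      have hd : d = ∑ i, Pi.single i (d i) := (Finset.univ_sum_single d).symm
      rw [hd, map_sum, map_sum, ← Finset.sum_sub_distrib]
      apply Submodule.sum_mem
      intro i _
      generalize d i = a
      have ha : a ∈ Submodule.span (ZMod p) (Set.range (gr p : (F ⧸ V) → _)) := by
        rw [span_gr]; trivial
      induction ha using Submodule.span_induction with
      | mem a ha =>
        obtain ⟨g, rfl⟩ := ha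
        have e1 : (Pi.single i (gr p g) : X → MonoidAlgebra (ZMod p) (F ⧸ V)) =
            gr p g • D.d (x i) := by
          rw [D.basis]
          funext j
          rcases eq_or_ne j i with rfl | hj
          · simp
          · simp [hj]
        rw [e1, pim_smul, pim_d, mul_sub, mul_one, ← map_mul, map_sub, hTg, hTg]
        have e2 : D.d (g.out * x i) = D.d g.out + gr p g • D.d (x i) := by
          rw [D.mul]
          congr 3
          exact QuotientGroup.out_eq' g
        set h := (g * (QuotientGroup.mk (x i) : F ⧸ V)).out with hh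
        have hv : g.out * x i * h⁻¹ ∈ V := by
          rw [← QuotientGroup.eq_one_iff, QuotientGroup.mk_mul, QuotientGroup.mk_mul,
            QuotientGroup.mk_inv, hh]
          rw [QuotientGroup.out_eq', QuotientGroup.out_eq']
          simp
        have e3 : g.out * x i = (g.out * x i * h⁻¹) * h := by group
        have e4 : D.d (g.out * x i) = D.d (g.out * x i * h⁻¹) + D.d h := by
          conv_lhs => rw [e3]
          exact D.mul_left_mem hv h
        have e5 : gr p g • D.d (x i) - (D.d h - D.d g.out) = D.d (g.out * x i * h⁻¹) := by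
          rw [e4] at e2
          rw [← sub_eq_zero]
          have := sub_eq_zero.mpr e2
          rw [← neg_eq_zero, ← this]
          abel
        rw [e5]
        exact D.d_mem_im hv
      | zero => simp
      | add a b _ _ ha hb =>
        rw [Pi.single_add, map_add, map_add]
        have := add_mem ha hb
        convert this using 1
        abel
      | smul r a _ ha =>
        rw [Pi.single_smul, map_smul, map_smul, ← smul_sub]
        exact Submodule.smul_mem _ _ ha
    intro d hd
    have := key d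
    rwa [D.mem_M.mp hd, map_zero, sub_zero] at this
  · apply Submodule.span_le.mpr
    rintro _ ⟨v, hv, rfl⟩
    exact D.d_mem_M hv

end FoxDer

end GolodShaf
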