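import Pool.Agent.GolodShaf.ProP
import Pool.Agent.GolodShaf.Fox

/-!
# Topological inputs

Existence of Fox derivatives, chains of open normal subgroups, limits of compatible injections,
transfer of quotients.
-/

set_option linter.unusedSectionVars false
set_option linter.unusedVariables false
set_option linter.style.haveILetI false
set_option linter.deprecated false

namespace GolodShaf

universe u v

noncomputable section

/-! ### Finite `p`-groups as pro-`p` groups -/

lemma isProP_of_card {p : ℕ} [Fact p.Prime] {H : Type u} [Group H] [TopologicalSpace H]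
    [DiscreteTopology H] [Finite H] {n : ℕ} (hH : Nat.card H = p ^ n) : IsProP p H where
  topGroup := inferInstance
  compact := inferInstance
  totallyDisconnected := inferInstance
  index := by
    intro U _ _
    have h : U.index ∣ p ^ n := by
      rw [← hH]
      exact U.index_dvd_card
    obtain ⟨m, -, hm⟩ := (Nat.dvd_prime_pow Fact.out).mp h
    exact ⟨m, hm⟩

/-! ### The semidirect product with a module -/

/-- The group `A ⋊ Γ` for a module `A` over `F_p[Γ]`. -/
@[ext] structure SD (p : ℕ) (Γ : Type u) [Group Γ] (A : Type u) where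
  a : A
  g : Γ

namespace SD

variable {p : ℕ} {Γ : Type u} [Group Γ] {A : Type u} [AddCommGroup A]
  [Module (MonoidAlgebra (ZMod p) Γ) A]

instance : Mul (SD p Γ A) := ⟨fun x y => ⟨x.a + gr p x.g • y.a, x.g * y.g⟩⟩
instance : One (SD p Γ A) := ⟨⟨0, 1⟩⟩
instance : Inv (SD p Γ A) := ⟨fun x => ⟨-(gr p x.g⁻¹ • x.a), x.g⁻¹⟩⟩

@[simp] lemma mul_a (x y : SD p Γ A) : (x * y).a = x.a + gr p x.g • y.a := rfl
@[simp] lemma mul_g (x y : SD p Γ A) : (x * y).g = x.g * y.g := rfl
@[simp] lemma one_a : (1 : SD p Γ A).a = 0 := rfl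
@[simp] lemma one_g : (1 : SD p Γ A).g = 1 := rfl
@[simp] lemma inv_a (x : SD p Γ A) : (x⁻¹).a = -(gr p x.g⁻¹ • x.a) := rfl
@[simp] lemma inv_g (x : SD p Γ A) : (x⁻¹).g = x.g⁻¹ := rfl

instance : Group (SD p Γ A) := Group.ofLeftAxioms
  (by
    intro x y z
    ext
    · simp only [mul_a, mul_g, smul_add, map_mul, mul_smul, add_assoc]
    · simp [mul_assoc])
  (by
    intro x
    ext <;> simp)
  (by
    intro x
    ext <;> simp)

/-- the underlying product. -/
def equiv : SD p Γ A ≃ A × Γ where
  toFun x := (x.a, x.g)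
  invFun x := ⟨x.1, x.2⟩
  left_inv _ := rfl
  right_inv _ := rfl

instance [Finite Γ] [Finite A] : Finite (SD p Γ A) := Finite.of_equiv _ equiv.symm

lemma card_eq : Nat.card (SD p Γ A) = Nat.card A * Nat.card Γ := by
  rw [Nat.card_congr (equiv (p := p) (Γ := Γ) (A := A)), Nat.card_prod]

end SD

/-! ### Derivations on a free pro-`p` group -/

section der

variable {p : ℕ} [Fact p.Prime] {X : Type} {F : Type u} [Group F] [TopologicalSpace F] {x : X → F}

/-- continuity criterion for homomorphisms into discrete groups -/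
lemma continuous_of_isOpen_ker [IsTopologicalGroup F] {H : Type*} [Group H] [TopologicalSpace H]
    [DiscreteTopology H] (φ : F →* H) (h : IsOpen (φ.ker : Set F)) : Continuous φ := by
  apply continuous_of_continuousAt_one
  rw [ContinuousAt, map_one, nhds_discrete H, Filter.tendsto_pure]
  filter_upwards [h.mem_nhds φ.ker.one_mem] with g hg
  exact hg

lemma exists_hom (hF : IsFreeProP p x) {H : Type u} [Group H] [Finite H] {n : ℕ}
    (hH : Nat.card H = p ^ n) (f : X → H) :
    ∃ φ : F →* H, IsOpen (φ.ker : Set F) ∧ ∀ i, φ (x i) = f i := by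
  letI tH : TopologicalSpace H := ⊥
  haveI dH : DiscreteTopology H := ⟨rfl⟩
  obtain ⟨φ, ⟨hφc, hφx⟩, -⟩ := hF.2 H (isProP_of_card hH) f
  exact ⟨φ, (isOpen_discrete ({1} : Set H)).preimage hφc, hφx⟩

lemma unique_hom (hF : IsFreeProP p x) {H : Type u} [Group H] [Finite H] {n : ℕ}
    (hH : Nat.card H = p ^ n) {φ ψ : F →* H} (hφ : IsOpen (φ.ker : Set F))
    (hψ : IsOpen (ψ.ker : Set F)) (h : ∀ i, φ (x i) = ψ (x i)) : φ = ψ := by
  haveI := hF.1.topGroup
  letI tH : TopologicalSpace H := ⊥
  haveI dH : DiscreteTopology H := ⟨rfl⟩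
  exact (hF.2 H (isProP_of_card hH) (fun i => ψ (x i))).unique
    ⟨continuous_of_isOpen_ker φ hφ, h⟩ ⟨continuous_of_isOpen_ker ψ hψ, fun i => rfl⟩

lemma card_quotient (hF : IsProP p F) (V : Subgroup F) [V.Normal] (hV : IsOpen (V : Set F)) :
    ∃ n, Nat.card (F ⧸ V) = p ^ n := by
  obtain ⟨n, hn⟩ := hF.index V inferInstance hV
  exact ⟨n, hn⟩

lemma finite_quotient (hF : IsProP p F) (V : Subgroup F) [V.Normal] (hV : IsOpen (V : Set F)) :
    Finite (F ⧸ V) := by
  obtain ⟨n, hn⟩ := card_quotient hF V hV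
  refine Nat.finite_of_card_ne_zero ?_
  rw [hn]
  exact pow_ne_zero _ (Fact.out : p.Prime).ne_zero

lemma card_module {A : Type*} [AddCommGroup A] [Module (ZMod p) A] [Finite A] :
    ∃ n, Nat.card A = p ^ n :=
  ⟨_, by rw [Module.natCard_eq_pow_finrank (K := ZMod p), Nat.card_zmod]⟩

variable (hF : IsFreeProP p x) (V : Subgroup F) [V.Normal] (hV : IsOpen (V : Set F))

/-- the homomorphism attached to a derivation -/
def derHom {V : Subgroup F} [V.Normal] {A : Type u} [AddCommGroup A]
    [Module (MonoidAlgebra (ZMod p) (F ⧸ V)) A] (d : F → A)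
    (hd : ∀ g h, d (g * h) = d g + gr p (QuotientGroup.mk g : F ⧸ V) • d h) :
    F →* SD p (F ⧸ V) A :=
  MonoidHom.mk' (fun g => ⟨d g, QuotientGroup.mk g⟩) (by
    intro g h
    ext
    · exact hd g h
    · rfl)

lemma derHom_apply {V : Subgroup F} [V.Normal] {A : Type u} [AddCommGroup A]
    [Module (MonoidAlgebra (ZMod p) (F ⧸ V)) A] (d : F → A)
    (hd : ∀ g h, d (g * h) = d g + gr p (QuotientGroup.mk g : F ⧸ V) • d h) (g : F) :
    derHom d hd g = ⟨d g, QuotientGroup.mk g⟩ := rfl

lemma derHom_ker {V : Subgroup F} [V.Normal] {A : Type u} [AddCommGroup A]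
    [Module (MonoidAlgebra (ZMod p) (F ⧸ V)) A] (d : F → A)
    (hd : ∀ g h, d (g * h) = d g + gr p (QuotientGroup.mk g : F ⧸ V) • d h) :
    ((derHom d hd).ker : Set F) = {g : F | g ∈ V ∧ d g = 0} := by
  ext g
  rw [SetLike.mem_coe, MonoidHom.mem_ker, derHom_apply, SD.ext_iff, SD.one_a, SD.one_g,
    QuotientGroup.eq_one_iff]
  exact and_comm

include hF hV in
lemma exists_derivation (A : Type u) [AddCommGroup A] [Module (MonoidAlgebra (ZMod p) (F ⧸ V)) A]
    [Module (ZMod p) A] [Finite A] (a : X → A) :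
    ∃ d : F → A, (∀ g h, d (g * h) = d g + gr p (QuotientGroup.mk g : F ⧸ V) • d h) ∧
      (∀ i, d (x i) = a i) ∧ IsOpen {g : F | g ∈ V ∧ d g = 0} := by
  haveI := hF.1.topGroup
  haveI := finite_quotient hF.1 V hV
  obtain ⟨n, hn⟩ := card_quotient hF.1 V hV
  obtain ⟨m, hm⟩ := card_module (p := p) (A := A)
  obtain ⟨φ, hφo, hφx⟩ := exists_hom hF (H := SD p (F ⧸ V) A) (n := m + n)
    (by rw [SD.card_eq, hm, hn, pow_add]) (fun i => ⟨a i, QuotientGroup.mk (x i)⟩)
  -- the group component is the projection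
  let q : F →* F ⧸ V := MonoidHom.mk' (fun g => (φ g).g) (by
    intro g h
    rw [map_mul, SD.mul_g])
  have hq : q = QuotientGroup.mk' V := by
    apply unique_hom hF hn
    · apply Subgroup.isOpen_mono (H₁ := φ.ker) _ hφo
      intro g hg
      rw [MonoidHom.mem_ker] at hg ⊢
      show (φ g).g = 1
      rw [hg, SD.one_g]
    · rw [QuotientGroup.ker_mk']
      exact hV
    · intro i
      show (φ (x i)).g = _
      rw [hφx]
      rfl
  have hg : ∀ g, (φ g).g = QuotientGroup.mk g := fun g => DFunLike.congr_fun hq g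
  have hd : ∀ g h, (φ (g * h)).a = (φ g).a + gr p (QuotientGroup.mk g : F ⧸ V) • (φ h).a := by
    intro g h
    rw [map_mul, SD.mul_a, hg]
  refine ⟨fun g => (φ g).a, hd, ?_, ?_⟩
  · intro i
    show (φ (x i)).a = _
    rw [hφx]
  · rw [← derHom_ker (fun g => (φ g).a) hd]
    have he : derHom (fun g => (φ g).a) hd = φ := by
      refine DFunLike.ext _ _ (fun g => ?_)
      rw [derHom_apply]
      ext
      · rfl
      · exact (hg g).symm
    rw [he]
    exact hφo

include hF hV in
lemma derivation_unique {A : Type u} [AddCommGroup A] [Module (MonoidAlgebra (ZMod p) (F ⧸ V)) A]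
    [Module (ZMod p) A] [Finite A] {d d' : F → A}
    (hd : ∀ g h, d (g * h) = d g + gr p (QuotientGroup.mk g : F ⧸ V) • d h)
    (hd' : ∀ g h, d' (g * h) = d' g + gr p (QuotientGroup.mk g : F ⧸ V) • d' h)
    (ho : IsOpen {g : F | g ∈ V ∧ d g = 0}) (ho' : IsOpen {g : F | g ∈ V ∧ d' g = 0})
    (h : ∀ i, d (x i) = d' (x i)) : d = d' := by
  haveI := finite_quotient hF.1 V hV
  obtain ⟨n, hn⟩ := card_quotient hF.1 V hV
  obtain ⟨m, hm⟩ := card_module (p := p) (A := A)
  have key : derHom d hd = derHom d' hd' := by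
    apply unique_hom hF (H := SD p (F ⧸ V) A) (n := m + n)
      (by rw [SD.card_eq, hm, hn, pow_add])
    · rw [derHom_ker]
      exact ho
    · rw [derHom_ker]
      exact ho'
    · intro i
      rw [derHom_apply, derHom_apply, h]
  funext g
  exact congrArg SD.a (DFunLike.congr_fun key g)

end der

/-- Fox derivatives from the universal property (map `F → (X → F_p[F/V]) ⋊ F/V`, a finite
`p`-group with the discrete topology; `pi` follows from the uniqueness). -/
theorem exists_foxDer {p : ℕ} [Fact p.Prime] {X : Type} [Fintype X] [DecidableEq X] {F : Type u}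
    [Group F] [TopologicalSpace F] {x : X → F} (hF : IsFreeProP p x) (V : Subgroup F) [V.Normal]
    (hV : IsOpen (V : Set F)) : ∃ D : FoxDer p x V, IsOpen {g : F | g ∈ V ∧ D.d g = 0} := by
  haveI := hF.1.topGroup
  haveI := finite_quotient hF.1 V hV
  haveI : Finite (MonoidAlgebra (ZMod p) (F ⧸ V)) :=
    Module.finite_of_finite (ZMod p)
  obtain ⟨d, hd, hdx, hdo⟩ := exists_derivation hF V hV (X → MonoidAlgebra (ZMod p) (F ⧸ V))
    (fun i => Pi.single i 1)
  refine ⟨⟨d, hd, hdx, ?_⟩, hdo⟩
  have key := derivation_unique (A := MonoidAlgebra (ZMod p) (F ⧸ V)) hF V hV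
    (d := fun g => ∑ i, d g i * (gr p (QuotientGroup.mk (x i) : F ⧸ V) - 1))
    (d' := fun g => gr p (QuotientGroup.mk g : F ⧸ V) - 1) ?_ ?_ ?_ ?_ ?_
  · exact fun g => congrFun key g
  · intro g h
    simp only [hd, Pi.add_apply, Pi.smul_apply, smul_eq_mul, add_mul, Finset.sum_add_distrib,
      Finset.mul_sum, mul_assoc]
  · intro g h
    simp only [QuotientGroup.mk_mul, map_mul, smul_eq_mul]
    noncomm_ring
  · rw [← derHom_ker d hd] at hdo
    have h2 := derHom_ker (p := p) (V := V)
      (fun g => ∑ i, d g i * (gr p (QuotientGroup.mk (x i) : F ⧸ V) - 1)) (by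
        intro g h
        simp only [hd, Pi.add_apply, Pi.smul_apply, smul_eq_mul, add_mul, Finset.sum_add_distrib,
          Finset.mul_sum, mul_assoc])
    rw [← h2]
    apply Subgroup.isOpen_mono _ hdo
    intro g hg
    rw [← SetLike.mem_coe, derHom_ker] at hg ⊢
    refine ⟨hg.1, ?_⟩
    simp [hg.2]
  · have : {g : F | g ∈ V ∧ gr p (QuotientGroup.mk g : F ⧸ V) - 1 = 0} = (V : Set F) := by
      ext g
      constructor
      · exact fun h => h.1
      · intro h
        refine ⟨h, ?_⟩
        rw [(QuotientGroup.eq_one_iff g).mpr h, map_one, sub_self]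
    rw [this]
    exact hV
  · intro i
    simp only [hdx]
    rw [Finset.sum_eq_single i]
    · simp
    · intro j _ hj
      simp [hj]
    · intro h
      exact absurd (Finset.mem_univ i) h

theorem exists_chain {p : ℕ} [Fact p.Prime] {P : Type v} [Group P] [TopologicalSpace P]
    (hP : IsProP p P) (hc : (nhds (1 : P)).IsCountablyGenerated) :
    ∃ U : ℕ → Subgroup P, Antitone U ∧ (∀ n, (U n).Normal) ∧ (∀ n, IsOpen (U n : Set P)) ∧
      U 0 = ⊤ ∧ ∀ x, (∀ n, x ∈ U n) → x = 1 := by
  haveI := hP.topGroup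
  haveI := hP.compact
  haveI := hP.totallyDisconnected
  obtain ⟨s, hs⟩ := (nhds (1 : P)).exists_antitone_basis
  have hN : ∀ n, ∃ N : OpenNormalSubgroup P, (N : Set P) ⊆ s n := by
    intro n
    have h1 : s n ∈ nhds (1 : P) := hs.1.mem_of_mem trivial
    obtain ⟨t, hts, hto, ht1⟩ := mem_nhds_iff.mp h1
    obtain ⟨N, hN⟩ := ProfiniteGrp.exist_openNormalSubgroup_sub_open_nhds_of_one hto ht1
    exact ⟨N, hN.trans hts⟩
  choose N hN using hN
  let U : ℕ → Subgroup P := fun n => Nat.rec ⊤ (fun n H => H ⊓ (N n).toSubgroup) n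
  have hU0 : U 0 = ⊤ := rfl
  have hUs : ∀ n, U (n + 1) = U n ⊓ (N n).toSubgroup := fun n => rfl
  refine ⟨U, ?_, ?_, ?_, hU0, ?_⟩
  · apply antitone_nat_of_succ_le
    intro n
    rw [hUs]
    exact inf_le_left
  · intro n
    induction n with
    | zero => rw [hU0]; infer_instance
    | succ n ih =>
      rw [hUs]
      exact @Subgroup.normal_inf_normal _ _ (U n) (N n).toSubgroup ih (N n).isNormal'
  · intro n
    induction n with
    | zero => rw [hU0]; exact isOpen_univ
    | succ n ih =>
      rw [hUs, Subgroup.coe_inf]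
      exact ih.inter (N n).isOpen'
  · intro y hy
    by_contra hne
    have h1 : ({y}ᶜ : Set P) ∈ nhds (1 : P) := isOpen_compl_singleton.mem_nhds (Ne.symm hne)
    obtain ⟨n, -, hn⟩ := hs.1.mem_iff.mp h1
    have h2 : y ∈ (N n).toSubgroup := by
      have := hy (n + 1)
      rw [hUs] at this
      exact this.2
    exact hn (hN n h2) rfl

theorem limit_embedding {p : ℕ} {F : Type u} [Group F] [TopologicalSpace F] (hF : IsProP p F)
    {P : Type v} [Group P] [TopologicalSpace P] (hP : IsProP p P)
    (V : ℕ → Subgroup F) (hVa : Antitone V) [∀ n, (V n).Normal] [(⨅ n, V n).Normal]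
    (hVo : ∀ n, IsOpen (V n : Set F)) (U : ℕ → Subgroup P)
    (hUo : ∀ n, IsOpen (U n : Set P)) (hU : ∀ x, (∀ n, x ∈ U n) → x = 1)
    (f : ∀ n, P →* F ⧸ V n) (hf : ∀ n x, f n x = 1 ↔ x ∈ U n)
    (hcomp : ∀ n x (g : F), f (n + 1) x = QuotientGroup.mk g → f n x = QuotientGroup.mk g) :
    ∃ g : P →* F ⧸ (⨅ n, V n), Continuous g ∧ Function.Injective g := by
  haveI := hF.topGroup
  haveI := hF.compact
  haveI := hP.topGroup
  -- a common lift
  have hlift : ∀ x : P, ∃ s : F, ∀ n, f n x = QuotientGroup.mk s := by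
    intro x
    have hC : (⋂ n, {g : F | f n x = QuotientGroup.mk g}).Nonempty := by
      apply IsCompact.nonempty_iInter_of_sequence_nonempty_isCompact_isClosed
      · intro n g hg
        exact hcomp n x g hg
      · intro n
        obtain ⟨g, hg⟩ := QuotientGroup.mk_surjective (f n x)
        exact ⟨g, hg.symm⟩
      · apply IsClosed.isCompact
        obtain ⟨g0, hg0⟩ := QuotientGroup.mk_surjective (f 0 x)
        have : {g : F | f 0 x = QuotientGroup.mk g} = (fun g => g0⁻¹ * g) ⁻¹' (V 0 : Set F) := by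
          ext g
          rw [Set.mem_setOf_eq, ← hg0, QuotientGroup.eq]
          rfl
        rw [this]
        exact ((V 0).isClosed_of_isOpen (hVo 0)).preimage (by fun_prop)
      · intro n
        obtain ⟨g0, hg0⟩ := QuotientGroup.mk_surjective (f n x)
        have : {g : F | f n x = QuotientGroup.mk g} = (fun g => g0⁻¹ * g) ⁻¹' (V n : Set F) := by
          ext g
          rw [Set.mem_setOf_eq, ← hg0, QuotientGroup.eq]
          rfl
        rw [this]
        exact ((V n).isClosed_of_isOpen (hVo n)).preimage (by fun_prop)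
    obtain ⟨s, hs⟩ := hC
    exact ⟨s, fun n => (Set.mem_iInter.mp hs n)⟩
  choose s hs using hlift
  have huniq : ∀ a b : F, (∀ n, (QuotientGroup.mk a : F ⧸ V n) = QuotientGroup.mk b) →
      (QuotientGroup.mk a : F ⧸ (⨅ n, V n)) = QuotientGroup.mk b := by
    intro a b h
    rw [QuotientGroup.eq, Subgroup.mem_iInf]
    intro n
    exact QuotientGroup.eq.mp (h n)
  let g : P →* F ⧸ (⨅ n, V n) := MonoidHom.mk' (fun x => QuotientGroup.mk (s x)) (by
    intro x y
    rw [← QuotientGroup.mk_mul]
    apply huniq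
    intro n
    rw [← hs, map_mul, hs x n, hs y n, QuotientGroup.mk_mul])
  have hg : ∀ x, g x = QuotientGroup.mk (s x) := fun x => rfl
  refine ⟨g, ?_, ?_⟩
  · apply continuous_of_continuousAt_one
    rw [ContinuousAt, map_one]
    intro W hW
    obtain ⟨W', hW', hWo, hW1⟩ := mem_nhds_iff.mp hW
    have hpre : IsOpen ((QuotientGroup.mk : F → F ⧸ (⨅ n, V n)) ⁻¹' W') :=
      hWo.preimage QuotientGroup.continuous_mk
    obtain ⟨n, hn⟩ : ∃ n, (V n : Set F) ⊆ (QuotientGroup.mk : F → F ⧸ (⨅ n, V n)) ⁻¹' W' := by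
      apply exists_subset_nhds_of_isCompact' (V := fun n => (V n : Set F))
      · exact (directed_of_isDirected_le (fun m n hmn => hVa hmn))
      · intro n
        exact ((V n).isClosed_of_isOpen (hVo n)).isCompact
      · intro n
        exact (V n).isClosed_of_isOpen (hVo n)
      · intro z hz
        apply hpre.mem_nhds
        rw [Set.mem_preimage]
        have : (QuotientGroup.mk z : F ⧸ (⨅ n, V n)) = 1 := by
          rw [QuotientGroup.eq_one_iff, Subgroup.mem_iInf]
          exact fun n => Set.mem_iInter.mp hz n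
        rw [this]
        exact hW1
    rw [Filter.mem_map]
    apply Filter.mem_of_superset ((hUo n).mem_nhds (U n).one_mem)
    intro x hx
    rw [Set.mem_preimage, hg]
    apply hW'
    apply hn
    rw [SetLike.mem_coe, ← QuotientGroup.eq_one_iff, ← hs]
    exact (hf n x).mpr hx
  · rw [injective_iff_map_eq_one]
    intro x hx
    apply hU
    intro n
    rw [← hf, hs, QuotientGroup.eq_one_iff]
    rw [hg, QuotientGroup.eq_one_iff, Subgroup.mem_iInf] at hx
    exact hx n

theorem transfer_quotient {F : Type u} [Group F] [TopologicalSpace F] [IsTopologicalGroup F]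
    {G : Type u} [Group G] [TopologicalSpace G] {P : Type v} [Group P] [TopologicalSpace P]
    (N K : Subgroup F) [N.Normal] [K.Normal]
    (hNK : N ≤ K) (hK : IsClosed (K : Set F)) (e : (F ⧸ N) ≃ₜ* G) (g : P →* F ⧸ K)
    (hg : Continuous g) (hgi : Function.Injective g) :
    ∃ (K' : Subgroup G) (_ : K'.Normal), IsClosed (K' : Set G) ∧
      ∃ g' : P →* G ⧸ K', Continuous g' ∧ Function.Injective g' := by
  let φ : F →* G := (e : F ⧸ N →* G).comp (QuotientGroup.mk' N)
  have hφ : ∀ x, φ x = e (QuotientGroup.mk x) := fun x => rfl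
  have hφs : Function.Surjective φ := by
    intro y
    obtain ⟨x, hx⟩ := QuotientGroup.mk_surjective (e.symm y)
    refine ⟨x, ?_⟩
    rw [hφ, hx]
    exact e.apply_symm_apply y
  have hφc : Continuous φ := e.continuous.comp QuotientGroup.continuous_mk
  have hφk : φ.ker = N := by
    ext x
    rw [MonoidHom.mem_ker, hφ, ← QuotientGroup.eq_one_iff]
    constructor
    · intro h
      apply e.injective
      rw [h, map_one]
    · intro h
      rw [h, map_one]
  have hcm : (K.map φ).comap φ = K := by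
    rw [Subgroup.comap_map_eq, hφk, sup_eq_left]
    exact hNK
  haveI hn : (K.map φ).Normal := Subgroup.Normal.map inferInstance φ hφs
  refine ⟨K.map φ, hn, ?_, ?_⟩
  · -- closedness
    have h1 : IsClosed (e ⁻¹' (K.map φ : Set G)) := by
      rw [← (QuotientGroup.isQuotientMap_mk N).isClosed_preimage]
      have : (QuotientGroup.mk : F → F ⧸ N) ⁻¹' (e ⁻¹' (K.map φ : Set G)) = K := by
        rw [← Set.preimage_comp]
        exact congrArg (fun H : Subgroup F => (H : Set F)) hcm
      rw [this]
      exact hK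
    have h2 := h1.preimage e.symm.continuous
    rw [← Set.preimage_comp] at h2
    convert h2
    ext y
    show _ ↔ e (e.symm y) ∈ (K.map φ : Set G)
    rw [ContinuousMulEquiv.apply_symm_apply]
  · let h : F ⧸ K →* G ⧸ (K.map φ) := QuotientGroup.map K (K.map φ) φ (Subgroup.le_comap_map φ K)
    have hh : ∀ x : F, h (QuotientGroup.mk x) = QuotientGroup.mk (φ x) := fun x => rfl
    refine ⟨h.comp g, ?_, ?_⟩
    · have hc : Continuous h := by
        rw [(QuotientGroup.isQuotientMap_mk K).continuous_iff]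
        exact QuotientGroup.continuous_mk.comp hφc
      exact hc.comp hg
    · have hi : Function.Injective h := by
        rw [injective_iff_map_eq_one]
        intro z hz
        obtain ⟨x, rfl⟩ := QuotientGroup.mk_surjective z
        rw [hh, QuotientGroup.eq_one_iff, ← Subgroup.mem_comap, hcm] at hz
        exact (QuotientGroup.eq_one_iff x).mpr hz
      exact hi.comp hgi

end

end GolodShaf
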