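import Pool.Agent.GolodShaf.Relators
import Pool.Agent.GolodShaf.Top

/-!
# Good homomorphisms are injective, start conditions
-/

set_option linter.unusedSectionVars false
set_option linter.unusedVariables false
set_option linter.style.haveILetI false

namespace GolodShaf

open Module Submodule NSeries

universe u v

section
variable {p : ℕ} [Fact p.Prime] {F : Type u} [Group F] {X : Type*} [Fintype X] [DecidableEq X]
  {x : X → F} {Op : Set (Subgroup F)}

/-- the norm element of a non-injective homomorphism from a `p`-group vanishes -/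
lemma norm_eq_zero {P Γ : Type*} [Group P] [Fintype P] [Group Γ] (hP : IsPGroup p P) (f : P →* Γ)
    (hf : ¬ Function.Injective f) : ∑ u, gr p (f u) = 0 := by
  classical
  have hp : p.Prime := Fact.out
  have hker : f.ker ≠ ⊥ := by
    intro h
    exact hf ((MonoidHom.ker_eq_bot_iff f).mp h)
  have hcard : p ∣ Nat.card f.ker := by
    obtain ⟨n, hn⟩ := IsPGroup.iff_card.mp (hP.to_subgroup f.ker)
    have hn0 : n ≠ 0 := by
      rintro rfl
      rw [pow_zero] at hn
      exact hker ((Subgroup.card_eq_one).mp hn)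
    rw [hn]
    exact dvd_pow_self p hn0
  have h1 : ∑ u, gr p (f u) = ∑ y ∈ Finset.univ.image f,
      ∑ u ∈ Finset.univ.filter (fun u => f u = y), gr p (f u) := by
    symm
    apply Finset.sum_fiberwise_of_maps_to
    intro u _
    exact Finset.mem_image_of_mem f (Finset.mem_univ u)
  rw [h1]
  apply Finset.sum_eq_zero
  intro y hy
  obtain ⟨u₀, -, hu₀⟩ := Finset.mem_image.mp hy
  have h2 : ∑ u ∈ Finset.univ.filter (fun u => f u = y), gr p (f u) =
      (Finset.univ.filter (fun u => f u = y)).card • gr p y := by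
    rw [← Finset.sum_const]
    apply Finset.sum_congr rfl
    intro u hu
    rw [(Finset.mem_filter.mp hu).2]
  have h3 : (Finset.univ.filter (fun u => f u = y)).card = Nat.card f.ker := by
    have h4 := MonoidHom.card_fiber_eq_of_mem_range f (x := y) (y := 1) ⟨u₀, hu₀⟩ ⟨1, map_one f⟩
    rw [h4, Nat.card_eq_fintype_card, Fintype.card_subtype]
    congr 1
    ext u
    simp [MonoidHom.mem_ker]
  rw [h2, h3]
  obtain ⟨k, hk⟩ := hcard
  rw [hk, ← Nat.cast_smul_eq_nsmul (ZMod p)]
  push_cast
  rw [ZMod.natCast_self, zero_mul, zero_smul]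

lemma relW_zero {Γ : Type*} [Group Γ] {t : ℝ}
    (M K : Submodule (ZMod p) (X → MonoidAlgebra (ZMod p) Γ)) : relW t M K 0 = 0 := by
  unfold relW
  have h1 : M.map (lact (0 : MonoidAlgebra (ZMod p) Γ)) = ⊥ := by
    rw [eq_bot_iff]
    rintro _ ⟨z, hz, rfl⟩
    rw [lact_apply, zero_smul]
    exact zero_mem _
  rw [h1, sup_bot_eq, sub_self]

/-- good homomorphisms are injective -/
theorem good_injective (hsys : FoxSys p x Op) {t c : ℝ} (ht0 : 0 < t) (ht1 : t < 1) (hc : 0 < c)
    {N V : Subgroup F} [V.Normal] (hV : V ∈ Op) {P : Type*} [Group P] [Fintype P]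
    (hP : IsPGroup p P) {f : P →* F ⧸ V} (hf : Good p x Op t c N V f) : Function.Injective f := by
  by_contra hcon
  haveI := hsys.finite V hV
  have hG := hsys.pgroup V hV
  obtain ⟨N₁, hN₁⟩ := QS_bot hG hV
  obtain ⟨D, hD⟩ := hsys.der V hV
  have h1 := hf D hD
  rw [norm_eq_zero hP f hcon, relW_zero] at h1
  have h2 := one_le_wK (S := QS p Op V) (K := ⊤) ht0 ht1 hG hN₁
  nlinarith

/-- the trivial group is good -/
theorem denselyGood_trivial (hsys : FoxSys p x Op) {t β₀ : ℝ} (ht0 : 0 < t) (ht1 : t < 1)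
    (c₀ : Cond p x Op t β₀) {P : Type*} [Group P] [Fintype P] (hP : Fintype.card P = 1)
    (ρ : P →* F ⧸ c₀.N) : DenselyGood c₀ (Fintype.card X * t - 1 - β₀) ρ := by
  intro q hq
  refine ⟨q, Cond.Below.refl q, hq, ?_⟩
  intro D hD
  haveI := hsys.finite q.V q.op
  have hG := hsys.pgroup q.V q.op
  have hsum : ∑ u, gr p (((qmap hq.NV).comp ρ) u) = 1 := by
    obtain ⟨u₀, hu₀⟩ := Fintype.card_eq_one_iff.mp hP
    have h1 : ∀ u : P, u = 1 := fun u => (hu₀ u).trans (hu₀ 1).symm
    have h2 : (Finset.univ : Finset P) = {1} := by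
      ext u
      simp [h1 u]
    rw [h2, Finset.sum_singleton, map_one, map_one]
  rw [hsum]
  unfold relW
  have hKM : D.im q.N ≤ D.M := by rw [D.M_eq_im]; exact D.im_mono q.le
  have h1 : D.im q.N ⊔ D.M.map (lact 1) = D.M := by
    have : D.M.map (lact (1 : MonoidAlgebra (ZMod p) (F ⧸ q.V))) = D.M := by
      apply le_antisymm
      · rintro _ ⟨z, hz, rfl⟩
        rw [lact_apply, one_smul]
        exact hz
      · intro z hz
        exact ⟨z, hz, by rw [lact_apply, one_smul]⟩
    rw [this]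
    exact sup_eq_right.mpr hKM
  rw [h1]
  have h2 := w_M_ge D ht0 ht1 hG (fun n => QS_E_top q.op n)
  have h3 := q.thin q.V q.op D hD q.le le_rfl
  have h4 := wK_nonneg (S := QS p Op q.V) (K := ⊤) ht0 ht1
  have h5 : q.β ≤ β₀ := by
    have := q.bd
    have := q.pos
    linarith
  have h6 := mul_le_mul_of_nonneg_right h5 h4
  have e : (Fintype.card X * t - 1 - β₀) * wK t (QS p Op q.V) ⊤ =
      (Fintype.card X * t - 1) * wK t (QS p Op q.V) ⊤ - β₀ * wK t (QS p Op q.V) ⊤ := by ring
  rw [e]
  linarith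

end

section
variable {p : ℕ} [Fact p.Prime] {F : Type u} [Group F] [TopologicalSpace F] {X : Type}
  [Fintype X] [DecidableEq X] {x : X → F}

/-- the family of open normal subgroups -/
def OpN (F : Type u) [Group F] [TopologicalSpace F] : Set (Subgroup F) :=
  {V | V.Normal ∧ IsOpen (V : Set F)}

theorem foxSys_of_isFreeProP (hF : IsFreeProP p x) : FoxSys p x (OpN F) := by
  haveI := hF.1.topGroup
  haveI := hF.1.compact
  have hp : p.Prime := Fact.out
  refine ⟨⟨inferInstance, isOpen_univ⟩, fun V hV => hV.1, ?_, ?_, ?_, ?_, ?_⟩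
  · intro V hV
    exact V.quotient_finite_of_isOpen hV.2
  · intro V hV _
    obtain ⟨n, hn⟩ := hF.1.index V hV.1 hV.2
    exact IsPGroup.of_card (n := n) hn
  · rintro V ⟨hV, hV'⟩ W ⟨hW, hW'⟩
    exact ⟨inferInstance, hV'.inter hW'⟩
  · intro V hV W hW hVW
    exact ⟨hW, Subgroup.isOpen_mono hVW hV.2⟩
  · intro V hV _
    obtain ⟨D, hD⟩ := exists_foxDer hF V hV.2
    refine ⟨D, D.sub ⊥, ⟨D.sub_normal (by simp), ?_⟩, ?_⟩
    · have : ((D.sub ⊥ : Subgroup F) : Set F) = {g | g ∈ V ∧ D.d g = 0} := by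
        ext g
        show g ∈ D.sub ⊥ ↔ _
        rw [D.mem_sub, Submodule.mem_bot]
        rfl
      rw [this]
      exact hD
    · intro g hg
      rw [D.mem_sub, Submodule.mem_bot] at hg
      exact hg

/-- the start condition -/
theorem thin_start (hF : IsFreeProP p x) (R : Set F) (deg : R → ℕ)
    (hdeg : ∀ r : R, (r : F) ∈ DF p (OpN F) (deg r)) {t : ℝ} (ht0 : 0 < t) (ht1 : t < 1)
    (hsum : Summable (fun r : R => t ^ (deg r))) :
    Thin p x (OpN F) t (Subgroup.normalClosure R) ⊤ (∑' r : R, t ^ (deg r)) := by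
  classical
  have hsys := foxSys_of_isFreeProP hF
  intro V hV _ D hD hRV _
  haveI := hsys.finite V hV
  -- a finite subset spanning
  obtain ⟨f, hf1, hf2, hf3⟩ := exists_fun_fin_finrank_span_eq (ZMod p)
    (Set.range fun r : R => D.d (r : F))
  choose r hr using hf1
  have hrinj : Function.Injective r := by
    intro i j hij
    apply hf3.injective
    rw [← hr i, ← hr j, hij]
  have h1 := im_normalClosure_le hsys ht0 ht1 (N := ⊥) hV bot_le D R f (fun i => deg (r i)) (by
      intro i
      rw [← hr i]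
      exact Submodule.mem_sup_left (D.d_mem_dfil hsys hD (hdeg (r i)))) (by
      intro g hg
      refine ⟨hRV (Subgroup.subset_normalClosure hg), ?_⟩
      apply Submodule.mem_sup_right
      rw [hf2]
      exact Submodule.subset_span ⟨⟨g, hg⟩, rfl⟩)
  have h2 : D.im ⊥ = ⊥ := by
    rw [eq_bot_iff]
    apply Submodule.span_le.mpr
    rintro _ ⟨g, hg, rfl⟩
    have : g = 1 := by simpa using hg
    rw [this, D.one]
    exact zero_mem _
  rw [h2, w_bot, zero_add] at h1
  have h3 : D.im (Subgroup.normalClosure R) ≤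
      D.im (Subgroup.normalClosure (((⊥ : Subgroup F) : Set F) ∪ R)) :=
    D.im_mono (Subgroup.normalClosure_mono Set.subset_union_right)
  refine (w_mono _ ht0 ht1 h3).trans (h1.trans ?_)
  apply mul_le_mul_of_nonneg_right _ (wK_nonneg ht0 ht1)
  have h4 : ∑ i, t ^ (deg (r i)) = ∑ r' ∈ Finset.univ.map ⟨r, hrinj⟩, t ^ (deg r') := by
    rw [Finset.sum_map]
    rfl
  rw [h4]
  exact hsum.sum_le_tsum _ (fun _ _ => by positivity)

end

end GolodShaf
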