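import Pool.Agent.GolodShaf.Cond

/-!
# Adapted generators of modules generated by one element
-/

set_option linter.unusedSectionVars false
set_option linter.unusedVariables false
set_option linter.style.haveILetI false

namespace GolodShaf

open Module Submodule NSeries

variable {p : ℕ} [Fact p.Prime] {Γ : Type*} [Group Γ]

/-- injective version -/
theorem exists_gens_inj {S : NSeries p Γ} {K : Subgroup Γ} {A : Type*} [AddCommGroup A]
    [Module (ZMod p) A] (j : A → Γ) (hj : Function.Injective j)
    (hjadd : ∀ a b, j (a + b) = j a * j b) {s : Γ} {n : ℕ}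
    (hs : s ∈ S.D n) (hK : ∀ v ∈ K, ∃ b, j b = v * s * v⁻¹) {r : ℕ}
    (u : Fin r → MonoidAlgebra (ZMod p) Γ) (m : Fin r → ℕ) (hu : ∀ a, u a ∈ S.E K (m a))
    (hspan : S.E K 0 = span (ZMod p) (Set.range u)) :
    ∃ α : Fin r → A, (∀ a, j (α a) ∈ S.D (n + m a)) ∧
      ∀ v ∈ K, ∀ b₀ : A, j b₀ = v * s * v⁻¹ → ∃ c : Fin r → ℕ, b₀ = ∑ a, c a • α a := by
  classical
  choose b hb using hK
  have hj0 : j 0 = 1 := by
    have := hjadd 0 0
    rw [add_zero] at this
    exact left_eq_mul.mp this
  have hjn : ∀ (n : ℕ) a, j (n • a) = j a ^ n := by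
    intro n a
    induction n with
    | zero => simp [hj0]
    | succ n ih => rw [succ_nsmul, hjadd, ih, pow_succ]
  let L : MonoidAlgebra (ZMod p) Γ →ₗ[ZMod p] A :=
    (MonoidAlgebra.basis Γ (ZMod p)).constr (ZMod p)
      (fun g => if h : g ∈ K then b g h else 0)
  have hL : ∀ g (h : g ∈ K), L (gr p g) = b g h := by
    intro g h
    have : gr p g = MonoidAlgebra.basis Γ (ZMod p) g := by
      rw [MonoidAlgebra.basis_apply, gr_apply]
    rw [this]
    simp only [L]
    rw [Module.Basis.constr_basis, dif_pos h]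
  -- the composite with j, as a map to Γ
  set jL : MonoidAlgebra (ZMod p) Γ → Γ := fun y => j (L y) with hjL
  have hjL_gr : ∀ g ∈ K, jL (gr p g) = g * s * g⁻¹ := by
    intro g h
    simp only [hjL]
    rw [hL g h, hb g h]
  have h0 : jL 0 = 1 := by simp only [hjL]; rw [map_zero, hj0]
  have hjL_add : ∀ y z, jL (y + z) = jL y * jL z := by
    intro y z
    simp only [hjL]
    rw [map_add, hjadd]
  have hcast : ∀ (c : ZMod p) (a : A), c • a = c.val • a := by
    intro c a
    conv_lhs => rw [← ZMod.natCast_zmod_val c]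
    rw [Nat.cast_smul_eq_nsmul]
  have hjL_smul : ∀ (c : ZMod p) y, jL (c • y) = jL y ^ c.val := by
    intro c y
    simp only [hjL]
    rw [map_smul, hcast, hjn]
  have hjL_mul : ∀ g ∈ K, ∀ y ∈ S.E K 0, jL (gr p g * y) = g * jL y * g⁻¹ := by
    intro g hg y hy
    rw [E_zero_eq] at hy
    induction hy using Submodule.span_induction with
    | mem y hy =>
      obtain ⟨h, hh, rfl⟩ := hy
      rw [← map_mul, hjL_gr _ (K.mul_mem hg hh), hjL_gr _ hh]
      group
    | zero =>
      rw [mul_zero, h0]
      group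
    | add y z _ _ hy hz =>
      rw [mul_add, hjL_add, hjL_add, hy, hz]
      group
    | smul c y _ hy =>
      rw [mul_smul_comm, hjL_smul, hjL_smul, hy, conj_pow]
  have hjL_D : ∀ m y, y ∈ S.E K m → jL y ∈ S.D (n + m) := by
    intro m y hy
    unfold E at hy
    induction hy using Submodule.span_induction with
    | mem y hy =>
      obtain ⟨l, hl, hm, rfl⟩ := hy
      have key : ∀ l : List (Γ × ℕ), (∀ a ∈ l, a.1 ∈ K ∧ a.1 ∈ S.D a.2) →
          jL (l.map (fun a => gr p a.1 - 1)).prod ∈ S.D (n + (l.map Prod.snd).sum) := by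
        intro l
        induction l with
        | nil =>
          intro _
          simp only [List.map_nil, List.prod_nil, List.sum_nil, add_zero]
          have h1 : jL 1 = s := by
            have := hjL_gr 1 K.one_mem
            rw [map_one] at this
            rw [this]
            group
          rw [h1]
          exact hs
        | cons a l ih =>
          intro hl
          have ih' := ih (fun b hb => hl b (List.mem_cons_of_mem _ hb))
          obtain ⟨haK, haD⟩ := hl a List.mem_cons_self
          simp only [List.map_cons, List.prod_cons, List.sum_cons]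
          have hP : (l.map (fun a => gr p a.1 - 1)).prod ∈ S.E K 0 :=
            E_anti (Nat.zero_le _)
              (prod_mem_E l (fun b hb => hl b (List.mem_cons_of_mem _ hb)) le_rfl)
          set P := (l.map (fun a => gr p a.1 - 1)).prod with hPdef
          have e1 : gr p a.1 * P = (gr p a.1 - 1) * P + P := by
            rw [sub_mul, one_mul]; abel
          have e2 : jL ((gr p a.1 - 1) * P) = a.1 * jL P * a.1⁻¹ * (jL P)⁻¹ := by
            have e3 := hjL_mul a.1 haK P hP
            rw [e1, hjL_add] at e3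
            rw [← e3]
            group
          rw [e2]
          have := S.comm_mem haD ih'
          have e4 : n + (a.2 + (l.map Prod.snd).sum) = a.2 + (n + (l.map Prod.snd).sum) := by ring
          rw [e4]
          exact this
      exact S.anti (by omega) (key l hl)
    | zero =>
      rw [h0]
      exact one_mem _
    | add y z _ _ hy hz => rw [hjL_add]; exact mul_mem hy hz
    | smul c y _ hy => rw [hjL_smul]; exact pow_mem hy _
  refine ⟨fun a => L (u a), fun a => hjL_D _ _ (hu a), ?_⟩
  intro v hv b₀ hb₀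
  have h1 : b₀ = L (gr p v) := by
    rw [hL v hv]
    apply hj
    rw [hb₀, hb v hv]
  have h2 : gr p v ∈ span (ZMod p) (Set.range u) := by
    rw [← hspan]
    exact of_mem_E hv
  rw [Submodule.mem_span_range_iff_exists_fun] at h2
  obtain ⟨c, hc⟩ := h2
  refine ⟨fun a => (c a).val, ?_⟩
  rw [h1, ← hc, map_sum]
  refine Finset.sum_congr rfl (fun a _ => ?_)
  rw [map_smul, hcast]

/-- general version -/
theorem exists_gens {S : NSeries p Γ} {K : Subgroup Γ} {B : Type*} [CommGroup B]
    (hB : ∀ b : B, b ^ p = 1) (j : B →* Γ) {s : Γ} {n : ℕ}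
    (hs : s ∈ S.D n) (hK : ∀ v ∈ K, ∃ b, j b = v * s * v⁻¹) {r : ℕ}
    (u : Fin r → MonoidAlgebra (ZMod p) Γ) (m : Fin r → ℕ) (hu : ∀ a, u a ∈ S.E K (m a))
    (hspan : S.E K 0 = span (ZMod p) (Set.range u)) :
    ∃ α : Fin r → B, (∀ a, j (α a) ∈ S.D (n + m a)) ∧
      ∀ v ∈ K, ∀ b₀ : B, j b₀ = v * s * v⁻¹ →
        ∃ b₁ ∈ Subgroup.closure (Set.range α), j b₁ = j b₀ := by
  -- pass to the quotient by the kernel
  have hB' : ∀ b : B ⧸ j.ker, b ^ p = 1 := by
    intro b
    obtain ⟨b, rfl⟩ := QuotientGroup.mk_surjective b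
    rw [← QuotientGroup.mk_pow, hB, QuotientGroup.mk_one]
  letI : Module (ZMod p) (Additive (B ⧸ j.ker)) := AddCommGroup.zmodModule (by
    intro b
    exact hB' (Additive.toMul b))
  obtain ⟨α', h1, h2⟩ := exists_gens_inj (A := Additive (B ⧸ j.ker))
    (fun a => QuotientGroup.kerLift j (Additive.toMul a))
    (fun a b hab => Additive.toMul.injective (QuotientGroup.kerLift_injective j hab))
    (fun a b => by rw [toMul_add, map_mul]) hs (by
      intro v hv
      obtain ⟨b, hb⟩ := hK v hv
      exact ⟨Additive.ofMul (QuotientGroup.mk b), by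
        rw [toMul_ofMul, QuotientGroup.kerLift_mk, hb]⟩) u m hu hspan
  choose α hα using fun a => QuotientGroup.mk_surjective (Additive.toMul (α' a))
  refine ⟨α, fun a => ?_, ?_⟩
  · have := h1 a
    rwa [← hα, QuotientGroup.kerLift_mk] at this
  · intro v hv b₀ hb₀
    obtain ⟨c, hc⟩ := h2 v hv (Additive.ofMul (QuotientGroup.mk b₀)) (by
      rw [toMul_ofMul, QuotientGroup.kerLift_mk, hb₀])
    refine ⟨∏ a, (α a) ^ (c a), ?_, ?_⟩
    · apply Subgroup.prod_mem
      intro a _
      apply Subgroup.pow_mem
      exact Subgroup.subset_closure ⟨a, rfl⟩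
    · have h5 := congrArg Additive.toMul hc
      rw [toMul_ofMul, toMul_sum] at h5
      have h6 : (QuotientGroup.mk b₀ : B ⧸ j.ker) = QuotientGroup.mk (∏ a, (α a) ^ (c a)) := by
        rw [h5]
        have h7 : (QuotientGroup.mk (∏ a, (α a) ^ (c a)) : B ⧸ j.ker) =
            ∏ a, (QuotientGroup.mk (α a) : B ⧸ j.ker) ^ (c a) := by
          simp
        rw [h7]
        refine Finset.prod_congr rfl (fun a _ => ?_)
        rw [toMul_nsmul, hα]
      have h8 := congrArg (QuotientGroup.kerLift j) h6
      rw [QuotientGroup.kerLift_mk, QuotientGroup.kerLift_mk] at h8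
      exact h8.symm

end GolodShaf
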