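import Pool.Agent.GolodShaf.LemD

/-!
# Iterated augmentation products
-/

set_option linter.unusedSectionVars false
set_option linter.unusedVariables false
set_option linter.style.haveILetI false

namespace GolodShaf

open Module Submodule NSeries

variable {p : ℕ} [Fact p.Prime] {X : Type*} [Fintype X] {Γ : Type*} [Group Γ]

/-- `I_C^k M` -/
noncomputable def Jt {κ : Type} (M : Submodule (ZMod p) (X → MonoidAlgebra (ZMod p) Γ))
    (c : κ → Γ) : ℕ → Submodule (ZMod p) (X → MonoidAlgebra (ZMod p) Γ)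
  | 0 => M
  | (k + 1) => ⨆ j, (Jt M c k).map (lact (gr p (c j) - 1))

lemma Jt_one {κ : Type} (M : Submodule (ZMod p) (X → MonoidAlgebra (ZMod p) Γ)) (c : κ → Γ) :
    Jt M c 1 = ⨆ j, M.map (lact (gr p (c j) - 1)) := rfl

theorem w_Jt [Finite Γ] {t : ℝ} (ht0 : 0 < t) (ht1 : t < 1) (hG : IsPGroup p Γ)
    {κ : Type} [Fintype κ] (M : Submodule (ZMod p) (X → MonoidAlgebra (ZMod p) Γ))
    (c : κ → Γ) (n : κ → ℕ) (hc : ∀ j, gr p (c j) - 1 ∈ augPow p Γ (n j))
    (hJM : Jt M c 1 ≤ M) (k : ℕ) :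
    w t (dfil p X Γ) M ≤ w t (dfil p X Γ) (Jt M c k) +
      (∑ i ∈ Finset.range k, (∑ j, t ^ (n j)) ^ i) *
        (w t (dfil p X Γ) M - w t (dfil p X Γ) (Jt M c 1)) := by
  classical
  obtain ⟨N, hN⟩ := augPow_nilpotent hG
  obtain ⟨r, v, m, hv, hspan, hsum⟩ := exists_adapted (dfil p X Γ) dfil_anti ht0 ht1 dfil_zero
    (N := N + 1) (S := M) (T := Jt M c 1) hJM (by rw [dfil_bot_of_large hN, inf_bot_eq]; exact bot_le)
  set e := w t (dfil p X Γ) M - w t (dfil p X Γ) (Jt M c 1) with he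
  set G := ∑ j, t ^ (n j) with hGdef
  have hG0 : 0 ≤ G := Finset.sum_nonneg (fun _ _ => by positivity)
  have key : ∀ k, ∃ (ι : Type) (_ : Fintype ι) (fam : ι → (X → MonoidAlgebra (ZMod p) Γ))
      (deg : ι → ℕ), (∀ a, fam a ∈ dfil p X Γ (deg a)) ∧
      Jt M c k ≤ Jt M c (k + 1) ⊔ span (ZMod p) (Set.range fam) ∧
      ∑ a, t ^ (deg a) ≤ G ^ k * e := by
    intro k
    induction k with
    | zero =>
      refine ⟨Fin r, inferInstance, v, m, fun a => (hv a).2, ?_, ?_⟩
      · exact hspan.le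
      · rw [pow_zero, one_mul]; exact hsum
    | succ k ih =>
      obtain ⟨ι, hι, fam, deg, h1, h2, h3⟩ := ih
      refine ⟨κ × ι, inferInstance, fun a => (gr p (c a.1) - 1) • fam a.2,
        fun a => n a.1 + deg a.2, fun a => smul_mem_dfil (hc a.1) (h1 a.2), ?_, ?_⟩
      · apply iSup_le
        intro j
        refine (Submodule.map_mono h2).trans ?_
        rw [Submodule.map_sup]
        apply sup_le_sup
        · exact le_iSup (fun j => (Jt M c (k + 1)).map (lact (gr p (c j) - 1))) j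
        · rw [Submodule.map_span]
          apply Submodule.span_mono
          rintro _ ⟨_, ⟨a, rfl⟩, rfl⟩
          exact ⟨(j, a), rfl⟩
      · rw [Fintype.sum_prod_type]
        have : ∀ j : κ, ∑ a, t ^ (n j + deg a) = t ^ (n j) * ∑ a, t ^ (deg a) := by
          intro j
          rw [Finset.mul_sum]
          exact Finset.sum_congr rfl (fun a _ => pow_add _ _ _)
        simp only [this]
        rw [← Finset.sum_mul, pow_succ', mul_assoc]
        exact mul_le_mul_of_nonneg_left h3 hG0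
  induction k with
  | zero => simp [Jt]
  | succ k ih =>
    obtain ⟨ι, hι, fam, deg, h1, h2, h3⟩ := key k
    have h4 := w_le_of_le_sup_span (dfil p X Γ) dfil_anti ht0 ht1 fam deg
      (fun a => Submodule.mem_sup_right (h1 a)) h2
    rw [Finset.sum_range_succ, add_mul]
    linarith

lemma Jt_le_tuples {κ : Type} (M : Submodule (ZMod p) (X → MonoidAlgebra (ZMod p) Γ)) (c : κ → Γ)
    {B : Type*} [CommGroup B] (jB : B →* Γ) (Nn : B → B) (hc : ∀ j, ∃ α, c j = jB (Nn α)) (k : ℕ) :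
    Jt M c k ≤ ⨆ β : Fin k → B,
      M.map (lact (grMap jB (∏ l, (gr p (Nn (β l)) - 1)))) := by
  induction k with
  | zero =>
    intro d hd
    apply Submodule.mem_iSup_of_mem (fun i => i.elim0)
    refine ⟨d, hd, ?_⟩
    simp
  | succ k ih =>
    apply iSup_le
    intro j
    obtain ⟨α, hα⟩ := hc j
    refine (Submodule.map_mono ih).trans ?_
    rw [Submodule.map_iSup]
    apply iSup_le
    intro β
    refine le_trans ?_ (le_iSup _ (Fin.cons α β))
    rw [← Submodule.map_comp, ← lact_mul]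
    have e : (gr p (c j) - 1) * grMap jB (∏ l, (gr p (Nn (β l)) - 1)) =
        grMap jB (∏ l, (gr p (Nn ((Fin.cons α β : Fin (k + 1) → B) l)) - 1)) := by
      rw [Fin.prod_univ_succ]
      simp only [Fin.cons_zero, Fin.cons_succ]
      rw [map_mul, map_sub, map_one, grMap_gr, ← hα]
    rw [e]

/-- from the iterated augmentation product to one tuple -/
theorem exists_tuple [Finite Γ] {t : ℝ} (ht0 : 0 < t) (ht1 : t < 1) {κ : Type}
    (M K : Submodule (ZMod p) (X → MonoidAlgebra (ZMod p) Γ)) (c : κ → Γ)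
    {B : Type*} [CommGroup B] [Finite B] (jB : B →* Γ) (Nn : B → B)
    (hc : ∀ j, ∃ α, c j = jB (Nn α)) (k : ℕ) :
    ∃ β : Fin k → B, w t (dfil p X Γ) (K ⊔ Jt M c k) - w t (dfil p X Γ) K ≤
      (Nat.card B) ^ k * relW t M K (grMap jB (∏ l, (gr p (Nn (β l)) - 1))) := by
  classical
  have := Fintype.ofFinite B
  have h1 := w_rel_iSup_le (dfil p X Γ) ht0 ht1 K (fun β : Fin k → B =>
    M.map (lact (grMap jB (∏ l, (gr p (Nn (β l)) - 1)))))
  have h2 := w_mono (dfil p X Γ) ht0 ht1 (sup_le_sup_left (Jt_le_tuples M c jB Nn hc k) K)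
  obtain ⟨β, -, hβ⟩ := Finset.exists_max_image (Finset.univ : Finset (Fin k → B))
    (fun β => relW t M K (grMap jB (∏ l, (gr p (Nn (β l)) - 1)))) Finset.univ_nonempty
  refine ⟨β, ?_⟩
  have h3 : ∑ β : Fin k → B, (w t (dfil p X Γ) (K ⊔
      M.map (lact (grMap jB (∏ l, (gr p (Nn (β l)) - 1))))) - w t (dfil p X Γ) K) ≤
      ∑ _β : Fin k → B, relW t M K (grMap jB (∏ l, (gr p (Nn (β l)) - 1))) :=
    Finset.sum_le_sum (fun γ hγ => hβ γ (Finset.mem_univ γ))
  rw [Finset.sum_const, Finset.card_univ, nsmul_eq_mul] at h3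
  have h4 : (Fintype.card (Fin k → B) : ℝ) = (Nat.card B : ℝ) ^ k := by
    rw [Fintype.card_fun, Fintype.card_fin, Nat.card_eq_fintype_card]
    push_cast
    rfl
  rw [h4] at h3
  linarith

end GolodShaf
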