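import Pool.Agent.GolodShaf.Level

/-!
# Coinvariants estimate
-/

set_option linter.unusedSectionVars false
set_option linter.unusedVariables false
set_option linter.style.haveILetI false

namespace GolodShaf

open Module Submodule NSeries

/-- coordinates with respect to a filtered basis -/
theorem FreeData.exists_coord {p : ℕ} [Fact p.Prime] {Γ : Type*} [Group Γ] {S : NSeries p Γ} {K' : Subgroup Γ}
    (d : FreeData S K' ⊤) :
    ∃ co : MonoidAlgebra (ZMod p) Γ →ₗ[ZMod p] (d.ι → MonoidAlgebra (ZMod p) Γ),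
      (∀ n y, y ∈ S.E ⊤ n → ∀ i, co y i ∈ S.E K' (n - d.β i)) ∧
      (∀ y i, co y i ∈ S.E K' 0) ∧
      (∀ y, ∑ i, co y i * d.b i = y) ∧
      (∀ a ∈ S.E K' 0, ∀ y i, co (a * y) i = a * co y i) := by
  have htop : ∀ y, y ∈ S.E ⊤ 0 := fun y => by rw [E_top_zero]; trivial
  have hun : ∀ c c' : d.ι → MonoidAlgebra (ZMod p) Γ, (∀ i, c i ∈ S.E K' 0) →
      (∀ i, c' i ∈ S.E K' 0) → ∑ i, c i * d.b i = ∑ i, c' i * d.b i → c = c' := by
    intro c c' hc hc' h
    have := d.free.inj (c - c') (fun i => sub_mem (hc i) (hc' i)) (by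
      simp only [Pi.sub_apply, sub_mul, Finset.sum_sub_distrib]
      rw [h, sub_self])
    exact sub_eq_zero.mp this
  choose co hco1 hco2 using fun y => d.free.surj 0 y (htop y)
  have hco0 : ∀ y i, co y i ∈ S.E K' 0 := fun y i => by simpa using hco1 y i
  refine ⟨⟨⟨co, ?_⟩, ?_⟩, ?_, hco0, fun y => (hco2 y).symm, ?_⟩
  · intro y z
    apply hun _ _ (hco0 _) (fun i => add_mem (hco0 y i) (hco0 z i))
    rw [← hco2]
    simp only [add_mul, Finset.sum_add_distrib]
    rw [← hco2, ← hco2]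
  · intro a y
    apply hun _ _ (hco0 _) (fun i => Submodule.smul_mem _ _ (hco0 y i))
    rw [← hco2]
    simp only [RingHom.id_apply, smul_mul_assoc]
    rw [← Finset.smul_sum, ← hco2]
  · intro n y hy i
    obtain ⟨c, hc, hsum⟩ := d.free.surj n y hy
    have h1 : co y = c := by
      apply hun _ _ (hco0 _) (fun i => E_anti (Nat.zero_le _) (hc i))
      rw [← hco2, hsum]
    show co y i ∈ _
    rw [h1]
    exact hc i
  · intro a ha y i
    have h1 : co (a * y) = fun i => a * co y i := by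
      apply hun _ _ (hco0 _) (fun i => mul_mem_E_left ha (hco0 y i))
      rw [← hco2]
      simp only [mul_assoc]
      rw [← Finset.mul_sum, ← hco2]
    exact congrFun h1 i

variable {p : ℕ} [Fact p.Prime] {X : Type*} [Fintype X]
variable {F : Type*} [Group F] [DecidableEq X] {x : X → F} {V : Subgroup F} [V.Normal]
  [Finite (F ⧸ V)] (D : FoxDer p x V) {S : NSeries p (F ⧸ V)}

/-- **Coinvariants estimate**. -/
theorem lemD {t : ℝ} (ht0 : 0 < t) (ht1 : t < 1) (hG : IsPGroup p (F ⧸ V))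
    {N : ℕ} (hN : S.D N = ⊥)
    (hS : ∀ n, S.E ⊤ n = augPow p (F ⧸ V) n) {κ : Type*} [Fintype κ] (c : κ → F ⧸ V) (n : κ → ℕ)
    (hc : ∀ j, c j ∈ S.D (n j)) {H : Subgroup (F ⧸ V)} (hH : H = Subgroup.closure (Set.range c)) :
    w t (dfil p X (F ⧸ V)) D.M ≤
      w t (dfil p X (F ⧸ V)) (⨆ j, D.M.map (lact (gr p (c j) - 1))) +
      Fintype.card X * t * (wK t S ⊤ / wK t S H) + (∑ j, t ^ (n j)) * wK t S H := by
  classical
  have hcH : ∀ j, c j ∈ H := fun j => hH ▸ Subgroup.subset_closure ⟨j, rfl⟩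
  obtain ⟨d⟩ := exists_freeData hG S hN (le_top : H ≤ ⊤)
  obtain ⟨co, hco1, hco0, hco2, hco3⟩ := d.exists_coord
  have hbmem : ∀ i, d.b i ∈ augPow p (F ⧸ V) (d.β i) := by
    intro i
    have := d.free.maps (d.β i) i 1 (by simpa using one_mem_E)
    rw [one_mul, hS] at this
    exact this
  have hEaug : ∀ m y, y ∈ S.E H m → y ∈ augPow p (F ⧸ V) m := by
    intro m y hy
    rw [← hS]
    exact E_mono le_top m hy
  -- lifts of the b i
  have hl : ∀ i, ∃ l : X → MonoidAlgebra (ZMod p) (F ⧸ V), i ≠ d.i0 →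
      (l ∈ dfil p X (F ⧸ V) (d.β i) ∧ D.pim l = d.b i) := by
    intro i
    by_cases hi : i = d.i0
    · exact ⟨0, fun h => absurd hi h⟩
    · obtain ⟨l, hl1, hl2⟩ := D.exists_pim_eq (d.pos i hi) (hbmem i)
      exact ⟨l, fun _ => ⟨hl1, hl2⟩⟩
  choose l hl using hl
  -- strict section on I_H
  set FB : ℕ → Submodule (ZMod p) (MonoidAlgebra (ZMod p) (F ⧸ V)) :=
    fun m => S.E H m ⊓ augPow p (F ⧸ V) 1 with hFB
  have hFBanti : Antitone FB := fun a b hab => inf_le_inf_right _ (E_anti hab)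
  obtain ⟨N', hN'⟩ := augPow_nilpotent hG
  have hFBbot : FB N' = ⊥ := by
    rw [eq_bot_iff]
    rintro y ⟨hy, -⟩
    have := hEaug _ _ hy
    rwa [hN'] at this
  obtain ⟨σ, hσ⟩ := exists_strict_section (dfil p X (F ⧸ V)) FB dfil_anti hFBanti hFBbot D.pim (by
    rintro m b ⟨hb1, hb2⟩
    have hb : b ∈ augPow p (F ⧸ V) (max m 1) := by
      rcases le_total m 1 with h | h
      · rw [max_eq_right h]; exact hb2
      · rw [max_eq_left h]; exact hEaug _ _ hb1
    obtain ⟨a, ha, hab⟩ := D.exists_pim_eq (le_max_right m 1) hb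
    exact ⟨a, dfil_anti (le_max_left m 1) ha, hab⟩)
  -- the section lam
  let lam : MonoidAlgebra (ZMod p) (F ⧸ V) →ₗ[ZMod p] (X → MonoidAlgebra (ZMod p) (F ⧸ V)) :=
    { toFun := fun y => σ (co y d.i0) + ∑ i ∈ Finset.univ.erase d.i0, co y i • l i
      map_add' := by
        intro y z
        rw [map_add, Pi.add_apply, map_add]
        simp only [Pi.add_apply, add_smul, Finset.sum_add_distrib]
        abel
      map_smul' := by
        intro a y
        rw [map_smul, Pi.smul_apply, map_smul]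
        simp only [Pi.smul_apply, RingHom.id_apply, smul_add, Finset.smul_sum, smul_assoc] }
  have hlam : ∀ y, lam y = σ (co y d.i0) + ∑ i ∈ Finset.univ.erase d.i0, co y i • l i :=
    fun y => rfl
  have hco_aug : ∀ y ∈ augPow p (F ⧸ V) 1, co y d.i0 ∈ augPow p (F ⧸ V) 1 := by
    intro y hy
    rw [mem_augPow_one_iff] at hy ⊢
    rw [← hco2 y, map_sum, ← Finset.add_sum_erase _ _ (Finset.mem_univ d.i0), d.b0, mul_one] at hy
    rw [Finset.sum_eq_zero, add_zero] at hy
    · exact hy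
    · intro i hi
      rw [map_mul, mem_augPow_one_iff.mp (augPow_anti (d.pos i (Finset.ne_of_mem_erase hi))
        (hbmem i)), mul_zero]
  have hlam_pi : ∀ y ∈ augPow p (F ⧸ V) 1, D.pim (lam y) = y := by
    intro y hy
    have h1 := (hσ 0 (co y d.i0) ⟨hco0 _ _, hco_aug y hy⟩).2
    rw [hlam, map_add, map_sum, h1]
    conv_rhs => rw [← hco2 y, ← Finset.add_sum_erase _ _ (Finset.mem_univ d.i0), d.b0, mul_one]
    congr 1
    refine Finset.sum_congr rfl (fun i hi => ?_)
    rw [D.pim_smul, (hl i (Finset.ne_of_mem_erase hi)).2]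
  have hlam_fil : ∀ m ≥ 1, ∀ y ∈ augPow p (F ⧸ V) m, lam y ∈ dfil p X (F ⧸ V) m := by
    intro m hm y hy
    have hy' : y ∈ S.E ⊤ m := by rw [hS]; exact hy
    rw [hlam]
    apply add_mem
    · have h1 := hco1 m y hy' d.i0
      rw [d.β0, Nat.sub_zero] at h1
      exact (hσ m _ ⟨h1, hco_aug y (augPow_anti hm hy)⟩).1
    · apply Submodule.sum_mem
      intro i hi
      have h1 := hEaug _ _ (hco1 m y hy' i)
      have h2 := smul_mem_dfil h1 (hl i (Finset.ne_of_mem_erase hi)).1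
      exact dfil_anti (by omega) h2
  -- generators
  have hex : ∀ i : X, D.d (x i) ∈ dfil p X (F ⧸ V) 1 := by
    intro i
    rw [mem_dfil]
    intro j
    rw [Nat.sub_self, augPow_zero]
    trivial
  set mm : d.ι × X → (X → MonoidAlgebra (ZMod p) (F ⧸ V)) := fun a =>
    d.b a.1 • D.d (x a.2) - lam (d.b a.1 * (gr p (QuotientGroup.mk (x a.2) : F ⧸ V) - 1)) with hmm
  have hbx : ∀ a : d.ι × X, d.b a.1 * (gr p (QuotientGroup.mk (x a.2) : F ⧸ V) - 1) ∈
      augPow p (F ⧸ V) (d.β a.1 + 1) := fun a => augPow_mul (hbmem a.1) (sub_one_mem_augPow _)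
  have hmmM : ∀ a, mm a ∈ D.M := by
    intro a
    rw [D.mem_M, hmm]
    simp only
    rw [map_sub, D.pim_smul, D.pim_d, hlam_pi _ (augPow_anti (by omega) (hbx a)), sub_self]
  have hmmF : ∀ a, mm a ∈ dfil p X (F ⧸ V) (d.β a.1 + 1) := by
    intro a
    exact sub_mem (smul_mem_dfil (hbmem a.1) (hex a.2)) (hlam_fil _ (by omega) _ (hbx a))
  -- the defects
  obtain ⟨r, y, m, hy, hyspan, hysum⟩ := exists_adapted (S.E ⊤) E_anti ht0 ht1 (E_top_zero S)
    (N := N') (S := FB 0) (T := ⊥) bot_le (by rw [hS N', hN', inf_bot_eq])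
  have hyFB : ∀ a, y a ∈ FB (m a) := by
    intro a
    refine ⟨?_, (hy a).1.2⟩
    rw [← E_eq_inf hG hN (le_top : H ≤ ⊤)]
    exact ⟨(hy a).1.1, (hy a).2⟩
  have hcaug : ∀ j, gr p (c j) - 1 ∈ augPow p (F ⧸ V) (n j) := by
    intro j
    rw [← hS]
    exact of_sub_one_mem_E trivial (hc j)
  let Df : κ → (MonoidAlgebra (ZMod p) (F ⧸ V) →ₗ[ZMod p] (X → MonoidAlgebra (ZMod p) (F ⧸ V))) :=
    fun j => lact (gr p (c j)) ∘ₗ σ - σ ∘ₗ (LinearMap.mulLeft (ZMod p) (gr p (c j)))
  have hDf : ∀ j z, Df j z = gr p (c j) • σ z - σ (gr p (c j) * z) := fun j z => rfl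
  have hmulFB : ∀ j m' z, z ∈ FB m' → (gr p (c j) - 1) * z ∈ FB (n j + m') := by
    rintro j m' z ⟨hz1, hz2⟩
    exact ⟨mul_mem_E (of_sub_one_mem_E (hcH j) (hc j)) hz1, augPow_mul_left hz2⟩
  have hmulFB' : ∀ j m' z, z ∈ FB m' → gr p (c j) * z ∈ FB m' := by
    rintro j m' z ⟨hz1, hz2⟩
    exact ⟨mul_mem_E_left (of_mem_E (hcH j)) hz1, augPow_mul_left hz2⟩
  have hDfM : ∀ j m' z, z ∈ FB m' → Df j z ∈ D.M := by
    intro j m' z hz
    rw [D.mem_M, hDf, map_sub, D.pim_smul, (hσ _ _ hz).2, (hσ _ _ (hmulFB' j _ z hz)).2, sub_self]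
  have hDfF : ∀ j m' z, z ∈ FB m' → Df j z ∈ dfil p X (F ⧸ V) (n j + m') := by
    intro j m' z hz
    have e : Df j z = (gr p (c j) - 1) • σ z - σ ((gr p (c j) - 1) * z) := by
      rw [hDf, sub_smul, one_smul, sub_mul, one_mul, map_sub]
      abel
    rw [e]
    exact sub_mem (smul_mem_dfil (hcaug j) (hσ _ _ hz).1) (hσ _ _ (hmulFB j _ z hz)).1
  set IC : Submodule (ZMod p) (X → MonoidAlgebra (ZMod p) (F ⧸ V)) :=
    ⨆ j, D.M.map (lact (gr p (c j) - 1)) with hIC
  let fam : (d.ι × X) ⊕ (κ × Fin r) → (X → MonoidAlgebra (ZMod p) (F ⧸ V)) :=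
    Sum.elim mm (fun a => Df a.1 (y a.2))
  let deg : (d.ι × X) ⊕ (κ × Fin r) → ℕ :=
    Sum.elim (fun a => d.β a.1 + 1) (fun a => n a.1 + m a.2)
  set T := IC ⊔ span (ZMod p) (Set.range fam) with hT
  have hICM : IC ≤ D.M := by
    apply iSup_le
    rintro j _ ⟨z, hz, rfl⟩
    exact D.smul_mem_M _ hz
  have hTM : T ≤ D.M := by
    apply sup_le hICM
    apply Submodule.span_le.mpr
    rintro _ ⟨a, rfl⟩
    rcases a with a | a
    · exact hmmM a
    · exact hDfM a.1 _ _ (hyFB a.2)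
  have hTstab : ∀ j, ∀ z ∈ T, gr p (c j) • z ∈ T := by
    intro j z hz
    have e : gr p (c j) • z = z + (gr p (c j) - 1) • z := by
      rw [sub_smul, one_smul]; abel
    rw [e]
    apply add_mem hz
    apply Submodule.mem_sup_left
    exact Submodule.mem_iSup_of_mem j ⟨z, hTM hz, rfl⟩
  have hTstab' : ∀ j, ∀ z ∈ T, gr p (c j)⁻¹ • z ∈ T := by
    intro j z hz
    have h1 : (c j)⁻¹ = (c j) ^ (Nat.card (F ⧸ V) - 1) := by
      have h2 : (c j) ^ (Nat.card (F ⧸ V)) = 1 := pow_card_eq_one'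
      have h3 : 0 < Nat.card (F ⧸ V) := Nat.card_pos
      rw [inv_eq_iff_mul_eq_one, ← pow_succ', Nat.sub_add_cancel h3, h2]
    rw [h1]
    generalize Nat.card (F ⧸ V) - 1 = e
    induction e with
    | zero => simpa using hz
    | succ e ih =>
      rw [pow_succ', map_mul, mul_smul]
      exact hTstab j _ ih
  have hDfT : ∀ j z, z ∈ FB 0 → Df j z ∈ T := by
    intro j z hz
    rw [hyspan, bot_sup_eq, Submodule.mem_span_range_iff_exists_fun] at hz
    obtain ⟨cf, rfl⟩ := hz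
    rw [map_sum]
    apply Submodule.sum_mem
    intro a _
    rw [map_smul]
    apply Submodule.smul_mem
    apply Submodule.mem_sup_right
    exact Submodule.subset_span ⟨Sum.inr (j, a), rfl⟩
  -- Theta
  let Th : (X → MonoidAlgebra (ZMod p) (F ⧸ V)) →ₗ[ZMod p] (X → MonoidAlgebra (ZMod p) (F ⧸ V)) :=
    LinearMap.id - lam ∘ₗ D.pim
  have hTh : ∀ z, Th z = z - lam (D.pim z) := fun z => rfl
  have hTh_mul : ∀ j z, D.pim z ∈ augPow p (F ⧸ V) 1 →
      Th (gr p (c j) • z) = gr p (c j) • Th z + Df j (co (D.pim z) d.i0) := by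
    intro j z hz
    rw [hTh, hTh, D.pim_smul, hlam, hlam, hDf, hco3 _ (of_mem_E (hcH j)), smul_sub, smul_add,
      Finset.smul_sum]
    have e : ∀ i ∈ Finset.univ.erase d.i0, co (gr p (c j) * D.pim z) i • l i =
        gr p (c j) • (co (D.pim z) i • l i) := by
      intro i _
      rw [hco3 _ (of_mem_E (hcH j)), mul_smul]
    rw [Finset.sum_congr rfl e]
    abel
  have hpim1 : ∀ z, D.pim z ∈ augPow p (F ⧸ V) 1 := by
    intro z
    apply D.pim_mem le_rfl
    rw [mem_dfil]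
    intro i
    rw [Nat.sub_self, augPow_zero]
    trivial
  have hThT : ∀ h ∈ H, ∀ a : d.ι × X, Th (gr p h • (d.b a.1 • D.d (x a.2))) ∈ T := by
    intro h hh a
    rw [hH] at hh
    induction hh using Subgroup.closure_induction_left with
    | one =>
      rw [map_one, one_smul, hTh, D.pim_smul, D.pim_d]
      apply Submodule.mem_sup_right
      exact Submodule.subset_span ⟨Sum.inl a, rfl⟩
    | mul_left u hu h' _ ih =>
      obtain ⟨j, rfl⟩ := hu
      rw [map_mul, mul_smul, hTh_mul j _ (hpim1 _)]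
      exact add_mem (hTstab j _ ih) (hDfT j _ ⟨hco0 _ _, hco_aug _ (hpim1 _)⟩)
    | inv_mul_cancel u hu h' _ ih =>
      obtain ⟨j, rfl⟩ := hu
      have h1 := hTh_mul j (gr p ((c j)⁻¹ * h') • (d.b a.1 • D.d (x a.2))) (hpim1 _)
      rw [← mul_smul, ← map_mul, mul_inv_cancel_left] at h1
      have h2 : gr p (c j) • Th (gr p ((c j)⁻¹ * h') • (d.b a.1 • D.d (x a.2))) ∈ T := by
        have h3 := hDfT j _ ⟨hco0 (D.pim (gr p ((c j)⁻¹ * h') • (d.b a.1 • D.d (x a.2)))) d.i0,
          hco_aug _ (hpim1 _)⟩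
        have h4 := sub_mem ih h3
        rw [h1] at h4
        simpa using h4
      have h5 := hTstab' j _ h2
      rwa [← mul_smul, gr_inv_mul, one_smul] at h5
  have hMT : D.M ≤ T := by
    intro v hv
    have h1 : Th v = v := by
      rw [hTh, D.mem_M.mp hv, map_zero, sub_zero]
    rw [← h1]
    have h2 : v = ∑ i, ∑ j, co (v i) j • (d.b j • D.d (x i)) := by
      conv_lhs => rw [← Finset.univ_sum_single v]
      refine Finset.sum_congr rfl (fun i _ => ?_)
      have h3 : (Pi.single i (v i) : X → MonoidAlgebra (ZMod p) (F ⧸ V)) = v i • D.d (x i) := by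
        rw [D.basis]
        funext j
        rcases eq_or_ne j i with rfl | hj
        · simp
        · simp [hj]
      rw [h3]
      conv_lhs => rw [← hco2 (v i)]
      rw [Finset.sum_smul]
      exact Finset.sum_congr rfl (fun j _ => by rw [mul_smul])
    rw [h2, map_sum]
    apply Submodule.sum_mem
    intro i _
    rw [map_sum]
    apply Submodule.sum_mem
    intro j _
    have h4 := hco0 (v i) j
    rw [E_zero_eq] at h4
    generalize co (v i) j = q₀ at h4
    induction h4 using Submodule.span_induction with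
    | mem a ha =>
      obtain ⟨h, hh, rfl⟩ := ha
      exact hThT h hh (j, i)
    | zero => simp
    | add a b _ _ ha hb => rw [add_smul, map_add]; exact add_mem ha hb
    | smul q a _ ha => rw [smul_assoc, map_smul]; exact Submodule.smul_mem _ _ ha
  have hfin := w_le_of_le_sup_span (dfil p X (F ⧸ V)) dfil_anti ht0 ht1 fam deg (by
    rintro (a | a)
    · exact Submodule.mem_sup_right (hmmF a)
    · exact Submodule.mem_sup_right (hDfF a.1 _ _ (hyFB a.2))) hMT
  refine hfin.trans ?_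
  have hsum : ∑ a, t ^ (deg a) = Fintype.card X * t * (∑ i, t ^ (d.β i)) +
      (∑ j, t ^ (n j)) * ∑ a, t ^ (m a) := by
    rw [Fintype.sum_sum_type, Fintype.sum_prod_type, Fintype.sum_prod_type]
    congr 1
    · simp only [deg, Sum.elim_inl, Finset.sum_const, Finset.card_univ, nsmul_eq_mul]
      rw [Finset.mul_sum]
      refine Finset.sum_congr rfl (fun i _ => ?_)
      rw [pow_succ]
      ring
    · simp only [deg, Sum.elim_inr]
      rw [Finset.sum_mul]
      refine Finset.sum_congr rfl (fun i _ => ?_)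
      rw [Finset.mul_sum]
      refine Finset.sum_congr rfl (fun j _ => ?_)
      rw [pow_add]
  rw [hsum]
  have hw1 : ∑ i, t ^ (d.β i) = wK t S ⊤ / wK t S H := by
    rw [wK_eq_mul ht0 ht1 hG hN le_top d.free]
    have : wK t S H ≠ 0 := by
      have := one_le_wK (S := S) (K := H) ht0 ht1 hG hN
      linarith
    field_simp
  rw [hw1]
  have hw2 : ∑ a, t ^ (m a) ≤ wK t S H := by
    rw [w_bot, sub_zero] at hysum
    exact hysum.trans (w_mono _ ht0 ht1 inf_le_left)
  have hw3 : (∑ j, t ^ (n j)) * ∑ a, t ^ (m a) ≤ (∑ j, t ^ (n j)) * wK t S H :=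
    mul_le_mul_of_nonneg_left hw2 (Finset.sum_nonneg (fun _ _ => by positivity))
  linarith

end GolodShaf
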