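import Pool.Agent.GolodShaf.Fox

/-!
# Weight computations at a single level
-/

set_option linter.unusedSectionVars false
set_option linter.unusedVariables false
set_option linter.style.haveILetI false

namespace GolodShaf

open Module Submodule NSeries

section abstract

variable {k : Type*} [Field k] {V : Type*} [AddCommGroup V] [Module k V] [FiniteDimensional k V]

/-- filtered isomorphisms preserve weights -/
lemma w_map_equiv {t : ℝ} (F : ℕ → Submodule k V) (e : V ≃ₗ[k] V)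
    (he : ∀ n, (F n).map (e : V →ₗ[k] V) = F n) (T : Submodule k V) :
    w t F (T.map (e : V →ₗ[k] V)) = w t F T := by
  have h : ∀ n, cod F (T.map (e : V →ₗ[k] V)) n = cod F T n := by
    intro n
    unfold cod
    have h1 : T.map (e : V →ₗ[k] V) ⊓ F n = (T ⊓ F n).map (e : V →ₗ[k] V) := by
      rw [Submodule.map_inf _ e.injective, he]
    rw [h1, LinearEquiv.finrank_map_eq, LinearEquiv.finrank_map_eq]
  unfold w
  simp only [h]

/-- strict linear sections of filtered maps. -/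
theorem exists_strict_section {A B : Type*} [AddCommGroup A] [Module k A] [AddCommGroup B]
    [Module k B] (FA : ℕ → Submodule k A) (FB : ℕ → Submodule k B) (hA : Antitone FA)
    (hB : Antitone FB) {N : ℕ} (hN : FB N = ⊥) (f : A →ₗ[k] B)
    (hf : ∀ n, ∀ b ∈ FB n, ∃ a ∈ FA n, f a = b) :
    ∃ σ : B →ₗ[k] A, ∀ n, ∀ b ∈ FB n, σ b ∈ FA n ∧ f (σ b) = b := by
  have key : ∀ m ≤ N, ∃ σ : B →ₗ[k] A, ∀ n ≥ N - m, ∀ b ∈ FB n, σ b ∈ FA n ∧ f (σ b) = b := by
    intro m
    induction m with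
    | zero =>
      intro _
      refine ⟨0, fun n hn b hb => ?_⟩
      have : b ∈ FB N := hB (by omega) hb
      rw [hN, Submodule.mem_bot] at this
      subst this
      simp
    | succ m ih =>
      intro hm
      obtain ⟨σ, hσ⟩ := ih (by omega)
      set l := N - (m + 1) with hl
      have hl1 : N - m = l + 1 := by omega
      rw [hl1] at hσ
      -- projection on FB (l+1)
      obtain ⟨pr, hpr1, hpr2⟩ : ∃ pr : B →ₗ[k] B, (∀ b, pr b ∈ FB (l + 1)) ∧
          ∀ b ∈ FB (l + 1), pr b = b := by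
        obtain ⟨g, hg⟩ := (FB (l + 1)).subtype.exists_leftInverse_of_injective
          (Submodule.ker_subtype _)
        refine ⟨(FB (l + 1)).subtype ∘ₗ g, fun b => (g b).2, fun b hb => ?_⟩
        exact congrArg Subtype.val (LinearMap.congr_fun hg ⟨b, hb⟩)
      -- section on FB l
      obtain ⟨τ, hτ⟩ : ∃ τ : B →ₗ[k] A, ∀ b ∈ FB l, τ b ∈ FA l ∧ f (τ b) = b := by
        let bas := Basis.ofVectorSpace k (FB l)
        choose a ha1 ha2 using fun i => hf l (bas i) (bas i).2
        obtain ⟨τ, hτ⟩ := LinearMap.exists_extend (bas.constr k a)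
        have hτ' : ∀ b : FB l, τ b = bas.constr k a b := fun b => by
          rw [← hτ]; rfl
        have h1 : ∀ b : FB l, bas.constr k a b ∈ FA l := by
          intro b
          have : LinearMap.range (bas.constr k a) ≤ FA l := by
            rw [Module.Basis.constr_range]
            apply Submodule.span_le.mpr
            rintro _ ⟨i, rfl⟩
            exact ha1 i
          exact this ⟨b, rfl⟩
        have h2 : f ∘ₗ (bas.constr k a) = (FB l).subtype := by
          apply bas.ext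
          intro i
          simp [ha2 i]
        refine ⟨τ, fun b hb => ?_⟩
        rw [hτ' ⟨b, hb⟩]
        exact ⟨h1 _, LinearMap.congr_fun h2 ⟨b, hb⟩⟩
      refine ⟨σ ∘ₗ pr + τ ∘ₗ (LinearMap.id - pr), fun n hn b hb => ?_⟩
      simp only [LinearMap.add_apply, LinearMap.comp_apply, LinearMap.sub_apply, LinearMap.id_apply]
      rcases Nat.lt_or_ge l n with hln | hln
      · have hb1 : b ∈ FB (l + 1) := hB (by omega) hb
        rw [hpr2 b hb1, sub_self, map_zero, add_zero]
        exact hσ n (by omega) b hb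
      · have hnl : n = l := by omega
        subst hnl
        have h1 := hσ (l + 1) le_rfl (pr b) (hpr1 b)
        have h2 := hτ (b - pr b) (sub_mem hb (hB (by omega) (hpr1 b)))
        refine ⟨add_mem (hA (by omega) h1.1) h2.1, ?_⟩
        rw [map_add, h1.2, h2.2]
        abel
  obtain ⟨σ, hσ⟩ := key N le_rfl
  exact ⟨σ, fun n b hb => hσ n (by omega) b hb⟩

lemma w_rel_sup_le {t : ℝ} (F : ℕ → Submodule k V) (ht0 : 0 < t) (ht1 : t < 1)
    {A B K : Submodule k V} (hA : K ≤ A) (hB : K ≤ B) :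
    w t F (A ⊔ B) - w t F K ≤ (w t F A - w t F K) + (w t F B - w t F K) := by
  have h1 := w_submod F ht0 ht1 A B
  have h2 := w_mono F ht0 ht1 (le_inf hA hB)
  linarith

lemma w_rel_biSup_le {t : ℝ} (F : ℕ → Submodule k V) (ht0 : 0 < t) (ht1 : t < 1)
    (K : Submodule k V) {ι : Type*} (s : Finset ι) (A : ι → Submodule k V) :
    w t F (K ⊔ ⨆ i ∈ s, A i) - w t F K ≤ ∑ i ∈ s, (w t F (K ⊔ A i) - w t F K) := by
  classical
  induction s using Finset.induction_on with
  | empty => simp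
  | insert a s ha ih =>
    rw [Finset.sum_insert ha, Finset.iSup_insert]
    have e : K ⊔ (A a ⊔ ⨆ i ∈ s, A i) = (K ⊔ A a) ⊔ (K ⊔ ⨆ i ∈ s, A i) := by
      rw [sup_sup_distrib_left]
    rw [e]
    have := w_rel_sup_le F ht0 ht1 (A := K ⊔ A a) (B := K ⊔ ⨆ i ∈ s, A i) (K := K) le_sup_left
      le_sup_left
    linarith

lemma w_rel_iSup_le {t : ℝ} (F : ℕ → Submodule k V) (ht0 : 0 < t) (ht1 : t < 1)
    (K : Submodule k V) {ι : Type*} [Fintype ι] (A : ι → Submodule k V) :
    w t F (K ⊔ ⨆ i, A i) - w t F K ≤ ∑ i, (w t F (K ⊔ A i) - w t F K) := by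
  have := w_rel_biSup_le F ht0 ht1 K Finset.univ A
  simpa using this

end abstract

section level

variable {p : ℕ} [Fact p.Prime] {X : Type*} [Fintype X]

section free

variable {Γ : Type*} [Group Γ]

lemma finrank_dfil [Finite Γ] (n : ℕ) :
    finrank (ZMod p) (dfil p X Γ n) = Fintype.card X * finrank (ZMod p) (augPow p Γ (n - 1)) := by
  let Φ : (X → augPow p Γ (n - 1)) →ₗ[ZMod p] dfil p X Γ n :=
    { toFun := fun c => ⟨fun i => (c i : MonoidAlgebra (ZMod p) Γ), by
        rw [mem_dfil]; exact fun i => (c i).2⟩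
      map_add' := by
        intro c c'
        ext1
        rfl
      map_smul' := by
        intro a c
        ext1
        rfl }
  have hΦi : Function.Injective Φ := by
    intro c c' h
    funext i
    ext1
    exact congrFun (congrArg Subtype.val h) i
  have hΦs : Function.Surjective Φ := by
    rintro ⟨d, hd⟩
    rw [mem_dfil] at hd
    exact ⟨fun i => ⟨d i, hd i⟩, rfl⟩
  have e := LinearEquiv.ofBijective Φ ⟨hΦi, hΦs⟩
  rw [← e.finrank_eq, Module.finrank_pi_fintype]
  simp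

lemma w_dfil_top [Finite Γ] {t : ℝ} (ht0 : 0 < t) (ht1 : t < 1) {S : NSeries p Γ}
    (hS : ∀ n, S.E ⊤ n = augPow p Γ n) :
    w t (dfil p X Γ) ⊤ = Fintype.card X * t * wK t S ⊤ := by
  have e1 : ∀ n, cod (dfil p X Γ) ⊤ (n + 1) = Fintype.card X * cod (S.E ⊤) (S.E ⊤ 0) n := by
    intro n
    unfold cod
    have e2 : finrank (ZMod p) (⊤ : Submodule (ZMod p) (X → MonoidAlgebra (ZMod p) Γ)) =
        Fintype.card X * finrank (ZMod p) (S.E ⊤ 0) := by
      rw [← dfil_zero (X := X), finrank_dfil, hS]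
    have e3 : finrank (ZMod p) ↥((⊤ : Submodule (ZMod p) (X → MonoidAlgebra (ZMod p) Γ)) ⊓
        dfil p X Γ (n + 1)) = Fintype.card X * finrank (ZMod p) ↥(S.E ⊤ 0 ⊓ S.E ⊤ n) := by
      rw [top_inf_eq, finrank_dfil, inf_eq_right.mpr (E_anti (Nat.zero_le _)), hS,
        Nat.add_sub_cancel]
    rw [e2, e3]
    push_cast
    ring
  have e0 : cod (S.E ⊤) (S.E ⊤ 0) 0 = 0 := by
    unfold cod
    rw [inf_idem]
    ring
  unfold wK w
  simp only [e1]
  have h1 : Summable (fun n => cod (S.E ⊤) (S.E ⊤ 0) n * t ^ n) :=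
    summable_bdd (fun n => cod_nonneg _ _ _) (fun n => cod_le _ _ _) ht0 ht1
  have e4 : ∑' n, (Fintype.card X : ℝ) * cod (S.E ⊤) (S.E ⊤ 0) n * t ^ n =
      Fintype.card X * (t * ∑' n, cod (S.E ⊤) (S.E ⊤ 0) (n + 1) * t ^ n) := by
    have : ∀ n, (Fintype.card X : ℝ) * cod (S.E ⊤) (S.E ⊤ 0) n * t ^ n =
        Fintype.card X * (cod (S.E ⊤) (S.E ⊤ 0) n * t ^ n) := fun n => by ring
    have h2 : ∑' n, cod (S.E ⊤) (S.E ⊤ 0) n * t ^ n =
        t * ∑' n, cod (S.E ⊤) (S.E ⊤ 0) (n + 1) * t ^ n := by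
      rw [h1.tsum_eq_zero_add, e0, zero_mul, zero_add, ← tsum_mul_left]
      congr 1
      funext n
      ring
    simp only [this]
    rw [tsum_mul_left, h2]
  rw [e4]
  ring

/-- acting by a group element preserves the filtration -/
noncomputable def grEquiv (p : ℕ) (X : Type*) {Γ : Type*} [Group Γ] (g : Γ) :
    (X → MonoidAlgebra (ZMod p) Γ) ≃ₗ[ZMod p] (X → MonoidAlgebra (ZMod p) Γ) :=
  LinearEquiv.ofLinearMap (lact (gr p g)) (lact (gr p g⁻¹)) (by
    ext1 d
    simp only [LinearMap.comp_apply, lact, LinearMap.coe_mk, AddHom.coe_mk, LinearMap.id_apply]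
    rw [← mul_smul, gr_mul_inv, one_smul]) (by
    ext1 d
    simp only [LinearMap.comp_apply, lact, LinearMap.coe_mk, AddHom.coe_mk, LinearMap.id_apply]
    rw [← mul_smul, gr_inv_mul, one_smul])

@[simp] lemma lact_apply {Γ : Type*} [Group Γ] (a : MonoidAlgebra (ZMod p) Γ)
    (d : X → MonoidAlgebra (ZMod p) Γ) : lact a d = a • d := rfl

lemma grEquiv_coe (g : Γ) : ((grEquiv p X g : (X → MonoidAlgebra (ZMod p) Γ) ≃ₗ[ZMod p] _) :
    (X → MonoidAlgebra (ZMod p) Γ) →ₗ[ZMod p] _) = lact (gr p g) := rfl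

lemma map_lact_gr_dfil (g : Γ) (n : ℕ) : (dfil p X Γ n).map (lact (gr p g)) = dfil p X Γ n := by
  apply le_antisymm
  · rintro _ ⟨d, hd, rfl⟩
    exact smul_mem_dfil' _ hd
  · intro d hd
    refine ⟨gr p g⁻¹ • d, smul_mem_dfil' _ hd, ?_⟩
    rw [lact_apply, ← mul_smul, gr_mul_inv, one_smul]

lemma w_map_gr [Finite Γ] {t : ℝ} (g : Γ) (T : Submodule (ZMod p) (X → MonoidAlgebra (ZMod p) Γ)) :
    w t (dfil p X Γ) (T.map (lact (gr p g))) = w t (dfil p X Γ) T := by
  rw [← grEquiv_coe]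
  exact w_map_equiv _ _ (fun n => by rw [grEquiv_coe]; exact map_lact_gr_dfil g n) T

lemma lact_mul (a b : MonoidAlgebra (ZMod p) Γ) :
    (lact (a * b) : (X → MonoidAlgebra (ZMod p) Γ) →ₗ[ZMod p] _) = lact a ∘ₗ lact b := by
  ext1 d
  simp [mul_smul]

lemma lact_add (a b : MonoidAlgebra (ZMod p) Γ) :
    (lact (a + b) : (X → MonoidAlgebra (ZMod p) Γ) →ₗ[ZMod p] _) = lact a + lact b := by
  ext1 d
  simp [add_smul]

lemma lact_neg (a : MonoidAlgebra (ZMod p) Γ) :
    (lact (-a) : (X → MonoidAlgebra (ZMod p) Γ) →ₗ[ZMod p] _) = - lact a := by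
  ext1 d
  simp

/-- the relative weight of `a • M` over `K`. -/
noncomputable def relW (t : ℝ) (M K : Submodule (ZMod p) (X → MonoidAlgebra (ZMod p) Γ))
    (a : MonoidAlgebra (ZMod p) Γ) : ℝ :=
  w t (dfil p X Γ) (K ⊔ M.map (lact a)) - w t (dfil p X Γ) K

section relW

variable [Finite Γ] {t : ℝ} {M K : Submodule (ZMod p) (X → MonoidAlgebra (ZMod p) Γ)}

lemma relW_mono (ht0 : 0 < t) (ht1 : t < 1) {a b : MonoidAlgebra (ZMod p) Γ}
    (h : M.map (lact a) ≤ K ⊔ M.map (lact b)) : relW t M K a ≤ relW t M K b := by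
  unfold relW
  have := w_mono (dfil p X Γ) ht0 ht1 (sup_le (le_sup_left : K ≤ K ⊔ M.map (lact b)) h)
  linarith

lemma relW_add (ht0 : 0 < t) (ht1 : t < 1) (a b : MonoidAlgebra (ZMod p) Γ) :
    relW t M K (a + b) ≤ relW t M K a + relW t M K b := by
  unfold relW
  have h1 := w_rel_sup_le (dfil p X Γ) ht0 ht1 (A := K ⊔ M.map (lact a))
    (B := K ⊔ M.map (lact b)) (K := K) le_sup_left le_sup_left
  have h2 : K ⊔ M.map (lact (a + b)) ≤ (K ⊔ M.map (lact a)) ⊔ (K ⊔ M.map (lact b)) := by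
    apply sup_le (le_sup_left.trans le_sup_left)
    rintro _ ⟨m, hm, rfl⟩
    rw [lact_add, LinearMap.add_apply]
    apply add_mem
    · exact Submodule.mem_sup_left (Submodule.mem_sup_right ⟨m, hm, rfl⟩)
    · exact Submodule.mem_sup_right (Submodule.mem_sup_right ⟨m, hm, rfl⟩)
  have h3 := w_mono (dfil p X Γ) ht0 ht1 h2
  linarith

lemma relW_neg (ht0 : 0 < t) (ht1 : t < 1) (a : MonoidAlgebra (ZMod p) Γ) :
    relW t M K (-a) ≤ relW t M K a := by
  apply relW_mono ht0 ht1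
  rintro _ ⟨m, hm, rfl⟩
  rw [lact_neg, LinearMap.neg_apply]
  exact neg_mem (Submodule.mem_sup_right ⟨m, hm, rfl⟩)

lemma relW_mul (ht0 : 0 < t) (ht1 : t < 1) (hM : ∀ (a : MonoidAlgebra (ZMod p) Γ), ∀ m ∈ M, a • m ∈ M)
    (a b : MonoidAlgebra (ZMod p) Γ) :
    relW t M K (a * b) ≤ relW t M K a := by
  apply relW_mono ht0 ht1
  rintro _ ⟨m, hm, rfl⟩
  rw [lact_mul, LinearMap.comp_apply]
  exact Submodule.mem_sup_right ⟨b • m, hM b m hm, rfl⟩

lemma relW_gr_mul (hK : ∀ (a : MonoidAlgebra (ZMod p) Γ), ∀ m ∈ K, a • m ∈ K) (g : Γ)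
    (a : MonoidAlgebra (ZMod p) Γ) :
    relW t M K (gr p g * a) = relW t M K a := by
  unfold relW
  have h1 : K.map (lact (gr p g)) = K := by
    apply le_antisymm
    · rintro _ ⟨m, hm, rfl⟩
      exact hK _ _ hm
    · intro m hm
      refine ⟨gr p g⁻¹ • m, hK _ _ hm, ?_⟩
      rw [lact_apply, ← mul_smul, gr_mul_inv, one_smul]
  have h2 : K ⊔ M.map (lact (gr p g * a)) = (K ⊔ M.map (lact a)).map (lact (gr p g)) := by
    rw [Submodule.map_sup, h1, lact_mul, Submodule.map_comp]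
  rw [h2, w_map_gr]

end relW

end free

section fox

variable {F : Type*} [Group F] [DecidableEq X] {x : X → F} {V : Subgroup F} [V.Normal]
  [Finite (F ⧸ V)] (D : FoxDer p x V) {S : NSeries p (F ⧸ V)}

/-- lower bound for the weight of `M`. -/
theorem w_M_ge {t : ℝ} (ht0 : 0 < t) (ht1 : t < 1) (hG : IsPGroup p (F ⧸ V))
    (hS : ∀ n, S.E ⊤ n = augPow p (F ⧸ V) n) :
    (Fintype.card X * t - 1) * wK t S ⊤ ≤ w t (dfil p X (F ⧸ V)) D.M := by
  classical
  obtain ⟨N, hN⟩ := augPow_nilpotent hG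
  obtain ⟨r, v, m, hv, hspan, hsum⟩ := exists_adapted (S.E ⊤) E_anti ht0 ht1 (E_top_zero S)
    (N := N) (S := S.E ⊤ 1) (T := ⊥) bot_le (by rw [hS N, hN, inf_bot_eq])
  have hv' : ∀ i, v i ∈ augPow p (F ⧸ V) (max (m i) 1) := by
    intro i
    have h1 := hv i
    rw [hS, hS] at h1
    rcases le_total (m i) 1 with h | h
    · rw [max_eq_right h]; exact h1.1
    · rw [max_eq_left h]; exact h1.2
  choose l hl1 hl2 using fun i => D.exists_pim_eq (le_max_right (m i) 1) (hv' i)
  have h1 := w_le_of_le_sup_span (dfil p X (F ⧸ V)) dfil_anti ht0 ht1 (S := ⊤) (T := D.M)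
    l (fun i => max (m i) 1) (fun i => Submodule.mem_sup_right (hl1 i)) (by
      intro d _
      -- π d ∈ augPow 1 = span v
      have h2 : D.pim d ∈ S.E ⊤ 1 := by
        rw [hS]
        apply D.pim_mem le_rfl
        rw [mem_dfil]
        intro i
        rw [Nat.sub_self, augPow_zero]
        trivial
      rw [hspan, bot_sup_eq, Submodule.mem_span_range_iff_exists_fun] at h2
      obtain ⟨c, hc⟩ := h2
      have h3 : d = (d - ∑ i, c i • l i) + ∑ i, c i • l i := by abel
      rw [h3]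
      apply add_mem
      · apply Submodule.mem_sup_left
        rw [D.mem_M, map_sub, map_sum, ← hc, sub_eq_zero]
        exact Finset.sum_congr rfl (fun i _ => by rw [map_smul, hl2])
      · apply Submodule.mem_sup_right
        exact Submodule.sum_mem _ (fun i _ => Submodule.smul_mem _ _
          (Submodule.subset_span ⟨i, rfl⟩)))
  rw [w_dfil_top ht0 ht1 hS] at h1
  have h2 : ∑ i, t ^ (max (m i) 1) ≤ ∑ i, t ^ (m i) := by
    apply Finset.sum_le_sum
    intro i _
    exact pow_le_pow_of_le_one ht0.le ht1.le (le_max_left _ _)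
  have h3 : w t (S.E ⊤) (S.E ⊤ 1) ≤ wK t S ⊤ := w_mono _ ht0 ht1 (E_anti (Nat.zero_le _))
  rw [w_bot, sub_zero] at hsum
  linarith

end fox

end level

end GolodShaf
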