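import Pool.Agent.GolodShaf.Cond

/-!
# Uniqueness of continuous Fox derivatives, the abelian group of the extension step
-/

set_option linter.unusedSectionVars false
set_option linter.unusedVariables false
set_option linter.style.haveILetI false

namespace GolodShaf

open Module Submodule NSeries

variable {p : ℕ} [Fact p.Prime] {F : Type*} [Group F] {X : Type*} [Fintype X] [DecidableEq X]
  {x : X → F} {Op : Set (Subgroup F)}

theorem FoxDer.d_unique (hsys : FoxSys p x Op) {V : Subgroup F} [V.Normal] {D D' : FoxDer p x V}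
    (hD : D.Cont Op) (hD' : D'.Cont Op) : D.d = D'.d := by
  obtain ⟨W₁, hW₁, hWD₁⟩ := hD
  obtain ⟨W₂, hW₂, hWD₂⟩ := hD'
  have hW := hsys.inf W₁ hW₁ W₂ hW₂
  set W := W₁ ⊓ W₂ with hWdef
  haveI := hsys.normal W hW
  have hWV : W ≤ V := fun g hg => (hWD₁ g hg.1).1
  obtain ⟨Ψ, h1, h2, -⟩ := exists_psi hWV D ⊥ (by simp)
    (fun v hv => by simpa using (hWD₁ v hv.1).2)
  obtain ⟨Ψ', h1', h2', -⟩ := exists_psi hWV D' ⊥ (by simp)
    (fun v hv => by simpa using (hWD₂ v hv.2).2)
  obtain ⟨DW, -⟩ := hsys.der W hW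
  set Δ := Ψ - Ψ' with hΔ
  have hΔg : ∀ g, Δ (gr p (QuotientGroup.mk g)) = D.d g - D'.d g := by
    intro g
    have e1 := h1 g
    have e2 := h1' g
    rw [Submodule.mem_bot, sub_eq_zero] at e1 e2
    rw [hΔ, LinearMap.sub_apply, e1, e2]
  have hΔmul : ∀ a b, Δ (a * b) = grMap (qmap hWV) a • Δ b + aug p _ b • Δ a := by
    intro a b
    have e1 := h2 a b
    have e2 := h2' a b
    rw [Submodule.mem_bot, sub_sub, sub_eq_zero] at e1 e2
    rw [hΔ, LinearMap.sub_apply, LinearMap.sub_apply, LinearMap.sub_apply, e1, e2, smul_sub,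
      smul_sub]
    abel
  have hΔ1 : Δ 1 = 0 := by
    have := hΔg 1
    rwa [QuotientGroup.mk_one, map_one, D.one, D'.one, sub_zero] at this
  have hΔx : ∀ i, Δ (gr p (QuotientGroup.mk (x i)) - 1) = 0 := by
    intro i
    rw [map_sub, hΔg, hΔ1, D.basis, D'.basis, sub_self, sub_zero]
  funext g
  rw [← sub_eq_zero, ← hΔg]
  have e3 : gr p (QuotientGroup.mk g : F ⧸ W) =
      ∑ i, DW.d g i * (gr p (QuotientGroup.mk (x i) : F ⧸ W) - 1) + 1 := by
    rw [DW.pi]
    abel
  rw [e3, map_add, hΔ1, add_zero, map_sum]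
  apply Finset.sum_eq_zero
  intro i _
  rw [hΔmul, hΔx, smul_zero, zero_add, map_sub, aug_gr, map_one, sub_self, zero_smul]

theorem FoxDer.unique (hsys : FoxSys p x Op) {V : Subgroup F} [V.Normal] {D D' : FoxDer p x V}
    (hD : D.Cont Op) (hD' : D'.Cont Op) : D = D' := by
  have := FoxDer.d_unique hsys hD hD'
  cases D
  cases D'
  simp only at this
  subst this
  rfl

universe u

/-- the elementary abelian group generated by the conjugates of the `s i`. -/
theorem exists_B {G : Type u} [Group G] {P : Type*} [Group P] (ρ : P →* G)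
    (K₁ : Subgroup G) (hρ : ∀ u, ρ u ∈ K₁) {l : ℕ} (s : Fin l → G)
    (hcomm : ∀ i j, ∀ v ∈ K₁, s i * (v * s j * v⁻¹) = (v * s j * v⁻¹) * s i)
    (hpow : ∀ i, s i ^ p = 1) (hfin : {g | ∃ i, ∃ v ∈ K₁, g = v * s i * v⁻¹}.Finite) :
    ∃ (B : Type u) (_ : CommGroup B) (_ : Finite B) (_ : MulDistribMulAction P B)
      (j : B →* G), (∀ b : B, b ^ p = 1) ∧ (∀ u b, ρ u * j b * (ρ u)⁻¹ = j (u • b)) ∧
      (∀ v ∈ K₁, ∀ i, ∃ b, j b = v * s i * v⁻¹) ∧
      (∀ b, j b ∈ Subgroup.closure {g | ∃ i, ∃ v ∈ K₁, g = v * s i * v⁻¹}) := by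
  have hp : p.Prime := Fact.out
  set T : Set G := {g | ∃ i, ∃ v ∈ K₁, g = v * s i * v⁻¹} with hT
  have hTcomm : ∀ a ∈ T, ∀ b ∈ T, a * b = b * a := by
    rintro _ ⟨i, v, hv, rfl⟩ _ ⟨j, w, hw, rfl⟩
    have h1 := hcomm i j (v⁻¹ * w) (K₁.mul_mem (K₁.inv_mem hv) hw)
    have h2 : v * s i * v⁻¹ * (w * s j * w⁻¹) =
        v * (s i * (v⁻¹ * w * s j * (v⁻¹ * w)⁻¹)) * v⁻¹ := by group
    rw [h2, h1]
    group
  set A := Subgroup.closure T with hA
  have hAcomm : ∀ a ∈ A, ∀ b ∈ A, a * b = b * a := by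
    intro a ha b hb
    have h1 : A ≤ Subgroup.centralizer T := by
      rw [hA, Subgroup.closure_le]
      intro c hc
      rw [SetLike.mem_coe, Subgroup.mem_centralizer_iff]
      intro d hd
      exact hTcomm d hd c hc
    have h2 : T ⊆ Subgroup.centralizer (A : Set G) := by
      intro c hc
      rw [SetLike.mem_coe, Subgroup.mem_centralizer_iff]
      intro d hd
      have := Subgroup.mem_centralizer_iff.mp (h1 hd) c hc
      exact this.symm
    have h3 : A ≤ Subgroup.centralizer (A : Set G) := by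
      conv_lhs => rw [hA]
      rw [Subgroup.closure_le]
      exact h2
    exact Subgroup.mem_centralizer_iff.mp (h3 hb) a ha
  have hApow : ∀ a ∈ A, a ^ p = 1 := by
    intro a ha
    rw [hA] at ha
    induction ha using Subgroup.closure_induction with
    | mem a ha =>
      obtain ⟨i, v, hv, rfl⟩ := ha
      rw [conj_pow, hpow]
      group
    | one => exact one_pow _
    | mul a b ha hb h1 h2 =>
      have : Commute a b := hAcomm a ha b hb
      rw [this.mul_pow, h1, h2, one_mul]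
    | inv a _ h1 => rw [inv_pow, h1, inv_one]
  have hAconj : ∀ u, ∀ a ∈ A, ρ u * a * (ρ u)⁻¹ ∈ A := by
    intro u a ha
    have h1 : A ≤ A.comap (MulAut.conj (ρ u)).toMonoidHom := by
      conv_lhs => rw [hA]
      rw [Subgroup.closure_le]
      rintro _ ⟨i, v, hv, rfl⟩
      show MulAut.conj (ρ u) (v * s i * v⁻¹) ∈ A
      rw [MulAut.conj_apply]
      apply Subgroup.subset_closure
      refine ⟨i, ρ u * v, K₁.mul_mem (hρ u) hv, ?_⟩
      group
    have := h1 ha
    simpa using this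
  letI hcg : CommGroup A :=
    { (inferInstance : Group A) with
      mul_comm := fun a b => Subtype.ext (hAcomm a a.2 b b.2) }
  have hfinA : Finite A := by
    haveI : Group.FG A := (Group.fg_iff_subgroup_fg A).mpr ((Subgroup.fg_iff A).mpr ⟨T, rfl, hfin⟩)
    apply CommGroup.finite_of_fg_isMulTorsion
    intro a
    rw [isOfFinOrder_iff_pow_eq_one]
    exact ⟨p, hp.pos, Subtype.ext (hApow a a.2)⟩
  letI hact : MulDistribMulAction P A :=
    { smul := fun u a => ⟨ρ u * a * (ρ u)⁻¹, hAconj u a a.2⟩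
      one_smul := by
        intro a
        apply Subtype.ext
        show ρ 1 * a * (ρ 1)⁻¹ = a
        rw [map_one]
        group
      mul_smul := by
        intro u v a
        apply Subtype.ext
        show ρ (u * v) * a * (ρ (u * v))⁻¹ = ρ u * (ρ v * a * (ρ v)⁻¹) * (ρ u)⁻¹
        rw [map_mul]
        group
      smul_mul := by
        intro u a b
        apply Subtype.ext
        show ρ u * (a * b) * (ρ u)⁻¹ = (ρ u * a * (ρ u)⁻¹) * (ρ u * b * (ρ u)⁻¹)
        group
      smul_one := by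
        intro u
        apply Subtype.ext
        show ρ u * 1 * (ρ u)⁻¹ = 1
        group }
  refine ⟨A, hcg, hfinA, hact, A.subtype, fun b => Subtype.ext (hApow b b.2), fun u b => rfl,
    ?_, fun b => b.2⟩
  intro v hv i
  exact ⟨⟨v * s i * v⁻¹, Subgroup.subset_closure ⟨i, v, hv, rfl⟩⟩, rfl⟩

end GolodShaf
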