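import Pool.Agent.GolodShaf.Gens
import Pool.Agent.GolodShaf.Uniq

/-!
# The level estimate of the central extension step
-/

set_option linter.unusedSectionVars false
set_option linter.unusedVariables false
set_option linter.style.haveILetI false

namespace GolodShaf

open Module Submodule NSeries

variable {p : ℕ} [Fact p.Prime] {F : Type*} [Group F] {X : Type*} [Fintype X] [DecidableEq X]
  {x : X → F} {Op : Set (Subgroup F)}

lemma FoxDer.d_list_prod {V : Subgroup F} [V.Normal] (D : FoxDer p x V) (l : List F)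
    (hl : ∀ g ∈ l, g ∈ V) : D.d l.prod = (l.map D.d).sum := by
  induction l with
  | nil => simp [D.one]
  | cons a l ih =>
    rw [List.prod_cons, List.map_cons, List.sum_cons, D.mul_left_mem (hl a List.mem_cons_self),
      ih (fun g hg => hl g (List.mem_cons_of_mem _ hg))]

theorem level_tuple (hsys : FoxSys p x Op) {t : ℝ} (ht0 : 0 < t) (ht1 : t < 1)
    {Vr V : Subgroup F} [Vr.Normal] [V.Normal] (hVr : Vr ∈ Op) (hV : V ∈ Op) (hVVr : V ≤ Vr)
    {Dr : FoxDer p x Vr} (hDr : Dr.Cont Op) {D : FoxDer p x V} (hD : D.Cont Op)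
    {Nr N : Subgroup F} [Nr.Normal] [N.Normal]
    (hVdr : ∀ v ∈ V, Dr.d v ∈ Dr.im Nr) (K₀ : Subgroup F) {κ : ℝ} (hκ : 0 ≤ κ)
    (hK2 : wK t (QS p Op V) (K₀.map (QuotientGroup.mk' V)) ≤ κ)
    {P : Type*} [Group P] [Fintype P] (σ : P → F) {l : ℕ} (s : Fin l → F) (n : Fin l → ℕ)
    (hsV : ∀ i, s i ∈ Vr) (hsD : ∀ i, s i ∈ DF p Op (n i)) {g₀ : ℝ} (hg₀ : ∑ i, t ^ (n i) ≤ g₀)
    {Y : ℝ} (hY : Y ≤ w t (dfil p X (F ⧸ Vr)) (Dr.im Nr ⊔ span (ZMod p)
        {d | ∃ g ∈ K₀, ∃ i, d = (∑ u, gr p (QuotientGroup.mk (σ u) : F ⧸ Vr)) •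
            (gr p (QuotientGroup.mk g : F ⧸ Vr) • Dr.d (s i))}) -
        w t (dfil p X (F ⧸ Vr)) (Dr.im Nr))
    {B : Type*} [CommGroup B] [Finite B] [MulDistribMulAction P B] (hB : ∀ b : B, b ^ p = 1)
    (j : B →* F ⧸ V)
    (hj : ∀ u b, (QuotientGroup.mk (σ u) : F ⧸ V) * j b * (QuotientGroup.mk (σ u))⁻¹ = j (u • b))
    (hjs : ∀ v ∈ K₀, ∀ i, ∃ b, j b = QuotientGroup.mk (v * s i * v⁻¹))
    (hjV : ∀ b, ∃ g ∈ Vr, j b = QuotientGroup.mk g)
    {β : ℝ} (hβ : w t (dfil p X (F ⧸ V)) (D.im N) ≤ β * wK t (QS p Op V) ⊤) (k : ℕ) :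
    ∃ b : Fin k → B, (Fintype.card X * t - 1 - β - (∑ i ∈ Finset.range k, (κ * g₀) ^ i) *
        (Fintype.card X * t * 2 ^ (-Y) + κ * g₀ / wK t (QS p Op Vr) ⊤)) * wK t (QS p Op V) ⊤ ≤
      (Nat.card B) ^ k *
        relW t D.M (D.im N) (grMap j (∏ i, (gr p (∏ u : P, u • b i) - 1))) := by
  classical
  haveI := hsys.finite V hV
  haveI := hsys.finite Vr hVr
  have hG := hsys.pgroup V hV
  have hGr := hsys.pgroup Vr hVr
  obtain ⟨N₁, hN₁⟩ := QS_bot hG hV
  obtain ⟨N₂, hN₂⟩ := QS_bot hGr hVr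
  set S := QS p Op V with hS
  obtain ⟨r, u, m, hu, huspan, husum⟩ := exists_adapted_E ht0 ht1 hG hN₁
    (K₀.map (QuotientGroup.mk' V))
  have hum : ∑ a, t ^ (m a) ≤ κ := husum.trans hK2
  -- generators
  have hgens : ∀ i, ∃ α : Fin r → B, (∀ a, j (α a) ∈ S.D (n i + m a)) ∧
      ∀ v ∈ K₀.map (QuotientGroup.mk' V), ∀ b₀ : B,
        j b₀ = v * (QuotientGroup.mk (s i) : F ⧸ V) * v⁻¹ →
        ∃ b₁ ∈ Subgroup.closure (Set.range α), j b₁ = j b₀ := by
    intro i
    apply exists_gens hB j (mem_QS (hsD i)) _ u m hu huspan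
    rintro _ ⟨v, hv, rfl⟩
    obtain ⟨b, hb⟩ := hjs v hv i
    refine ⟨b, ?_⟩
    rw [hb, QuotientGroup.mk'_apply, QuotientGroup.mk_mul, QuotientGroup.mk_mul,
      QuotientGroup.mk_inv]
  choose α hα1 hα2 using hgens
  -- the norm homomorphism
  let Nn : B →* B :=
    { toFun := fun b => ∏ u : P, u • b
      map_one' := by simp
      map_mul' := by
        intro a b
        rw [← Finset.prod_mul_distrib]
        exact Finset.prod_congr rfl (fun u _ => smul_mul' u a b) }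
  have hNn : ∀ b, Nn b = ∏ u : P, u • b := fun b => rfl
  have hND : ∀ q b, j b ∈ S.D q → j (Nn b) ∈ S.D q := by
    intro q b hb
    have h1 : Nn b ∈ (S.D q).comap j := by
      rw [hNn]
      apply Subgroup.prod_mem
      intro u _
      rw [Subgroup.mem_comap, ← hj]
      exact S.conj_mem hb _
    exact h1
  have hNker : ∀ b b', j b = j b' → j (Nn b) = j (Nn b') := by
    intro b b' hbb
    have h1 : Nn (b * b'⁻¹) ∈ j.ker := by
      rw [hNn]
      apply Subgroup.prod_mem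
      intro u _
      rw [MonoidHom.mem_ker, ← hj, map_mul, map_inv, hbb]
      group
    rw [MonoidHom.mem_ker, map_mul, map_inv, map_mul, map_inv] at h1
    exact mul_inv_eq_one.mp h1
  set c : Fin l × Fin r → F ⧸ V := fun a => j (Nn (α a.1 a.2)) with hc
  have hcD : ∀ a, c a ∈ S.D (n a.1 + m a.2) := fun a => hND _ _ (hα1 a.1 a.2)
  set H := Subgroup.closure (Set.range c) with hH
  have hHV : ∀ g : F, (QuotientGroup.mk g : F ⧸ V) ∈ H → g ∈ Vr := by
    intro g hg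
    have h1 : H ≤ Vr.map (QuotientGroup.mk' V) := by
      rw [hH, Subgroup.closure_le]
      rintro _ ⟨a, rfl⟩
      obtain ⟨g', hg', hg''⟩ := hjV (Nn (α a.1 a.2))
      exact ⟨g', hg', hg''.symm⟩
    obtain ⟨g', hg', hg''⟩ := h1 hg
    rw [QuotientGroup.mk'_apply, QuotientGroup.eq] at hg''
    have : g = g' * (g'⁻¹ * g) := by group
    rw [this]
    exact Vr.mul_mem hg' (hVVr hg'')
  have hNH : ∀ v ∈ K₀, ∀ i, ∀ b₀ : B, j b₀ = QuotientGroup.mk (v * s i * v⁻¹) →
      j (Nn b₀) ∈ H := by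
    intro v hv i b₀ hb₀
    obtain ⟨b₁, hb₁, hb₁'⟩ := hα2 i (QuotientGroup.mk v) ⟨v, hv, rfl⟩ b₀ (by
      rw [hb₀, QuotientGroup.mk_mul, QuotientGroup.mk_mul, QuotientGroup.mk_inv])
    rw [← hNker _ _ hb₁']
    have h1 : Subgroup.closure (Set.range (α i)) ≤ H.comap (j.comp Nn) := by
      rw [Subgroup.closure_le]
      rintro _ ⟨a, rfl⟩
      exact Subgroup.subset_closure ⟨(i, a), rfl⟩
    exact h1 hb₁
  -- exponential bound
  have hexp := exp_bound hsys ht0 ht1 hV hVr hDr (Dr.im Nr) hVdr H hHV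
  have hspan : span (ZMod p) {d | ∃ g ∈ K₀, ∃ i,
      d = (∑ u, gr p (QuotientGroup.mk (σ u) : F ⧸ Vr)) •
        (gr p (QuotientGroup.mk g : F ⧸ Vr) • Dr.d (s i))} ≤
      span (ZMod p) (Dr.d '' {g : F | (QuotientGroup.mk g : F ⧸ V) ∈ H}) := by
    apply Submodule.span_le.mpr
    rintro _ ⟨v, hv, i, rfl⟩
    obtain ⟨b₀, hb₀⟩ := hjs v hv i
    set gl : List F := (Finset.univ : Finset P).toList.map
      (fun u => σ u * (v * s i * v⁻¹) * (σ u)⁻¹) with hgl
    have hglV : ∀ g ∈ gl, g ∈ Vr := by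
      intro g hg
      rw [hgl, List.mem_map] at hg
      obtain ⟨u, -, rfl⟩ := hg
      exact Subgroup.Normal.conj_mem inferInstance _
        (Subgroup.Normal.conj_mem inferInstance _ (hsV i) _) _
    have h1 : (∑ u, gr p (QuotientGroup.mk (σ u) : F ⧸ Vr)) •
        (gr p (QuotientGroup.mk v : F ⧸ Vr) • Dr.d (s i)) = Dr.d gl.prod := by
      rw [Dr.d_list_prod gl hglV, hgl, List.map_map, Finset.sum_smul, ← Finset.sum_map_toList]
      congr 1
      apply List.map_congr_left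
      intro u _
      rw [Function.comp_apply, Dr.conj (Subgroup.Normal.conj_mem inferInstance _ (hsV i) _),
        Dr.conj (hsV i)]
    rw [h1]
    apply Submodule.subset_span
    refine ⟨gl.prod, ?_, rfl⟩
    show (QuotientGroup.mk' V) gl.prod ∈ H
    have h2 : (QuotientGroup.mk' V) gl.prod = j (Nn b₀) := by
      rw [map_list_prod, hNn, ← Finset.prod_map_toList, map_list_prod, hgl, List.map_map,
        List.map_map]
      congr 1
      apply List.map_congr_left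
      intro u _
      rw [Function.comp_apply, Function.comp_apply, ← hj, hb₀, QuotientGroup.mk'_apply,
        QuotientGroup.mk_mul, QuotientGroup.mk_mul, QuotientGroup.mk_inv]
    rw [h2]
    exact hNH v hv i b₀ hb₀
  have hw1 := w_mono (dfil p X (F ⧸ Vr)) ht0 ht1 (sup_le_sup_left hspan (Dr.im Nr))
  set wH := wK t S H with hwH
  have hYH : (2 : ℝ) ^ Y ≤ wH := by
    refine le_trans ?_ hexp
    apply Real.rpow_le_rpow_of_exponent_le (by norm_num)
    linarith
  -- upper bound for w(H)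
  have hmul := wK_map_mul_le (S := S) (S₁ := QS p Op Vr) ht0 ht1 hG hN₁
    (qmap hVVr) (fun n y hy => qmap_QS _ n y hy) (K' := H) (K := ⊤) le_top (by
      intro y hy
      obtain ⟨g, rfl⟩ := QuotientGroup.mk_surjective y
      rw [qmap_mk]
      exact (QuotientGroup.eq_one_iff g).mpr (hHV g hy))
  rw [Subgroup.map_top_of_surjective _ (qmap_surjective hVVr)] at hmul
  set W := wK t S ⊤ with hW
  set Wr := wK t (QS p Op Vr) ⊤ with hWr
  have hWr1 : 1 ≤ Wr := one_le_wK ht0 ht1 hGr hN₂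
  have hW1 : 1 ≤ W := one_le_wK ht0 ht1 hG hN₁
  have hwH0 : 0 < wH := lt_of_lt_of_le (by positivity) hYH
  have hwHle : wH ≤ W / Wr := by
    rw [le_div_iff₀ (by linarith)]
    exact hmul
  -- lemD
  have hD1 := lemD D ht0 ht1 hG hN₁ (fun q => QS_E_top hV q) c (fun a => n a.1 + m a.2) hcD
    (H := H) hH
  rw [← Jt_one] at hD1
  set G := ∑ a : Fin l × Fin r, t ^ (n a.1 + m a.2) with hGdef
  have hG0 : 0 ≤ G := Finset.sum_nonneg (fun _ _ => by positivity)
  have hGle : G ≤ κ * g₀ := by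
    have h1 : G = (∑ i, t ^ (n i)) * ∑ a, t ^ (m a) := by
      rw [hGdef, Fintype.sum_prod_type, Finset.sum_mul]
      refine Finset.sum_congr rfl (fun i _ => ?_)
      rw [Finset.mul_sum]
      refine Finset.sum_congr rfl (fun a _ => ?_)
      rw [pow_add]
    rw [h1, mul_comm κ]
    apply mul_le_mul hg₀ hum (Finset.sum_nonneg (fun _ _ => by positivity))
    exact le_trans (Finset.sum_nonneg (fun _ _ => by positivity)) hg₀
  have hX0 : (0 : ℝ) ≤ Fintype.card X * t := by positivity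
  set e := w t (dfil p X (F ⧸ V)) D.M - w t (dfil p X (F ⧸ V)) (Jt D.M c 1) with he
  have hJM : Jt D.M c 1 ≤ D.M := by
    rw [Jt_one]
    apply iSup_le
    rintro a _ ⟨z, hz, rfl⟩
    exact D.smul_mem_M _ hz
  have he0 : 0 ≤ e := by
    have := w_mono (dfil p X (F ⧸ V)) ht0 ht1 hJM
    linarith
  have hele : e ≤ (Fintype.card X * t * 2 ^ (-Y) + κ * g₀ / Wr) * W := by
    have h1 : W / wH ≤ 2 ^ (-Y) * W := by
      rw [div_le_iff₀ hwH0, Real.rpow_neg (by norm_num)]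
      have h2 : (1 : ℝ) ≤ (2 ^ Y)⁻¹ * wH := by
        rw [inv_mul_eq_div, le_div_iff₀ (by positivity), one_mul]
        exact hYH
      nlinarith
    have h3 : G * wH ≤ κ * g₀ * (W / Wr) := by
      apply mul_le_mul hGle hwHle hwH0.le
      exact hG0.trans hGle
    have h4 := mul_le_mul_of_nonneg_left h1 hX0
    have h5 : κ * g₀ * (W / Wr) = κ * g₀ / Wr * W := by ring
    rw [add_mul]
    linarith
  have hJk := w_Jt ht0 ht1 hG D.M c (fun a => n a.1 + m a.2) (fun a => QS_aug hV (hcD a)) hJM k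
  have hsumle : (∑ i ∈ Finset.range k, G ^ i) * e ≤
      (∑ i ∈ Finset.range k, (κ * g₀) ^ i) *
        ((Fintype.card X * t * 2 ^ (-Y) + κ * g₀ / Wr) * W) := by
    apply mul_le_mul _ hele he0
    · exact Finset.sum_nonneg (fun i _ => pow_nonneg (hG0.trans hGle) _)
    · exact Finset.sum_le_sum (fun i _ => pow_le_pow_left₀ hG0 hGle i)
  obtain ⟨b, hb⟩ := exists_tuple ht0 ht1 D.M (D.im N) c j Nn (fun a => ⟨α a.1 a.2, rfl⟩) k
  refine ⟨b, ?_⟩
  have hM := w_M_ge D ht0 ht1 hG (fun q => QS_E_top hV q)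
  have hmono := w_mono (dfil p X (F ⧸ V)) ht0 ht1 (le_sup_right : Jt D.M c k ≤ D.im N ⊔ Jt D.M c k)
  have hfin : (Fintype.card X * t - 1 - β - (∑ i ∈ Finset.range k, (κ * g₀) ^ i) *
        (Fintype.card X * t * 2 ^ (-Y) + κ * g₀ / Wr)) * W ≤
      w t (dfil p X (F ⧸ V)) (D.im N ⊔ Jt D.M c k) - w t (dfil p X (F ⧸ V)) (D.im N) := by
    have e1 : (Fintype.card X * t - 1 - β - (∑ i ∈ Finset.range k, (κ * g₀) ^ i) *
        (Fintype.card X * t * 2 ^ (-Y) + κ * g₀ / Wr)) * W =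
        (Fintype.card X * t - 1) * W - β * W - (∑ i ∈ Finset.range k, (κ * g₀) ^ i) *
        ((Fintype.card X * t * 2 ^ (-Y) + κ * g₀ / Wr) * W) := by ring
    rw [e1]
    linarith
  exact hfin.trans hb

end GolodShaf
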