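import Pool.Agent.GolodShaf.LemD
import Pool.Agent.GolodShaf.Cond

/-!
# Lifting of degrees, openness of the dimension subgroups
-/

set_option linter.unusedSectionVars false
set_option linter.unusedVariables false
set_option linter.style.haveILetI false

namespace GolodShaf

open Module Submodule NSeries

variable {p : ℕ} [Fact p.Prime] {F : Type*} [Group F] {X : Type*} [Fintype X] [DecidableEq X]
  {x : X → F} {Op : Set (Subgroup F)}

theorem DF_normal (hsys : FoxSys p x Op) (n : ℕ) : (DF p Op n).Normal :=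
  ⟨fun _ hg h => (DS p Op).conj_mem hg h⟩

/-- cardinality of `ι` times the order of the subgroup -/
lemma card_freeData {Γ : Type*} [Group Γ] [Finite Γ] {S : NSeries p Γ} {Q : Subgroup Γ}
    (d : FreeData S Q ⊤) : Fintype.card d.ι * Nat.card Q = Nat.card Γ := by
  have h := finrank_freeOver d.free E_anti 0
  rw [finrank_E_zero, Subgroup.card_top] at h
  rw [h, Finset.sum_congr rfl (fun i _ => by rw [Nat.zero_sub, finrank_E_zero]),
    Finset.sum_const, Finset.card_univ, smul_eq_mul]

section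

variable {V' V : Subgroup F} [V'.Normal] [V.Normal] (h : V' ≤ V)

lemma qmap_eq_one {q : F ⧸ V'} (hq : q ∈ V.map (QuotientGroup.mk' V')) : qmap h q = 1 := by
  obtain ⟨v, hv, rfl⟩ := hq
  rw [QuotientGroup.mk'_apply, qmap_mk]
  exact (QuotientGroup.eq_one_iff v).mpr hv

lemma mem_of_qmap_eq_one {q : F ⧸ V'} (hq : qmap h q = 1) :
    q ∈ V.map (QuotientGroup.mk' V') := by
  obtain ⟨v, rfl⟩ := QuotientGroup.mk_surjective q
  rw [qmap_mk] at hq
  exact ⟨v, (QuotientGroup.eq_one_iff v).mp hq, rfl⟩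

lemma grMap_E_zero {S : NSeries p (F ⧸ V')} {c : MonoidAlgebra (ZMod p) (F ⧸ V')}
    (hc : c ∈ S.E (V.map (QuotientGroup.mk' V')) 0) :
    grMap (qmap h) c = (aug p _ c) • (1 : MonoidAlgebra (ZMod p) (F ⧸ V)) := by
  rw [E_zero_eq] at hc
  induction hc using Submodule.span_induction with
  | mem y hy =>
    obtain ⟨q, hq, rfl⟩ := hy
    rw [grMap_gr, qmap_eq_one h hq, map_one, aug_gr, one_smul]
  | zero => simp
  | add a b _ _ ha hb => rw [map_add, map_add, ha, hb, add_smul]
  | smul r a _ ha => rw [map_smul, map_smul, ha, smul_assoc]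

include h in
lemma card_quot_mul [Finite (F ⧸ V')] :
    Nat.card (F ⧸ V) * Nat.card (V.map (QuotientGroup.mk' V')) = Nat.card (F ⧸ V') := by
  have hk : (qmap h).ker = V.map (QuotientGroup.mk' V') := by
    ext q
    exact ⟨fun hq => mem_of_qmap_eq_one h hq, fun hq => qmap_eq_one h hq⟩
  rw [← hk, Subgroup.card_eq_card_quotient_mul_card_subgroup (qmap h).ker]
  congr 1
  exact Nat.card_congr (QuotientGroup.quotientKerEquivOfSurjective _ (qmap_surjective h)).toEquiv.symm

end

/-- lifting of degrees -/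
theorem exists_lift_degree (hsys : FoxSys p x Op) {V : Subgroup F} [V.Normal] (hV : V ∈ Op)
    {D : FoxDer p x V} (hD : D.Cont Op) {v : F} (hv : v ∈ V) {n : ℕ}
    (hn : D.d v ∈ dfil p X (F ⧸ V) n) : ∃ v' ∈ V, v' ∈ DF p Op n ∧ D.d v' = D.d v := by
  classical
  rcases Nat.lt_or_ge 1 n with hn1 | hn1
  swap
  · refine ⟨v, hv, ?_, rfl⟩
    have h1 : DF p Op 1 = ⊤ := (DS p Op).one
    have h2 : v ∈ DF p Op 1 := by rw [h1]; trivial
    exact (DS p Op).anti hn1 h2
  have hKbot : ∀ (a : MonoidAlgebra (ZMod p) (F ⧸ V)),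
      ∀ m ∈ (⊥ : Submodule (ZMod p) (X → MonoidAlgebra (ZMod p) (F ⧸ V))), a • m ∈
      (⊥ : Submodule (ZMod p) (X → MonoidAlgebra (ZMod p) (F ⧸ V))) := by
    intro a m hm
    rw [Submodule.mem_bot] at hm ⊢
    rw [hm, smul_zero]
  set V' := D.sub ⊥ with hV'
  have hV'op : V' ∈ Op := D.sub_mem_Op hsys hD hKbot
  have h : V' ≤ V := D.sub_le
  haveI : V'.Normal := D.sub_normal hKbot
  haveI := hsys.finite V' hV'op
  haveI := hsys.finite V hV
  have hG := hsys.pgroup V' hV'op
  obtain ⟨Ψ, h1, h2, h3⟩ := exists_psi (V' := V') (V := V) h D ⊥ hKbot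
    (fun v hv => (D.mem_sub.mp hv).2)
  simp only [Submodule.mem_bot, sub_eq_zero, sup_bot_eq] at h1 h2 h3
  have h2' : ∀ a b, Ψ (a * b) = grMap (qmap h) a • Ψ b + aug p _ b • Ψ a := by
    intro a b
    rw [← h2 a b]
    abel
  have hΨ1 : Ψ 1 = 0 := by
    have := h1 1
    rwa [QuotientGroup.mk_one, map_one, D.one] at this
  -- pim of Ψ
  have hpim : ∀ y, D.pim (Ψ y) = grMap (qmap h) y - aug p _ y • 1 := by
    intro y
    have hy : y ∈ Submodule.span (ZMod p) (Set.range (gr p : F ⧸ V' → _)) := by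
      rw [span_gr]; trivial
    induction hy using Submodule.span_induction with
    | mem y hy =>
      obtain ⟨g, rfl⟩ := hy
      obtain ⟨g, rfl⟩ := QuotientGroup.mk_surjective g
      rw [h1, D.pim_d, grMap_gr, qmap_mk, aug_gr, one_smul]
    | zero => simp
    | add a b _ _ ha hb =>
      rw [map_add, map_add, ha, hb, map_add, map_add, add_smul]
      abel
    | smul r a _ ha =>
      rw [map_smul, map_smul, ha, map_smul, map_smul, smul_sub, smul_assoc]
  -- surjectivity in degree n
  obtain ⟨b, hb, hΨb⟩ : ∃ b ∈ augPow p (F ⧸ V') n, Ψ b = D.d v := by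
    rw [mem_dfil] at hn
    choose a ha ha' using fun i => exists_lift_augPow (qmap h) (qmap_surjective h) (hn i)
    refine ⟨∑ i, a i * (gr p (QuotientGroup.mk (x i) : F ⧸ V') - 1), ?_, ?_⟩
    · apply Submodule.sum_mem
      intro i _
      have := augPow_mul (ha i) (sub_one_mem_augPow (p := p) (QuotientGroup.mk (x i) : F ⧸ V'))
      exact augPow_anti (by omega) this
    · rw [map_sum]
      conv_rhs => rw [← Finset.univ_sum_single (D.d v)]
      refine Finset.sum_congr rfl (fun i _ => ?_)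
      rw [h2', map_sub, hΨ1, sub_zero, h1, D.basis, map_sub, aug_gr, map_one, sub_self, zero_smul,
        add_zero, ha']
      funext j
      rcases eq_or_ne j i with rfl | hj
      · simp
      · simp [hj]
  set Q := V.map (QuotientGroup.mk' V') with hQ
  obtain ⟨N, hN⟩ := QS_bot hG hV'op
  obtain ⟨d⟩ := exists_freeData hG (QS p Op V') hN (le_top : Q ≤ ⊤)
  obtain ⟨co, hco1, hco0, hco2, hco3⟩ := d.exists_coord
  have hvQ : (QuotientGroup.mk v : F ⧸ V') ∈ Q := ⟨v, hv, rfl⟩
  have haugb : ∀ i, i ≠ d.i0 → aug p _ (d.b i) = 0 := by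
    intro i hi
    have hbm := d.free.maps (d.β i) i 1 (by simpa using one_mem_E)
    rw [one_mul, QS_E_top hV'op] at hbm
    exact aug_eq_zero_of_mem (augPow_anti (d.pos i hi) hbm)
  -- co 1
  have hco_one : co 1 = fun i => if i = d.i0 then 1 else 0 := by
    have h5 : co 1 - (fun i => if i = d.i0 then (1 : MonoidAlgebra (ZMod p) (F ⧸ V')) else 0) = 0 := by
      apply d.free.inj
      · intro i
        apply sub_mem (hco0 1 i)
        simp only
        split_ifs
        · exact one_mem_E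
        · exact zero_mem _
      · simp only [Pi.sub_apply, sub_mul, Finset.sum_sub_distrib, hco2, ite_mul, one_mul, zero_mul,
          Finset.sum_ite_eq', Finset.mem_univ, if_true, d.b0, sub_self]
    exact sub_eq_zero.mp h5
  set q : MonoidAlgebra (ZMod p) (F ⧸ V') := gr p (QuotientGroup.mk v : F ⧸ V') - 1 with hq
  have hqE : q ∈ (QS p Op V').E Q 0 := sub_mem (of_mem_E hvQ) one_mem_E
  have hcoq : co q d.i0 = q := by
    have h6 := hco3 q hqE 1 d.i0
    rw [mul_one, hco_one] at h6
    simpa using h6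
  have hΨq : Ψ q = D.d v := by rw [hq, map_sub, hΨ1, sub_zero, h1]
  have hz : Ψ (q - b) = 0 := by rw [map_sub, hΨq, hΨb, sub_self]
  -- expand
  have hterm : ∀ y i, i ≠ d.i0 → Ψ (co y i * d.b i) = aug p _ (co y i) • Ψ (d.b i) := by
    intro y i hi
    rw [h2', haugb i hi, zero_smul, add_zero, grMap_E_zero h (hco0 y i), smul_assoc, one_smul]
  have hexp : ∀ y, Ψ y = Ψ (co y d.i0) +
      ∑ i ∈ Finset.univ.erase d.i0, aug p _ (co y i) • Ψ (d.b i) := by
    intro y
    conv_lhs => rw [← hco2 y]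
    rw [map_sum, ← Finset.add_sum_erase _ _ (Finset.mem_univ d.i0), d.b0, mul_one]
    congr 1
    exact Finset.sum_congr rfl (fun i hi => hterm y i (Finset.ne_of_mem_erase hi))
  -- linear independence of the images
  have hspan : ⊤ ≤ Submodule.span (ZMod p) (Set.range fun i => grMap (qmap h) (d.b i)) := by
    rw [← span_gr]
    apply Submodule.span_le.mpr
    rintro _ ⟨g, rfl⟩
    obtain ⟨g', rfl⟩ := qmap_surjective h g
    rw [← grMap_gr, ← hco2 (gr p g'), map_sum]
    apply Submodule.sum_mem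
    intro i _
    rw [map_mul, grMap_E_zero h (hco0 _ i), smul_mul_assoc, one_mul]
    exact Submodule.smul_mem _ _ (Submodule.subset_span ⟨i, rfl⟩)
  have hcard : Fintype.card d.ι = finrank (ZMod p) (MonoidAlgebra (ZMod p) (F ⧸ V)) := by
    have e1 := card_freeData d
    have e2 := card_quot_mul (V' := V') (V := V) h
    have e3 : Fintype.card d.ι = Nat.card (F ⧸ V) := by
      have hpos : 0 < Nat.card Q := Nat.card_pos
      rw [← hQ] at e2
      exact Nat.eq_of_mul_eq_mul_right hpos (e1.trans e2.symm)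
    rw [e3]
    have := Fintype.ofFinite (F ⧸ V)
    rw [Module.finrank_eq_card_basis (MonoidAlgebra.basis (F ⧸ V) (ZMod p)),
      Nat.card_eq_fintype_card]
  have hli : LinearIndependent (ZMod p) (fun i => grMap (qmap h) (d.b i)) :=
    linearIndependent_of_top_le_span_of_card_eq_finrank hspan hcard
  -- vanishing of the coefficients
  have hco_z : Ψ (co (q - b) d.i0) = 0 := by
    have e1 := hexp (q - b)
    rw [hz] at e1
    have e2 := congrArg D.pim e1
    rw [map_zero, map_add, hpim, grMap_E_zero h (hco0 _ _), sub_self, zero_add, map_sum] at e2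
    have e3 : ∑ i, (if i = d.i0 then 0 else aug p _ (co (q - b) i)) • grMap (qmap h) (d.b i) =
        0 := by
      rw [← Finset.add_sum_erase _ _ (Finset.mem_univ d.i0), if_pos rfl, zero_smul, zero_add,
        eq_comm]
      refine e2.trans (Finset.sum_congr rfl (fun i hi => ?_))
      have hi' := Finset.ne_of_mem_erase hi
      rw [if_neg hi', map_smul, hpim, haugb i hi', zero_smul, sub_zero]
    have e4 := Fintype.linearIndependent_iff.mp hli _ e3
    have e5 : ∑ i ∈ Finset.univ.erase d.i0, aug p _ (co (q - b) i) • Ψ (d.b i) = 0 := by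
      apply Finset.sum_eq_zero
      intro i hi
      have hi' := Finset.ne_of_mem_erase hi
      have := e4 i
      rw [if_neg hi'] at this
      rw [this, zero_smul]
    rw [e5, add_zero] at e1
    exact e1.symm
  have hkey : D.d v = Ψ (co b d.i0) := by
    rw [map_sub, Pi.sub_apply, map_sub, hcoq, hΨq, sub_eq_zero] at hco_z
    exact hco_z
  have hcb : co b d.i0 ∈ (QS p Op V').E Q n := by
    have e1 := hco1 n b (by rw [QS_E_top hV'op]; exact hb) d.i0
    rwa [d.β0, Nat.sub_zero] at e1
  have hfin : D.d v ∈ D.im (V ⊓ DF p Op n) := by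
    rw [hkey]
    generalize co b d.i0 = c at hcb
    unfold NSeries.E at hcb
    induction hcb using Submodule.span_induction with
    | mem c hc =>
      obtain ⟨l, hl, hln, rfl⟩ := hc
      rcases l with _ | ⟨a, l⟩
      · simp at hln
        omega
      · rcases l with _ | ⟨a', l⟩
        · simp only [List.map_cons, List.map_nil, List.sum_cons, List.sum_nil, add_zero,
            List.prod_cons, List.prod_nil, mul_one] at hln ⊢
          obtain ⟨haQ, haD⟩ := hl a List.mem_cons_self
          obtain ⟨g', hg', hg'a⟩ := exists_of_mem_QS haD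
          rw [map_sub, hΨ1, sub_zero, ← hg'a, h1]
          apply D.d_mem_im
          refine ⟨?_, (DS p Op).anti hln hg'⟩
          have e1 := qmap_eq_one h haQ
          rw [← hg'a, qmap_mk] at e1
          exact (QuotientGroup.eq_one_iff g').mp e1
        · obtain ⟨haQ, haD⟩ := hl a List.mem_cons_self
          rw [List.map_cons, List.prod_cons, h2', map_sub, map_one, grMap_gr, qmap_eq_one h haQ,
            map_one, sub_self, zero_smul, zero_add]
          have e1 : aug p _ ((a' :: l).map (fun a : (F ⧸ V') × ℕ => gr p a.1 - 1)).prod = 0 := by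
            rw [List.map_cons, List.prod_cons, map_mul, map_sub, aug_gr, map_one, sub_self,
              zero_mul]
          rw [e1, zero_smul]
          exact zero_mem _
    | zero => rw [map_zero]; exact zero_mem _
    | add a b _ _ ha hb => rw [map_add]; exact add_mem ha hb
    | smul r a _ ha => rw [map_smul]; exact Submodule.smul_mem _ _ ha
  obtain ⟨v', hv', hdv'⟩ := D.exists_of_mem_im inf_le_left hfin
  exact ⟨v', hv'.1, hv'.2, hdv'⟩

/-- growth of the codimension of the powers of the augmentation ideal -/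
lemma codim_step {U : Subgroup F} [U.Normal] [Finite (F ⧸ U)] (D : FoxDer p x U) (n : ℕ) :
    finrank (ZMod p) (MonoidAlgebra (ZMod p) (F ⧸ U) ⧸ augPow p (F ⧸ U) (n + 1)) ≤
      1 + Fintype.card X *
        finrank (ZMod p) (MonoidAlgebra (ZMod p) (F ⧸ U) ⧸ augPow p (F ⧸ U) n) := by
  have hid : (1 : ZMod p) = 1 := rfl
  let φ : (ZMod p × (X → MonoidAlgebra (ZMod p) (F ⧸ U))) →ₗ[ZMod p]
      MonoidAlgebra (ZMod p) (F ⧸ U) :=
    (LinearMap.toSpanSingleton (ZMod p) _ 1).coprod D.pim
  let ψ := (augPow p (F ⧸ U) (n + 1)).mkQ ∘ₗ φ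
  have hφ : ∀ a d, φ (a, d) = a • 1 + D.pim d := fun a d => rfl
  have hφs : Function.Surjective φ := by
    intro y
    have h1 : y - aug p _ y • 1 ∈ augPow p (F ⧸ U) 1 := by
      rw [mem_augPow_one_iff, map_sub, map_smul, map_one, smul_eq_mul, mul_one, sub_self]
    obtain ⟨d, -, hd⟩ := D.exists_pim_eq le_rfl h1
    exact ⟨(aug p _ y, d), by rw [hφ, hd]; abel⟩
  have hψs : Function.Surjective ψ := (Submodule.mkQ_surjective _).comp hφs
  have h1 := LinearMap.finrank_range_add_finrank_ker ψ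
  rw [LinearMap.range_eq_top.mpr hψs, finrank_top] at h1
  let ι : dfil p X (F ⧸ U) (n + 1) →ₗ[ZMod p] LinearMap.ker ψ :=
    LinearMap.codRestrict _ ((LinearMap.inr (ZMod p) (ZMod p)
      (X → MonoidAlgebra (ZMod p) (F ⧸ U))) ∘ₗ (dfil p X (F ⧸ U) (n + 1)).subtype) (by
      intro d
      have h2 : ψ (0, (d : X → MonoidAlgebra (ZMod p) (F ⧸ U))) = 0 := by
        show (augPow p (F ⧸ U) (n + 1)).mkQ (φ (0, (d : X → MonoidAlgebra (ZMod p) (F ⧸ U)))) = 0
        rw [hφ, zero_smul, zero_add, Submodule.mkQ_apply, Submodule.Quotient.mk_eq_zero]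
        exact D.pim_mem (by omega) d.2
      exact h2)
  have hι : Function.Injective ι := by
    intro a b hab
    have h3 : ((0 : ZMod p), (a : X → MonoidAlgebra (ZMod p) (F ⧸ U))) =
        (0, (b : X → MonoidAlgebra (ZMod p) (F ⧸ U))) := congrArg Subtype.val hab
    exact Subtype.ext (congrArg Prod.snd h3)
  have h4 := LinearMap.finrank_le_finrank_of_injective hι
  rw [finrank_dfil, Nat.add_sub_cancel] at h4
  have h5 := Submodule.finrank_quotient_add_finrank (augPow p (F ⧸ U) n)
  have h6 : finrank (ZMod p) (ZMod p × (X → MonoidAlgebra (ZMod p) (F ⧸ U))) =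
      1 + Fintype.card X * finrank (ZMod p) (MonoidAlgebra (ZMod p) (F ⧸ U)) := by
    rw [Module.finrank_prod, Module.finrank_self, Module.finrank_pi_fintype, Finset.sum_const,
      Finset.card_univ, smul_eq_mul]
  rw [h6, ← h5, mul_add] at h1
  omega

/-- the codimension bound -/
def codimBd (m : ℕ) : ℕ → ℕ
  | 0 => 0
  | n + 1 => 1 + m * codimBd m n

lemma codim_le {U : Subgroup F} [U.Normal] [Finite (F ⧸ U)] (D : FoxDer p x U) (n : ℕ) :
    finrank (ZMod p) (MonoidAlgebra (ZMod p) (F ⧸ U) ⧸ augPow p (F ⧸ U) n) ≤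
      codimBd (Fintype.card X) n := by
  induction n with
  | zero =>
    rw [augPow_zero]
    have h1 := Submodule.finrank_quotient_add_finrank
      (⊤ : Submodule (ZMod p) (MonoidAlgebra (ZMod p) (F ⧸ U)))
    rw [finrank_top] at h1
    omega
  | succ n ih =>
    refine (codim_step D n).trans ?_
    rw [codimBd]
    exact Nat.add_le_add_left (Nat.mul_le_mul_left _ ih) 1

/-- the dimension subgroup at the level `U` -/
def DU (p : ℕ) [Fact p.Prime] (U : Subgroup F) [U.Normal] (n : ℕ) : Subgroup F where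
  carrier := {g | gr p (QuotientGroup.mk g : F ⧸ U) - 1 ∈ augPow p (F ⧸ U) n}
  mul_mem' := by
    intro a b ha hb
    rw [Set.mem_ofPred_eq, QuotientGroup.mk_mul]
    exact augPow_gr_mul ha hb
  one_mem' := by
    rw [Set.mem_ofPred_eq, QuotientGroup.mk_one, map_one, sub_self]
    exact zero_mem _
  inv_mem' := by
    intro a ha
    rw [Set.mem_ofPred_eq, QuotientGroup.mk_inv]
    exact augPow_gr_inv ha

lemma mem_DU {U : Subgroup F} [U.Normal] {n : ℕ} {g : F} :
    g ∈ DU p U n ↔ gr p (QuotientGroup.mk g : F ⧸ U) - 1 ∈ augPow p (F ⧸ U) n := Iff.rfl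

instance DU_normal (U : Subgroup F) [U.Normal] (n : ℕ) : (DU p U n).Normal := by
  refine ⟨fun g hg h => ?_⟩
  rw [mem_DU] at hg ⊢
  rw [QuotientGroup.mk_mul, QuotientGroup.mk_mul, QuotientGroup.mk_inv, map_mul, map_mul]
  have e : gr p (QuotientGroup.mk h : F ⧸ U) * gr p (QuotientGroup.mk g : F ⧸ U) *
      gr p (QuotientGroup.mk h : F ⧸ U)⁻¹ - 1 = gr p (QuotientGroup.mk h : F ⧸ U) *
      (gr p (QuotientGroup.mk g : F ⧸ U) - 1) * gr p (QuotientGroup.mk h : F ⧸ U)⁻¹ := by
    rw [mul_sub, sub_mul, mul_one, gr_mul_inv]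
  rw [e]
  exact augPow_mul_right (augPow_mul_left hg)

lemma le_DU (U : Subgroup F) [U.Normal] (n : ℕ) : U ≤ DU p U n := by
  intro g hg
  rw [mem_DU, (QuotientGroup.eq_one_iff g).mpr hg, map_one, sub_self]
  exact zero_mem _

lemma DU_anti {U W : Subgroup F} [U.Normal] [W.Normal] (h : U ≤ W) (n : ℕ) :
    DU p U n ≤ DU p W n := by
  intro g hg
  rw [mem_DU] at hg ⊢
  have := grMap_augPow (qmap h) hg
  rwa [map_sub, map_one, grMap_gr, qmap_mk] at this

lemma index_DU_le {U : Subgroup F} [U.Normal] [Finite (F ⧸ U)] (D : FoxDer p x U) (n : ℕ) :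
    (DU p U n).index ≤ p ^ codimBd (Fintype.card X) n := by
  have hp : 0 < p := (Fact.out : p.Prime).pos
  have h1 : Nat.card (MonoidAlgebra (ZMod p) (F ⧸ U) ⧸ augPow p (F ⧸ U) n) ≤
      p ^ codimBd (Fintype.card X) n := by
    rw [Module.natCard_eq_pow_finrank (K := ZMod p), Nat.card_zmod]
    exact Nat.pow_le_pow_right hp (codim_le D n)
  refine le_trans ?_ h1
  haveI : Finite (MonoidAlgebra (ZMod p) (F ⧸ U) ⧸ augPow p (F ⧸ U) n) :=
    Module.finite_of_finite (ZMod p)
  let f : F → MonoidAlgebra (ZMod p) (F ⧸ U) ⧸ augPow p (F ⧸ U) n := fun g =>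
    Submodule.Quotient.mk (gr p (QuotientGroup.mk g : F ⧸ U))
  have hf : ∀ a b : F, f a = f b ↔ a⁻¹ * b ∈ DU p U n := by
    intro a b
    have e1 : gr p (QuotientGroup.mk (a⁻¹ * b) : F ⧸ U) - 1 =
        - (gr p (QuotientGroup.mk a : F ⧸ U)⁻¹ *
        (gr p (QuotientGroup.mk a : F ⧸ U) - gr p (QuotientGroup.mk b : F ⧸ U))) := by
      rw [QuotientGroup.mk_mul, QuotientGroup.mk_inv, map_mul, mul_sub, gr_inv_mul]
      abel
    show Submodule.Quotient.mk _ = Submodule.Quotient.mk _ ↔ _
    rw [Submodule.Quotient.eq, mem_DU, e1, neg_mem_iff]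
    constructor
    · intro h
      exact augPow_mul_left h
    · intro h
      have := augPow_mul_left (x := gr p (QuotientGroup.mk a : F ⧸ U)) h
      rwa [← mul_assoc, gr_mul_inv, one_mul] at this
  let f' : F ⧸ DU p U n → MonoidAlgebra (ZMod p) (F ⧸ U) ⧸ augPow p (F ⧸ U) n :=
    Quotient.lift f (by
      intro a b hab
      rw [hf]
      exact QuotientGroup.leftRel_apply.mp hab)
  have hf' : Function.Injective f' := by
    intro a b hab
    obtain ⟨a, rfl⟩ := QuotientGroup.mk_surjective a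
    obtain ⟨b, rfl⟩ := QuotientGroup.mk_surjective b
    rw [QuotientGroup.eq]
    exact (hf a b).mp hab
  exact Nat.card_le_card_of_injective f' hf'

/-- the dimension subgroups are open -/
theorem DF_mem_Op (hsys : FoxSys p x Op) (n : ℕ) : DF p Op n ∈ Op := by
  classical
  let ind : Op → ℕ := fun U => haveI := hsys.normal U.1 U.2; (DU p U.1 n).index
  have hbd : ∀ U : Op, ind U ≤ p ^ codimBd (Fintype.card X) n := by
    intro U
    haveI := hsys.normal U.1 U.2
    haveI := hsys.finite U.1 U.2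
    obtain ⟨D, -⟩ := hsys.der U.1 U.2
    exact index_DU_le D n
  obtain ⟨U, hU⟩ : ∃ U : Op, ∀ W : Op, ind W ≤ ind U := by
    have hne : (Set.range ind).Nonempty := ⟨_, ⟨⟨⊤, hsys.top⟩, rfl⟩⟩
    have hbdd : BddAbove (Set.range ind) := ⟨_, by rintro _ ⟨U, rfl⟩; exact hbd U⟩
    obtain ⟨U, hU⟩ := Nat.sSup_mem hne hbdd
    exact ⟨U, fun W => by rw [hU]; exact le_csSup hbdd ⟨W, rfl⟩⟩
  haveI := hsys.normal U.1 U.2
  haveI := hsys.finite U.1 U.2
  have hmin : ∀ W ∈ Op, ∀ [W.Normal], DU p U.1 n ≤ DU p W n := by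
    intro W hW _
    have hUW := hsys.inf U.1 U.2 W hW
    haveI : (U.1 ⊓ W).Normal := hsys.normal _ hUW
    haveI := hsys.finite _ hUW
    have h1 : DU p (U.1 ⊓ W) n ≤ DU p U.1 n := DU_anti inf_le_left n
    have h2 : (DU p (U.1 ⊓ W) n).index ≤ (DU p U.1 n).index := hU ⟨U.1 ⊓ W, hUW⟩
    have h3 := Subgroup.relIndex_mul_index h1
    have h4 : (DU p (U.1 ⊓ W) n).index ≠ 0 := by
      haveI : Finite (F ⧸ DU p (U.1 ⊓ W) n) := by
        apply Finite.of_surjective (qmap (le_DU (p := p) (U.1 ⊓ W) n))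
        exact qmap_surjective _
      exact Nat.card_pos.ne'
    have h5 : 0 < (DU p U.1 n).index := by
      rcases Nat.eq_zero_or_pos (DU p U.1 n).index with h | h
      · rw [h, mul_zero] at h3
        exact absurd h3.symm h4
      · exact h
    have h6 : (DU p (U.1 ⊓ W) n).relIndex (DU p U.1 n) ≤ 1 := by
      by_contra hcon
      push Not at hcon
      have := Nat.mul_le_mul_right (DU p U.1 n).index hcon
      rw [h3] at this
      omega
    have h7 : (DU p (U.1 ⊓ W) n).relIndex (DU p U.1 n) ≠ 0 := by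
      intro h
      rw [h, zero_mul] at h3
      exact h4 h3.symm
    have h8 : (DU p (U.1 ⊓ W) n).relIndex (DU p U.1 n) = 1 := by omega
    exact (Subgroup.relIndex_eq_one.mp h8).trans (DU_anti inf_le_right n)
  have heq : DF p Op n = DU p U.1 n := by
    apply le_antisymm
    · intro g hg
      exact mem_DF.mp hg U.1 U.2
    · intro g hg
      rw [mem_DF]
      intro V hV _
      exact hmin V hV hg
  rw [heq]
  exact hsys.up U.1 U.2 _ (DU_normal _ _) (le_DU _ _)

end GolodShaf
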