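import Mathlib

/-!
# N-series of finite `p`-groups and the induced filtrations of the group algebra
-/

set_option linter.unusedSectionVars false
set_option linter.unusedVariables false
set_option linter.style.haveILetI false

namespace GolodShaf

open Module Submodule

/-- the canonical map of a group into its group algebra over `F_p`. -/
noncomputable def gr (p : ℕ) {Γ : Type*} [Group Γ] : Γ →* MonoidAlgebra (ZMod p) Γ :=
  MonoidAlgebra.of (ZMod p) Γ

section gr
variable {p : ℕ} {Γ : Type*} [Group Γ]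

lemma gr_mul_inv (g : Γ) : gr p g * gr p g⁻¹ = 1 := by rw [← map_mul]; simp

lemma gr_inv_mul (g : Γ) : gr p g⁻¹ * gr p g = 1 := by rw [← map_mul]; simp

lemma gr_apply (g : Γ) : gr p g = MonoidAlgebra.single g (1 : ZMod p) := rfl

/-- induction principle: the group elements span the group algebra. -/
lemma span_gr : Submodule.span (ZMod p) (Set.range (gr p : Γ → MonoidAlgebra (ZMod p) Γ)) = ⊤ := by
  rw [eq_top_iff]
  intro x _
  induction x using MonoidAlgebra.induction_on with
  | of g => exact Submodule.subset_span ⟨g, rfl⟩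
  | add x y hx hy => exact add_mem (hx trivial) (hy trivial)
  | smul a x hx => exact Submodule.smul_mem _ _ (hx trivial)

end gr

/-- A restricted `N`-series. -/
structure NSeries (p : ℕ) (Γ : Type*) [Group Γ] where
  D : ℕ → Subgroup Γ
  anti : Antitone D
  zero : D 0 = ⊤
  one : D 1 = ⊤
  comm : ∀ i j x y, x ∈ D i → y ∈ D j → x * y * x⁻¹ * y⁻¹ ∈ D (i + j)
  pow : ∀ i x, x ∈ D i → x ^ p ∈ D (p * i)

namespace NSeries

variable {p : ℕ} {Γ : Type*} [Group Γ] (S : NSeries p Γ)

lemma mem_one (x : Γ) : x ∈ S.D 1 := by rw [S.one]; trivial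

lemma mem_zero (x : Γ) : x ∈ S.D 0 := by rw [S.zero]; trivial

lemma comm_mem {i j : ℕ} {x y : Γ} (hx : x ∈ S.D i) (hy : y ∈ S.D j) :
    x * y * x⁻¹ * y⁻¹ ∈ S.D (i + j) := S.comm i j x y hx hy

lemma conj_mem {i : ℕ} {x : Γ} (hx : x ∈ S.D i) (g : Γ) : g * x * g⁻¹ ∈ S.D i := by
  have h1 := S.comm_mem (S.mem_zero g) hx
  rw [zero_add] at h1
  have : g * x * g⁻¹ = (g * x * g⁻¹ * x⁻¹) * x := by group
  rw [this]
  exact mul_mem h1 hx

/-- the list-generated filtration of the group algebra of the subgroup `K`. -/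
noncomputable def E (K : Subgroup Γ) (n : ℕ) : Submodule (ZMod p) (MonoidAlgebra (ZMod p) Γ) :=
  Submodule.span (ZMod p) {z | ∃ l : List (Γ × ℕ), (∀ a ∈ l, a.1 ∈ K ∧ a.1 ∈ S.D a.2) ∧
    n ≤ (l.map Prod.snd).sum ∧ z = (l.map (fun a => gr p a.1 - 1)).prod}

variable {S} {K K' : Subgroup Γ}

lemma prod_mem_E {n : ℕ} (l : List (Γ × ℕ)) (hl : ∀ a ∈ l, a.1 ∈ K ∧ a.1 ∈ S.D a.2)
    (hn : n ≤ (l.map Prod.snd).sum) :
    (l.map (fun a => gr p a.1 - 1)).prod ∈ S.E K n :=
  Submodule.subset_span ⟨l, hl, hn, rfl⟩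

lemma E_anti : Antitone (S.E K) := by
  intro m n hmn
  apply Submodule.span_mono
  rintro z ⟨l, hl, hn, rfl⟩
  exact ⟨l, hl, hmn.trans hn, rfl⟩

lemma E_mono (h : K' ≤ K) (n : ℕ) : S.E K' n ≤ S.E K n := by
  apply Submodule.span_mono
  rintro z ⟨l, hl, hn, rfl⟩
  exact ⟨l, fun a ha => ⟨h (hl a ha).1, (hl a ha).2⟩, hn, rfl⟩

lemma one_mem_E : (1 : MonoidAlgebra (ZMod p) Γ) ∈ S.E K 0 := by
  have := prod_mem_E (S := S) (K := K) (n := 0) [] (by simp) (by simp)
  simpa using this

lemma of_sub_one_mem_E {g : Γ} {n : ℕ} (hK : g ∈ K) (hg : g ∈ S.D n) :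
    gr p g - 1 ∈ S.E K n := by
  have := prod_mem_E (S := S) (K := K) (n := n) [(g, n)] (by simp [hK, hg]) (by simp)
  simpa using this

lemma of_mem_E {g : Γ} (hK : g ∈ K) : gr p g ∈ S.E K 0 := by
  have h1 := of_sub_one_mem_E (S := S) hK (S.mem_zero g)
  have h2 := one_mem_E (S := S) (K := K)
  have := add_mem h1 h2
  simpa using this

lemma mul_mem_E {m n : ℕ} {x y : MonoidAlgebra (ZMod p) Γ} (hx : x ∈ S.E K m)
    (hy : y ∈ S.E K n) : x * y ∈ S.E K (m + n) := by
  unfold E at hx hy
  induction hx using Submodule.span_induction with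
  | mem x hx =>
    obtain ⟨l, hl, hm, rfl⟩ := hx
    induction hy using Submodule.span_induction with
    | mem y hy =>
      obtain ⟨l', hl', hn, rfl⟩ := hy
      rw [← List.prod_append, ← List.map_append]
      apply prod_mem_E
      · intro a ha
        rcases List.mem_append.mp ha with h | h
        · exact hl a h
        · exact hl' a h
      · rw [List.map_append, List.sum_append]
        omega
    | zero => simp
    | add x y _ _ hx hy => rw [mul_add]; exact add_mem hx hy
    | smul a x _ hx => rw [mul_smul_comm]; exact Submodule.smul_mem _ _ hx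
  | zero => simp
  | add x y _ _ hx hy => rw [add_mul]; exact add_mem hx hy
  | smul a x _ hx => rw [smul_mul_assoc]; exact Submodule.smul_mem _ _ hx

lemma mul_mem_E_left {n : ℕ} {x y : MonoidAlgebra (ZMod p) Γ} (hx : x ∈ S.E K 0)
    (hy : y ∈ S.E K n) : x * y ∈ S.E K n := by
  simpa using mul_mem_E hx hy

lemma mul_mem_E_right {n : ℕ} {x y : MonoidAlgebra (ZMod p) Γ} (hx : x ∈ S.E K n)
    (hy : y ∈ S.E K 0) : x * y ∈ S.E K n := by
  simpa using mul_mem_E hx hy

/-- `E K 0` is the span of the group elements of `K`. -/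
lemma E_zero_eq : S.E K 0 = Submodule.span (ZMod p) ((gr p : Γ → MonoidAlgebra (ZMod p) Γ) '' (K : Set Γ)) := by
  apply le_antisymm
  · apply Submodule.span_le.mpr
    rintro z ⟨l, hl, -, rfl⟩
    induction l with
    | nil =>
      simp only [List.map_nil, List.prod_nil, SetLike.mem_coe]
      apply Submodule.subset_span
      exact ⟨1, K.one_mem, by simp⟩
    | cons a l ih =>
      rw [List.map_cons, List.prod_cons]
      have h1 := ih (fun b hb => hl b (List.mem_cons_of_mem _ hb))
      have ha := (hl a (List.mem_cons_self)).1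
      -- multiplication by of a - 1 preserves the span
      have key : ∀ x ∈ Submodule.span (ZMod p) ((gr p : Γ → MonoidAlgebra (ZMod p) Γ) '' (K : Set Γ)),
          (gr p a.1 - 1) * x ∈
            Submodule.span (ZMod p) ((gr p : Γ → MonoidAlgebra (ZMod p) Γ) '' (K : Set Γ)) := by
        intro x hx
        induction hx using Submodule.span_induction with
        | mem x hx =>
          obtain ⟨g, hg, rfl⟩ := hx
          rw [sub_mul, one_mul, ← map_mul]
          apply sub_mem
          · exact Submodule.subset_span ⟨a.1 * g, K.mul_mem ha hg, rfl⟩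
          · exact Submodule.subset_span ⟨g, hg, rfl⟩
        | zero => simp
        | add x y _ _ hx hy => rw [mul_add]; exact add_mem hx hy
        | smul c x _ hx => rw [mul_smul_comm]; exact Submodule.smul_mem _ _ hx
      exact key _ h1
  · apply Submodule.span_le.mpr
    rintro z ⟨g, hg, rfl⟩
    exact of_mem_E hg

lemma conj_mem_E {g : Γ} (hg : ∀ x ∈ K, g * x * g⁻¹ ∈ K) {n : ℕ} {x : MonoidAlgebra (ZMod p) Γ}
    (hx : x ∈ S.E K n) :
    gr p g * x * gr p g⁻¹ ∈ S.E K n := by
  unfold E at hx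
  have hinv : gr p g⁻¹ * gr p g = 1 := gr_inv_mul g
  have hinv' : gr p g * gr p g⁻¹ = 1 := gr_mul_inv g
  induction hx using Submodule.span_induction with
  | mem x hx =>
    obtain ⟨l, hl, hn, rfl⟩ := hx
    have key : ∀ l : List (Γ × ℕ), gr p g *
        (l.map (fun a => gr p a.1 - 1)).prod *
        gr p g⁻¹ =
        ((l.map (fun a => (g * a.1 * g⁻¹, a.2))).map
          (fun a => gr p a.1 - 1)).prod := by
      intro l
      induction l with
      | nil => simp only [List.map_nil, List.prod_nil, mul_one]; exact hinv'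
      | cons a l ih =>
        simp only [List.map_cons, List.prod_cons]
        rw [← ih]
        have : gr p (g * a.1 * g⁻¹) =
          gr p g * gr p a.1 *
          gr p g⁻¹ := by rw [map_mul, map_mul]
        rw [this]
        generalize (l.map (fun a => gr p a.1 - 1)).prod = P
        have h1 : (gr p g * gr p a.1 *
          gr p g⁻¹ - 1) = gr p g *
          (gr p a.1 - 1) * gr p g⁻¹ := by
          rw [mul_sub, sub_mul, mul_one, hinv']
        rw [h1]
        calc _ = gr p g * (gr p a.1 - 1) * 1 *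
              P * gr p g⁻¹ := by simp only [mul_one, mul_assoc]
          _ = _ := by rw [← hinv]; simp only [mul_assoc]
    rw [key]
    apply prod_mem_E
    · intro a ha
      obtain ⟨b, hb, rfl⟩ := List.mem_map.mp ha
      exact ⟨hg _ (hl b hb).1, S.conj_mem (hl b hb).2 g⟩
    · rw [List.map_map]
      exact hn
  | zero => simp
  | add x y _ _ hx hy => rw [mul_add, add_mul]; exact add_mem hx hy
  | smul a x _ hx => rw [mul_smul_comm, smul_mul_assoc]; exact Submodule.smul_mem _ _ hx

/-- conjugation by `g ∈ D m` moves `E K n` into `E K (n + m)`. -/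
lemma conj_sub_mem_E {g : Γ} {m : ℕ} (hgm : g ∈ S.D m) (hg : ∀ x ∈ K, g * x * g⁻¹ ∈ K) {n : ℕ}
    {x : MonoidAlgebra (ZMod p) Γ} (hx : x ∈ S.E K n) :
    gr p g * x * gr p g⁻¹ - x ∈ S.E K (n + m) := by
  unfold E at hx
  have hinv : gr p g⁻¹ * gr p g = 1 := gr_inv_mul g
  have hinv' : gr p g * gr p g⁻¹ = 1 := gr_mul_inv g
  induction hx using Submodule.span_induction with
  | mem x hx =>
    obtain ⟨l, hl, hn, rfl⟩ := hx
    have key : ∀ l : List (Γ × ℕ), (∀ a ∈ l, a.1 ∈ K ∧ a.1 ∈ S.D a.2) →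
        gr p g *
        (l.map (fun a => gr p a.1 - 1)).prod *
        gr p g⁻¹ -
        (l.map (fun a => gr p a.1 - 1)).prod ∈
          S.E K ((l.map Prod.snd).sum + m) := by
      intro l
      induction l with
      | nil => 
        intro _
        simp only [List.map_nil, List.prod_nil, mul_one]
        rw [hinv', sub_self]
        exact zero_mem _
      | cons a l ih =>
        intro hl
        have ih' := ih (fun b hb => hl b (List.mem_cons_of_mem _ hb))
        obtain ⟨haK, haD⟩ := hl a List.mem_cons_self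
        simp only [List.map_cons, List.prod_cons, List.sum_cons]
        have hP : (l.map (fun a => gr p a.1 - 1)).prod ∈
            S.E K (l.map Prod.snd).sum :=
          prod_mem_E l (fun b hb => hl b (List.mem_cons_of_mem _ hb)) le_rfl
        generalize (l.map (fun a => gr p a.1 - 1)).prod = P at ih' hP ⊢
        -- (a-1)
        have h1 : gr p g * (gr p a.1 - 1) *
            gr p g⁻¹ - (gr p a.1 - 1) ∈
            S.E K (a.2 + m) := by
          have e1 : gr p g * (gr p a.1 - 1) *
            gr p g⁻¹ - (gr p a.1 - 1) =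
            (gr p (g * a.1 * g⁻¹ * a.1⁻¹) - 1) *
              gr p a.1 := by
            rw [sub_mul, one_mul, ← map_mul, mul_sub, sub_mul, mul_one, hinv', ← map_mul,
              ← map_mul]
            simp
          rw [e1]
          apply mul_mem_E_right _ (of_mem_E haK)
          apply of_sub_one_mem_E
          · exact K.mul_mem (hg _ haK) (K.inv_mem haK)
          · rw [add_comm]
            exact S.comm_mem hgm haD
        have h2 : gr p g * P * gr p g⁻¹ ∈
            S.E K (l.map Prod.snd).sum := conj_mem_E hg hP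
        have e2 : gr p g * ((gr p a.1 - 1) * P) *
            gr p g⁻¹ - (gr p a.1 - 1) * P =
            (gr p g * (gr p a.1 - 1) *
            gr p g⁻¹ - (gr p a.1 - 1)) *
            (gr p g * P * gr p g⁻¹) +
            (gr p a.1 - 1) *
            (gr p g * P * gr p g⁻¹ - P) := by
          have e3 : gr p g * (gr p a.1 - 1) * gr p g⁻¹ * (gr p g * P * gr p g⁻¹) =
              gr p g * ((gr p a.1 - 1) * P) * gr p g⁻¹ := by
            have e4 : gr p g * (gr p a.1 - 1) * gr p g⁻¹ * (gr p g * P * gr p g⁻¹) =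
              gr p g * (gr p a.1 - 1) * (gr p g⁻¹ * gr p g) * P * gr p g⁻¹ := by
              simp only [mul_assoc]
            rw [e4, hinv, mul_one]
            simp only [mul_assoc]
          rw [sub_mul (gr p g * (gr p a.1 - 1) * gr p g⁻¹), mul_sub (gr p a.1 - 1), e3]
          abel
        rw [e2]
        apply add_mem
        · have := mul_mem_E h1 h2
          have e : a.2 + m + (l.map Prod.snd).sum = a.2 + (l.map Prod.snd).sum + m := by ring
          rwa [e] at this
        · have := mul_mem_E (of_sub_one_mem_E haK haD) ih'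
          rwa [← add_assoc] at this
    exact E_anti (by omega) (key l hl)
  | zero => simp
  | add x y _ _ hx hy =>
    rw [mul_add, add_mul]
    have := add_mem hx hy
    convert this using 1
    abel
  | smul a x _ hx =>
    rw [mul_smul_comm, smul_mul_assoc, ← smul_sub]; exact Submodule.smul_mem _ _ hx

/-- `B` is free over `A` (on the left) with basis `b` of degrees `β`, compatibly with the
filtrations. -/
structure FreeOver (A B : ℕ → Submodule (ZMod p) (MonoidAlgebra (ZMod p) Γ)) {ι : Type}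
    [Fintype ι] (b : ι → MonoidAlgebra (ZMod p) Γ) (β : ι → ℕ) : Prop where
  inj : ∀ c : ι → MonoidAlgebra (ZMod p) Γ, (∀ i, c i ∈ A 0) → ∑ i, c i * b i = 0 → c = 0
  surj : ∀ n x, x ∈ B n → ∃ c : ι → MonoidAlgebra (ZMod p) Γ, (∀ i, c i ∈ A (n - β i)) ∧
    x = ∑ i, c i * b i
  maps : ∀ n i c, c ∈ A (n - β i) → c * b i ∈ B n

lemma FreeOver.trans {A B C : ℕ → Submodule (ZMod p) (MonoidAlgebra (ZMod p) Γ)} {ι ι' : Type}
    [Fintype ι] [Fintype ι'] {b : ι → MonoidAlgebra (ZMod p) Γ} {β : ι → ℕ}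
    {b' : ι' → MonoidAlgebra (ZMod p) Γ} {β' : ι' → ℕ}
    (h : FreeOver A B b β) (h' : FreeOver B C b' β') :
    FreeOver A C (fun x : ι × ι' => b x.1 * b' x.2) (fun x => β x.1 + β' x.2) where
  inj := by
    intro c hc hsum
    rw [Fintype.sum_prod_type_right] at hsum
    have h1 : ∀ j, ∑ i, c (i, j) * (b i * b' j) = (∑ i, c (i, j) * b i) * b' j := by
      intro j
      rw [Finset.sum_mul]
      exact Finset.sum_congr rfl (fun i _ => (mul_assoc _ _ _).symm)
    simp only [h1] at hsum
    have h2 := h'.inj (fun j => ∑ i, c (i, j) * b i) (fun j => Submodule.sum_mem _ (fun i _ =>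
      h.maps 0 i _ (by simpa using hc (i, j)))) hsum
    funext ⟨i, j⟩
    have h3 := congrFun h2 j
    simp only [Pi.zero_apply] at h3
    have h4 := h.inj (fun i => c (i, j)) (fun i => hc (i, j)) h3
    exact congrFun h4 i
  surj := by
    intro n x hx
    obtain ⟨c', hc', rfl⟩ := h'.surj n x hx
    choose c hc using fun j => h.surj (n - β' j) (c' j) (hc' j)
    refine ⟨fun x => c x.2 x.1, fun ⟨i, j⟩ => ?_, ?_⟩
    · have := (hc j).1 i
      simp only
      rwa [Nat.sub_sub, add_comm] at this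
    · rw [Fintype.sum_prod_type_right]
      refine Finset.sum_congr rfl (fun j _ => ?_)
      rw [(hc j).2, Finset.sum_mul]
      exact Finset.sum_congr rfl (fun i _ => (mul_assoc _ _ _))
  maps := by
    rintro n ⟨i, j⟩ c hc
    simp only
    rw [← mul_assoc]
    apply h'.maps
    apply h.maps
    simp only at hc
    rwa [Nat.sub_sub, add_comm]

section step

variable [Fact p.Prime]

lemma sub_one_pow_p (k : Γ) : (gr p k - 1) ^ p = gr p (k ^ p) - 1 := by
  have : CharP (MonoidAlgebra (ZMod p) Γ) p := by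
    exact charP_of_injective_algebraMap (algebraMap (ZMod p) (MonoidAlgebra (ZMod p) Γ)).injective p
  rw [sub_pow_char_of_commute p (Commute.one_right _), one_pow, map_pow]

/-- the candidate filtration for an index `p` step. -/
noncomputable def stepB (S : NSeries p Γ) (K' : Subgroup Γ) (k : Γ) (ν : ℕ) (n : ℕ) :
    Submodule (ZMod p) (MonoidAlgebra (ZMod p) Γ) :=
  ⨆ j : Fin p, (S.E K' (n - j * ν)).map (LinearMap.mulRight (ZMod p) ((gr p k - 1) ^ (j : ℕ)))

lemma mem_stepB {k : Γ} {ν n : ℕ} (j : ℕ) (hj : j < p) {b : MonoidAlgebra (ZMod p) Γ}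
    (hb : b ∈ S.E K' (n - j * ν)) : b * (gr p k - 1) ^ j ∈ S.stepB K' k ν n := by
  unfold stepB
  apply Submodule.mem_iSup_of_mem (⟨j, hj⟩ : Fin p)
  exact ⟨b, hb, rfl⟩

lemma stepB_induction {k : Γ} {ν n : ℕ} {P : MonoidAlgebra (ZMod p) Γ → Prop}
    (h : ∀ j < p, ∀ b ∈ S.E K' (n - j * ν), P (b * (gr p k - 1) ^ j)) (h0 : P 0)
    (hadd : ∀ x y, P x → P y → P (x + y)) {x : MonoidAlgebra (ZMod p) Γ}
    (hx : x ∈ S.stepB K' k ν n) : P x := by
  unfold stepB at hx
  induction hx using Submodule.iSup_induction' with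
  | mem i x hx =>
    obtain ⟨b, hb, rfl⟩ := hx
    exact h i i.2 b hb
  | zero => exact h0
  | add x y _ _ hx hy => exact hadd x y hx hy

lemma stepB_anti {k : Γ} {ν : ℕ} : Antitone (S.stepB K' k ν) := by
  intro m n hmn x hx
  refine stepB_induction (P := fun x => x ∈ S.stepB K' k ν m) ?_ (zero_mem _)
    (fun x y hx hy => add_mem hx hy) hx
  intro j hj b hb
  exact mem_stepB j hj (E_anti (by omega) hb)

lemma E_mul_stepB {k : Γ} {ν m n : ℕ} {a x : MonoidAlgebra (ZMod p) Γ} (ha : a ∈ S.E K' m)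
    (hx : x ∈ S.stepB K' k ν n) : a * x ∈ S.stepB K' k ν (m + n) := by
  refine stepB_induction (P := fun x => a * x ∈ S.stepB K' k ν (m + n)) ?_ ?_ ?_ hx
  · intro j hj b hb
    rw [← mul_assoc]
    exact mem_stepB j hj (E_anti (by omega) (mul_mem_E ha hb))
  · simp
  · intro x y hx hy
    rw [mul_add]
    exact add_mem hx hy

lemma sub_one_mul_stepB {k : Γ} {ν : ℕ} (hkν : k ∈ S.D ν) (hnorm : ∀ x ∈ K', k * x * k⁻¹ ∈ K')
    (hkp : k ^ p ∈ K') {m : ℕ} {x : MonoidAlgebra (ZMod p) Γ} (hx : x ∈ S.stepB K' k ν m) :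
    (gr p k - 1) * x ∈ S.stepB K' k ν (m + ν) := by
  have hp : 0 < p := (Fact.out : p.Prime).pos
  refine stepB_induction (P := fun x => (gr p k - 1) * x ∈ S.stepB K' k ν (m + ν)) ?_ ?_ ?_ hx
  · intro j hj b hb
    have e1 : (gr p k - 1) * (b * (gr p k - 1) ^ j) =
        (gr p k * b * gr p k⁻¹) * (gr p k - 1) ^ (j + 1) +
        (gr p k * b * gr p k⁻¹ - b) * (gr p k - 1) ^ j := by
      have e2 : gr p k * b * gr p k⁻¹ * gr p k = gr p k * b := by
        rw [mul_assoc, gr_inv_mul, mul_one]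
      rw [pow_succ', ← mul_assoc, ← mul_assoc, ← add_mul]
      congr 1
      rw [sub_mul, mul_sub, e2]
      simp only [mul_one, one_mul]
      abel
    rw [e1]
    apply add_mem
    · have hc := conj_mem_E hnorm hb
      by_cases hj1 : j + 1 < p
      · apply mem_stepB (j + 1) hj1
        apply E_anti _ hc
        have : (j + 1) * ν = j * ν + ν := by ring
        omega
      · have hj2 : j + 1 = p := by omega
        rw [hj2, sub_one_pow_p]
        have h1 : gr p (k ^ p) - 1 ∈ S.E K' (p * ν) := of_sub_one_mem_E hkp (S.pow ν k hkν)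
        have h2 := mul_mem_E hc h1
        have h3 := mem_stepB (S := S) (K' := K') (k := k) (ν := ν) (n := m + ν) 0 hp
          (b := gr p k * b * gr p k⁻¹ * (gr p (k ^ p) - 1)) (by
            apply E_anti _ h2
            have : p * ν = j * ν + ν := by rw [← hj2]; ring
            omega)
        simpa using h3
    · apply mem_stepB j hj
      apply E_anti _ (conj_sub_mem_E hkν hnorm hb)
      omega
  · simp
  · intro x y hx hy
    rw [mul_add]
    exact add_mem hx hy

lemma of_mul_stepB {k : Γ} {ν : ℕ} (hkν : k ∈ S.D ν) (hnorm : ∀ x ∈ K', k * x * k⁻¹ ∈ K')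
    (hkp : k ^ p ∈ K') {m : ℕ} {x : MonoidAlgebra (ZMod p) Γ} (hx : x ∈ S.stepB K' k ν m)
    (e : ℕ) : gr p (k ^ e) * x ∈ S.stepB K' k ν m := by
  induction e with
  | zero => simpa using hx
  | succ e ih =>
    have h1 := sub_one_mul_stepB hkν hnorm hkp ih
    have h2 : gr p (k ^ (e + 1)) * x = (gr p k - 1) * (gr p (k ^ e) * x) + gr p (k ^ e) * x := by
      rw [sub_mul, one_mul, sub_add_cancel, ← mul_assoc, ← map_mul, pow_succ']
    rw [h2]
    exact add_mem (stepB_anti (by omega) h1) ih

lemma of_sub_one_mul_stepB {k : Γ} {ν : ℕ} (hkν : k ∈ S.D ν)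
    (hnorm : ∀ x ∈ K', k * x * k⁻¹ ∈ K')
    (hkp : k ^ p ∈ K') {m : ℕ} {x : MonoidAlgebra (ZMod p) Γ} (hx : x ∈ S.stepB K' k ν m)
    (e : ℕ) : (gr p (k ^ e) - 1) * x ∈ S.stepB K' k ν (m + ν) := by
  induction e with
  | zero => simp
  | succ e ih =>
    have h1 := sub_one_mul_stepB hkν hnorm hkp (of_mul_stepB hkν hnorm hkp hx e)
    have h2 : (gr p (k ^ (e + 1)) - 1) * x =
        (gr p k - 1) * (gr p (k ^ e) * x) + (gr p (k ^ e) - 1) * x := by
      rw [sub_mul, sub_mul, sub_mul, one_mul, one_mul, ← mul_assoc, ← map_mul, pow_succ']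
      abel
    rw [h2]
    exact add_mem h1 ih

/-- the heart of Jennings' theorem. -/
lemma E_le_stepB {k : Γ} {ν : ℕ} (hkν : k ∈ S.D ν)
    (hnorm : ∀ x ∈ K', k * x * k⁻¹ ∈ K') (hkp : k ^ p ∈ K')
    (hrep : ∀ y ∈ K, ∃ e < p, ∃ k' ∈ K', y = k' * k ^ e)
    (hmax : ∀ y ∈ K, y ∉ K' → y ∉ S.D (ν + 1)) (n : ℕ) : S.E K n ≤ S.stepB K' k ν n := by
  have hp : 0 < p := (Fact.out : p.Prime).pos
  -- multiplication by y - 1
  have key : ∀ y ∈ K, ∀ a, y ∈ S.D a → ∀ m, ∀ x ∈ S.stepB K' k ν m,
      (gr p y - 1) * x ∈ S.stepB K' k ν (a + m) := by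
    intro y hy a hya m x hx
    by_cases hyK : y ∈ K'
    · exact E_mul_stepB (of_sub_one_mem_E hyK hya) hx
    · obtain ⟨e, he, k', hk', rfl⟩ := hrep y hy
      have haν : a ≤ ν := by
        by_contra hcon
        exact hmax _ hy hyK (S.anti (by omega : ν + 1 ≤ a) hya)
      have hk'a : k' ∈ S.D a := by
        have h1 : k ^ e ∈ S.D a := pow_mem (S.anti haν hkν) e
        have : k' = (k' * k ^ e) * (k ^ e)⁻¹ := by group
        rw [this]
        exact mul_mem hya (inv_mem h1)
      have e1 : (gr p (k' * k ^ e) - 1) * x =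
          (gr p k' - 1) * (gr p (k ^ e) * x) + (gr p (k ^ e) - 1) * x := by
        rw [map_mul, sub_mul, sub_mul, sub_mul, one_mul, one_mul, mul_assoc]
        abel
      rw [e1]
      apply add_mem
      · exact E_mul_stepB (of_sub_one_mem_E hk' hk'a) (of_mul_stepB hkν hnorm hkp hx e)
      · exact stepB_anti (by omega) (of_sub_one_mul_stepB hkν hnorm hkp hx e)
  have key2 : ∀ l : List (Γ × ℕ), (∀ a ∈ l, a.1 ∈ K ∧ a.1 ∈ S.D a.2) →
      (l.map (fun a => gr p a.1 - 1)).prod ∈ S.stepB K' k ν (l.map Prod.snd).sum := by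
    intro l
    induction l with
    | nil =>
      intro _
      have := mem_stepB (S := S) (K' := K') (k := k) (ν := ν) (n := 0) 0 hp (b := 1)
        (by simpa using one_mem_E)
      simpa using this
    | cons a l ih =>
      intro hl
      have ih' := ih (fun b hb => hl b (List.mem_cons_of_mem _ hb))
      obtain ⟨haK, haD⟩ := hl a List.mem_cons_self
      simp only [List.map_cons, List.prod_cons, List.sum_cons]
      exact key a.1 haK a.2 haD _ _ ih'
  apply Submodule.span_le.mpr
  rintro z ⟨l, hl, hn, rfl⟩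
  exact stepB_anti hn (key2 l hl)

lemma linearIndependent_gr : LinearIndependent (ZMod p) (gr p : Γ → MonoidAlgebra (ZMod p) Γ) := by
  have h := (MonoidAlgebra.basis Γ (ZMod p)).linearIndependent
  have e : (MonoidAlgebra.basis Γ (ZMod p) : Γ → MonoidAlgebra (ZMod p) Γ) = gr p := by
    funext g
    rw [MonoidAlgebra.basis_apply, gr_apply]
  rwa [e] at h

instance [Finite Γ] : FiniteDimensional (ZMod p) (MonoidAlgebra (ZMod p) Γ) :=
  Module.Finite.of_basis (MonoidAlgebra.basis Γ (ZMod p))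

lemma finrank_E_zero [Finite Γ] : finrank (ZMod p) (S.E K 0) = Nat.card K := by
  have := Fintype.ofFinite K
  have h1 : LinearIndependent (ZMod p) (fun x : K => gr p (x : Γ)) :=
    linearIndependent_gr.comp _ Subtype.val_injective
  have h2 := finrank_span_eq_card h1
  have h3 : S.E K 0 = span (ZMod p) (Set.range fun x : K => gr p (x : Γ)) := by
    rw [E_zero_eq, Set.image_eq_range]
    rfl
  rw [h3, Nat.card_eq_fintype_card, ← h2]

/-- The index `p` step. -/
theorem freeOver_step [Finite Γ] {k : Γ} {ν : ℕ} (hK' : K' ≤ K) (hk : k ∈ K) (hkν : k ∈ S.D ν)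
    (hnorm : ∀ x ∈ K', k * x * k⁻¹ ∈ K') (hkp : k ^ p ∈ K')
    (hrep : ∀ y ∈ K, ∃ e < p, ∃ k' ∈ K', y = k' * k ^ e)
    (hmax : ∀ y ∈ K, y ∉ K' → y ∉ S.D (ν + 1)) (hcard : Nat.card K = p * Nat.card K') :
    FreeOver (S.E K') (S.E K) (fun j : Fin p => (gr p k - 1) ^ (j : ℕ)) (fun j => j * ν) := by
  have hpow : ∀ j : ℕ, (gr p k - 1) ^ j ∈ S.E K (j * ν) := by
    intro j
    induction j with
    | zero => simpa using one_mem_E
    | succ j ih =>
      rw [pow_succ]
      have := mul_mem_E ih (of_sub_one_mem_E hk hkν)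
      have e : j * ν + ν = (j + 1) * ν := by ring
      rwa [e] at this
  have hmaps : ∀ n (i : Fin p) c, c ∈ S.E K' (n - i * ν) → c * (gr p k - 1) ^ (i : ℕ) ∈ S.E K n := by
    intro n i c hc
    exact E_anti (by omega) (mul_mem_E (E_mono hK' _ hc) (hpow i))
  have hsurj : ∀ n x, x ∈ S.E K n → ∃ c : Fin p → MonoidAlgebra (ZMod p) Γ,
      (∀ i : Fin p, c i ∈ S.E K' (n - i * ν)) ∧ x = ∑ i, c i * (gr p k - 1) ^ (i : ℕ) := by
    intro n x hx
    have hx' := E_le_stepB hkν hnorm hkp hrep hmax n hx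
    refine stepB_induction (P := fun x => ∃ c : Fin p → MonoidAlgebra (ZMod p) Γ,
      (∀ i : Fin p, c i ∈ S.E K' (n - i * ν)) ∧ x = ∑ i, c i * (gr p k - 1) ^ (i : ℕ)) ?_ ?_ ?_ hx'
    · intro j hj b hb
      refine ⟨fun i => if i = ⟨j, hj⟩ then b else 0, ?_, ?_⟩
      · intro i
        simp only
        split_ifs with h
        · rw [h]; exact hb
        · exact zero_mem _
      · simp [ite_mul]
    · exact ⟨0, fun i => zero_mem _, by simp⟩
    · rintro x y ⟨c, hc, rfl⟩ ⟨c', hc', rfl⟩
      refine ⟨c + c', fun i => add_mem (hc i) (hc' i), ?_⟩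
      simp [add_mul, Finset.sum_add_distrib]
  refine ⟨?_, hsurj, hmaps⟩
  -- injectivity by dimension count
  let Φ : (Fin p → S.E K' 0) →ₗ[ZMod p] S.E K 0 :=
    { toFun := fun c => ⟨∑ i : Fin p, (c i : MonoidAlgebra (ZMod p) Γ) * (gr p k - 1) ^ (i : ℕ),
        Submodule.sum_mem _ (fun i _ => hmaps 0 i _ (by simp))⟩
      map_add' := by
        intro c c'
        ext1
        simp [add_mul, Finset.sum_add_distrib]
      map_smul' := by
        intro a c
        ext1
        simp [Finset.smul_sum] }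
  have hΦs : Function.Surjective Φ := by
    rintro ⟨x, hx⟩
    obtain ⟨c, hc, rfl⟩ := hsurj 0 x hx
    refine ⟨fun i => ⟨c i, by simpa using hc i⟩, ?_⟩
    ext1
    rfl
  have hfr : finrank (ZMod p) (Fin p → S.E K' 0) = finrank (ZMod p) (S.E K 0) := by
    rw [Module.finrank_pi_fintype, finrank_E_zero (K := K), hcard]
    simp [finrank_E_zero]
  have hΦi : Function.Injective Φ :=
    (LinearMap.injective_iff_surjective_of_finrank_eq_finrank hfr).mpr hΦs
  intro c hc hsum
  have h1 : Φ (fun i => ⟨c i, hc i⟩) = 0 := by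
    ext1
    exact hsum
  have h2 := hΦi (h1.trans (map_zero Φ).symm)
  funext i
  have := congrFun h2 i
  exact congrArg Subtype.val this

end step

end NSeries

end GolodShaf
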