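import Mathlib

/-!
# Pro-`p` groups, free pro-`p` groups
-/

set_option linter.unusedSectionVars false
set_option linter.unusedVariables false

namespace GolodShaf

universe u v

/-- pro-`p` groups: compact totally disconnected topological groups all of whose open normal
subgroups have index a power of `p`. -/
structure IsProP (p : ℕ) (G : Type u) [Group G] [TopologicalSpace G] : Prop where
  topGroup : IsTopologicalGroup G
  compact : CompactSpace G
  totallyDisconnected : TotallyDisconnectedSpace G
  index : ∀ U : Subgroup G, U.Normal → IsOpen (U : Set G) → ∃ n : ℕ, U.index = p ^ n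

/-- `F` is the free pro-`p` group on the family `x : X → F`: `F` is pro-`p` and every map from `X`
to a pro-`p` group `H` extends uniquely to a continuous homomorphism `F → H`. -/
def IsFreeProP (p : ℕ) {X : Type v} {F : Type u} [Group F] [TopologicalSpace F] (x : X → F) :
    Prop :=
  IsProP p F ∧ ∀ (H : Type u) [Group H] [TopologicalSpace H], IsProP p H → ∀ f : X → H,
    ∃! φ : F →* H, Continuous φ ∧ ∀ i, φ (x i) = f i

end GolodShaf
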