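import Pool.Agent.GolodShaf.NSeries

/-!
# Chains of index `p` steps, filtered freeness over subgroups
-/

set_option linter.unusedSectionVars false
set_option linter.unusedVariables false
set_option linter.style.haveILetI false

namespace GolodShaf

open Module Submodule

variable {p : ℕ} {Γ : Type*} [Group Γ]

/-- In a finite `p`-group, a proper subgroup is contained in a normal subgroup of index `p`
(top group version). -/
lemma exists_index_p_top [Fact p.Prime] [Finite Γ] (hG : IsPGroup p Γ) (H : Subgroup Γ)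
    (hH : H ≠ ⊤) : ∃ K : Subgroup Γ, H ≤ K ∧ K.Normal ∧ K.index = p := by
  obtain ⟨m, hm⟩ := IsPGroup.iff_card.mp hG
  obtain ⟨n, hn⟩ := IsPGroup.iff_card.mp (hG.to_subgroup H)
  have hp : p.Prime := Fact.out
  have hnm : n < m := by
    by_contra hcon
    have h1 : Nat.card Γ ≤ Nat.card H := by
      rw [hm, hn]; exact Nat.pow_le_pow_right hp.pos (by omega)
    exact hH (Subgroup.eq_top_of_le_card H h1)
  obtain ⟨K, hK, hHK⟩ := Sylow.exists_subgroup_card_pow_prime_le (G := Γ) p (n := n) (m := m - 1)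
    (by rw [hm]; exact pow_dvd_pow p (by omega)) H hn (by omega)
  have hidx : K.index = p := by
    have h1 := K.card_mul_index
    rw [hK, hm] at h1
    have h2 : p ^ m = p ^ (m - 1) * p := by
      rw [← pow_succ]; congr 1; omega
    rw [h2] at h1
    exact Nat.eq_of_mul_eq_mul_left (pow_pos hp.pos _) h1
  refine ⟨K, hHK, ?_, hidx⟩
  apply Subgroup.normal_of_index_eq_minFac_card
  rw [hidx, hm, Nat.pow_minFac (by omega), hp.minFac_eq]

/-- In a finite `p`-group, if `H < K` then there is `K₁` with `H ≤ K₁ < K`, normal of index `p`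
in `K`. -/
lemma exists_index_p [Fact p.Prime] [Finite Γ] (hG : IsPGroup p Γ) {H K : Subgroup Γ}
    (hHK : H < K) : ∃ K₁ : Subgroup Γ, H ≤ K₁ ∧ K₁ < K ∧ Nat.card K = p * Nat.card K₁ ∧
      (∀ k ∈ K, ∀ x ∈ K₁, k * x * k⁻¹ ∈ K₁) ∧
      (∀ k ∈ K, k ∉ K₁ → k ^ p ∈ K₁ ∧ ∀ y ∈ K, ∃ e < p, ∃ k' ∈ K₁, y = k' * k ^ e) := by
  have hp : p.Prime := Fact.out
  obtain ⟨L, hL1, hL2, hL3⟩ := exists_index_p_top (hG.to_subgroup K) (H.subgroupOf K) (by
    intro h
    rw [Subgroup.subgroupOf_eq_top] at h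
    exact absurd (lt_of_lt_of_le hHK h) (lt_irrefl _))
  have hmem : ∀ x : Γ, ∀ hx : x ∈ K, (x ∈ L.map K.subtype ↔ (⟨x, hx⟩ : K) ∈ L) := by
    intro x hx
    constructor
    · rintro ⟨y, hy, hyx⟩
      have : y = ⟨x, hx⟩ := Subtype.ext hyx
      rwa [← this]
    · intro h
      exact ⟨⟨x, hx⟩, h, rfl⟩
  have hle : L.map K.subtype ≤ K := by
    rintro x ⟨y, -, rfl⟩
    exact y.2
  have hcardL : Nat.card (L.map K.subtype) = Nat.card L :=
    Subgroup.card_map_of_injective K.subtype_injective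
  have hcard : Nat.card K = p * Nat.card (L.map K.subtype) := by
    rw [hcardL, ← hL3, mul_comm]
    exact (L.card_mul_index).symm
  refine ⟨L.map K.subtype, ?_, ?_, hcard, ?_, ?_⟩
  · intro x hx
    have hxK := hHK.le hx
    rw [hmem x hxK]
    apply hL1
    rw [Subgroup.mem_subgroupOf]
    exact hx
  · refine lt_of_le_of_ne hle ?_
    intro h
    rw [h] at hcard
    have hpos : 0 < Nat.card K := Nat.card_pos
    have := hp.one_lt
    nlinarith
  · intro k hk x hx
    have hxK := hle hx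
    rw [hmem x hxK] at hx
    rw [hmem _ (K.mul_mem (K.mul_mem hk hxK) (K.inv_mem hk))]
    exact hL2.conj_mem _ hx ⟨k, hk⟩
  · intro k hk hkL
    have hkL' : (⟨k, hk⟩ : K) ∉ L := by rwa [← hmem k hk]
    have hq : Nat.card (K ⧸ L) = p := hL3
    have hne : (QuotientGroup.mk (⟨k, hk⟩ : K) : K ⧸ L) ≠ 1 := by
      intro h
      exact hkL' ((QuotientGroup.eq_one_iff _).mp h)
    constructor
    · have h1 : ((QuotientGroup.mk (⟨k, hk⟩ : K) : K ⧸ L)) ^ p = 1 := by
        rw [← hq]; exact pow_card_eq_one'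
      rw [← QuotientGroup.mk_pow, QuotientGroup.eq_one_iff] at h1
      rw [hmem _ (K.pow_mem hk p)]
      exact h1
    · intro y hy
      have h1 : (QuotientGroup.mk (⟨y, hy⟩ : K) : K ⧸ L) ∈
          Submonoid.powers (QuotientGroup.mk (⟨k, hk⟩ : K) : K ⧸ L) :=
        mem_powers_of_prime_card hq hne
      obtain ⟨e, he⟩ := h1
      simp only at he
      have he' : ((QuotientGroup.mk (⟨k, hk⟩ : K) : K ⧸ L)) ^ (e % p) =
          QuotientGroup.mk (⟨y, hy⟩ : K) := by
        rw [← he]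
        conv_rhs => rw [← Nat.mod_add_div e p, pow_add, pow_mul]
        have h1 : ((QuotientGroup.mk (⟨k, hk⟩ : K) : K ⧸ L)) ^ p = 1 := by
          rw [← hq]; exact pow_card_eq_one'
        rw [h1, one_pow, mul_one]
      refine ⟨e % p, Nat.mod_lt _ hp.pos, y * (k ^ (e % p))⁻¹, ?_, by group⟩
      rw [hmem _ (K.mul_mem hy (K.inv_mem (K.pow_mem hk _)))]
      rw [← QuotientGroup.eq_one_iff]
      have h2 : (⟨y * (k ^ (e % p))⁻¹, K.mul_mem hy (K.inv_mem (K.pow_mem hk _))⟩ : K) =
          ⟨y, hy⟩ * ((⟨k, hk⟩ : K) ^ (e % p))⁻¹ := by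
        ext1; rfl
      rw [h2, QuotientGroup.mk_mul, QuotientGroup.mk_inv, QuotientGroup.mk_pow, he']
      simp

/-- maximal degree of an element of `K \\ K₁`. -/
lemma exists_max_degree (S : NSeries p Γ) {N : ℕ} (hN : S.D N = ⊥) {K K₁ : Subgroup Γ}
    (h : K₁ < K) : ∃ k ∈ K, k ∉ K₁ ∧ ∃ ν, 1 ≤ ν ∧ k ∈ S.D ν ∧
      ∀ y ∈ K, y ∉ K₁ → y ∉ S.D (ν + 1) := by
  classical
  obtain ⟨x, hxK, hxK₁⟩ := SetLike.exists_of_lt h
  -- least n such that no element of K \ K₁ lies in D n
  have hex : ∃ n, ∀ y ∈ K, y ∉ K₁ → y ∉ S.D n := by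
    refine ⟨N, fun y _ hy hyD => ?_⟩
    rw [hN, Subgroup.mem_bot] at hyD
    exact hy (hyD ▸ K₁.one_mem)
  set n := Nat.find hex with hn
  have hn1 : ∀ y ∈ K, y ∉ K₁ → y ∉ S.D n := Nat.find_spec hex
  have hn2 : 2 ≤ n := by
    by_contra hcon
    have h2 : n = 0 ∨ n = 1 := by omega
    rcases h2 with h2 | h2
    · exact hn1 x hxK hxK₁ (by rw [h2]; exact S.mem_zero x)
    · exact hn1 x hxK hxK₁ (by rw [h2]; exact S.mem_one x)
  have h3 := Nat.find_min hex (m := n - 1) (by omega)
  push Not at h3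
  obtain ⟨k, hk, hk1, hk2⟩ := h3
  refine ⟨k, hk, hk1, n - 1, by omega, hk2, ?_⟩
  have : n - 1 + 1 = n := by omega
  rw [this]
  exact hn1

open NSeries

/-- Data of filtered freeness with a distinguished basis element `1`. -/
structure FreeData (S : NSeries p Γ) (K' K : Subgroup Γ) where
  ι : Type
  fin : Fintype ι
  b : ι → MonoidAlgebra (ZMod p) Γ
  β : ι → ℕ
  i0 : ι
  free : FreeOver (S.E K') (S.E K) b β
  b0 : b i0 = 1
  β0 : β i0 = 0
  pos : ∀ i, i ≠ i0 → 1 ≤ β i

attribute [instance] FreeData.fin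

/-- **Filtered freeness.** -/
theorem exists_freeData [Fact p.Prime] [Finite Γ] (hG : IsPGroup p Γ) (S : NSeries p Γ) {N : ℕ}
    (hN : S.D N = ⊥) {K' K : Subgroup Γ} (h : K' ≤ K) : Nonempty (FreeData S K' K) := by
  have hp : p.Prime := Fact.out
  induction hc : Nat.card K using Nat.strong_induction_on generalizing K with
  | _ c ih =>
    rcases eq_or_lt_of_le h with heq | hlt
    · subst heq
      refine ⟨⟨Unit, inferInstance, fun _ => 1, fun _ => 0, (), ?_, rfl, rfl, ?_⟩⟩
      · refine ⟨?_, ?_, ?_⟩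
        · intro c _ hsum
          funext i
          simpa using hsum
        · intro n x hx
          exact ⟨fun _ => x, fun _ => by simpa using hx, by simp⟩
        · intro n i c hc
          simpa using hc
      · intro i hi
        exact absurd rfl hi
    · obtain ⟨K₁, h1, h2, hcard, hnorm, hk⟩ := exists_index_p hG hlt
      obtain ⟨k, hkK, hkK₁, ν, hν, hkν, hmax⟩ := exists_max_degree S hN h2
      obtain ⟨hkp, hrep⟩ := hk k hkK hkK₁
      have hcard1 : Nat.card K₁ < c := by
        have hpos : 0 < Nat.card K₁ := Nat.card_pos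
        have := hp.one_lt
        rw [← hc, hcard]
        nlinarith
      obtain ⟨d⟩ := ih (Nat.card K₁) hcard1 h1 rfl
      have hstep := freeOver_step h2.le hkK hkν (fun x hx => hnorm k hkK x hx) hkp hrep hmax hcard
      refine ⟨⟨d.ι × Fin p, inferInstance, _, _, (d.i0, ⟨0, hp.pos⟩), d.free.trans hstep, ?_, ?_, ?_⟩⟩
      · simp [d.b0]
      · simp [d.β0]
      · rintro ⟨i, j⟩ hij
        simp only
        by_cases hi : i = d.i0
        · have hj : (j : ℕ) ≠ 0 := by
            intro hj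
            apply hij
            rw [hi]
            congr 1
            exact Fin.ext hj
          have : 1 ≤ (j : ℕ) * ν := Nat.mul_pos (by omega) hν
          omega
        · have := d.pos i hi
          omega

end GolodShaf
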