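import Pool.Agent.GolodShaf.Iter

/-!
# Fox systems: the dimension series of `F`
-/

set_option linter.unusedSectionVars false
set_option linter.unusedVariables false
set_option linter.style.haveILetI false

namespace GolodShaf

open Module Submodule NSeries

/-- The abstract properties of the family `Op` of open normal subgroups of a free pro-`p` group
which are needed in the proof. -/
structure FoxSys (p : ℕ) {F : Type*} [Group F] {X : Type*} [Fintype X] [DecidableEq X] (x : X → F)
    (Op : Set (Subgroup F)) : Prop where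
  top : ⊤ ∈ Op
  normal : ∀ V ∈ Op, V.Normal
  finite : ∀ V ∈ Op, Finite (F ⧸ V)
  pgroup : ∀ V ∈ Op, ∀ [V.Normal], IsPGroup p (F ⧸ V)
  inf : ∀ V ∈ Op, ∀ W ∈ Op, V ⊓ W ∈ Op
  up : ∀ V ∈ Op, ∀ W : Subgroup F, W.Normal → V ≤ W → W ∈ Op
  der : ∀ V ∈ Op, ∀ [V.Normal], ∃ D : FoxDer p x V, ∃ W ∈ Op, ∀ g ∈ W, g ∈ V ∧ D.d g = 0

variable {p : ℕ} [Fact p.Prime] {F : Type*} [Group F] {X : Type*} [Fintype X] [DecidableEq X]
  {x : X → F} {Op : Set (Subgroup F)}

section commut

variable {Γ : Type*} [Group Γ]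

lemma augPow_comm_mem {i j : ℕ} {g h : Γ} (hg : gr p g - 1 ∈ augPow p Γ i)
    (hh : gr p h - 1 ∈ augPow p Γ j) : gr p (g * h * g⁻¹ * h⁻¹) - 1 ∈ augPow p Γ (i + j) := by
  have e : gr p (g * h * g⁻¹ * h⁻¹) - 1 =
      ((gr p g - 1) * (gr p h - 1) - (gr p h - 1) * (gr p g - 1)) * gr p (g⁻¹ * h⁻¹) := by
    have h1 : (gr p g - 1) * (gr p h - 1) - (gr p h - 1) * (gr p g - 1) = gr p (g * h) -
        gr p (h * g) := by
      rw [map_mul, map_mul]
      simp only [mul_sub, sub_mul, mul_one, one_mul]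
      abel
    rw [h1, sub_mul, ← map_mul, ← map_mul]
    have h2 : g * h * (g⁻¹ * h⁻¹) = g * h * g⁻¹ * h⁻¹ := by group
    have h3 : h * g * (g⁻¹ * h⁻¹) = 1 := by group
    rw [h2, h3, map_one]
  rw [e]
  apply augPow_mul_right
  apply sub_mem
  · exact augPow_mul hg hh
  · rw [add_comm]; exact augPow_mul hh hg

lemma augPow_gr_mul {i : ℕ} {g h : Γ} (hg : gr p g - 1 ∈ augPow p Γ i)
    (hh : gr p h - 1 ∈ augPow p Γ i) : gr p (g * h) - 1 ∈ augPow p Γ i := by
  have e : gr p (g * h) - 1 = (gr p g - 1) * gr p h + (gr p h - 1) := by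
    rw [map_mul, sub_mul, one_mul]
    abel
  rw [e]
  exact add_mem (augPow_mul_right hg) hh

lemma augPow_gr_inv {i : ℕ} {g : Γ} (hg : gr p g - 1 ∈ augPow p Γ i) :
    gr p g⁻¹ - 1 ∈ augPow p Γ i := by
  have e : gr p g⁻¹ - 1 = - ((gr p g - 1) * gr p g⁻¹) := by
    rw [sub_mul, gr_mul_inv, one_mul]; abel
  rw [e]
  exact neg_mem (augPow_mul_right hg)

lemma augPow_gr_pow {i : ℕ} {g : Γ} (hg : gr p g - 1 ∈ augPow p Γ i) :
    gr p (g ^ p) - 1 ∈ augPow p Γ (p * i) := by
  rw [← sub_one_pow_p]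
  have key : ∀ m : ℕ, (gr p g - 1) ^ m ∈ augPow p Γ (m * i) := by
    intro m
    induction m with
    | zero => simpa using one_mem_augPow
    | succ m ih =>
      rw [pow_succ]
      have := augPow_mul ih hg
      have e : m * i + i = (m + 1) * i := by ring
      rwa [e] at this
  exact key p

end commut

/-- the dimension subgroups of `F` relative to the family `Op` -/
def DF (p : ℕ) [Fact p.Prime] (Op : Set (Subgroup F)) (n : ℕ) : Subgroup F where
  carrier := {g | ∀ V ∈ Op, ∀ [V.Normal], gr p (QuotientGroup.mk g : F ⧸ V) - 1 ∈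
    augPow p (F ⧸ V) n}
  mul_mem' := by
    intro a b ha hb V hV _
    rw [QuotientGroup.mk_mul]
    exact augPow_gr_mul (ha V hV) (hb V hV)
  one_mem' := by
    intro V hV _
    rw [QuotientGroup.mk_one, map_one, sub_self]
    exact zero_mem _
  inv_mem' := by
    intro a ha V hV _
    rw [QuotientGroup.mk_inv]
    exact augPow_gr_inv (ha V hV)

lemma mem_DF {n : ℕ} {g : F} : g ∈ DF p Op n ↔ ∀ V ∈ Op, ∀ [V.Normal],
    gr p (QuotientGroup.mk g : F ⧸ V) - 1 ∈ augPow p (F ⧸ V) n := Iff.rfl

/-- the dimension series as an N-series of `F` -/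
def DS (p : ℕ) [Fact p.Prime] (Op : Set (Subgroup F)) : NSeries p F where
  D := DF p Op
  anti := by
    intro m n hmn g hg V hV _
    exact augPow_anti hmn (hg V hV)
  zero := by
    rw [eq_top_iff]
    intro g _ V hV _
    rw [augPow_zero]
    trivial
  one := by
    rw [eq_top_iff]
    intro g _ V hV _
    exact sub_one_mem_augPow _
  comm := by
    intro i j a b ha hb
    rw [mem_DF] at ha hb ⊢
    intro V hV _
    have h := augPow_comm_mem (ha V hV) (hb V hV)
    rwa [← QuotientGroup.mk_inv, ← QuotientGroup.mk_inv, ← QuotientGroup.mk_mul,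
      ← QuotientGroup.mk_mul, ← QuotientGroup.mk_mul] at h
  pow := by
    intro i a ha
    rw [mem_DF] at ha ⊢
    intro V hV _
    have h := augPow_gr_pow (ha V hV)
    rwa [← QuotientGroup.mk_pow] at h

/-- image of an N-series under a surjective homomorphism -/
def NSeries.map {Γ Γ₁ : Type*} [Group Γ] [Group Γ₁] (S : NSeries p Γ) (f : Γ →* Γ₁)
    (hf : Function.Surjective f) : NSeries p Γ₁ where
  D := fun n => (S.D n).map f
  anti := fun m n hmn => Subgroup.map_mono (S.anti hmn)
  zero := by rw [S.zero]; exact Subgroup.map_top_of_surjective f hf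
  one := by rw [S.one]; exact Subgroup.map_top_of_surjective f hf
  comm := by
    rintro i j _ _ ⟨a, ha, rfl⟩ ⟨b, hb, rfl⟩
    refine ⟨a * b * a⁻¹ * b⁻¹, S.comm i j a b ha hb, ?_⟩
    simp
  pow := by
    rintro i _ ⟨a, ha, rfl⟩
    exact ⟨a ^ p, S.pow i a ha, by simp⟩

/-- the image of the dimension series in `F ⧸ V`. -/
def QS (p : ℕ) [Fact p.Prime] (Op : Set (Subgroup F)) (V : Subgroup F) [V.Normal] :
    NSeries p (F ⧸ V) :=
  (DS p Op).map (QuotientGroup.mk' V) (QuotientGroup.mk'_surjective V)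

lemma mem_QS {V : Subgroup F} [V.Normal] {n : ℕ} {g : F} (hg : g ∈ DF p Op n) :
    (QuotientGroup.mk g : F ⧸ V) ∈ (QS p Op V).D n := ⟨g, hg, rfl⟩

lemma exists_of_mem_QS {V : Subgroup F} [V.Normal] {n : ℕ} {g : F ⧸ V}
    (hg : g ∈ (QS p Op V).D n) : ∃ g' ∈ DF p Op n, (QuotientGroup.mk g' : F ⧸ V) = g := hg

lemma QS_aug {V : Subgroup F} [V.Normal] (hV : V ∈ Op) {n : ℕ} {g : F ⧸ V}
    (hg : g ∈ (QS p Op V).D n) : gr p g - 1 ∈ augPow p (F ⧸ V) n := by
  obtain ⟨g', hg', h⟩ := exists_of_mem_QS hg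
  have h1 := mem_DF.mp hg' V hV
  rwa [h] at h1

lemma QS_E_top {V : Subgroup F} [V.Normal] (hV : V ∈ Op) (n : ℕ) :
    (QS p Op V).E ⊤ n = augPow p (F ⧸ V) n :=
  E_top_eq_augPow _ (fun _ _ hg => QS_aug hV hg) n

lemma gr_injective {Γ : Type*} [Group Γ] : Function.Injective (gr p : Γ → MonoidAlgebra (ZMod p) Γ) :=
  MonoidAlgebra.of_injective

lemma QS_bot {V : Subgroup F} [V.Normal] [Finite (F ⧸ V)] (hG : IsPGroup p (F ⧸ V)) (hV : V ∈ Op) :
    ∃ N, (QS p Op V).D N = ⊥ := by
  obtain ⟨N, hN⟩ := augPow_nilpotent hG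
  refine ⟨N, ?_⟩
  rw [eq_bot_iff]
  intro g hg
  have h1 := QS_aug hV hg
  rw [hN, Submodule.mem_bot, sub_eq_zero] at h1
  rw [Subgroup.mem_bot]
  apply gr_injective (p := p)
  rw [h1, map_one]

/-- multiplicativity inequality for quotients -/
theorem wK_map_mul_le {Γ Γ₁ : Type*} [Group Γ] [Finite Γ] [Group Γ₁] [Finite Γ₁]
    {S : NSeries p Γ} {S₁ : NSeries p Γ₁} {t : ℝ} (ht0 : 0 < t) (ht1 : t < 1)
    (hG : IsPGroup p Γ) {N : ℕ} (hN : S.D N = ⊥) (f : Γ →* Γ₁)
    (hfD : ∀ n x, x ∈ S.D n → f x ∈ S₁.D n) {K' K : Subgroup Γ} (hK : K' ≤ K)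
    (hker : ∀ x ∈ K', f x = 1) : wK t S K' * wK t S₁ (K.map f) ≤ wK t S K := by
  obtain ⟨d⟩ := exists_freeData hG S hN hK
  rw [wK_eq_mul ht0 ht1 hG hN hK d.free, mul_comm]
  apply mul_le_mul_of_nonneg_right _ (wK_nonneg ht0 ht1)
  have hFE : ∀ n x, x ∈ S.E ⊤ n → grMap f x ∈ S₁.E ⊤ n := by
    intro n x hx
    unfold E at hx
    induction hx using Submodule.span_induction with
    | mem x hx =>
      obtain ⟨l, hl, hn, rfl⟩ := hx
      rw [map_list_prod, List.map_map]
      have : (⇑(grMap (p := p) f) ∘ fun a : Γ × ℕ => gr p a.1 - 1) =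
          ((fun a : Γ₁ × ℕ => gr p a.1 - 1) ∘ fun a : Γ × ℕ => (f a.1, a.2)) := by
        funext a
        simp [grMap_gr]
      rw [this, ← List.map_map]
      apply prod_mem_E
      · intro a ha
        obtain ⟨b, hb, rfl⟩ := List.mem_map.mp ha
        exact ⟨trivial, hfD _ _ (hl b hb).2⟩
      · rw [List.map_map]
        exact hn
    | zero => rw [map_zero]; exact zero_mem _
    | add x y _ _ hx hy => rw [map_add]; exact add_mem hx hy
    | smul a x _ hx => rw [map_smul]; exact Submodule.smul_mem _ _ hx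
  have hscal : ∀ c ∈ S.E K' 0, ∃ a : ZMod p, grMap f c = algebraMap _ _ a := by
    intro c hc
    rw [E_zero_eq] at hc
    induction hc using Submodule.span_induction with
    | mem x hx =>
      obtain ⟨g, hg, rfl⟩ := hx
      refine ⟨1, ?_⟩
      rw [grMap_gr, hker g hg, map_one, map_one]
    | zero => exact ⟨0, by simp⟩
    | add x y _ _ hx hy =>
      obtain ⟨a, ha⟩ := hx
      obtain ⟨b, hb⟩ := hy
      exact ⟨a + b, by rw [map_add, ha, hb, map_add]⟩
    | smul r x _ hx =>
      obtain ⟨a, ha⟩ := hx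
      exact ⟨r * a, by rw [map_smul, ha, map_mul, Algebra.smul_def]⟩
  have h1 := w_le_of_le_sup_span (S₁.E ⊤) E_anti ht0 ht1 (S := S₁.E (K.map f) 0) (T := ⊥)
    (fun i => grMap f (d.b i)) d.β (by
      intro i
      rw [bot_sup_eq]
      apply hFE
      apply E_mono le_top
      have := d.free.maps (d.β i) i 1 (by simpa using one_mem_E)
      simpa using this) (by
      rw [bot_sup_eq, E_zero_eq]
      apply Submodule.span_le.mpr
      rintro _ ⟨_, ⟨g, hg, rfl⟩, rfl⟩
      obtain ⟨c, hc, hsum⟩ := d.free.surj 0 (gr p g) (of_mem_E hg)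
      rw [← grMap_gr, hsum, map_sum]
      apply Submodule.sum_mem
      intro i _
      obtain ⟨a, ha⟩ := hscal (c i) (by simpa using hc i)
      rw [map_mul, ha, ← Algebra.smul_def]
      exact Submodule.smul_mem _ _ (Submodule.subset_span ⟨i, rfl⟩))
  rw [w_bot, zero_add] at h1
  exact h1

/-- the projection `F ⧸ V' → F ⧸ V`. -/
def qmap {V' V : Subgroup F} [V'.Normal] [V.Normal] (h : V' ≤ V) : F ⧸ V' →* F ⧸ V :=
  QuotientGroup.map V' V (MonoidHom.id F) (by simpa using h)

section qmap

variable {V' V : Subgroup F} [V'.Normal] [V.Normal] (h : V' ≤ V)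

@[simp] lemma qmap_mk (g : F) : qmap h (QuotientGroup.mk g) = QuotientGroup.mk g := rfl

lemma qmap_surjective : Function.Surjective (qmap h) := by
  intro y
  obtain ⟨g, rfl⟩ := QuotientGroup.mk_surjective y
  exact ⟨QuotientGroup.mk g, rfl⟩

lemma qmap_QS (n : ℕ) (y : F ⧸ V') (hy : y ∈ (QS p Op V').D n) : qmap h y ∈ (QS p Op V).D n := by
  obtain ⟨g, hg, rfl⟩ := exists_of_mem_QS hy
  rw [qmap_mk]
  exact mem_QS hg

/-- The map `Ψ`. -/
theorem exists_psi (D : FoxDer p x V)
    (K : Submodule (ZMod p) (X → MonoidAlgebra (ZMod p) (F ⧸ V)))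
    (hK : ∀ (a : MonoidAlgebra (ZMod p) (F ⧸ V)), ∀ m ∈ K, a • m ∈ K)
    (hdK : ∀ v ∈ V', D.d v ∈ K) :
    ∃ Ψ : MonoidAlgebra (ZMod p) (F ⧸ V') →ₗ[ZMod p] (X → MonoidAlgebra (ZMod p) (F ⧸ V)),
      (∀ g, Ψ (gr p (QuotientGroup.mk g)) - D.d g ∈ K) ∧
      (∀ a b, Ψ (a * b) - grMap (qmap h) a • Ψ b - aug p _ b • Ψ a ∈ K) ∧
      (∀ n, ∀ a ∈ augPow p (F ⧸ V') n, Ψ a ∈ dfil p X (F ⧸ V) n ⊔ K) := by
  classical
  set Ψ : MonoidAlgebra (ZMod p) (F ⧸ V') →ₗ[ZMod p] (X → MonoidAlgebra (ZMod p) (F ⧸ V)) :=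
    (MonoidAlgebra.basis (F ⧸ V') (ZMod p)).constr (ZMod p) (fun g => D.d g.out) with hΨ
  have hΨg : ∀ g : F ⧸ V', Ψ (gr p g) = D.d g.out := by
    intro g
    have : gr p g = MonoidAlgebra.basis (F ⧸ V') (ZMod p) g := by
      rw [MonoidAlgebra.basis_apply, gr_apply]
    rw [this, hΨ, Module.Basis.constr_basis]
  have h1 : ∀ g, Ψ (gr p (QuotientGroup.mk g)) - D.d g ∈ K := by
    intro g
    obtain ⟨v, hv⟩ := QuotientGroup.mk_out_eq_mul V' g
    rw [hΨg, hv, D.mul, add_sub_cancel_left]
    exact hK _ _ (hdK _ v.2)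
  have h2 : ∀ a b, Ψ (a * b) - grMap (qmap h) a • Ψ b - aug p _ b • Ψ a ∈ K := by
    intro a b
    have ha : a ∈ Submodule.span (ZMod p) (Set.range (gr p : F ⧸ V' → _)) := by
      rw [span_gr]; trivial
    have hb : b ∈ Submodule.span (ZMod p) (Set.range (gr p : F ⧸ V' → _)) := by
      rw [span_gr]; trivial
    induction ha using Submodule.span_induction with
    | mem a ha =>
      obtain ⟨g, rfl⟩ := ha
      obtain ⟨g, rfl⟩ := QuotientGroup.mk_surjective g
      induction hb using Submodule.span_induction with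
      | mem b hb =>
        obtain ⟨g', rfl⟩ := hb
        obtain ⟨g', rfl⟩ := QuotientGroup.mk_surjective g'
        rw [grMap_gr, qmap_mk, aug_gr, one_smul, ← map_mul, ← QuotientGroup.mk_mul]
        have e1 := h1 (g * g')
        have e2 := h1 g
        have e3 := hK (gr p (QuotientGroup.mk g)) _ (h1 g')
        rw [D.mul] at e1
        rw [smul_sub] at e3
        have e4 := sub_mem (sub_mem e1 e2) e3
        convert e4 using 1
        abel
      | zero => simp
      | add b c _ _ hb hc =>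
        have := add_mem hb hc
        rw [mul_add, map_add, map_add, map_add, smul_add, add_smul]
        convert this using 1
        abel
      | smul r b _ hb =>
        have := K.smul_mem r hb
        rw [mul_smul_comm, map_smul, map_smul, map_smul, smul_eq_mul, mul_smul]
        rw [smul_sub, smul_sub] at this
        have e5 : grMap (qmap h) (gr p (QuotientGroup.mk g)) • r • Ψ b =
            r • grMap (qmap h) (gr p (QuotientGroup.mk g)) • Ψ b := by
          funext i
          simp [mul_smul_comm]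
        rw [e5]
        exact this
    | zero => simp
    | add a c _ _ ha hc =>
      have := add_mem ha hc
      rw [add_mul, map_add, map_add, map_add, smul_add, add_smul]
      convert this using 1
      abel
    | smul r a _ ha =>
      have := K.smul_mem r ha
      rw [smul_mul_assoc, map_smul, map_smul, map_smul, smul_assoc, smul_comm (aug p _ b) r]
      rw [smul_sub, smul_sub] at this
      exact this
  have h10 : Ψ 1 ∈ K := by
    have := h1 1
    rwa [QuotientGroup.mk_one, map_one, D.one, sub_zero] at this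
  refine ⟨Ψ, h1, h2, ?_⟩
  intro n a ha
  unfold augPow at ha
  induction ha using Submodule.span_induction with
  | mem a ha =>
    obtain ⟨l, hl, rfl⟩ := ha
    have key : ∀ l : List (F ⧸ V'), Ψ (l.map (fun g => gr p g - 1)).prod ∈
        dfil p X (F ⧸ V) l.length ⊔ K := by
      intro l
      induction l with
      | nil =>
        simp only [List.map_nil, List.prod_nil]
        exact Submodule.mem_sup_right h10
      | cons g l ih =>
        simp only [List.map_cons, List.prod_cons, List.length_cons]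
        have e1 := h2 (gr p g - 1) (l.map (fun g => gr p g - 1)).prod
        set P := (l.map (fun g => gr p g - 1)).prod with hP
        have e2 : grMap (qmap h) (gr p g - 1) • Ψ P ∈ dfil p X (F ⧸ V) (l.length + 1) ⊔ K := by
          obtain ⟨u, hu, v, hv, huv⟩ := Submodule.mem_sup.mp ih
          rw [← huv, smul_add]
          apply add_mem
          · apply Submodule.mem_sup_left
            have e3 : grMap (qmap h) (gr p g - 1) ∈ augPow p (F ⧸ V) 1 :=
              grMap_augPow _ (sub_one_mem_augPow g)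
            have := smul_mem_dfil e3 hu
            rwa [add_comm] at this
          · exact Submodule.mem_sup_right (hK _ _ hv)
        have e4 : aug p _ P • Ψ (gr p g - 1) ∈ dfil p X (F ⧸ V) (l.length + 1) ⊔ K := by
          cases l with
          | nil =>
            apply Submodule.smul_mem
            apply Submodule.mem_sup_left
            rw [mem_dfil]
            intro i
            simp only [List.length_nil, zero_add, Nat.sub_self, augPow_zero]
            trivial
          | cons g' l =>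
            have : aug p _ P = 0 := by
              rw [hP]
              simp
            rw [this, zero_smul]
            exact zero_mem _
        have e5 : Ψ ((gr p g - 1) * P) = (Ψ ((gr p g - 1) * P) -
            grMap (qmap h) (gr p g - 1) • Ψ P - aug p _ P • Ψ (gr p g - 1)) +
            grMap (qmap h) (gr p g - 1) • Ψ P + aug p _ P • Ψ (gr p g - 1) := by abel
        rw [e5]
        exact add_mem (add_mem (Submodule.mem_sup_right e1) e2) e4
    exact (sup_le_sup_right (dfil_anti hl) K) (key l)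
  | zero => simp
  | add a b _ _ ha hb => rw [map_add]; exact add_mem ha hb
  | smul r a _ ha => rw [map_smul]; exact Submodule.smul_mem _ _ ha

end qmap

end GolodShaf
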