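import Pool.Agent.GolodShaf.Sys

/-!
# Fox systems: continuity, the exponential bound, lifting of degrees
-/

set_option linter.unusedSectionVars false
set_option linter.unusedVariables false
set_option linter.style.haveILetI false

namespace GolodShaf

open Module Submodule NSeries

variable {p : ℕ} [Fact p.Prime] {F : Type*} [Group F] {X : Type*} [Fintype X] [DecidableEq X]
  {x : X → F} {Op : Set (Subgroup F)}

/-- continuity of a Fox derivative -/
def FoxDer.Cont (Op : Set (Subgroup F)) {V : Subgroup F} [V.Normal] (D : FoxDer p x V) : Prop :=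
  ∃ W ∈ Op, ∀ g ∈ W, g ∈ V ∧ D.d g = 0

/-- elements of degree `n` have derivative of degree `n`. -/
theorem FoxDer.d_mem_dfil (hsys : FoxSys p x Op) {V : Subgroup F} [V.Normal] {D : FoxDer p x V}
    (hD : D.Cont Op) {n : ℕ} {g : F} (hg : g ∈ DF p Op n) : D.d g ∈ dfil p X (F ⧸ V) n := by
  obtain ⟨W, hW, hWD⟩ := hD
  haveI := hsys.normal W hW
  obtain ⟨Ψ, h1, h2, h3⟩ := exists_psi (V' := W) (V := V) (fun g hg => (hWD g hg).1) D ⊥
    (by simp) (fun v hv => by simpa using (hWD v hv).2)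
  have h4 := h3 n _ (mem_DF.mp hg W hW)
  rw [sup_bot_eq, map_sub] at h4
  have h5 := h1 g
  have h6 := h1 1
  rw [QuotientGroup.mk_one, map_one, D.one, sub_zero, Submodule.mem_bot] at h6
  rw [Submodule.mem_bot, sub_eq_zero] at h5
  rwa [h5, h6, sub_zero] at h4

/-- the subgroup `{v ∈ V : d v ∈ K}`. -/
def FoxDer.sub {V : Subgroup F} [V.Normal] (D : FoxDer p x V)
    (K : Submodule (ZMod p) (X → MonoidAlgebra (ZMod p) (F ⧸ V))) : Subgroup F where
  carrier := {v | v ∈ V ∧ D.d v ∈ K}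
  mul_mem' := by
    rintro a b ⟨ha, ha'⟩ ⟨hb, hb'⟩
    exact ⟨V.mul_mem ha hb, by rw [D.mul_left_mem ha]; exact add_mem ha' hb'⟩
  one_mem' := ⟨V.one_mem, by rw [D.one]; exact zero_mem _⟩
  inv_mem' := by
    rintro a ⟨ha, ha'⟩
    exact ⟨V.inv_mem ha, by rw [D.inv_mem ha]; exact neg_mem ha'⟩

section sub

variable {V : Subgroup F} [V.Normal] (D : FoxDer p x V)
    {K : Submodule (ZMod p) (X → MonoidAlgebra (ZMod p) (F ⧸ V))}

lemma FoxDer.mem_sub {v : F} : v ∈ D.sub K ↔ v ∈ V ∧ D.d v ∈ K := Iff.rfl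

lemma FoxDer.sub_le : D.sub K ≤ V := fun _ hv => hv.1

lemma FoxDer.sub_normal (hK : ∀ (a : MonoidAlgebra (ZMod p) (F ⧸ V)), ∀ m ∈ K, a • m ∈ K) :
    (D.sub K).Normal := by
  refine ⟨fun v hv g => ?_⟩
  rw [D.mem_sub] at hv ⊢
  refine ⟨Subgroup.Normal.conj_mem inferInstance v hv.1 g, ?_⟩
  rw [D.conj hv.1]
  exact hK _ _ hv.2

lemma FoxDer.sub_mem_Op (hsys : FoxSys p x Op) (hD : D.Cont Op)
    (hK : ∀ (a : MonoidAlgebra (ZMod p) (F ⧸ V)), ∀ m ∈ K, a • m ∈ K) : D.sub K ∈ Op := by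
  obtain ⟨W, hW, hWD⟩ := hD
  apply hsys.up W hW _ (D.sub_normal hK)
  intro g hg
  rw [D.mem_sub]
  refine ⟨(hWD g hg).1, ?_⟩
  rw [(hWD g hg).2]
  exact zero_mem _

end sub

/-- **exponential bound** -/
theorem exp_bound (hsys : FoxSys p x Op) {t : ℝ} (ht0 : 0 < t) (ht1 : t < 1)
    {V V₁ : Subgroup F} [V.Normal] [V₁.Normal]
    (hV : V ∈ Op) (hV₁ : V₁ ∈ Op) {D : FoxDer p x V₁} (hD : D.Cont Op)
    (K : Submodule (ZMod p) (X → MonoidAlgebra (ZMod p) (F ⧸ V₁)))
    (hdK : ∀ v ∈ V, D.d v ∈ K) (H : Subgroup (F ⧸ V))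
    (hH : ∀ g : F, (QuotientGroup.mk g : F ⧸ V) ∈ H → g ∈ V₁) :
    (2 : ℝ) ^ (w t (dfil p X (F ⧸ V₁)) (K ⊔ span (ZMod p)
      (D.d '' {g : F | (QuotientGroup.mk g : F ⧸ V) ∈ H})) - w t (dfil p X (F ⧸ V₁)) K) ≤
      wK t (QS p Op V) H := by
  haveI := hsys.finite V hV
  haveI := hsys.finite V₁ hV₁
  have hG := hsys.pgroup V hV
  have hp : p.Prime := Fact.out
  obtain ⟨N, hN⟩ := QS_bot hG hV
  induction hc : Nat.card H using Nat.strong_induction_on generalizing H with
  | _ c ih =>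
    rcases eq_or_ne H ⊥ with hbot | hbot
    · subst hbot
      have h1 : K ⊔ span (ZMod p)
          (D.d '' {g : F | (QuotientGroup.mk g : F ⧸ V) ∈ (⊥ : Subgroup (F ⧸ V))}) = K := by
        apply sup_eq_left.mpr
        apply Submodule.span_le.mpr
        rintro _ ⟨g, hg, rfl⟩
        apply hdK
        have : (QuotientGroup.mk g : F ⧸ V) = 1 := by simpa using hg
        exact (QuotientGroup.eq_one_iff g).mp this
      rw [h1, sub_self, Real.rpow_zero]
      exact one_le_wK ht0 ht1 hG hN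
    · obtain ⟨H₁, -, hlt, hcard, hnorm, hk⟩ := exists_index_p hG (bot_lt_iff_ne_bot.mpr hbot)
      obtain ⟨k, hkH, hkH₁, ν, hν, hkν, hmax⟩ := exists_max_degree (QS p Op V) hN hlt
      obtain ⟨hkp, hrep⟩ := hk k hkH hkH₁
      have hstep := freeOver_step hlt.le hkH hkν (fun x hx => hnorm k hkH x hx) hkp hrep hmax hcard
      have hw := wK_eq_mul ht0 ht1 hG hN hlt.le hstep
      have hcard1 : Nat.card H₁ < c := by
        have hpos : 0 < Nat.card H₁ := Nat.card_pos
        have := hp.one_lt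
        rw [← hc, hcard]
        nlinarith
      have hH₁ : ∀ g : F, (QuotientGroup.mk g : F ⧸ V) ∈ H₁ → g ∈ V₁ :=
        fun g hg => hH g (hlt.le hg)
      have ih1 := ih _ hcard1 H₁ hH₁ rfl
      obtain ⟨k', hk'D, hk'⟩ := exists_of_mem_QS hkν
      have hk'V : k' ∈ V₁ := hH k' (by rw [hk']; exact hkH)
      set A := K ⊔ span (ZMod p) (D.d '' {g : F | (QuotientGroup.mk g : F ⧸ V) ∈ H₁}) with hA
      have hle : K ⊔ span (ZMod p) (D.d '' {g : F | (QuotientGroup.mk g : F ⧸ V) ∈ H}) ≤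
          A ⊔ span (ZMod p) {D.d k'} := by
        apply sup_le (le_sup_left.trans le_sup_left)
        apply Submodule.span_le.mpr
        rintro _ ⟨g, hg, rfl⟩
        obtain ⟨e, he, g₁, hg₁, hge⟩ := hrep _ hg
        have h1 : (QuotientGroup.mk (g * (k' ^ e)⁻¹) : F ⧸ V) = g₁ := by
          rw [QuotientGroup.mk_mul, hge, QuotientGroup.mk_inv, QuotientGroup.mk_pow, hk']
          group
        have h2 : g * (k' ^ e)⁻¹ ∈ V₁ := hH₁ _ (by rw [h1]; exact hg₁)
        have h3 : D.d g = D.d (g * (k' ^ e)⁻¹) + (e : ZMod p) • D.d k' := by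
          rw [← D.d_pow_mem hk'V, ← D.mul_left_mem h2]
          congr 1
          group
        rw [SetLike.mem_coe, h3]
        apply add_mem
        · apply Submodule.mem_sup_left
          apply Submodule.mem_sup_right
          apply Submodule.subset_span
          exact ⟨_, by rw [Set.mem_ofPred_eq, h1]; exact hg₁, rfl⟩
        · apply Submodule.mem_sup_right
          exact Submodule.smul_mem _ _ (Submodule.mem_span_singleton_self _)
      have hw1 := w_mono (dfil p X (F ⧸ V₁)) ht0 ht1 hle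
      have hw2 := w_sup_span_le (dfil p X (F ⧸ V₁)) dfil_anti ht0 ht1 A (v := D.d k') (m := ν)
        (Submodule.mem_sup_right (D.d_mem_dfil hsys hD hk'D))
      set a := w t (dfil p X (F ⧸ V₁)) A - w t (dfil p X (F ⧸ V₁)) K with ha
      have h4 : (2 : ℝ) ^ (w t (dfil p X (F ⧸ V₁)) (K ⊔ span (ZMod p)
          (D.d '' {g : F | (QuotientGroup.mk g : F ⧸ V) ∈ H})) - w t (dfil p X (F ⧸ V₁)) K) ≤
          2 ^ (a + t ^ ν) := by
        apply Real.rpow_le_rpow_of_exponent_le (by norm_num)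
        linarith
      refine h4.trans ?_
      rw [Real.rpow_add (by norm_num), hw, mul_comm]
      have h5 : (2 : ℝ) ^ (t ^ ν) ≤ 1 + t ^ ν := by
        have := _root_.rpow_one_add_le_one_add_mul_self (s := 1) (by norm_num) (p := t ^ ν)
          (by positivity) (pow_le_one₀ ht0.le ht1.le)
        norm_num at this
        exact this
      have h6 : 1 + t ^ ν ≤ ∑ i : Fin p, t ^ ((i : ℕ) * ν) := by
        have h7 : ∑ i ∈ Finset.range 2, t ^ (i * ν) ≤ ∑ i ∈ Finset.range p, t ^ (i * ν) := by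
          apply Finset.sum_le_sum_of_subset_of_nonneg
          · exact Finset.range_mono hp.two_le
          · intro i _ _
            positivity
        rw [Finset.sum_range_succ, Finset.sum_range_succ, Finset.sum_range_zero] at h7
        simp only [zero_mul, pow_zero, zero_add, one_mul] at h7
        rwa [Finset.sum_range] at h7
      apply mul_le_mul (h5.trans h6) ih1 (by positivity)
      exact Finset.sum_nonneg (fun _ _ => by positivity)

end GolodShaf
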