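import Mathlib

/-!
# Weights of subspaces of a finite dimensional filtered vector space

`w t F S = (1 - t) * ∑ n, codim_S (S ∩ F (n+1)) * t ^ n`.
-/

set_option linter.unusedSectionVars false
set_option linter.unusedVariables false
set_option linter.style.haveILetI false

namespace GolodShaf

open Module Submodule

variable {k : Type*} [Field k] {V : Type*} [AddCommGroup V] [Module k V]

/-- codimension of `S ∩ F n` in `S`. -/
noncomputable def cod (F : ℕ → Submodule k V) (S : Submodule k V) (n : ℕ) : ℝ :=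
  (finrank k S : ℝ) - finrank k ↥(S ⊓ F n)

/-- weight of the subspace `S` for the filtration `F` and parameter `t`. -/
noncomputable def w (t : ℝ) (F : ℕ → Submodule k V) (S : Submodule k V) : ℝ :=
  (1 - t) * ∑' n, cod F S (n + 1) * t ^ n

section basics

variable [FiniteDimensional k V] {t : ℝ} (F : ℕ → Submodule k V)

lemma cod_nonneg (S : Submodule k V) (n : ℕ) : 0 ≤ cod F S n := by
  unfold cod
  have := Submodule.finrank_mono (inf_le_left : S ⊓ F n ≤ S)
  have h : (finrank k ↥(S ⊓ F n) : ℝ) ≤ finrank k S := by exact_mod_cast this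
  linarith

lemma cod_le (S : Submodule k V) (n : ℕ) : cod F S n ≤ finrank k V := by
  unfold cod
  have h1 : (finrank k S : ℝ) ≤ finrank k V := by exact_mod_cast Submodule.finrank_le S
  have h2 : (0:ℝ) ≤ finrank k ↥(S ⊓ F n) := by positivity
  linarith

lemma cod_mono {S T : Submodule k V} (h : T ≤ S) (n : ℕ) : cod F T n ≤ cod F S n := by
  unfold cod
  -- finrank (T ⊔ (S ⊓ F n)) + finrank (T ⊓ (S ⊓ F n)) = finrank T + finrank (S ⊓ F n)
  have h1 := Submodule.finrank_sup_add_finrank_inf_eq T (S ⊓ F n)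
  have h2 : T ⊓ (S ⊓ F n) = T ⊓ F n := by
    rw [← inf_assoc, inf_eq_left.mpr h]
  rw [h2] at h1
  have h3 : finrank k ↥(T ⊔ (S ⊓ F n)) ≤ finrank k S :=
    Submodule.finrank_mono (sup_le h inf_le_left)
  have h1' : (finrank k ↥(T ⊔ (S ⊓ F n)) : ℝ) + finrank k ↥(T ⊓ F n)
      = finrank k T + finrank k ↥(S ⊓ F n) := by exact_mod_cast h1
  have h3' : (finrank k ↥(T ⊔ (S ⊓ F n)) : ℝ) ≤ finrank k S := by exact_mod_cast h3
  linarith

lemma cod_submod (S T : Submodule k V) (n : ℕ) :
    cod F (S ⊔ T) n + cod F (S ⊓ T) n ≤ cod F S n + cod F T n := by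
  unfold cod
  have h1 := Submodule.finrank_sup_add_finrank_inf_eq S T
  have h2 := Submodule.finrank_sup_add_finrank_inf_eq (S ⊓ F n) (T ⊓ F n)
  have h3 : (S ⊓ F n) ⊓ (T ⊓ F n) = (S ⊓ T) ⊓ F n := by
    rw [inf_inf_inf_comm, inf_idem]
  rw [h3] at h2
  have h4 : finrank k ↥((S ⊓ F n) ⊔ (T ⊓ F n)) ≤ finrank k ↥((S ⊔ T) ⊓ F n) := by
    apply Submodule.finrank_mono
    exact sup_le (inf_le_inf_right _ le_sup_left) (inf_le_inf_right _ le_sup_right)
  have h1' : (finrank k ↥(S ⊔ T) : ℝ) + finrank k ↥(S ⊓ T) = finrank k S + finrank k T := by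
    exact_mod_cast h1
  have h2' : (finrank k ↥((S ⊓ F n) ⊔ (T ⊓ F n)) : ℝ) + finrank k ↥((S ⊓ T) ⊓ F n)
      = finrank k ↥(S ⊓ F n) + finrank k ↥(T ⊓ F n) := by exact_mod_cast h2
  have h4' : (finrank k ↥((S ⊓ F n) ⊔ (T ⊓ F n)) : ℝ) ≤ finrank k ↥((S ⊔ T) ⊓ F n) := by
    exact_mod_cast h4
  linarith

omit [FiniteDimensional k V] in
lemma summable_bdd {f : ℕ → ℝ} {B : ℝ} (h0 : ∀ n, 0 ≤ f n) (hB : ∀ n, f n ≤ B)
    (ht0 : 0 < t) (ht1 : t < 1) : Summable (fun n => f n * t ^ n) := by
  refine Summable.of_nonneg_of_le (fun n => mul_nonneg (h0 n) (by positivity))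
    (fun n => mul_le_mul_of_nonneg_right (hB n) (by positivity)) ?_
  exact (summable_geometric_of_lt_one ht0.le ht1).mul_left B

lemma summable_cod (ht0 : 0 < t) (ht1 : t < 1) (S : Submodule k V) :
    Summable (fun n => cod F S (n + 1) * t ^ n) :=
  summable_bdd (fun n => cod_nonneg F S _) (fun n => cod_le F S _) ht0 ht1

lemma w_nonneg (ht0 : 0 < t) (ht1 : t < 1) (S : Submodule k V) : 0 ≤ w t F S := by
  unfold w
  apply mul_nonneg (by linarith)
  exact tsum_nonneg (fun n => mul_nonneg (cod_nonneg F S _) (by positivity))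

lemma w_mono (ht0 : 0 < t) (ht1 : t < 1) {S T : Submodule k V} (h : T ≤ S) :
    w t F T ≤ w t F S := by
  unfold w
  apply mul_le_mul_of_nonneg_left _ (by linarith)
  exact (summable_cod F ht0 ht1 T).tsum_le_tsum
    (fun n => mul_le_mul_of_nonneg_right (cod_mono F h _) (by positivity))
    (summable_cod F ht0 ht1 S)

lemma w_submod (ht0 : 0 < t) (ht1 : t < 1) (S T : Submodule k V) :
    w t F (S ⊔ T) + w t F (S ⊓ T) ≤ w t F S + w t F T := by
  unfold w
  rw [← mul_add, ← mul_add, ← (summable_cod F ht0 ht1 _).tsum_add (summable_cod F ht0 ht1 _),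
    ← (summable_cod F ht0 ht1 _).tsum_add (summable_cod F ht0 ht1 _)]
  apply mul_le_mul_of_nonneg_left _ (by linarith)
  refine ((summable_cod F ht0 ht1 _).add (summable_cod F ht0 ht1 _)).tsum_le_tsum (fun n => ?_)
    ((summable_cod F ht0 ht1 _).add (summable_cod F ht0 ht1 _))
  rw [← add_mul, ← add_mul]
  exact mul_le_mul_of_nonneg_right (cod_submod F S T _) (by positivity)

lemma w_sup_le (ht0 : 0 < t) (ht1 : t < 1) (S T : Submodule k V) :
    w t F (S ⊔ T) ≤ w t F S + w t F T := by
  have := w_submod F ht0 ht1 S T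
  have := w_nonneg F ht0 ht1 (S ⊓ T)
  linarith

omit [FiniteDimensional k V] in
@[simp] lemma w_bot : w t F (⊥ : Submodule k V) = 0 := by
  have : ∀ n, cod F (⊥ : Submodule k V) n = 0 := by
    intro n
    unfold cod
    rw [bot_inf_eq]
    simp
  unfold w
  simp [this]

/-- the geometric tail -/
lemma tail_sum (ht0 : 0 < t) (ht1 : t < 1) (m : ℕ) :
    (1 - t) * ∑' n : ℕ, (if m ≤ n then (1:ℝ) else 0) * t ^ n = t ^ m := by
  have h1 : Summable (fun n : ℕ => (if m ≤ n then (1:ℝ) else 0) * t ^ n) := by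
    apply summable_bdd (B := 1) _ _ ht0 ht1
    · intro _; split_ifs <;> norm_num
    · intro _; split_ifs <;> norm_num
  rw [← h1.sum_add_tsum_nat_add m]
  have h2 : ∑ i ∈ Finset.range m, (if m ≤ i then (1:ℝ) else 0) * t ^ i = 0 := by
    apply Finset.sum_eq_zero
    intro i hi
    rw [if_neg (by simpa using Finset.mem_range.mp hi), zero_mul]
  rw [h2, zero_add]
  have h3 : (fun n : ℕ => (if m ≤ n + m then (1:ℝ) else 0) * t ^ (n + m)) =
      fun n => t ^ m * t ^ n := by
    funext n
    rw [if_pos (by omega), one_mul, pow_add, mul_comm]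
  rw [h3, tsum_mul_left, tsum_geometric_of_lt_one ht0.le ht1]
  have : 1 - t ≠ 0 := by linarith
  field_simp

lemma cod_span_le_one (v : V) (n : ℕ) : cod F (span k {v}) n ≤ 1 := by
  unfold cod
  have h1 : finrank k (span k ({v} : Set V)) ≤ 1 := by
    have := finrank_span_le_card (R := k) ({v} : Set V)
    simpa using this
  have h1' : (finrank k (span k ({v} : Set V)) : ℝ) ≤ 1 := by exact_mod_cast h1
  have h2 : (0:ℝ) ≤ finrank k ↥(span k {v} ⊓ F n) := by positivity
  linarith

omit [FiniteDimensional k V] in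
lemma cod_eq_zero_of_le {S : Submodule k V} {n : ℕ} (h : S ≤ F n) : cod F S n = 0 := by
  unfold cod
  rw [inf_eq_left.mpr h]
  ring

lemma w_span_le (hF : Antitone F) (ht0 : 0 < t) (ht1 : t < 1) {v : V} {m : ℕ} (hv : v ∈ F m) :
    w t F (span k {v}) ≤ t ^ m := by
  rw [← tail_sum ht0 ht1 m]
  unfold w
  apply mul_le_mul_of_nonneg_left _ (by linarith)
  refine (summable_cod F ht0 ht1 _).tsum_le_tsum (fun n => ?_) ?_
  · apply mul_le_mul_of_nonneg_right _ (by positivity)
    split_ifs with h
    · exact cod_span_le_one F v _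
    · have : cod F (span k {v}) (n + 1) = 0 := by
        apply cod_eq_zero_of_le
        rw [span_singleton_le_iff_mem]
        exact hF (by omega : n + 1 ≤ m) hv
      rw [this]
  · apply summable_bdd (B := 1) _ _ ht0 ht1
    · intro _; split_ifs <;> norm_num
    · intro _; split_ifs <;> norm_num

/-- spanning upper bound, one vector -/
lemma w_sup_span_le (hF : Antitone F) (ht0 : 0 < t) (ht1 : t < 1) (T : Submodule k V) {v : V}
    {m : ℕ} (hv : v ∈ T ⊔ F m) : w t F (T ⊔ span k {v}) ≤ w t F T + t ^ m := by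
  obtain ⟨a, ha, b, hb, rfl⟩ := Submodule.mem_sup.mp hv
  have h1 : T ⊔ span k {a + b} ≤ T ⊔ span k {b} := by
    apply sup_le le_sup_left
    rw [span_singleton_le_iff_mem]
    exact add_mem (Submodule.mem_sup_left ha)
      (Submodule.mem_sup_right (Submodule.mem_span_singleton_self b))
  calc w t F (T ⊔ span k {a + b}) ≤ w t F (T ⊔ span k {b}) := w_mono F ht0 ht1 h1
    _ ≤ w t F T + w t F (span k {b}) := w_sup_le F ht0 ht1 _ _
    _ ≤ w t F T + t ^ m := by
      have := w_span_le F hF ht0 ht1 hb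
      linarith

/-- spanning upper bound, finite family -/
lemma w_sup_span_range_le (hF : Antitone F) (ht0 : 0 < t) (ht1 : t < 1) (T : Submodule k V)
    {ι : Type*} [Fintype ι] (v : ι → V) (m : ι → ℕ) (hv : ∀ i, v i ∈ T ⊔ F (m i)) :
    w t F (T ⊔ span k (Set.range v)) ≤ w t F T + ∑ i, t ^ (m i) := by
  classical
  have key : ∀ s : Finset ι, w t F (T ⊔ span k (v '' (s : Set ι))) ≤ w t F T + ∑ i ∈ s, t ^ (m i) := by
    intro s
    induction s using Finset.induction_on with
    | empty => simp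
    | insert a s ha ih =>
      rw [Finset.coe_insert, Set.image_insert_eq, Finset.sum_insert ha, span_insert,
        sup_comm (span k {v a}), ← sup_assoc]
      have h1 : v a ∈ (T ⊔ span k (v '' (s : Set ι))) ⊔ F (m a) :=
        (sup_le_sup_right le_sup_left _ : T ⊔ F (m a) ≤ _) (hv a)
      have := w_sup_span_le F hF ht0 ht1 _ h1
      linarith
  have := key Finset.univ
  simpa using this

/-- If `S ≤ T ⊔ span (range v)` then `w S ≤ w T + Σ t^(m i)`. -/
lemma w_le_of_le_sup_span (hF : Antitone F) (ht0 : 0 < t) (ht1 : t < 1) {S T : Submodule k V}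
    {ι : Type*} [Fintype ι] (v : ι → V) (m : ι → ℕ) (hv : ∀ i, v i ∈ T ⊔ F (m i))
    (h : S ≤ T ⊔ span k (Set.range v)) :
    w t F S ≤ w t F T + ∑ i, t ^ (m i) :=
  (w_mono F ht0 ht1 h).trans (w_sup_span_range_le F hF ht0 ht1 T v m hv)

/-- exact lower bound for adding one vector -/
lemma w_add_pow_le (ht0 : 0 < t) (ht1 : t < 1) {S T T' : Submodule k V} {m : ℕ}
    (hlt : T < T') (hTS : T' ≤ S) (hm : S ⊓ F (m + 1) ≤ T) (hF : Antitone F) :
    w t F T + t ^ m ≤ w t F T' := by
  rw [← tail_sum ht0 ht1 m]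
  unfold w
  rw [← mul_add, ← (summable_cod F ht0 ht1 _).tsum_add]
  · apply mul_le_mul_of_nonneg_left _ (by linarith)
    refine Summable.tsum_le_tsum (fun n => ?_) ?_ (summable_cod F ht0 ht1 _)
    · rw [← add_mul]
      apply mul_le_mul_of_nonneg_right _ (by positivity)
      split_ifs with h
      · -- cod T + 1 ≤ cod T'
        unfold cod
        have h1 : T' ⊓ F (n + 1) ≤ T ⊓ F (n + 1) := by
          apply le_inf _ inf_le_right
          refine le_trans ?_ hm
          exact inf_le_inf hTS (hF (by omega))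
        have h2 : finrank k ↥(T' ⊓ F (n + 1)) ≤ finrank k ↥(T ⊓ F (n + 1)) :=
          Submodule.finrank_mono h1
        have h3 : finrank k T < finrank k T' := Submodule.finrank_lt_finrank_of_lt hlt
        have h2' : (finrank k ↥(T' ⊓ F (n + 1)) : ℝ) ≤ finrank k ↥(T ⊓ F (n + 1)) := by
          exact_mod_cast h2
        have h3' : (finrank k T : ℝ) + 1 ≤ finrank k T' := by exact_mod_cast h3
        linarith
      · rw [add_zero]
        exact cod_mono F hlt.le _
    · apply (summable_cod F ht0 ht1 T).add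
      apply summable_bdd (B := 1) _ _ ht0 ht1
      · intro _; split_ifs <;> norm_num
      · intro _; split_ifs <;> norm_num
  · apply summable_bdd (B := 1) _ _ ht0 ht1
    · intro _; split_ifs <;> norm_num
    · intro _; split_ifs <;> norm_num

/-- Adapted bases: for `T ≤ S` there is a finite family in `S` generating `S` modulo `T`, with
total weight at most `w S - w T`. -/
theorem exists_adapted (hF : Antitone F) (ht0 : 0 < t) (ht1 : t < 1) (h0 : F 0 = ⊤)
    {N : ℕ} {S T : Submodule k V} (hTS : T ≤ S) (hN : S ⊓ F N ≤ T) :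
    ∃ (r : ℕ) (v : Fin r → V) (m : Fin r → ℕ), (∀ i, v i ∈ S ⊓ F (m i)) ∧
      S = T ⊔ span k (Set.range v) ∧ ∑ i, t ^ (m i) ≤ w t F S - w t F T := by
  classical
  obtain ⟨d, hd⟩ : ∃ d, finrank k S - finrank k T = d := ⟨_, rfl⟩
  induction d using Nat.strong_induction_on generalizing T with
  | _ d ih =>
    by_cases hST : S ≤ T
    · have : S = T := le_antisymm hST hTS
      subst this
      exact ⟨0, Fin.elim0, Fin.elim0, fun i => i.elim0, by simp, by simp⟩
    · -- least l with S ⊓ F l ≤ T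
      have hex : ∃ l, S ⊓ F l ≤ T := ⟨N, hN⟩
      set l := Nat.find hex with hl
      have hl1 : S ⊓ F l ≤ T := Nat.find_spec hex
      have hl0 : l ≠ 0 := by
        intro h
        rw [h, h0, inf_top_eq] at hl1
        exact hST hl1
      obtain ⟨m, hm⟩ : ∃ m, l = m + 1 := ⟨l - 1, by omega⟩
      have hml : ¬ S ⊓ F m ≤ T := Nat.find_min hex (by omega)
      obtain ⟨v, hvS, hvT⟩ := SetLike.not_le_iff_exists.mp hml
      have hlt : T < T ⊔ span k {v} := by
        refine lt_of_le_of_ne le_sup_left ?_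
        intro h
        apply hvT
        rw [h]
        exact Submodule.mem_sup_right (Submodule.mem_span_singleton_self v)
      have hle : T ⊔ span k {v} ≤ S := by
        apply sup_le hTS
        rw [span_singleton_le_iff_mem]
        exact hvS.1
      have hrank : finrank k T < finrank k ↥(T ⊔ span k {v}) :=
        Submodule.finrank_lt_finrank_of_lt hlt
      have hrank2 : finrank k ↥(T ⊔ span k {v}) ≤ finrank k S := Submodule.finrank_mono hle
      obtain ⟨r, u, e, hu, hS, hsum⟩ := ih (finrank k S - finrank k ↥(T ⊔ span k {v})) (by omega)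
        hle (hN.trans hlt.le) rfl
      refine ⟨r + 1, Fin.cons v u, Fin.cons m e, ?_, ?_, ?_⟩
      · intro i
        refine Fin.cases ?_ (fun j => ?_) i
        · simpa using hvS
        · simpa using hu j
      · rw [Fin.range_cons, span_insert, ← sup_assoc]
        exact hS
      · rw [Fin.sum_univ_succ]
        simp only [Fin.cons_zero, Fin.cons_succ]
        have := w_add_pow_le F ht0 ht1 hlt hle (by rw [← hm]; exact hl1) hF
        linarith

end basics

end GolodShaf
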