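import Pool.Agent.GolodShaf.Weight
import Pool.Agent.GolodShaf.Step

/-!
# Weights of subgroups
-/

set_option linter.unusedSectionVars false
set_option linter.unusedVariables false
set_option linter.style.haveILetI false

namespace GolodShaf

open Module Submodule NSeries

variable {p : ℕ} [Fact p.Prime] {Γ : Type*} [Group Γ]

/-- weight of a subgroup `K` for the N-series `S`. -/
noncomputable def wK (t : ℝ) (S : NSeries p Γ) (K : Subgroup Γ) : ℝ :=
  w t (S.E ⊤) (S.E K 0)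

lemma E_top_zero (S : NSeries p Γ) : S.E ⊤ 0 = ⊤ := by
  rw [E_zero_eq, Subgroup.coe_top, Set.image_univ]
  exact span_gr

section

variable [Finite Γ] {S : NSeries p Γ} {K K' : Subgroup Γ}

/-- `E K n = E K 0 ∩ E ⊤ n`. -/
lemma E_eq_inf (hG : IsPGroup p Γ) {N : ℕ} (hN : S.D N = ⊥) (hK : K' ≤ K) (n : ℕ) :
    S.E K' 0 ⊓ S.E K n = S.E K' n := by
  classical
  apply le_antisymm
  · rintro x ⟨hx0, hxn⟩
    obtain ⟨d⟩ := exists_freeData hG S hN hK
    obtain ⟨c, hc, hsum⟩ := d.free.surj n x hxn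
    have h1 := d.free.inj (fun i => c i - if i = d.i0 then x else 0) (by
      intro i
      apply sub_mem (E_anti (by omega) (hc i))
      split_ifs
      · exact hx0
      · exact zero_mem _) (by
      simp only [sub_mul, Finset.sum_sub_distrib]
      rw [← hsum]
      simp [ite_mul, d.b0])
    have h2 := congrFun h1 d.i0
    simp only [if_true, Pi.zero_apply] at h2
    rw [sub_eq_zero] at h2
    rw [← h2]
    have := hc d.i0
    rwa [d.β0, Nat.sub_zero] at this
  · exact le_inf (E_anti (by omega)) (E_mono hK n)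

lemma cod_E (hG : IsPGroup p Γ) {N : ℕ} (hN : S.D N = ⊥) (n : ℕ) :
    cod (S.E ⊤) (S.E K 0) n = (finrank (ZMod p) (S.E K 0) : ℝ) - finrank (ZMod p) (S.E K n) := by
  unfold cod
  rw [E_eq_inf hG hN le_top]

omit [Finite Γ] in
lemma finrank_freeOver [Finite Γ] {A B : ℕ → Submodule (ZMod p) (MonoidAlgebra (ZMod p) Γ)}
    {ι : Type} [Fintype ι] {b : ι → MonoidAlgebra (ZMod p) Γ} {β : ι → ℕ} (h : FreeOver A B b β)
    (hA : Antitone A) (n : ℕ) :
    finrank (ZMod p) (B n) = ∑ i, finrank (ZMod p) (A (n - β i)) := by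
  let Φ : (∀ i, A (n - β i)) →ₗ[ZMod p] B n :=
    { toFun := fun c => ⟨∑ i, (c i : MonoidAlgebra (ZMod p) Γ) * b i,
        Submodule.sum_mem _ (fun i _ => h.maps n i _ (c i).2)⟩
      map_add' := by
        intro c c'
        ext1
        simp [add_mul, Finset.sum_add_distrib]
      map_smul' := by
        intro a c
        ext1
        simp [Finset.smul_sum] }
  have hΦi : Function.Injective Φ := by
    rw [injective_iff_map_eq_zero]
    intro c hc
    have h1 : ∑ i, (c i : MonoidAlgebra (ZMod p) Γ) * b i = 0 := congrArg Subtype.val hc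
    have h2 := h.inj (fun i => (c i : MonoidAlgebra (ZMod p) Γ)) (fun i => hA (by omega) (c i).2) h1
    funext i
    exact Subtype.ext (congrFun h2 i)
  have hΦs : Function.Surjective Φ := by
    rintro ⟨x, hx⟩
    obtain ⟨c, hc, rfl⟩ := h.surj n x hx
    exact ⟨fun i => ⟨c i, hc i⟩, rfl⟩
  have e := LinearEquiv.ofBijective Φ ⟨hΦi, hΦs⟩
  rw [← e.finrank_eq, Module.finrank_pi_fintype]

omit [Fact p.Prime] [Finite Γ] in
lemma tsum_shift {t : ℝ} (ht0 : 0 < t) (ht1 : t < 1) {f : ℕ → ℝ} {B : ℝ} (h0 : f 0 = 0)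
    (hf : ∀ n, 0 ≤ f n) (hB : ∀ n, f n ≤ B) (β : ℕ) :
    ∑' n, f (n + 1 - β) * t ^ n = t ^ β * ∑' n, f (n + 1) * t ^ n := by
  have h1 : Summable (fun n => f (n + 1 - β) * t ^ n) :=
    summable_bdd (fun n => hf _) (fun n => hB _) ht0 ht1
  rw [← h1.sum_add_tsum_nat_add β]
  have h2 : ∑ i ∈ Finset.range β, f (i + 1 - β) * t ^ i = 0 := by
    apply Finset.sum_eq_zero
    intro i hi
    have : i + 1 - β = 0 := by
      have := Finset.mem_range.mp hi
      omega
    rw [this, h0, zero_mul]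
  rw [h2, zero_add, ← tsum_mul_left]
  congr 1
  funext n
  have : n + β + 1 - β = n + 1 := by omega
  rw [this, pow_add]
  ring

/-- multiplicativity of weights -/
theorem wK_eq_mul {t : ℝ} (ht0 : 0 < t) (ht1 : t < 1) (hG : IsPGroup p Γ) {N : ℕ}
    (hN : S.D N = ⊥) (hK : K' ≤ K) {ι : Type} [Fintype ι]
    {b : ι → MonoidAlgebra (ZMod p) Γ} {β : ι → ℕ} (h : FreeOver (S.E K') (S.E K) b β) :
    wK t S K = (∑ i, t ^ (β i)) * wK t S K' := by
  have e1 : ∀ n, cod (S.E ⊤) (S.E K 0) n = ∑ i, cod (S.E ⊤) (S.E K' 0) (n - β i) := by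
    intro n
    rw [cod_E hG hN, finrank_freeOver h E_anti, finrank_freeOver h E_anti]
    push_cast
    rw [← Finset.sum_sub_distrib]
    refine Finset.sum_congr rfl (fun i _ => ?_)
    rw [cod_E hG hN, Nat.zero_sub]
  unfold wK w
  simp only [e1, Finset.sum_mul]
  rw [Summable.tsum_finsetSum, Finset.mul_sum]
  · refine Finset.sum_congr rfl (fun i _ => ?_)
    rw [tsum_shift ht0 ht1 (f := fun n => cod (S.E ⊤) (S.E K' 0) n)
      (B := finrank (ZMod p) (MonoidAlgebra (ZMod p) Γ)) _ (fun n => cod_nonneg _ _ _)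
      (fun n => cod_le _ _ _)]
    · ring
    · rw [cod_E hG hN]
      ring
  · intro i _
    exact summable_bdd (B := finrank (ZMod p) (MonoidAlgebra (ZMod p) Γ))
      (fun n => cod_nonneg _ _ _) (fun n => cod_le _ _ _) ht0 ht1

lemma wK_nonneg {t : ℝ} (ht0 : 0 < t) (ht1 : t < 1) : 0 ≤ wK t S K := w_nonneg _ ht0 ht1 _

lemma wK_mono {t : ℝ} (ht0 : 0 < t) (ht1 : t < 1) (h : K' ≤ K) : wK t S K' ≤ wK t S K :=
  w_mono _ ht0 ht1 (E_mono h 0)

omit [Fact p.Prime] [Finite Γ] in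
lemma E_bot_succ (n : ℕ) : S.E ⊥ (n + 1) = ⊥ := by
  rw [eq_bot_iff]
  apply Submodule.span_le.mpr
  rintro z ⟨l, hl, hn, rfl⟩
  cases l with
  | nil => simp at hn
  | cons a l =>
    have h1 : a.1 = 1 := by
      have := (hl a List.mem_cons_self).1
      rwa [Subgroup.mem_bot] at this
    simp [h1]

lemma wK_bot {t : ℝ} (ht0 : 0 < t) (ht1 : t < 1) (hG : IsPGroup p Γ) {N : ℕ}
    (hN : S.D N = ⊥) : wK t S ⊥ = 1 := by
  unfold wK w
  have e1 : ∀ n, cod (S.E ⊤) (S.E ⊥ 0) (n + 1) = 1 := by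
    intro n
    rw [cod_E hG hN, E_bot_succ, finrank_E_zero]
    simp
  simp only [e1, one_mul]
  rw [tsum_geometric_of_lt_one ht0.le ht1]
  have : 1 - t ≠ 0 := by linarith
  field_simp

lemma one_le_wK {t : ℝ} (ht0 : 0 < t) (ht1 : t < 1) (hG : IsPGroup p Γ) {N : ℕ}
    (hN : S.D N = ⊥) : 1 ≤ wK t S K := by
  rw [← wK_bot (S := S) ht0 ht1 hG hN]
  exact wK_mono ht0 ht1 bot_le

lemma E_bot_of_large (hG : IsPGroup p Γ) {N : ℕ} (hN : S.D N = ⊥) : ∃ M, S.E (⊤ : Subgroup Γ) M = ⊥ := by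
  obtain ⟨d⟩ := exists_freeData hG S hN (bot_le : (⊥ : Subgroup Γ) ≤ ⊤)
  refine ⟨(∑ i, d.β i) + 1, ?_⟩
  rw [eq_bot_iff]
  intro x hx
  obtain ⟨c, hc, rfl⟩ := d.free.surj _ x hx
  have : ∀ i, c i = 0 := by
    intro i
    have h1 : d.β i ≤ ∑ i, d.β i := Finset.single_le_sum (f := d.β) (fun _ _ => Nat.zero_le _)
      (Finset.mem_univ i)
    have h2 := E_anti (by omega : 0 + 1 ≤ (∑ i, d.β i) + 1 - d.β i) (hc i)
    rw [E_bot_succ] at h2
    simpa using h2
  simp [this]

/-- subgroups: upper bound of the quotient -/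
theorem wK_quotient_le {t : ℝ} (ht0 : 0 < t) (ht1 : t < 1) (hG : IsPGroup p Γ) {N : ℕ}
    (hN : S.D N = ⊥) {Γ₁ : Type*} [Group Γ₁] [Finite Γ₁] {S₁ : NSeries p Γ₁} (f : Γ →* Γ₁)
    (hf : Function.Surjective f) (hfD : ∀ n x, x ∈ S.D n → f x ∈ S₁.D n)
    (hker : ∀ x ∈ K', f x = 1) : wK t S K' * wK t S₁ ⊤ ≤ wK t S ⊤ := by
  obtain ⟨d⟩ := exists_freeData hG S hN (le_top : K' ≤ ⊤)
  rw [wK_eq_mul ht0 ht1 hG hN le_top d.free, mul_comm]
  apply mul_le_mul_of_nonneg_right _ (wK_nonneg ht0 ht1)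
  -- the algebra map
  let F : MonoidAlgebra (ZMod p) Γ →ₐ[ZMod p] MonoidAlgebra (ZMod p) Γ₁ :=
    MonoidAlgebra.mapDomainAlgHom (ZMod p) (ZMod p) f
  have hF : ∀ g, F (gr p g) = gr p (f g) := by
    intro g
    simp [F, gr_apply]
  have hFE : ∀ n x, x ∈ S.E ⊤ n → F x ∈ S₁.E ⊤ n := by
    intro n x hx
    unfold E at hx
    induction hx using Submodule.span_induction with
    | mem x hx =>
      obtain ⟨l, hl, hn, rfl⟩ := hx
      rw [map_list_prod, List.map_map]
      have : (⇑F ∘ fun a : Γ × ℕ => gr p a.1 - 1) =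
          ((fun a : Γ₁ × ℕ => gr p a.1 - 1) ∘ fun a : Γ × ℕ => (f a.1, a.2)) := by
        funext a
        simp [hF]
      rw [this, ← List.map_map]
      apply prod_mem_E
      · intro a ha
        obtain ⟨b, hb, rfl⟩ := List.mem_map.mp ha
        exact ⟨trivial, hfD _ _ (hl b hb).2⟩
      · rw [List.map_map]
        exact hn
    | zero => rw [map_zero]; exact zero_mem _
    | add x y _ _ hx hy => rw [map_add]; exact add_mem hx hy
    | smul a x _ hx => rw [map_smul]; exact Submodule.smul_mem _ _ hx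
  have hFsurj : Function.Surjective F := by
    intro y
    have : y ∈ Submodule.span (ZMod p) (Set.range (gr p : Γ₁ → MonoidAlgebra (ZMod p) Γ₁)) := by
      rw [span_gr]; trivial
    induction this using Submodule.span_induction with
    | mem y hy =>
      obtain ⟨g, rfl⟩ := hy
      obtain ⟨g', rfl⟩ := hf g
      exact ⟨gr p g', hF g'⟩
    | zero => exact ⟨0, map_zero _⟩
    | add x y _ _ hx hy =>
      obtain ⟨a, rfl⟩ := hx
      obtain ⟨b, rfl⟩ := hy
      exact ⟨a + b, map_add _ _ _⟩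
    | smul a x _ hx =>
      obtain ⟨b, rfl⟩ := hx
      exact ⟨a • b, map_smul _ _ _⟩
  -- scalars
  have hscal : ∀ c ∈ S.E K' 0, ∃ a : ZMod p, F c = algebraMap _ _ a := by
    intro c hc
    rw [E_zero_eq] at hc
    induction hc using Submodule.span_induction with
    | mem x hx =>
      obtain ⟨g, hg, rfl⟩ := hx
      refine ⟨1, ?_⟩
      rw [hF, hker g hg, map_one, map_one]
    | zero => exact ⟨0, by simp⟩
    | add x y _ _ hx hy =>
      obtain ⟨a, ha⟩ := hx
      obtain ⟨b, hb⟩ := hy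
      exact ⟨a + b, by rw [map_add, ha, hb, map_add]⟩
    | smul r x _ hx =>
      obtain ⟨a, ha⟩ := hx
      exact ⟨r * a, by rw [map_smul, ha, map_mul, Algebra.smul_def]⟩
  have h1 := w_le_of_le_sup_span (S₁.E ⊤) E_anti ht0 ht1 (S := S₁.E ⊤ 0) (T := ⊥)
    (fun i => F (d.b i)) d.β (by
      intro i
      rw [bot_sup_eq]
      apply hFE
      have := d.free.maps (d.β i) i 1 (by simpa using one_mem_E)
      simpa using this) (by
      intro y _
      rw [bot_sup_eq]
      obtain ⟨x, rfl⟩ := hFsurj y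
      obtain ⟨c, hc, rfl⟩ := d.free.surj 0 x (by rw [E_top_zero]; trivial)
      rw [map_sum]
      apply Submodule.sum_mem
      intro i _
      obtain ⟨a, ha⟩ := hscal (c i) (by simpa using hc i)
      rw [map_mul, ha, ← Algebra.smul_def]
      exact Submodule.smul_mem _ _ (Submodule.subset_span ⟨i, rfl⟩))
  rw [w_bot, zero_add] at h1
  exact h1

end

end GolodShaf
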